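import Pool.Agent.R476.OR.Stm
import Pool.Agent.H212R2.KLS.T1

/-!
# Fourth moments of linear functionals under a log-concave weight

Copy of the parts of the starting files `Y506.RG.Wt`, `Y506.PV.Stm`, `Y625.PV.LevUm` and `Y252.PV.M4` that
are used here, with fewer imports (the original files import the whole project `Y506.KS`).
-/

set_option autoImplicit false

namespace Pool.Agent.T2h31.OB.M4L

open MeasureTheory Set Filter Topology
open scoped ENNReal InnerProductSpace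
open Pool.Agent.W695.KH (Eu)
open Pool.Agent.Y506.RG (EW VW)

variable {n : ℕ}

/-- admissible weights -/
structure Adm (w : Eu (Fin n) → ℝ) : Prop where
  nonneg : ∀ x, 0 ≤ w x
  int : Integrable fun x => (1 + ‖x‖ ^ 2) * w x
  pos : 0 < ∫ x, w x
  meas : Measurable w

theorem Adm.of_bd {w : Eu (Fin n) → ℝ} (h : Adm w) (v : Eu (Fin n) → ℝ) (hv : Measurable v)
    (B : ℝ) (hb : ∀ x, |v x| ≤ B * (1 + ‖x‖ ^ 2)) : Integrable fun x => v x * w x := by
  refine Integrable.mono' (h.int.const_mul B) (hv.mul h.meas).aestronglyMeasurable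
    (Eventually.of_forall fun x => ?_)
  rw [Real.norm_eq_abs, abs_mul, abs_of_nonneg (h.nonneg x)]
  calc |v x| * w x ≤ B * (1 + ‖x‖ ^ 2) * w x := mul_le_mul_of_nonneg_right (hb x) (h.nonneg x)
    _ = _ := by ring

theorem Adm.bdd {w : Eu (Fin n) → ℝ} (h : Adm w) (v : Eu (Fin n) → ℝ) (hv : Measurable v)
    (B : ℝ) (hb : ∀ x, |v x| ≤ B) : Integrable fun x => v x * w x := by
  refine h.of_bd v hv B fun x => (hb x).trans ?_
  have hB : 0 ≤ B := (abs_nonneg _).trans (hb x)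
  nlinarith [sq_nonneg ‖x‖]

theorem Adm.one {w : Eu (Fin n) → ℝ} (h : Adm w) : Integrable w := by
  have := h.bdd (fun _ => 1) measurable_const 1 (fun x => by simp)
  simpa using this

theorem EW_nonneg {w : Eu (Fin n) → ℝ} (h : Adm w) (v : Eu (Fin n) → ℝ) (hv : ∀ x, 0 ≤ v x) :
    0 ≤ EW w v :=
  div_nonneg (integral_nonneg fun x => mul_nonneg (hv x) (h.nonneg x)) h.pos.le

theorem EW_mono {w : Eu (Fin n) → ℝ} (h : Adm w) (u v : Eu (Fin n) → ℝ)
    (hu : Integrable fun x => u x * w x) (hv : Integrable fun x => v x * w x)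
    (huv : ∀ x, u x ≤ v x) : EW w u ≤ EW w v := by
  unfold EW
  refine div_le_div_of_nonneg_right ?_ h.pos.le
  exact integral_mono hu hv fun x => mul_le_mul_of_nonneg_right (huv x) (h.nonneg x)

theorem EW_const_mul (w v : Eu (Fin n) → ℝ) (c : ℝ) : EW w (fun x => c * v x) = c * EW w v := by
  unfold EW
  have h1 : ∀ x, c * v x * w x = c * (v x * w x) := fun x => by ring
  simp only [h1]
  rw [integral_const_mul, mul_div_assoc]

theorem EW_add {w : Eu (Fin n) → ℝ} (u v : Eu (Fin n) → ℝ)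
    (hu : Integrable fun x => u x * w x) (hv : Integrable fun x => v x * w x) :
    EW w (fun x => u x + v x) = EW w u + EW w v := by
  unfold EW
  have h1 : ∀ x, (u x + v x) * w x = u x * w x + v x * w x := fun x => by ring
  simp only [h1]
  rw [integral_add hu hv, add_div]

theorem EW_const {w : Eu (Fin n) → ℝ} (h : Adm w) (c : ℝ) : EW w (fun _ => c) = c := by
  unfold EW
  rw [integral_const_mul, mul_div_assoc, div_self h.pos.ne', mul_one]

/-- second moment about a point -/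
theorem VW_shift {w : Eu (Fin n) → ℝ} (h : Adm w) (v : Eu (Fin n) → ℝ)
    (h1 : Integrable fun x => v x * w x) (h2 : Integrable fun x => v x ^ 2 * w x) (a : ℝ) :
    EW w (fun x => (v x - a) ^ 2) = VW w v + (EW w v - a) ^ 2 := by
  have e1 : (fun x => (v x - a) ^ 2) = fun x => v x ^ 2 + (-(2 * a) * v x + a ^ 2) := by
    funext x
    ring
  have i1 : Integrable fun x => -(2 * a) * v x * w x := by
    have := h1.const_mul (-(2 * a))
    refine this.congr (Eventually.of_forall fun x => ?_)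
    simp only
    ring
  have i2 : Integrable fun x => a ^ 2 * w x := h.one.const_mul _
  have i3 : Integrable fun x => (-(2 * a) * v x + a ^ 2) * w x := by
    refine (i1.add i2).congr (Eventually.of_forall fun x => ?_)
    simp only [Pi.add_apply]
    ring
  rw [e1, EW_add _ _ h2 i3, EW_add _ _ i1 i2, EW_const_mul, EW_const h]
  unfold VW
  ring

/-- log-concave weights -/
def LCn {n : ℕ} (w : Eu (Fin n) → ℝ) : Prop := ∀ x y, ∀ t : ℝ, 0 < t → t < 1 →
  w x ^ (1 - t) * w y ^ t ≤ w ((1 - t) • x + t • y)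

/-- `φ` is concave on the support of `w` -/
def ConcS {n : ℕ} (w φ : Eu (Fin n) → ℝ) : Prop := ∀ x y, ∀ t : ℝ, 0 < t → t < 1 → 0 < w x →
  0 < w y → (1 - t) * φ x + t * φ y ≤ φ ((1 - t) • x + t • y)

def S_LEV : Prop := ∀ (n : ℕ) (w φ : Eu (Fin n) → ℝ), Adm w → LCn w → Measurable φ → ConcS w φ →
  ∀ α β t : ℝ, 0 < t → t < 1 →
  (∫ x in {x | α ≤ φ x}, w x) ^ (1 - t) * (∫ x in {x | β ≤ φ x}, w x) ^ t ≤
    ∫ x in {x | (1 - t) * α + t * β ≤ φ x}, w x

/-- fourth moments of linear functionals -/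
def S_M4 : Prop := ∃ C : ℝ, 1 ≤ C ∧ ∀ (n : ℕ) (w : Eu (Fin n) → ℝ), Adm w → LCn w →
  ∀ θ : Eu (Fin n), Integrable (fun x => (⟪x, θ⟫_ℝ - EW w fun x => ⟪x, θ⟫_ℝ) ^ 4 * w x) ∧
  EW w (fun x => (⟪x, θ⟫_ℝ - EW w fun x => ⟪x, θ⟫_ℝ) ^ 4) ≤ C * (VW w fun x => ⟪x, θ⟫_ℝ) ^ 2

theorem mass_lint {n : ℕ} {w φ : Eu (Fin n) → ℝ} (hw : Adm w) (hφ : Measurable φ) (α : ℝ) :
    ∫ x in {x | α ≤ φ x}, w x =
      (∫⁻ x, {x | α ≤ φ x}.indicator (fun x => ENNReal.ofReal (w x)) x).toReal := by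
  have hm : MeasurableSet {x | α ≤ φ x} := measurableSet_le measurable_const hφ
  rw [lintegral_indicator hm, integral_eq_lintegral_of_nonneg_ae
    (Eventually.of_forall hw.nonneg) hw.one.aestronglyMeasurable.restrict]

theorem mass_fin {n : ℕ} {w φ : Eu (Fin n) → ℝ} (hw : Adm w) (α : ℝ) :
    ∫⁻ x, {x | α ≤ φ x}.indicator (fun x => ENNReal.ofReal (w x)) x ≠ ∞ := by
  have h1 : ∫⁻ x, {x | α ≤ φ x}.indicator (fun x => ENNReal.ofReal (w x)) x ≤
      ∫⁻ x, ENNReal.ofReal (w x) := lintegral_mono fun x => Set.indicator_le_self _ _ x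
  have h2 : ∫⁻ x, ENNReal.ofReal (w x) < ∞ := hw.one.lintegral_lt_top
  exact (lt_of_le_of_lt h1 h2).ne

/-- LEV -/
theorem lev : S_LEV := by
  intro n w φ hw hlc hφ hc α β t ht0 ht1
  have t1 : 0 < 1 - t := by linarith
  have hm : ∀ a : ℝ, Measurable ({x | a ≤ φ x}.indicator (fun x => ENNReal.ofReal (w x))) :=
    fun a => (ENNReal.measurable_ofReal.comp hw.meas).indicator
      (measurableSet_le measurable_const hφ)
  have key := Pool.Agent.H212R2.KLS.PL (volume : Measure (Eu (Fin n))) t ht0 ht1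
    ({x | α ≤ φ x}.indicator (fun x => ENNReal.ofReal (w x)))
    ({x | β ≤ φ x}.indicator (fun x => ENNReal.ofReal (w x)))
    ({x | (1 - t) * α + t * β ≤ φ x}.indicator (fun x => ENNReal.ofReal (w x)))
    (hm α) (hm β) (hm _) (by
      intro x y
      by_cases hx : x ∈ {x | α ≤ φ x}
      · by_cases hy : y ∈ {x | β ≤ φ x}
        · rw [Set.indicator_of_mem hx, Set.indicator_of_mem hy]
          rcases (hw.nonneg x).eq_or_lt with h0 | hx0
          · rw [← h0, ENNReal.ofReal_zero, ENNReal.zero_rpow_of_pos t1, zero_mul]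
            exact bot_le
          rcases (hw.nonneg y).eq_or_lt with h0 | hy0
          · rw [← h0, ENNReal.ofReal_zero, ENNReal.zero_rpow_of_pos ht0, mul_zero]
            exact bot_le
          have hz : (1 - t) • x + t • y ∈ {x | (1 - t) * α + t * β ≤ φ x} := by
            have h1 := hc x y t ht0 ht1 hx0 hy0
            have h2 : (1 - t) * α ≤ (1 - t) * φ x := mul_le_mul_of_nonneg_left hx t1.le
            have h3 : t * β ≤ t * φ y := mul_le_mul_of_nonneg_left hy ht0.le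
            change (1 - t) * α + t * β ≤ φ _
            linarith
          rw [Set.indicator_of_mem hz, ENNReal.ofReal_rpow_of_pos hx0,
            ENNReal.ofReal_rpow_of_pos hy0, ← ENNReal.ofReal_mul (by positivity)]
          exact ENNReal.ofReal_le_ofReal (hlc x y t ht0 ht1)
        · rw [Set.indicator_of_notMem hy, ENNReal.zero_rpow_of_pos ht0, mul_zero]
          exact bot_le
      · rw [Set.indicator_of_notMem hx, ENNReal.zero_rpow_of_pos t1, zero_mul]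
        exact bot_le)
  rw [mass_lint hw hφ α, mass_lint hw hφ β, mass_lint hw hφ, ENNReal.toReal_rpow,
    ENNReal.toReal_rpow, ← ENNReal.toReal_mul]
  exact ENNReal.toReal_mono (mass_fin hw _) key

/-- a pointwise bound -/
lemma pt (σ u : ℝ) (hσ : 0 < σ) (hu : 2 * σ ≤ |u|) : ∃ k : ℕ,
    2 * σ + 4 * σ * k ≤ |u| ∧ u ^ 4 ≤ 1296 * ((k : ℝ) + 1) ^ 4 * σ ^ 4 := by
  have h0 : 0 ≤ (|u| - 2 * σ) / (4 * σ) := div_nonneg (by linarith) (by linarith)
  refine ⟨⌊(|u| - 2 * σ) / (4 * σ)⌋₊, ?_, ?_⟩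
  · have h1 := Nat.floor_le h0
    rw [le_div_iff₀ (by linarith)] at h1
    linarith
  · have h1 := Nat.lt_floor_add_one ((|u| - 2 * σ) / (4 * σ))
    rw [div_lt_iff₀ (by linarith)] at h1
    set k : ℝ := (⌊(|u| - 2 * σ) / (4 * σ)⌋₊ : ℝ)
    have hk : 0 ≤ k := Nat.cast_nonneg _
    have h2 : |u| ≤ 6 * (k + 1) * σ := by nlinarith
    have h3 : |u| ^ 4 ≤ (6 * (k + 1) * σ) ^ 4 := pow_le_pow_left₀ (abs_nonneg _) h2 4
    have h4 : |u| ^ 4 = u ^ 4 := by
      rw [show (4:ℕ) = 2 * 2 by norm_num, pow_mul, sq_abs, pow_mul]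
    rw [h4] at h3
    calc u ^ 4 ≤ (6 * (k + 1) * σ) ^ 4 := h3
      _ = _ := by ring


lemma meas_in (θ : Eu (Fin n)) : Measurable fun x : Eu (Fin n) => ⟪x, θ⟫_ℝ := by
  fun_prop

lemma int_l {w : Eu (Fin n) → ℝ} (hw : Adm w) (θ : Eu (Fin n)) :
    Integrable fun x => ⟪x, θ⟫_ℝ * w x := by
  refine hw.of_bd _ (meas_in θ) ‖θ‖ fun x => ?_
  refine (abs_real_inner_le_norm x θ).trans ?_
  nlinarith [norm_nonneg x, norm_nonneg θ, sq_nonneg (‖x‖ - 1), mul_nonneg (norm_nonneg θ)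
    (sq_nonneg (‖x‖ - 1)), mul_nonneg (norm_nonneg θ) (norm_nonneg x),
    mul_nonneg (norm_nonneg θ) (sq_nonneg ‖x‖)]

lemma int_l2 {w : Eu (Fin n) → ℝ} (hw : Adm w) (θ : Eu (Fin n)) :
    Integrable fun x => ⟪x, θ⟫_ℝ ^ 2 * w x := by
  refine hw.of_bd _ ((meas_in θ).pow_const 2) (‖θ‖ ^ 2) fun x => ?_
  rw [abs_pow]
  have h := abs_real_inner_le_norm x θ
  have h2 : |⟪x, θ⟫_ℝ| ^ 2 ≤ (‖x‖ * ‖θ‖) ^ 2 := pow_le_pow_left₀ (abs_nonneg _) h 2
  refine h2.trans ?_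
  nlinarith [sq_nonneg ‖θ‖]

lemma int_q {w : Eu (Fin n) → ℝ} (hw : Adm w) (θ : Eu (Fin n)) (a : ℝ) :
    Integrable fun x => (⟪x, θ⟫_ℝ - a) ^ 2 * w x := by
  have h1 := ((int_l2 hw θ).add ((int_l hw θ).const_mul (-(2 * a)))).add (hw.one.const_mul (a ^ 2))
  refine h1.congr (Eventually.of_forall fun x => ?_)
  simp only [Pi.add_apply]
  ring

/-- Chebyshev's inequality -/
lemma cheb {w : Eu (Fin n) → ℝ} (hw : Adm w) (θ : Eu (Fin n)) (a σ : ℝ) (hσ : 0 < σ)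
    (hc : ∫ x, (⟪x, θ⟫_ℝ - a) ^ 2 * w x ≤ σ ^ 2 * ∫ x, w x) (S : Set (Eu (Fin n)))
    (hS : MeasurableSet S) (hSl : ∀ x ∈ S, (2 * σ) ^ 2 ≤ (⟪x, θ⟫_ℝ - a) ^ 2) :
    ∫ x in S, w x ≤ (∫ x, w x) / 4 := by
  have h1 : ∫ x in S, (2 * σ) ^ 2 * w x ≤ ∫ x in S, (⟪x, θ⟫_ℝ - a) ^ 2 * w x := by
    refine setIntegral_mono_on (hw.one.const_mul _).integrableOn (int_q hw θ a).integrableOn hS ?_
    intro x hx
    exact mul_le_mul_of_nonneg_right (hSl x hx) (hw.nonneg x)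
  have h2 : ∫ x in S, (⟪x, θ⟫_ℝ - a) ^ 2 * w x ≤ ∫ x, (⟪x, θ⟫_ℝ - a) ^ 2 * w x :=
    setIntegral_le_integral (int_q hw θ a) (Eventually.of_forall fun x =>
      mul_nonneg (sq_nonneg _) (hw.nonneg x))
  rw [integral_const_mul] at h1
  have h3 : (2 * σ) ^ 2 * ∫ x in S, w x ≤ σ ^ 2 * ∫ x, w x := h1.trans (h2.trans hc)
  have h4 : 0 < σ ^ 2 := by positivity
  nlinarith

/-- tails -/
lemma tail (h : S_LEV) {w : Eu (Fin n) → ℝ} (hw : Adm w) (hlc : LCn w) (θ : Eu (Fin n))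
    (a σ : ℝ) (hσ : 0 < σ)
    (hc : ∫ x, (⟪x, θ⟫_ℝ - a) ^ 2 * w x ≤ σ ^ 2 * ∫ x, w x) (k : ℕ) :
    ∫ x in {x | a + (2 * σ + 4 * σ * k) ≤ ⟪x, θ⟫_ℝ}, w x ≤ (1 / 3) ^ k * ∫ x, w x := by
  have hW := hw.pos
  have hm := meas_in (n := n) θ
  -- the upper tail
  have hup : ∫ x in {x | a + 2 * σ ≤ ⟪x, θ⟫_ℝ}, w x ≤ (∫ x, w x) / 4 := by
    refine cheb hw θ a σ hσ hc _ (measurableSet_le measurable_const hm) ?_
    intro x hx
    have hx' : a + 2 * σ ≤ ⟪x, θ⟫_ℝ := hx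
    exact pow_le_pow_left₀ (by linarith) (by linarith) 2
  -- the lower tail
  have hlo : ∫ x in {x | ⟪x, θ⟫_ℝ < a - 2 * σ}, w x ≤ (∫ x, w x) / 4 := by
    refine cheb hw θ a σ hσ hc _ (measurableSet_lt hm measurable_const) ?_
    intro x hx
    have hx' : ⟪x, θ⟫_ℝ < a - 2 * σ := hx
    have : (2 * σ) ^ 2 ≤ (a - ⟪x, θ⟫_ℝ) ^ 2 := pow_le_pow_left₀ (by linarith) (by linarith) 2
    calc (2 * σ) ^ 2 ≤ (a - ⟪x, θ⟫_ℝ) ^ 2 := this
      _ = _ := by ring
  have hlo2 : 3 / 4 * ∫ x, w x ≤ ∫ x in {x | a - 2 * σ ≤ ⟪x, θ⟫_ℝ}, w x := by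
    have hs : MeasurableSet {x : Eu (Fin n) | a - 2 * σ ≤ ⟪x, θ⟫_ℝ} :=
      measurableSet_le measurable_const hm
    have h1 := integral_add_compl hs hw.one
    have h2 : {x : Eu (Fin n) | a - 2 * σ ≤ ⟪x, θ⟫_ℝ}ᶜ = {x | ⟪x, θ⟫_ℝ < a - 2 * σ} := by
      ext x
      simp only [mem_compl_iff, mem_ofPred_eq, not_le]
    rw [h2] at h1
    linarith
  rcases Nat.eq_zero_or_pos k with hk | hk
  · subst hk
    have : {x : Eu (Fin n) | a + (2 * σ + 4 * σ * ((0 : ℕ) : ℝ)) ≤ ⟪x, θ⟫_ℝ} =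
        {x | a + 2 * σ ≤ ⟪x, θ⟫_ℝ} := by
      ext x
      simp
    rw [this]
    simp only [pow_zero, one_mul]
    linarith
  set J := ∫ x in {x | a + (2 * σ + 4 * σ * k) ≤ ⟪x, θ⟫_ℝ}, w x with hJ
  have hJ0 : 0 ≤ J := integral_nonneg_of_ae (Eventually.of_forall fun x => hw.nonneg x)
  set W := ∫ x, w x with hWd
  set A := ∫ x in {x | a - 2 * σ ≤ ⟪x, θ⟫_ℝ}, w x with hA
  have hkr : (0 : ℝ) < k := by exact_mod_cast hk
  have hconc : ConcS w (fun x => ⟪x, θ⟫_ℝ) := by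
    intro x y t _ _ _ _
    show (1 - t) * ⟪x, θ⟫_ℝ + t * ⟪y, θ⟫_ℝ ≤ ⟪(1 - t) • x + t • y, θ⟫_ℝ
    rw [inner_add_left, real_inner_smul_left, real_inner_smul_left]
  set t : ℝ := 1 / ((k : ℝ) + 1) with ht
  have ht0 : 0 < t := by positivity
  have ht1 : t < 1 := by
    rw [ht, div_lt_one (by positivity)]
    linarith
  have hl := h n w (fun x => ⟪x, θ⟫_ℝ) hw hlc hm hconc (a - 2 * σ) (a + (2 * σ + 4 * σ * k)) t
    ht0 ht1
  have hmid : (1 - t) * (a - 2 * σ) + t * (a + (2 * σ + 4 * σ * k)) = a + 2 * σ := by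
    rw [ht]
    field_simp
    ring
  rw [hmid, ← hJ, ← hA] at hl
  have hl2 := hl.trans hup
  have hA0 : 0 ≤ A := by linarith
  -- raise to the power k + 1
  have hpow : (A ^ (1 - t) * J ^ t) ^ (k + 1) = A ^ k * J := by
    rw [mul_pow, ← Real.rpow_natCast (A ^ (1 - t)), ← Real.rpow_natCast (J ^ t),
      ← Real.rpow_mul hA0, ← Real.rpow_mul hJ0]
    have e1 : (1 - t) * ((k + 1 : ℕ) : ℝ) = (k : ℝ) := by
      rw [ht]
      push_cast
      field_simp
      ring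
    have e2 : t * ((k + 1 : ℕ) : ℝ) = 1 := by
      rw [ht]
      push_cast
      field_simp
    rw [e1, e2, Real.rpow_one, Real.rpow_natCast]
  have h5 : A ^ k * J ≤ (W / 4) ^ (k + 1) := by
    rw [← hpow]
    exact pow_le_pow_left₀ (mul_nonneg (Real.rpow_nonneg hA0 _) (Real.rpow_nonneg hJ0 _)) hl2 _
  have h6 : (3 / 4 * W) ^ k * J ≤ (W / 4) ^ (k + 1) :=
    (mul_le_mul_of_nonneg_right (pow_le_pow_left₀ (by positivity) hlo2 k) hJ0).trans h5
  have h7 : (3 / 4 * W) ^ k * J ≤ (3 / 4 * W) ^ k * ((1 / 3) ^ k * (W / 4)) := by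
    refine h6.trans (le_of_eq ?_)
    rw [← mul_assoc, ← mul_pow, pow_succ]
    congr 2
    ring
  have h8 : 0 < (3 / 4 * W) ^ k := by positivity
  have h9 := le_of_mul_le_mul_left h7 h8
  refine h9.trans ?_
  refine mul_le_mul_of_nonneg_left ?_ (by positivity)
  linarith

/-- the numbers -/
noncomputable def cf (k : ℕ) : ℝ := 1296 * ((k : ℝ) + 1) ^ 4 * (1 / 3) ^ k

lemma cf_nonneg (k : ℕ) : 0 ≤ cf k := by
  unfold cf
  positivity

lemma cf_sum : Summable cf := by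
  have h1 : Summable (fun k : ℕ => (k : ℝ) ^ 4 * (1 / 3 : ℝ) ^ k) :=
    summable_pow_mul_geometric_of_norm_lt_one 4 (by norm_num)
  have h2 := ((summable_nat_add_iff 1).2 h1).mul_left (1296 * 3)
  refine h2.congr fun k => ?_
  unfold cf
  push_cast
  rw [pow_succ (1 / 3 : ℝ) k]
  ring

/-- the main estimate -/
lemma four (h : S_LEV) {w : Eu (Fin n) → ℝ} (hw : Adm w) (hlc : LCn w) (θ : Eu (Fin n))
    (a σ : ℝ) (hσ : 0 < σ)
    (hc : ∫ x, (⟪x, θ⟫_ℝ - a) ^ 2 * w x ≤ σ ^ 2 * ∫ x, w x) :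
    ∫⁻ x, ENNReal.ofReal ((⟪x, θ⟫_ℝ - a) ^ 4 * w x) ≤
      ENNReal.ofReal ((16 + 2 * ∑' k, cf k) * σ ^ 4 * ∫ x, w x) := by
  have hW := hw.pos
  have hm := meas_in (n := n) θ
  set W := ∫ x, w x with hWd
  set A : ℕ → Set (Eu (Fin n)) := fun k => {x | a + (2 * σ + 4 * σ * k) ≤ ⟪x, θ⟫_ℝ} with hA
  set B : ℕ → Set (Eu (Fin n)) := fun k => {x | -a + (2 * σ + 4 * σ * k) ≤ ⟪x, -θ⟫_ℝ} with hB
  have hAm : ∀ k, MeasurableSet (A k) := fun k => measurableSet_le measurable_const hm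
  have hBm : ∀ k, MeasurableSet (B k) := fun k => measurableSet_le measurable_const (meas_in _)
  have tA : ∀ k, ∫ x in A k, w x ≤ (1 / 3) ^ k * W := fun k => tail h hw hlc θ a σ hσ hc k
  have hc' : ∫ x, (⟪x, -θ⟫_ℝ - -a) ^ 2 * w x ≤ σ ^ 2 * ∫ x, w x := by
    have : ∀ x, (⟪x, -θ⟫_ℝ - -a) ^ 2 * w x = (⟪x, θ⟫_ℝ - a) ^ 2 * w x := by
      intro x
      rw [inner_neg_right]
      ring
    simp only [this]
    exact hc
  have tB : ∀ k, ∫ x in B k, w x ≤ (1 / 3) ^ k * W := fun k =>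
    tail h hw hlc (-θ) (-a) σ hσ hc' k
  have wm : Measurable fun x => ENNReal.ofReal (w x) := hw.meas.ennreal_ofReal
  -- the pointwise bound
  have hpt : ∀ x, ENNReal.ofReal ((⟪x, θ⟫_ℝ - a) ^ 4 * w x) ≤
      ENNReal.ofReal (16 * σ ^ 4) * ENNReal.ofReal (w x) +
      ∑' k : ℕ, ENNReal.ofReal (1296 * ((k : ℝ) + 1) ^ 4 * σ ^ 4) *
        ((A k).indicator (fun x => ENNReal.ofReal (w x)) x +
        (B k).indicator (fun x => ENNReal.ofReal (w x)) x) := by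
    intro x
    rw [ENNReal.ofReal_mul (by positivity)]
    rcases lt_or_ge |⟪x, θ⟫_ℝ - a| (2 * σ) with hx | hx
    · refine le_trans ?_ le_self_add
      gcongr
      have h1 : |⟪x, θ⟫_ℝ - a| ^ 4 ≤ (2 * σ) ^ 4 := pow_le_pow_left₀ (abs_nonneg _) hx.le 4
      have h4 : |⟪x, θ⟫_ℝ - a| ^ 4 = (⟪x, θ⟫_ℝ - a) ^ 4 := by
        rw [show (4:ℕ) = 2 * 2 by norm_num, pow_mul, sq_abs, pow_mul]
      rw [h4] at h1
      calc (⟪x, θ⟫_ℝ - a) ^ 4 ≤ (2 * σ) ^ 4 := h1
        _ = _ := by ring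
    · obtain ⟨k, hk1, hk2⟩ := pt σ _ hσ hx
      refine le_trans ?_ le_add_self
      refine le_trans ?_ (ENNReal.le_tsum k)
      refine mul_le_mul' (ENNReal.ofReal_le_ofReal hk2) ?_
      rcases le_or_gt 0 (⟪x, θ⟫_ℝ - a) with hs | hs
      · rw [abs_of_nonneg hs] at hk1
        have hxA : x ∈ A k := by
          show a + (2 * σ + 4 * σ * k) ≤ ⟪x, θ⟫_ℝ
          linarith
        rw [indicator_of_mem hxA]
        exact le_self_add
      · rw [abs_of_neg hs] at hk1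
        have hxB : x ∈ B k := by
          show -a + (2 * σ + 4 * σ * k) ≤ ⟪x, -θ⟫_ℝ
          rw [inner_neg_right]
          linarith
        rw [indicator_of_mem hxB]
        exact le_add_self
  refine (lintegral_mono hpt).trans ?_
  rw [lintegral_add_left (wm.const_mul _), lintegral_const_mul _ wm, lintegral_tsum]
  swap
  · intro k
    exact (((wm.indicator (hAm k)).add (wm.indicator (hBm k))).const_mul _).aemeasurable
  have hwint : ∫⁻ x, ENNReal.ofReal (w x) = ENNReal.ofReal W := by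
    rw [hWd, ofReal_integral_eq_lintegral_ofReal hw.one (Eventually.of_forall hw.nonneg)]
  have hset : ∀ S : Set (Eu (Fin n)), MeasurableSet S →
      ∫⁻ x, S.indicator (fun x => ENNReal.ofReal (w x)) x = ENNReal.ofReal (∫ x in S, w x) := by
    intro S hS
    rw [lintegral_indicator hS, ofReal_integral_eq_lintegral_ofReal hw.one.integrableOn
      (Eventually.of_forall hw.nonneg)]
  have hterm : ∀ k : ℕ, ∫⁻ x, ENNReal.ofReal (1296 * ((k : ℝ) + 1) ^ 4 * σ ^ 4) *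
        ((A k).indicator (fun x => ENNReal.ofReal (w x)) x +
        (B k).indicator (fun x => ENNReal.ofReal (w x)) x) ≤
        ENNReal.ofReal (cf k * (2 * σ ^ 4 * W)) := by
    intro k
    have hadd : Measurable fun x => (A k).indicator (fun x => ENNReal.ofReal (w x)) x +
        (B k).indicator (fun x => ENNReal.ofReal (w x)) x :=
      (wm.indicator (hAm k)).add (wm.indicator (hBm k))
    rw [lintegral_const_mul _ hadd,
      lintegral_add_left (wm.indicator (hAm k)), hset _ (hAm k), hset _ (hBm k)]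
    calc ENNReal.ofReal (1296 * ((k : ℝ) + 1) ^ 4 * σ ^ 4) *
        (ENNReal.ofReal (∫ x in A k, w x) + ENNReal.ofReal (∫ x in B k, w x))
        ≤ ENNReal.ofReal (1296 * ((k : ℝ) + 1) ^ 4 * σ ^ 4) *
          (ENNReal.ofReal ((1 / 3) ^ k * W) + ENNReal.ofReal ((1 / 3) ^ k * W)) := by
          gcongr
          · exact tA k
          · exact tB k
      _ = ENNReal.ofReal (cf k * (2 * σ ^ 4 * W)) := by
          rw [← ENNReal.ofReal_add (by positivity) (by positivity),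
            ← ENNReal.ofReal_mul (by positivity)]
          congr 1
          unfold cf
          ring
  have hsum : ∑' k : ℕ, ENNReal.ofReal (cf k * (2 * σ ^ 4 * W)) =
      ENNReal.ofReal ((∑' k, cf k) * (2 * σ ^ 4 * W)) := by
    rw [← ENNReal.ofReal_tsum_of_nonneg (fun k => mul_nonneg (cf_nonneg k) (by positivity))
      (cf_sum.mul_right _), tsum_mul_right]
  rw [hwint]
  refine (add_le_add_right (ENNReal.tsum_le_tsum hterm) _).trans ?_
  rw [hsum, ← ENNReal.ofReal_mul (by positivity), ← ENNReal.ofReal_add (by positivity)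
    (mul_nonneg (tsum_nonneg cf_nonneg) (by positivity))]
  refine ENNReal.ofReal_le_ofReal (le_of_eq ?_)
  ring

theorem m4 (h : S_LEV) : S_M4 := by
  have hcf : 0 ≤ ∑' k, cf k := tsum_nonneg cf_nonneg
  refine ⟨16 + 2 * ∑' k, cf k, by linarith, fun n w hw hlc θ => ?_⟩
  set C : ℝ := 16 + 2 * ∑' k, cf k with hC
  have hC0 : 0 ≤ C := by linarith
  set a := EW w (fun x => ⟪x, θ⟫_ℝ) with ha
  have hW := hw.pos
  have hm := meas_in (n := n) θ
  have hv := VW_shift hw (fun x => ⟪x, θ⟫_ℝ) (int_l hw θ) (int_l2 hw θ) a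
  rw [← ha, sub_self] at hv
  have hv' : EW w (fun x => (⟪x, θ⟫_ℝ - a) ^ 2) = VW w fun x => ⟪x, θ⟫_ℝ := by
    rw [hv]
    ring
  set V := VW w (fun x => ⟪x, θ⟫_ℝ) with hV
  have hV0 : 0 ≤ V := by
    rw [← hv']
    exact div_nonneg (integral_nonneg fun x => mul_nonneg (sq_nonneg _) (hw.nonneg x)) hW.le
  have hVe : ∫ x, (⟪x, θ⟫_ℝ - a) ^ 2 * w x = V * ∫ x, w x := by
    rw [← hv']
    unfold EW
    field_simp
  have hm4 : AEStronglyMeasurable (fun x => (⟪x, θ⟫_ℝ - a) ^ 4 * w x) := by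
    have : Measurable (fun x => (⟪x, θ⟫_ℝ - a) ^ 4 * w x) :=
      ((hm.sub measurable_const).pow_const 4).mul hw.meas
    exact this.aestronglyMeasurable
  have hnn : ∀ x, 0 ≤ (⟪x, θ⟫_ℝ - a) ^ 4 * w x := fun x => mul_nonneg (by positivity) (hw.nonneg x)
  -- the integral
  have key : ∫⁻ x, ENNReal.ofReal ((⟪x, θ⟫_ℝ - a) ^ 4 * w x) ≤
      ENNReal.ofReal (C * V ^ 2 * ∫ x, w x) := by
    rcases hV0.eq_or_lt with h0 | h0
    · -- variance zero
      have h1 : ∫ x, (⟪x, θ⟫_ℝ - a) ^ 2 * w x = 0 := by rw [hVe, ← h0, zero_mul]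
      have h2 := (integral_eq_zero_iff_of_nonneg (fun x => mul_nonneg (sq_nonneg _)
        (hw.nonneg x)) (int_q hw θ a)).1 h1
      have h3 : (fun x => ENNReal.ofReal ((⟪x, θ⟫_ℝ - a) ^ 4 * w x)) =ᵐ[volume] 0 := by
        filter_upwards [h2] with x hx
        have hx' : (⟪x, θ⟫_ℝ - a) ^ 2 * w x = 0 := hx
        have : (⟪x, θ⟫_ℝ - a) ^ 4 * w x = (⟪x, θ⟫_ℝ - a) ^ 2 * ((⟪x, θ⟫_ℝ - a) ^ 2 * w x) := by ring
        rw [this, hx']
        simp
      rw [lintegral_congr_ae h3]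
      simp
    · have hs : 0 < Real.sqrt V := Real.sqrt_pos.2 h0
      have hs2 : Real.sqrt V ^ 2 = V := Real.sq_sqrt hV0
      have := four h hw hlc θ a (Real.sqrt V) hs (by rw [hs2, hVe])
      have e4 : Real.sqrt V ^ 4 = V ^ 2 := by
        rw [show (4:ℕ) = 2 * 2 by norm_num, pow_mul, hs2]
      rw [e4] at this
      exact this
  have hint : Integrable fun x => (⟪x, θ⟫_ℝ - a) ^ 4 * w x := by
    refine ⟨hm4, ?_⟩
    rw [hasFiniteIntegral_iff_ofReal (Eventually.of_forall hnn)]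
    exact lt_of_le_of_lt key ENNReal.ofReal_lt_top
  refine ⟨hint, ?_⟩
  unfold EW
  rw [div_le_iff₀ hW]
  rw [← ofReal_integral_eq_lintegral_ofReal hint (Eventually.of_forall hnn)] at key
  exact (ENNReal.ofReal_le_ofReal_iff (by positivity)).1 key

theorem m4r : Pool.Agent.R476.OR.S_M4R := by
  obtain ⟨C, hC, H⟩ := m4 lev
  exact ⟨C, hC, fun n w h0 hm hi hp hl => H n w ⟨h0, hi, hp, hm⟩ hl⟩

end Pool.Agent.T2h31.OB.M4L
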