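import Pool.Agent.R476.OR.Stm
import Pool.Agent.R476.OR.Stm2
import Pool.Agent.T2h31.LC.Stm

/-!
# Orlicz balls cut by signed relations (project OB of helper31, hard problem MP_8d00da_gt)

`K = {x ∈ ℝⁿ | ∑ V(x_i) ≤ E} ∩ CN R`, `V` even and convex, `CN R` the cone of the points with
`sv x p ≤ sv x q` for `R p q` (`p`, `q` signed labels). The KLS inequality for all these bodies (for
instance `ℓ_p` balls cut by any relations `x_i ≤ x_j`, `x_i + x_j ≤ 0`, `x_i + x_j ≥ 0`). The proof is the one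
for Orlicz balls (`Pool.Agent.R476.OR`, files A-K) on the cone: (1) even symmetric functions have on the cone `p`
times the integral over the whole space (SY); (2) the flows of the fields `(w(x_i))`, `w` odd, preserve the cone
(FLW, IBW), so the integration by parts of OR holds on the cone; (3) Poincare's inequality on the cone for the
product density is the one of project LC (PCN); (4) the variance of some linear functional is bounded below (RLB).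
Notation: `f = exp (-V)`, `ρ(x) = exp (-∑ V(x_i)) = exp (-SV V x)`, `p = ∫_{CN R} ρ`, `M(G) = (1/p) ∫_{CN R} G ρ`,
`m = mV V = ∫ V f`, `r = rV V = Var V`, `S = SV V`, `σ² = 1 + n r`.
-/

set_option autoImplicit false

namespace Pool.Agent.T2h31.OB

open MeasureTheory Set Filter Topology
open scoped ENNReal InnerProductSpace
open Pool.Agent.W695.KH (Eu EV VV Sm)
open Pool.Agent.Y506.RG (ND EW VW ILK)
open Pool.Agent.Y506.FF (LCon)
open Pool.Agent.R476.OR (CV NV mV rV FD SV KV LVL sgm sgd ind)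
open Pool.Agent.T2h31.SB (Lb sv SK)

section

variable {n : ℕ}

/-- the cone of the relations -/
def CN (R : Lb n → Lb n → Prop) : Set (Eu (Fin n)) :=
  {x | ∀ p q, R p q → sv (fun i => x i) p ≤ sv (fun i => x i) q}

/-- `∑ V(x_i)` -/
noncomputable def S1 (V : ℝ → ℝ) (x : Eu (Fin n)) : ℝ := ∑ i, V (x i)

/-- the body without the relations -/
def K1 (n : ℕ) (V : ℝ → ℝ) (E : ℝ) : Set (Eu (Fin n)) := {x | S1 V x ≤ E}

/-- the body -/
def KC (V : ℝ → ℝ) (E : ℝ) (R : Lb n → Lb n → Prop) : Set (Eu (Fin n)) := K1 n V E ∩ CN R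

/-- the product density -/
noncomputable def rh (V : ℝ → ℝ) (x : Eu (Fin n)) : ℝ := Real.exp (-S1 V x)

/-- mass of the cone -/
noncomputable def ms (V : ℝ → ℝ) (R : Lb n → Lb n → Prop) : ℝ := ∫ x in CN R, rh V x

/-- mean on the cone -/
noncomputable def MC (V : ℝ → ℝ) (R : Lb n → Lb n → Prop) (G : Eu (Fin n) → ℝ) : ℝ :=
  (∫ x in CN R, G x * rh V x) / ms V R

/-- normalised even potential -/
structure NE (V V' : ℝ → ℝ) : Prop where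
  nv : NV V V'
  even : ∀ t, V (-t) = V t

/-- level variable: centred sum -/
noncomputable def Sc (V : ℝ → ℝ) (x : Eu (Fin n)) : ℝ := S1 V x - n * mV V

/-- variance on the cone -/
noncomputable def VC (V : ℝ → ℝ) (R : Lb n → Lb n → Prop) (G : Eu (Fin n) → ℝ) : ℝ :=
  MC V R (fun x => G x ^ 2) - MC V R G ^ 2

/-- covariance of `⟪x, θ⟫` and the sum -/
noncomputable def bC (V : ℝ → ℝ) (R : Lb n → Lb n → Prop) (θ : Eu (Fin n)) : ℝ :=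
  MC V R fun x => ⟪x, θ⟫_ℝ * Sc V x

/-- `1 + n Var V` -/
noncomputable def sC (n : ℕ) (V : ℝ → ℝ) : ℝ := 1 + n * rV V

/-- residual variance of `⟪x, θ⟫` -/
noncomputable def RC (V : ℝ → ℝ) (R : Lb n → Lb n → Prop) (θ : Eu (Fin n)) : ℝ :=
  VC V R (fun x => ⟪x, θ⟫_ℝ) - bC V R θ ^ 2 / sC n V

end

/-! ### A: symmetry, flows, integration by parts -/

/-- SY (150 lines; takes `Pool.Agent.T2h31.SB.S_SYM`, proof `Pool.Agent.T2h31.SB.t_SYM Pool.Agent.R372.OP.SYM.main`):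
even symmetric functions on the cone. `p = |SK R| / 2ⁿ`. By S_SYM (for `x ↦ G (M x)`, the cone is invariant under `x ↦ M x`)
`∫_{CN R ∩ [-M,M]ⁿ} G = p ∫_{[-M,M]ⁿ} G` for continuous `G` (S_SYM for `R` and for the empty relation), `M → ∞` (dominated convergence).
Second part: apply the first to `G_j = φ_j (S1 V x)`, `φ_j(s) = min 1 (max 0 (1 - j (s - E)))`, which decreases to the indicator
of the body and is integrable as it is bounded by the indicator of `K1 n V (E + 1)`. -/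
def S_SY : Prop := ∀ (n : ℕ) (R : Lb n → Lb n → Prop), ∃ p : ℝ, 0 ≤ p ∧
  (∀ G : Eu (Fin n) → ℝ, Continuous G → Integrable G →
    (∀ (σ : Equiv.Perm (Fin n)) (x : Eu (Fin n)), G (WithLp.toLp 2 fun i => x (σ i)) = G x) →
    (∀ (s : Fin n → Bool) (x : Eu (Fin n)),
      G (WithLp.toLp 2 fun i => if s i then x i else -x i) = G x) →
    ∫ x in CN R, G x = p * ∫ x, G x) ∧
  ∀ V : ℝ → ℝ, Continuous V → (∀ t, V (-t) = V t) → (∀ s, volume (K1 n V s) ≠ ⊤) →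
    ∀ E, (volume (KC V E R)).toReal = p * (volume (K1 n V E)).toReal

/-- FLW (220 lines; adapt `Pool.Agent.T2h31.LC.T_DVW`): the divergence theorem on the cone for `H` with compact support.
Multiply `w` by an even cutoff which is one on a symmetric interval containing all the coordinates of the support of `H`
(nothing changes); then `|w'| ≤ B` and for `|t| < 1/(2B)` the map `φ(s) = s + t w(s)` is an odd increasing `C¹` bijection
of the line, so `Φ x = (φ (x_i))` is a bijection of `CN R` (`sv` of `Φ x` is `φ` of `sv x`) with the determinant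
`∏ (1 + t w'(x_i))`. Change of variables (`integral_image_eq_integral_abs_det_fderiv_smul`):
`∫_{CN R} H = ∫_{CN R} H (Φ x) ∏ (1 + t w'(x_i))`; differentiate at `t = 0`
(`hasDerivAt_integral_of_dominated_loc_of_deriv_le`, all supports lie in a fixed compact set). -/
def S_FLW : Prop := ∀ (n : ℕ) (R : Lb n → Lb n → Prop) (H : Eu (Fin n) → ℝ) (w : ℝ → ℝ),
  ContDiff ℝ 1 H → HasCompactSupport H → ContDiff ℝ 1 w → (∀ t, w (-t) = -w t) →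
  ∫ x in CN R, (fderiv ℝ H x (WithLp.toLp 2 fun i => w (x i)) + H x * ∑ i, deriv w (x i)) = 0

/-- IBW (150 lines; takes S_FLW): integration by parts for the density. `w` is `C¹` as `w f` and `f > 0` are
(`w' = -h + V' w`). FLW for `H = χ_k G ρ`, `χ_k(x) = χ(‖x‖² / k²)`, `χ` a `C¹` cutoff:
`fderiv H (w) + H ∑ w' = χ_k (fderiv G (w) - G ∑ h) ρ + G ρ fderiv χ_k (w)`, and
`|fderiv χ_k (w)| ≤ (C/k) ∑ |w(x_i)|`; `k → ∞` by dominated convergence. -/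
def S_IBW : Prop := ∀ (n : ℕ) (R : Lb n → Lb n → Prop) (V V' : ℝ → ℝ), NE V V' →
  ∀ w h : ℝ → ℝ, Continuous w → Continuous h → (∀ t, w (-t) = -w t) →
  (∀ t, HasDerivAt (fun t => w t * Real.exp (-V t)) (-(h t * Real.exp (-V t))) t) →
  ∀ G : Eu (Fin n) → ℝ, ContDiff ℝ 1 G →
  (∀ i, Integrable fun x : Eu (Fin n) => fderiv ℝ G x (EuclideanSpace.single i 1) * w (x i) * rh V x) →
  (∀ i, Integrable fun x : Eu (Fin n) => G x * w (x i) * rh V x) →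
  (∀ i, Integrable fun x : Eu (Fin n) => G x * h (x i) * rh V x) →
  ∫ x in CN R, fderiv ℝ G x (WithLp.toLp 2 fun i => w (x i)) * rh V x =
    ∫ x in CN R, G x * (∑ i, h (x i)) * rh V x

/-! ### B: one dimension -/

/-- OD (120 lines; takes `Pool.Agent.Y506.RG.S_ONE`, proof `Pool.Agent.Y849.RG.one1`, and
`Pool.Agent.R476.OR.S_FLD`, proof `Pool.Agent.R476.OR.fld`): facts on one normalised even potential. `V' t T(t) ≤ f(t)`,
`T(t) = ∫_t^∞ f`: `V' t f(s) ≤ V'(s) f(s)` for `s ≥ t` and `∫_t^∞ V' f = f(t)`. `rV V ≤ C`: from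
FD: `r = ∫ V' v f ≤ (∫ (V' v)² f)^(1/2) ≤ (C r)^(1/2)`. -/
def S_OD : Prop := ∃ C : ℝ, 1 ≤ C ∧ ∀ V V' : ℝ → ℝ, NE V V' →
  1 / C ≤ Real.exp (-V 0) ∧ (∀ t, Real.exp (-V t) ≤ C) ∧
  (∀ t, 0 ≤ t → ∫ s in Ioi t, Real.exp (-V s) ≤ C * Real.exp (-V t)) ∧
  (∀ t, 0 ≤ t → 0 ≤ V' t ∧ V' t * (∫ s in Ioi t, Real.exp (-V s)) ≤ Real.exp (-V t)) ∧
  0 ≤ rV V ∧ rV V ≤ C ∧ (Integrable fun t => V t ^ 4 * Real.exp (-V t))

/-- WF (250 lines; takes S_OD): the second field. `s(t) = 2 ∫_0^t f` is odd, increases from `-1` to `1`, `s' = 2 f`,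
`1 - |s(t)| = 2 T(|t|)`. For `ŵ(s) = α (s - s³) + β (s³ - s⁵)`, `α² + β² = 1`, put `w = ŵ(s(t)) / (2 f(t))`,
`h(t) = -ŵ'(s(t))`; then `(w f)' = ŵ'(s) s' / 2 = -h f`. Choose `(α, β)` with `∫ h V f = 0` (one linear equation). `|ŵ| ≤ 4 (1 - |s|)`
so `|w| ≤ 4 T/f ≤ C`; `w' = -h + V' w`, `|V' w| ≤ 4 |V'| T / f ≤ 4`, so `w` is Lipschitz. `∫ h f = -(1/2) ∫_{-1}^1 ŵ' = 0`;
`∫ w² f ≥ (1/(4 C²)) ∫ ŵ(s(t))² f = (1/(8 C²)) ∫_{-1}^1 ŵ²`, which is at least a constant: a positive definite quadratic form in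
`(α, β)` (`∫_{-1}^1 (s-s³)² = 16/105`, `∫ (s-s³)(s³-s⁵) = 16/315`, `∫ (s³-s⁵)² = 16/693`, times one). -/
def S_WF : Prop := ∃ C : ℝ, 1 ≤ C ∧ ∀ V V' : ℝ → ℝ, NE V V' → ∃ w h : ℝ → ℝ,
  Continuous w ∧ Continuous h ∧ (∀ t, w (-t) = -w t) ∧ (∀ t, h (-t) = h t) ∧
  (∀ t, HasDerivAt (fun t => w t * Real.exp (-V t)) (-(h t * Real.exp (-V t))) t) ∧
  (∀ t, |w t| ≤ C) ∧ (∀ t, |h t| ≤ C) ∧ (∀ s t, |w s - w t| ≤ C * |s - t|) ∧
  (∫ t, h t * Real.exp (-V t) = 0) ∧ (∫ t, h t * (V t - mV V) * Real.exp (-V t) = 0) ∧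
  1 / C ≤ ∫ t, w t ^ 2 * Real.exp (-V t)

/-- ODV (60 lines): the field of FD is odd for even `V`. `v f` and `t ↦ -(v f)(-t)` have the same derivative, so
`v(t) f(t) + v(-t) f(-t) = c` is constant; `|c| ≤ |v(t)| f(t) + |v(-t)| f(-t)`, and `v f` is integrable
(`|v| f ≤ (v² + 1) f`), so `c = 0`. -/
def S_ODV : Prop := ∀ (C : ℝ) (V V' v : ℝ → ℝ), NE V V' → FD C V V' v → ∀ t, v (-t) = -v t

/-! ### C: the product density on the cone -/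

/-- PCN (250 lines; takes `Pool.Agent.T2h31.LC.S_SMB`, proof `Pool.Agent.T2h31.LC.smb_all`, and S_OD): Poincare's inequality on the
cone. For `b > 0` let `V_b = V` on `[-b, b]`, `V_b(t) = V(b) + V'(b) (|t| - b)/(1 + |t| - b)` outside (`C¹`, bounded, even);
`Smo (exp (-V_b)) (-b) b`. S_SMB at `y = 0` gives the inequality on the cube `KB b R` with the constant
`4 ((∫_{-b}^b f) / f(0))² ≤ 4 C²`; `b → ∞` (`volume_preserving` between `Eu (Fin n)` and `Fin n → ℝ`,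
`∑ (pd g i x)² = ‖fderiv g x‖²`). The relation may be replaced by `R p q ∧ p ≠ q`. -/
def S_PCN : Prop := ∃ C : ℝ, 1 ≤ C ∧ ∀ (n : ℕ) (R : Lb n → Lb n → Prop) (V V' : ℝ → ℝ), NE V V' →
  0 < ms V R → ∀ (U : Eu (Fin n) → ℝ) (l : ℝ), ContDiff ℝ 1 U → 0 ≤ l → (∀ x, ‖fderiv ℝ U x‖ ≤ l) →
  Integrable (fun x => U x ^ 2 * rh V x) → VC V R U ≤ C * l ^ 2

/-- MOC (150 lines; takes S_SY and `Pool.Agent.R476.OR.S_TWO`, proof `Pool.Agent.R476.OR.two`): moments of even symmetric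
functions on the cone: for even continuous `φ` with `φ² f` integrable. Apply SY to `(∑ φ(x_i))² ρ`, `∑ φ(x_i) ρ`, `ρ`,
`(∑ φ(x_i)) (∑ ψ(x_i)) ρ` (polarisation) and S_TWO on the whole space; `ms V R = p`. -/
def S_MOC : Prop := ∀ (n : ℕ) (R : Lb n → Lb n → Prop) (V V' : ℝ → ℝ), NE V V' → 0 < ms V R →
  ∀ φ : ℝ → ℝ, Continuous φ → (∀ t, φ (-t) = φ t) → (Integrable fun t => φ t ^ 2 * Real.exp (-V t)) →
  (MC V R (fun x => ∑ i, φ (x i)) = n * ∫ t, φ t * Real.exp (-V t)) ∧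
  Integrable (fun x : Eu (Fin n) => (∑ i, φ (x i)) ^ 2 * rh V x) ∧
  ((∫ t, φ t * Real.exp (-V t) = 0) →
    MC V R (fun x => (∑ i, φ (x i)) ^ 2) = n * ∫ t, φ t ^ 2 * Real.exp (-V t)) ∧
  ∀ ψ : ℝ → ℝ, Continuous ψ → (∀ t, ψ (-t) = ψ t) → (Integrable fun t => ψ t ^ 2 * Real.exp (-V t)) →
    (∫ t, φ t * Real.exp (-V t) = 0) → (∫ t, ψ t * Real.exp (-V t) = 0) →
    MC V R (fun x => (∑ i, φ (x i)) * ∑ i, ψ (x i)) = n * ∫ t, φ t * ψ t * Real.exp (-V t)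

/-- RLB (250 lines; takes S_WF, S_IBW, S_MOC, S_PCN, S_OD): some linear functional has large residual variance. Write `M` for
MC, `h, w` as in WF, `H = ∑ h(x_i)`, `y_i = M(w(x_i))`, `D = ∑ Var x_i` (variances on the cone), `C_1` the constant of PCN. IBW for
`G(x) = x_i`: `y_i = M(x_i H)`. MOC: `M H = 0`, `M H² ≤ n C²`, `M (H Sc) = 0`, `M Sc² = n r`, `M Sc = 0`. Let `u = y/|y|`, `Y = ⟪x,u⟫`,
`β = bC/sC`: `|y| = M(Y H) = M((Y - M Y - β Sc) H) ≤ √(M((Y - M Y - β Sc)²)) √(n) C`, and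
`M((Y - M Y - β Sc)²) = Var Y - 2 β bC + β² n r ≤ Var Y - bC²/sC = RC`. So `|y|² ≤ C² n RC(u)`. Also `Var w(x_i) ≤ C² Var x_i`
(`≤ M (w(x_i) - w(M x_i))²`), so `|y|² = n ∫ w² f - ∑ Var w(x_i) ≥ n/C - C² D` (MOC for `w²`). If `D ≤ n/(2 C³)`:
`RC(u) ≥ 1/(2 C³)`. If `D > n/(2 C³)`: `∑ RC(e_i) = D - |b|²/sC` with `b_i = bC(e_i)`, and `|b|² = bC(b) ≤ √(C_1 |b|² n r)`, so `|b|² ≤ C_1 n r`
and `∑ RC(e_i) ≥ D - C_1`; for `n ≥ 4 C³ C_1` some `RC(e_i) ≥ 1/(4 C³)`; for smaller `n`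
`RC(e_i) ≥ Var x_i (1 - n r/sC) = Var x_i / sC ≥ Var x_i/(1 + n C)` (Cauchy-Schwarz `bC² ≤ Var x_i n r`) and some `Var x_i ≥ 1/(2 C³)`. -/
def S_RLB : Prop := ∃ c : ℝ, 0 < c ∧ ∀ (n : ℕ) (R : Lb n → Lb n → Prop) (V V' : ℝ → ℝ), 1 ≤ n →
  NE V V' → 0 < ms V R → ∃ θ : Eu (Fin n), ‖θ‖ = 1 ∧ c ≤ RC V R θ

/-! ### D: the body -/

/-- PLC (80 lines; takes S_SY and `Pool.Agent.R476.OR.S_PLW`, proof `Pool.Agent.R476.OR.plw Pool.Agent.R476.OR.two`, S_OD): volume of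
the optimal body on the cone. `ms V R = p`, `|KC| = p |K1|`. -/
def S_PLC : Prop := ∃ c : ℝ, 0 < c ∧ ∀ (n : ℕ) (R : Lb n → Lb n → Prop) (V V' : ℝ → ℝ), NE V V' →
  ∀ E : ℝ, LVL (fun _ : Fin n => V) E →
  c * ms V R ≤ Real.sqrt (sC n V) * ((volume (KC V E R)).toReal * Real.exp (-E)) ∧
  (volume (KC V E R)).toReal ≤ ms V R * Real.exp E

/-- STC (350 lines, adapt `sti` of `R476/OR/I.lean`; takes `Pool.Agent.R476.OR.S_FLD` (proof `fld`), S_ODV, S_IBW, S_MOC, S_PLC): the main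
inequality on the cone. All integrals over `CN R`; IBW for `w = v`, `h = V - m`, `G = U sgm(S - E)` replaces S_IBP
(`fderiv G (v) = sgm fderiv U (v) + U sgd ∑ V' v`); the moments of `∑ (V' v - r)`, `Sc`, `∑ v²` by MOC. -/
def S_STC : Prop := ∃ C : ℝ, 1 ≤ C ∧ ∀ (n : ℕ) (R : Lb n → Lb n → Prop) (V V' : ℝ → ℝ), NE V V' →
  0 < ms V R → ∀ E : ℝ, LVL (fun _ : Fin n => V) E → ∀ (U : Eu (Fin n) → ℝ) (l η : ℝ), ContDiff ℝ 1 U →
  (∀ x, 0 ≤ U x) → (∀ x, U x ≤ 4) → 0 ≤ l → (∀ x, ‖fderiv ℝ U x‖ ≤ l) → 0 ≤ η → η ≤ 1 →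
  MC V R U ≤ η ^ 2 → ∫ x in KC V E R, U x ≤ C * (η + l) * (volume (KC V E R)).toReal

/-- GTC (350 lines, adapt `R476/OR/E1.lean` (with E1a, E1b, E1c); takes S_MOC, `Pool.Agent.R476.OR.S_M4R` (proof `m4r`), S_OD): the joint law of
`⟪θ, x⟫` and of the level variable `s`, density `1[S(x) ≤ s, x ∈ CN R] exp (-s) / ms`, in isotropic coordinates
`z_0 = (⟪x,θ⟫ - a - (b / σ²) (s - m)) / τ`, `z_1 = (s - m) / σ`, with `a = M ⟪x,θ⟫`, `b = bC`, `σ² = sC`, `m = n mV + 1`, `τ² = RC`. -/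
def S_GTC : Prop := ∃ K : ℝ, 1 ≤ K ∧ ∀ (n : ℕ) (R : Lb (n + 1) → Lb (n + 1) → Prop) (V V' : ℝ → ℝ),
  NE V V' → 0 < ms V R → ∀ θ : Eu (Fin (n + 1)), ‖θ‖ = 1 → 0 < RC V R θ →
  ∃ g : Eu (Fin 2) → ℝ≥0∞, ILK K g ∧ ∀ (E : ℝ) (φ : ℝ → ℝ≥0∞), Measurable φ →
    ∫⁻ x in KC V E R, φ ⟪θ, x⟫_ℝ =
      ENNReal.ofReal (ms V R * Real.exp E / Real.sqrt (sC (n + 1) V)) *
      ∫⁻ z : ℝ, φ (MC V R (fun x => ⟪x, θ⟫_ℝ) + Real.sqrt (RC V R θ) * z +
        bC V R θ / Real.sqrt (sC (n + 1) V) *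
          ((E - ((n + 1 : ℕ) * mV V + 1)) / Real.sqrt (sC (n + 1) V))) *
        g (WithLp.toLp 2 ![z, (E - ((n + 1 : ℕ) * mV V + 1)) / Real.sqrt (sC (n + 1) V)])

/-- CVC (200 lines, adapt `main` and `cov` of `R834/OR/E2.lean`, lower bound only; takes S_GTC, S_PLC and `S_LDK` as there): the
variance of a linear functional on the body is at least a constant times the residual variance. -/
def S_CVC : Prop := ∃ c : ℝ, 0 < c ∧ ∀ (n : ℕ) (R : Lb (n + 1) → Lb (n + 1) → Prop) (V V' : ℝ → ℝ),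
  NE V V' → 0 < ms V R → ∀ E : ℝ, LVL (fun _ : Fin (n + 1) => V) E →
  ∀ θ : Eu (Fin (n + 1)), ‖θ‖ = 1 → 0 < RC V R θ →
  c * RC V R θ ≤ VW (ind (KC V E R)) fun x => ⟪x, θ⟫_ℝ

/-- concentration of Lipschitz functions relative to the largest variance -/
def Ci {n : ℕ} (κ δ : ℝ) (w : Eu (Fin n) → ℝ) : Prop :=
  ∀ s : ℝ, 0 < s → (∀ θ : Eu (Fin n), ‖θ‖ = 1 → VW w (fun x => ⟪x, θ⟫_ℝ) ≤ s) →
  ∀ v : Eu (Fin n) → ℝ, ContDiff ℝ 1 v → (∀ y, |v y| ≤ 1) →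
  (∀ y, ‖fderiv ℝ v y‖ ≤ κ / Real.sqrt s) → VW w v ≤ δ

/-- CCS (150 lines; takes S_RLB, S_CVC, S_PCN, S_STC): concentration for normalised potentials at optimal levels. There is `θ` with
`c ≤ VW ⟪x,θ⟫ ≤ s`, so `‖∇v‖ ≤ κ/√c =: l`. PCN: `VC v ≤ C l²`; `a = MC v`, `U = (v - a)² ≤ 4`, `‖∇U‖ ≤ 4 l`, `MC U = VC v ≤ η²`, `η = √C l`;
STC and `VW (ind K) v ≤ EW (ind K) (v - a)²`. `0 < ms V R` because `|KC| ≤ ms e^E` (S_PLC). -/
def S_CCS : Prop := ∀ δ : ℝ, 0 < δ → ∃ κ : ℝ, 0 < κ ∧ ∀ (n : ℕ) (R : Lb n → Lb n → Prop)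
  (V V' : ℝ → ℝ), 1 ≤ n → NE V V' → ∀ E : ℝ, LVL (fun _ : Fin n => V) E → 0 < volume (KC V E R) →
  Ci κ δ (ind (KC V E R))

/-! ### E: general potentials -/

/-- NRS (100 lines, adapt `nrm` of `R938/ORF/Main.lean` with the same `a, d, k` for all coordinates; `a = 0` because the density is
even: `NV` gives `∫ t exp(-l V(a + d t) - k) = 0`, substitute): normalisation. -/
def S_NRS : Prop := ∀ (n : ℕ) (V V' : ℝ → ℝ), 1 ≤ n → CV V V' → (∀ t, V (-t) = V t) → ∀ E : ℝ,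
  Bornology.IsBounded (K1 n V E) → (∃ x : Eu (Fin n), S1 V x < E) →
  ∃ (W W' : ℝ → ℝ) (E' d : ℝ), NE W W' ∧ LVL (fun _ : Fin n => W) E' ∧ 0 < d ∧
  ∀ x : Eu (Fin n), x ∈ K1 n W E' ↔ d • x ∈ K1 n V E

/-- CCH (100 lines, compare `R476/OR/K.lean`; takes S_NRS, S_CCS): `C¹` potentials. `KC V E R = d • KC W E' R` (the cone is invariant
under scaling), and `Ci` is invariant under scaling. -/
def S_CCH : Prop := ∀ δ : ℝ, 0 < δ → ∃ κ : ℝ, 0 < κ ∧ ∀ (n : ℕ) (R : Lb n → Lb n → Prop)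
  (V V' : ℝ → ℝ), 1 ≤ n → CV V V' → (∀ t, V (-t) = V t) → ∀ E : ℝ, Bornology.IsBounded (K1 n V E) →
  (∃ x : Eu (Fin n), S1 V x < E) → 0 < volume (KC V E R) → Ci κ δ (ind (KC V E R))

/-- LIS (200 lines, adapt `Pool.Agent.Y824.PV.limc` with `T` the identity): limits. -/
def S_LIS : Prop := ∀ (n : ℕ) (κ δ : ℝ) (w : Eu (Fin n) → ℝ) (W : ℕ → Eu (Fin n) → ℝ), 0 < κ →
  Integrable (fun x => (1 + ‖x‖ ^ 2) * w x) → 0 < ∫ x, w x →
  (∀ j, Integrable (fun x => (1 + ‖x‖ ^ 2) * W j x)) →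
  Tendsto (fun j => ∫ x, (1 + ‖x‖ ^ 2) * |W j x - w x|) atTop (𝓝 0) →
  (∀ᶠ j in atTop, Ci κ δ (W j)) → Ci (κ / 2) δ w

/-- APS (250 lines, adapt `apx` of `R476/OR/G.lean`; takes S_LIS): from `C¹` to convex even potentials, intersected with the
cone; instead of the forward average `sm V ε` take the symmetric one `(sm V ε t + sm V (-ε) t)/2`, which is even, convex, `C¹`
and `≥ V`; the volume of `KC` is positive eventually, by convergence. -/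
def S_APS : Prop := ∀ (κ δ : ℝ), 0 < κ →
  (∀ (n : ℕ) (R : Lb n → Lb n → Prop) (V V' : ℝ → ℝ), 1 ≤ n → CV V V' → (∀ t, V (-t) = V t) →
    ∀ E : ℝ, Bornology.IsBounded (K1 n V E) → (∃ x : Eu (Fin n), S1 V x < E) →
    0 < volume (KC V E R) → Ci κ δ (ind (KC V E R))) →
  ∀ (n : ℕ) (R : Lb n → Lb n → Prop) (V : ℝ → ℝ), 1 ≤ n → ConvexOn ℝ univ V → (∀ t, V (-t) = V t) →
    ∀ E : ℝ, Bornology.IsBounded (K1 n V E) → (∃ x : Eu (Fin n), S1 V x < E) →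
    0 < volume (KC V E R) → Ci (κ / 2) δ (ind (KC V E R))

/-- APT (250 lines, adapt `apy` of `R476/OR/H.lean`; takes S_LIS): with the constraints `|x_i| ≤ b`, `b > 0`. -/
def S_APT : Prop := ∀ (κ δ : ℝ), 0 < κ →
  (∀ (n : ℕ) (R : Lb n → Lb n → Prop) (V : ℝ → ℝ), 1 ≤ n → ConvexOn ℝ univ V →
    (∀ t, V (-t) = V t) → ∀ E : ℝ, Bornology.IsBounded (K1 n V E) →
    (∃ x : Eu (Fin n), S1 V x < E) → 0 < volume (KC V E R) → Ci κ δ (ind (KC V E R))) →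
  ∀ (n : ℕ) (R : Lb n → Lb n → Prop) (V : ℝ → ℝ) (b : ℝ), 1 ≤ n → ConvexOn ℝ univ V →
    (∀ t, V (-t) = V t) → 0 < b → ∀ E : ℝ, (∃ x : Eu (Fin n), S1 V x < E) →
    0 < volume (KC V E R ∩ {x | ∀ i, |x i| ≤ b}) →
    Ci (κ / 2) δ (ind (KC V E R ∩ {x | ∀ i, |x i| ≤ b}))

/-- FNS (200 lines; compare `Pool.Agent.Y506.FF.half_body` in `Y506/FF/Fin1.lean` and `T2h31/SB/T_FIN.lean`; takes
`Pool.Agent.Y506.FF.S_MILB` (proof in `Y665/FF/Milb.lean`) and `Pool.Agent.Y506.FF.S_HALF` (proof in `Y211/FF/Half.lean`)): from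
concentration to the inequality for sets of measure one half. `s` = the largest variance of `⟪x,θ⟫`, attained at `θ_0`; `LCon K (κ/√s) (1/32)`;
MILB with `4 δ = 1/8 < 1/4`; a set of measure one half; `t² s ≤ C` by S_HALF at `θ_0`. -/
def S_FNS : Prop := ∀ κ : ℝ, 0 < κ → ∃ c : ℝ, 0 < c ∧ ∀ (n : ℕ) (K : Set (Eu (Fin n))), 1 ≤ n →
  IsCompact K → Convex ℝ K → (interior K).Nonempty → Ci κ (1 / 32) (ind K) →
  ∀ μ : Measure (Eu (Fin n)), μ = (volume K)⁻¹ • volume.restrict K → ∀ t : ℝ≥0∞,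
  (∀ (u : Eu (Fin n)) (b : ℝ), u ≠ 0 →
    t * min (μ {x | ⟪u, x⟫_ℝ ≤ b}) (1 - μ {x | ⟪u, x⟫_ℝ ≤ b}) ≤
      liminf (fun ε : ℝ => (μ (Metric.thickening ε {x | ⟪u, x⟫_ℝ ≤ b}) -
        μ {x | ⟪u, x⟫_ℝ ≤ b}) / ENNReal.ofReal ε) (𝓝[>] 0)) →
  ∀ A : Set (Eu (Fin n)), MeasurableSet A → μ A = 1 / 2 →
    ENNReal.ofReal c * t ≤
      liminf (fun ε : ℝ => (μ (Metric.thickening ε A) - μ A) / ENNReal.ofReal ε) (𝓝[>] 0)

/-- GEO (100 lines): elementary facts on the bodies. Last part: if `E ≤ S1 V x` for all `x` and the body is not empty then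
`E = n V(0)`, and `S1 V x ≤ E` iff `V(x_i) = V(0)` for all `i` (`V(0)` is the minimum), iff `|x_i| ≤ b0`,
`b0 = sup {t | V t = V 0}` (possibly infinite); `b' = min b b0`, positive because the interior is not empty (for `n = 0` any `b'`). -/
def S_GEO : Prop := ∀ (n : ℕ) (R : Lb n → Lb n → Prop) (V : ℝ → ℝ), ConvexOn ℝ univ V → ∀ E : ℝ,
  IsClosed (KC V E R) ∧ Convex ℝ (KC V E R) ∧ IsClosed {x : Eu (Fin n) | ∀ i, |x i| ≤ (1 : ℝ)} ∧
  ∀ b : ℝ, IsCompact (KC V E R ∩ {x | ∀ i, |x i| ≤ b}) ∧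
    Convex ℝ (KC V E R ∩ {x | ∀ i, |x i| ≤ b}) ∧
    ((∀ t, V (-t) = V t) → 0 < b → (interior (KC V E R ∩ {x | ∀ i, |x i| ≤ b})).Nonempty →
      (∀ x : Eu (Fin n), E ≤ S1 V x) →
      ∃ b' : ℝ, 0 < b' ∧ KC V E R ∩ {x | ∀ i, |x i| ≤ b} = CN R ∩ {x | ∀ i, |x i| ≤ b'})

end Pool.Agent.T2h31.OB
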