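import Pool.Agent.T2h31.OB.Stm
import Pool.Agent.R476.OR.G

/-!
# Project OB, task APS: from `C¹` even convex potentials to even convex potentials
-/

set_option autoImplicit false

namespace Pool.Agent.T2h31.OB

namespace APS

open MeasureTheory Set Filter Topology
open scoped ENNReal InnerProductSpace
open Pool.Agent.W695.KH (Eu)
open Pool.Agent.R476.OR (CV SV KV ind)
open Pool.Agent.R476.OR.G (sm cont_of_convex sm_cont sm_zero sm_deriv shift_le level_null)
open Pool.Agent.T2h31.SB (Lb sv)

/-- symmetric average of `V` -/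
noncomputable def sy (V : ℝ → ℝ) (ε t : ℝ) : ℝ := (sm V ε t + sm V (-ε) t) / 2

lemma sy_zero (V : ℝ → ℝ) (t : ℝ) : sy V 0 t = V t := by
  simp [sy, sm_zero]

lemma sy_cont {V : ℝ → ℝ} (hV : Continuous V) (t : ℝ) : Continuous (fun ε => sy V ε t) := by
  unfold sy
  have h1 := sm_cont hV t
  have h2 : Continuous (fun ε => sm V (-ε) t) := h1.comp continuous_neg
  exact (h1.add h2).div_const 2

lemma sy_even {V : ℝ → ℝ} (h : ∀ t, V (-t) = V t) (ε t : ℝ) : sy V ε (-t) = sy V ε t := by
  have e : ∀ ε t : ℝ, sm V ε (-t) = sm V (-ε) t := by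
    intro ε t
    unfold sm
    refine intervalIntegral.integral_congr fun u _ => ?_
    change V (-t + ε * u) = V (t + -ε * u)
    rw [← h]
    congr 1
    ring
  unfold sy
  rw [e ε t, e (-ε) t, neg_neg, add_comm]

lemma sy_cv {V : ℝ → ℝ} (h : ConvexOn ℝ univ V) {ε : ℝ} (hε : 0 < ε) :
    CV (sy V ε) (fun t => (ε⁻¹ * (V (t + ε) - V t) + (-ε)⁻¹ * (V (t + -ε) - V t)) / 2) where
  der := fun t => ((sm_deriv (cont_of_convex h) hε.ne' t).add
    (sm_deriv (cont_of_convex h) (neg_ne_zero.2 hε.ne') t)).div_const 2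
  mono := fun s t hst => by
    have h1 := shift_le h hε hst
    have h2 := shift_le h hε (show s + -ε ≤ t + -ε by linarith)
    rw [neg_add_cancel_right, neg_add_cancel_right] at h2
    have h3 : ε⁻¹ * (V (s + ε) - V s) ≤ ε⁻¹ * (V (t + ε) - V t) :=
      mul_le_mul_of_nonneg_left h1 (inv_nonneg.2 hε.le)
    have h4 : ε⁻¹ * (V s - V (s + -ε)) ≤ ε⁻¹ * (V t - V (t + -ε)) :=
      mul_le_mul_of_nonneg_left h2 (inv_nonneg.2 hε.le)
    have e : ∀ x : ℝ, (-ε)⁻¹ * (V (x + -ε) - V x) = ε⁻¹ * (V x - V (x + -ε)) := fun x => by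
      rw [inv_neg]
      ring
    simp only [e]
    linarith
  cont := by
    have := cont_of_convex h
    fun_prop

lemma sy_ge {V : ℝ → ℝ} (h : ConvexOn ℝ univ V) (ε t : ℝ) : V t ≤ sy V ε t := by
  have hc := cont_of_convex h
  have h1 : ∫ u in (0 : ℝ)..1, (V t + V t) ≤ ∫ u in (0 : ℝ)..1, (V (t + ε * u) + V (t + -ε * u)) := by
    apply intervalIntegral.integral_mono_on zero_le_one
    · exact intervalIntegrable_const
    · apply Continuous.intervalIntegrable
      fun_prop
    · intro u _
      have h2 := h.2 (mem_univ (t + ε * u)) (mem_univ (t + -ε * u)) (show (0 : ℝ) ≤ 1 / 2 by norm_num)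
        (show (0 : ℝ) ≤ 1 / 2 by norm_num) (by norm_num)
      have e : (1 / 2 : ℝ) • (t + ε * u) + (1 / 2 : ℝ) • (t + -ε * u) = t := by
        simp only [smul_eq_mul]
        ring
      rw [e] at h2
      simp only [smul_eq_mul] at h2
      linarith
  rw [intervalIntegral.integral_add (f := fun u => V (t + ε * u)) (g := fun u => V (t + -ε * u))
    (Continuous.intervalIntegrable (by fun_prop) _ _) (Continuous.intervalIntegrable (by fun_prop) _ _)] at h1
  simp only [intervalIntegral.integral_const, sub_zero, one_smul] at h1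
  unfold sy sm
  linarith

variable {n : ℕ}

lemma S1_cont {V : ℝ → ℝ} (hV : Continuous V) : Continuous (S1 V : Eu (Fin n) → ℝ) := by
  unfold S1
  fun_prop

lemma CN_closed (R : Lb n → Lb n → Prop) : IsClosed (CN R) := by
  have e : CN R = ⋂ p, ⋂ q, ⋂ (_ : R p q),
      {x : Eu (Fin n) | sv (fun i => x i) p ≤ sv (fun i => x i) q} := by
    ext x
    simp [CN]
  have hs : ∀ p : Lb n, Continuous fun x : Eu (Fin n) => sv (fun i => x i) p := by
    intro p
    unfold sv
    split_ifs
    · fun_prop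
    · fun_prop
  rw [e]
  exact isClosed_iInter fun p => isClosed_iInter fun q => isClosed_iInter fun _ => isClosed_le (hs p) (hs q)

lemma KC_closed {V : ℝ → ℝ} (hV : Continuous V) (E : ℝ) (R : Lb n → Lb n → Prop) : IsClosed (KC V E R) :=
  (isClosed_le (S1_cont hV) continuous_const).inter (CN_closed R)

lemma ind_int {K : Set (Eu (Fin n))} (hK : IsClosed K) {r : ℝ} (hr : K ⊆ Metric.closedBall 0 r) :
    Integrable (fun x => (1 + ‖x‖ ^ 2) * ind K x) := by
  have e : (fun x : Eu (Fin n) => (1 + ‖x‖ ^ 2) * ind K x) = K.indicator (fun x => 1 + ‖x‖ ^ 2) := by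
    funext x
    unfold ind
    by_cases h : x ∈ K
    · simp [h]
    · simp [h]
  rw [e, integrable_indicator_iff hK.measurableSet]
  apply IntegrableOn.mono_set _ hr
  apply ContinuousOn.integrableOn_compact (isCompact_closedBall _ _)
  fun_prop

lemma ind_int1 {K : Set (Eu (Fin n))} (hK : IsClosed K) {r : ℝ} (hr : K ⊆ Metric.closedBall 0 r) :
    Integrable (ind K) := by
  unfold ind
  rw [integrable_indicator_iff hK.measurableSet]
  apply IntegrableOn.mono_set _ hr
  apply ContinuousOn.integrableOn_compact (isCompact_closedBall _ _)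
  fun_prop

lemma ind_mass {K : Set (Eu (Fin n))} (hK : IsClosed K) : ∫ x, ind K x = (volume K).toReal := by
  unfold ind
  rw [integral_indicator hK.measurableSet]
  simp [Measure.real]

end APS

open MeasureTheory Set Filter Topology in
open Pool.Agent.W695.KH (Eu) in
open Pool.Agent.R476.OR (CV SV KV ind) in
open Pool.Agent.R476.OR.G (cont_of_convex level_null) in
open APS in
theorem t_APS (h : S_LIS) : S_APS := by
  intro κ δ hκ H n R V hn hV hev E hb hx hvol
  obtain ⟨x0, hx0⟩ := hx
  have hVc : Continuous V := cont_of_convex hV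
  obtain ⟨r, hr⟩ := hb.subset_closedBall 0
  let ε : ℕ → ℝ := fun j => 1 / ((j : ℝ) + 1)
  have hε0 : ∀ j, 0 < ε j := fun j => by
    simp only [ε]
    positivity
  have hεt : Tendsto ε atTop (𝓝 0) := tendsto_one_div_add_atTop_nhds_zero_nat
  let W : ℕ → ℝ → ℝ := fun j => sy V (ε j)
  have hWc : ∀ j, Continuous (W j) := fun j =>
    continuous_iff_continuousAt.2 fun t => ((sy_cv hV (hε0 j)).der t).continuousAt
  have hge : ∀ j (x : Eu (Fin n)), S1 V x ≤ S1 (W j) x := fun j x =>
    Finset.sum_le_sum fun i _ => sy_ge hV (ε j) (x i)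
  have hsub : ∀ j, K1 n (W j) E ⊆ K1 n V E := fun j x hx => (hge j x).trans hx
  have hKr : KC V E R ⊆ Metric.closedBall 0 r := fun x hx => hr hx.1
  have hWr : ∀ j, KC (W j) E R ⊆ Metric.closedBall 0 r := fun j x hx => hr (hsub j hx.1)
  have hlim : ∀ x : Eu (Fin n), Tendsto (fun j => S1 (W j) x) atTop (𝓝 (S1 V x)) := by
    intro x
    unfold S1
    apply tendsto_finsetSum
    intro i _
    have h1 := ((sy_cont hVc (x i)).tendsto 0).comp hεt
    rw [sy_zero] at h1
    exact h1
  have hKc := KC_closed hVc E R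
  have hWK : ∀ j, IsClosed (KC (W j) E R) := fun j => KC_closed (hWc j) E R
  have hfin : volume (KC V E R) ≠ ⊤ := (lt_of_le_of_lt (measure_mono hKr) measure_closedBall_lt_top).ne
  have hpos : 0 < ∫ x, ind (KC V E R) x := by
    rw [ind_mass hKc]
    exact ENNReal.toReal_pos hvol.ne' hfin
  have hzero : Tendsto (fun j => ∫ x, (1 + ‖x‖ ^ 2) * |ind (KC (W j) E R) x - ind (KC V E R) x|) atTop
      (𝓝 0) := by
    have key := tendsto_integral_of_dominated_convergence
      (μ := (volume : Measure (Eu (Fin n))))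
      (F := fun j x => (1 + ‖x‖ ^ 2) * |ind (KC (W j) E R) x - ind (KC V E R) x|)
      (f := fun _ => (0 : ℝ))
      (bound := (Metric.closedBall (0 : Eu (Fin n)) r).indicator (fun x => 1 + ‖x‖ ^ 2))
      ?_ ?_ ?_ ?_
    · simpa using key
    · intro j
      have m1 : Measurable (ind (KC (W j) E R)) := measurable_const.indicator (hWK j).measurableSet
      have m2 : Measurable (ind (KC V E R)) := measurable_const.indicator hKc.measurableSet
      have m3 : Measurable (fun x : Eu (Fin n) => 1 + ‖x‖ ^ 2) := by fun_prop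
      exact (m3.mul (m1.sub m2).abs).aestronglyMeasurable
    · rw [integrable_indicator_iff measurableSet_closedBall]
      apply ContinuousOn.integrableOn_compact (isCompact_closedBall _ _)
      fun_prop
    · intro j
      refine Eventually.of_forall fun x => ?_
      have hp : 0 ≤ 1 + ‖x‖ ^ 2 := by positivity
      rw [Real.norm_eq_abs, abs_of_nonneg (mul_nonneg hp (abs_nonneg _))]
      by_cases hxb : x ∈ Metric.closedBall (0 : Eu (Fin n)) r
      · rw [indicator_of_mem hxb]
        have h1 : |ind (KC (W j) E R) x - ind (KC V E R) x| ≤ 1 := by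
          unfold ind
          by_cases h1 : x ∈ KC (W j) E R <;> by_cases h2 : x ∈ KC V E R <;> simp [h1, h2]
        calc (1 + ‖x‖ ^ 2) * |ind (KC (W j) E R) x - ind (KC V E R) x| ≤ (1 + ‖x‖ ^ 2) * 1 :=
              mul_le_mul_of_nonneg_left h1 hp
          _ = 1 + ‖x‖ ^ 2 := mul_one _
      · have h1 : x ∉ KC (W j) E R := fun hh => hxb (hWr j hh)
        have h2 : x ∉ KC V E R := fun hh => hxb (hKr hh)
        simp [ind, h1, h2, hxb]
    · have hnull := level_null (n := n) (V := fun _ => V) (fun _ => hV) (E := E) (x0 := x0) hx0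
      have hae : ∀ᵐ x : Eu (Fin n), S1 V x ≠ E := by
        rw [ae_iff]
        have e : {x : Eu (Fin n) | ¬ S1 V x ≠ E} = {x : Eu (Fin n) | SV (fun _ => V) x = E} := by
          ext x
          simp only [mem_setOf_eq, not_not]
          exact Iff.rfl
        rw [e]
        exact hnull
      filter_upwards [hae] with x hxE
      rcases lt_or_gt_of_ne hxE with hlt | hgt
      · have hev : ∀ᶠ j in atTop, S1 (W j) x < E := (hlim x).eventually_lt_const hlt
        refine tendsto_const_nhds.congr' ?_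
        filter_upwards [hev] with j hj
        by_cases hc : x ∈ CN R
        · have h1 : x ∈ KC (W j) E R := ⟨le_of_lt hj, hc⟩
          have h2 : x ∈ KC V E R := ⟨le_of_lt hlt, hc⟩
          simp [ind, h1, h2]
        · have h1 : x ∉ KC (W j) E R := fun hh => hc hh.2
          have h2 : x ∉ KC V E R := fun hh => hc hh.2
          simp [ind, h1, h2]
      · refine tendsto_const_nhds.congr fun j => ?_
        have h2 : x ∉ KC V E R := fun hh => absurd (show S1 V x ≤ E from hh.1) (not_le.2 hgt)
        have h1 : x ∉ KC (W j) E R := fun hh => h2 ⟨hsub j hh.1, hh.2⟩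
        simp [ind, h1, h2]
  refine h n κ δ (ind (KC V E R)) (fun j => ind (KC (W j) E R)) hκ (ind_int hKc hKr) hpos
    (fun j => ind_int (hWK j) (hWr j)) hzero ?_
  have hev1 : ∀ᶠ j in atTop, S1 (W j) x0 < E := (hlim x0).eventually_lt_const hx0
  have hev2 := hzero.eventually_lt_const hpos
  filter_upwards [hev1, hev2] with j hj1 hj2
  refine H n R (W j) _ hn (sy_cv hV (hε0 j)) (sy_even hev (ε j)) E
    (Metric.isBounded_closedBall.subset ((hsub j).trans hr)) ⟨x0, hj1⟩ ?_
  rw [pos_iff_ne_zero]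
  intro h0
  have e0 : ∫ x, ind (KC (W j) E R) x = 0 := by
    rw [ind_mass (hWK j), h0, ENNReal.toReal_zero]
  have i1 := ind_int1 (hWK j) (hWr j)
  have i2 := ind_int1 hKc hKr
  have h3 : ∫ x, ind (KC V E R) x = ∫ x, (ind (KC V E R) x - ind (KC (W j) E R) x) := by
    rw [integral_sub i2 i1, e0, sub_zero]
  have h4 : ∫ x, (ind (KC V E R) x - ind (KC (W j) E R) x) ≤
      ∫ x, (1 + ‖x‖ ^ 2) * |ind (KC (W j) E R) x - ind (KC V E R) x| := by
    refine integral_mono (i2.sub i1) ?_ fun x => ?_
    · have h5 : (fun x : Eu (Fin n) => (1 + ‖x‖ ^ 2) * |ind (KC (W j) E R) x - ind (KC V E R) x|) =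
          fun x => |(1 + ‖x‖ ^ 2) * ind (KC (W j) E R) x - (1 + ‖x‖ ^ 2) * ind (KC V E R) x| := by
        funext x
        have hp : 0 ≤ 1 + ‖x‖ ^ 2 := by positivity
        rw [← mul_sub, abs_mul, abs_of_nonneg hp]
      rw [h5]
      exact ((ind_int (hWK j) (hWr j)).sub (ind_int hKc hKr)).abs
    · have hp : 1 ≤ 1 + ‖x‖ ^ 2 := by
        have : 0 ≤ ‖x‖ ^ 2 := by positivity
        linarith
      change ind (KC V E R) x - ind (KC (W j) E R) x ≤ (1 + ‖x‖ ^ 2) * |ind (KC (W j) E R) x - ind (KC V E R) x|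
      rw [abs_sub_comm]
      exact (le_abs_self _).trans (le_mul_of_one_le_left (abs_nonneg _) hp)
  linarith

end Pool.Agent.T2h31.OB
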