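import Pool.Agent.T2h31.OB.Stm

/-!
# Project OB: task CCH (`C¹` potentials, from the normalised ones by scaling)
-/

set_option autoImplicit false

namespace Pool.Agent.T2h31.OB

open MeasureTheory Set Filter Topology
open scoped ENNReal InnerProductSpace
open Pool.Agent.W695.KH (Eu EV VV Sm)
open Pool.Agent.Y506.RG (ND EW VW ILK)
open Pool.Agent.Y506.FF (LCon)
open Pool.Agent.R476.OR (CV NV mV rV FD SV KV LVL sgm sgd ind)
open Pool.Agent.T2h31.SB (Lb sv SK)

namespace CCH

variable {n : ℕ}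

theorem sv_smul (d : ℝ) (x : Eu (Fin n)) (p : Lb n) :
    sv (fun i => (d • x) i) p = d * sv (fun i => x i) p := by
  unfold sv
  by_cases h : p.2
  · simp [h]
  · simp [h]

theorem cn_smul {d : ℝ} (hd : 0 < d) (R : Lb n → Lb n → Prop) (x : Eu (Fin n)) :
    d • x ∈ CN R ↔ x ∈ CN R := by
  unfold CN
  simp only [mem_setOf_eq, sv_smul]
  constructor
  · intro h p q hpq
    exact le_of_mul_le_mul_left (h p q hpq) hd
  · intro h p q hpq
    exact mul_le_mul_of_nonneg_left (h p q hpq) hd.le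

theorem ind_smul {K K' : Set (Eu (Fin n))} {d : ℝ} (hK : ∀ x, x ∈ K' ↔ d • x ∈ K) (x : Eu (Fin n)) :
    ind K' x = ind K (d • x) := by
  unfold ind
  by_cases h : x ∈ K'
  · rw [indicator_of_mem h, indicator_of_mem ((hK x).1 h)]
  · rw [indicator_of_notMem h, indicator_of_notMem fun h2 => h ((hK x).2 h2)]

theorem ew_smul {K K' : Set (Eu (Fin n))} {d : ℝ} (hd : 0 < d) (hK : ∀ x, x ∈ K' ↔ d • x ∈ K)
    (f : Eu (Fin n) → ℝ) : EW (ind K') (fun x => f (d • x)) = EW (ind K) f := by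
  unfold EW
  have h1 : ∫ x, f (d • x) * ind K' x =
      |(d ^ Module.finrank ℝ (Eu (Fin n)))⁻¹| • ∫ x, f x * ind K x := by
    rw [← Measure.integral_comp_smul volume (fun x => f x * ind K x) d]
    refine integral_congr_ae (Eventually.of_forall fun x => ?_)
    simp only [ind_smul hK x]
  have h2 : ∫ x, ind K' x = |(d ^ Module.finrank ℝ (Eu (Fin n)))⁻¹| • ∫ x, ind K x := by
    rw [← Measure.integral_comp_smul volume (fun x => ind K x) d]
    refine integral_congr_ae (Eventually.of_forall fun x => ?_)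
    simp only [ind_smul hK x]
  have h3 : |(d ^ Module.finrank ℝ (Eu (Fin n)))⁻¹| ≠ 0 := by positivity
  rw [h1, h2, smul_eq_mul, smul_eq_mul, mul_div_mul_left _ _ h3]

theorem vw_smul {K K' : Set (Eu (Fin n))} {d : ℝ} (hd : 0 < d) (hK : ∀ x, x ∈ K' ↔ d • x ∈ K)
    (f : Eu (Fin n) → ℝ) : VW (ind K') (fun x => f (d • x)) = VW (ind K) f := by
  unfold VW
  rw [ew_smul hd hK f, ew_smul hd hK (fun x => f x ^ 2)]

theorem vw_const_mul (w f : Eu (Fin n) → ℝ) (c : ℝ) : VW w (fun x => c * f x) = c ^ 2 * VW w f := by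
  have h1 : EW w (fun x => c * f x) = c * EW w f := by
    unfold EW
    have : ∫ x, c * f x * w x = c * ∫ x, f x * w x := by
      rw [← integral_const_mul]
      refine integral_congr_ae (Eventually.of_forall fun x => ?_)
      simp only
      ring
    rw [this, mul_div_assoc]
  have h2 : EW w (fun x => (c * f x) ^ 2) = c ^ 2 * EW w (fun x => f x ^ 2) := by
    unfold EW
    have : ∫ x, (c * f x) ^ 2 * w x = c ^ 2 * ∫ x, f x ^ 2 * w x := by
      rw [← integral_const_mul]
      refine integral_congr_ae (Eventually.of_forall fun x => ?_)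
      simp only
      ring
    rw [this, mul_div_assoc]
  unfold VW
  rw [h1, h2]
  ring

theorem ci_smul {κ δ d : ℝ} (hd : 0 < d) {K K' : Set (Eu (Fin n))} (hK : ∀ x, x ∈ K' ↔ d • x ∈ K)
    (h : Ci κ δ (ind K')) : Ci κ δ (ind K) := by
  intro s hs hθ v hv hv1 hv2
  have key := h (s / d ^ 2) (by positivity) (fun θ hθ1 => ?_) (fun x => v (d • x))
    (hv.comp (contDiff_const_smul d)) (fun y => hv1 _) (fun y => ?_)
  · rw [vw_smul hd hK v] at key
    exact key
  · have h1 : VW (ind K') (fun x => ⟪d • x, θ⟫_ℝ) = VW (ind K) (fun x => ⟪x, θ⟫_ℝ) :=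
      vw_smul hd hK (fun x => ⟪x, θ⟫_ℝ)
    have h2 : (fun x : Eu (Fin n) => ⟪d • x, θ⟫_ℝ) = fun x => d * ⟪x, θ⟫_ℝ := by
      funext x
      rw [real_inner_smul_left]
    rw [h2, vw_const_mul] at h1
    rw [le_div_iff₀ (by positivity), mul_comm, h1]
    exact hθ θ hθ1
  · have h1 : HasFDerivAt (fun x => v (d • x)) ((fderiv ℝ v (d • y)).comp
        (d • ContinuousLinearMap.id ℝ (Eu (Fin n)))) y := by
      have h2 : HasFDerivAt v (fderiv ℝ v (d • y)) (d • y) :=
        ((hv.differentiable one_ne_zero) (d • y)).hasFDerivAt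
      have h3 : HasFDerivAt (fun x : Eu (Fin n) => d • x) (d • ContinuousLinearMap.id ℝ (Eu (Fin n))) y :=
        (hasFDerivAt_id y).const_smul d
      exact h2.comp y h3
    rw [h1.fderiv]
    have h4 : (fderiv ℝ v (d • y)).comp (d • ContinuousLinearMap.id ℝ (Eu (Fin n))) =
        d • fderiv ℝ v (d • y) := by
      ext x
      simp
    rw [h4, norm_smul, Real.norm_of_nonneg hd.le]
    have h5 : κ / Real.sqrt (s / d ^ 2) = d * (κ / Real.sqrt s) := by
      rw [Real.sqrt_div hs.le, Real.sqrt_sq hd.le]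
      have : 0 < Real.sqrt s := Real.sqrt_pos.2 hs
      field_simp
    rw [h5]
    exact mul_le_mul_of_nonneg_left (hv2 _) hd.le

end CCH

theorem t_CCH (hn : S_NRS) (hc : S_CCS) : S_CCH := by
  intro δ hδ
  obtain ⟨κ, hκ, H⟩ := hc δ hδ
  refine ⟨κ, hκ, fun n R V V' hn1 hV hev E hb hS hpos => ?_⟩
  obtain ⟨W, W', E', d, hW, hE', hd, hx⟩ := hn n V V' hn1 hV hev E hb hS
  have hK : ∀ x, x ∈ KC W E' R ↔ d • x ∈ KC V E R := by
    intro x
    unfold KC
    rw [mem_inter_iff, mem_inter_iff, hx x, CCH.cn_smul hd R x]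
  refine CCH.ci_smul hd hK (H n R W W' hn1 hW E' hE' ?_)
  have h1 : KC W E' R = (fun x => d • x) ⁻¹' KC V E R := by
    ext x
    rw [mem_preimage]
    exact hK x
  rw [h1]
  have h2 := Measure.addHaar_preimage_smul (volume : Measure (Eu (Fin n))) hd.ne' (KC V E R)
  rw [h2]
  refine ENNReal.mul_pos ?_ hpos.ne'
  have : 0 < |(d ^ Module.finrank ℝ (Eu (Fin n)))⁻¹| := by positivity
  exact (ENNReal.ofReal_pos.2 this).ne'

end Pool.Agent.T2h31.OB
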