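import Pool.Agent.T2h31.OB.Stm

/-! CCS: concentration for normalised potentials at optimal levels -/

set_option autoImplicit false

namespace Pool.Agent.T2h31.OB

open MeasureTheory Set Filter Topology
open scoped ENNReal InnerProductSpace
open Pool.Agent.W695.KH (Eu EV VV Sm)
open Pool.Agent.Y506.RG (ND EW VW ILK)
open Pool.Agent.Y506.FF (LCon)
open Pool.Agent.R476.OR (CV NV mV rV FD SV KV LVL sgm sgd ind)
open Pool.Agent.T2h31.SB (Lb sv SK)

/-- the density is integrable -/
theorem ccs_int {n : ℕ} {V V' : ℝ → ℝ} (h : NE V V') :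
    Integrable (fun x : Eu (Fin n) => rh V x) := by
  have e := (EuclideanSpace.volume_preserving_symm_measurableEquiv_toLp (Fin n))
  have hi : Integrable fun t => Real.exp (-V t) := h.nv.nd.int0
  have h1 : Integrable (fun x : Fin n → ℝ => ∏ i : Fin n, Real.exp (-V (x i))) :=
    Integrable.fintype_prod (fun _ => hi)
  have h2 := (e.integrable_comp_emb (MeasurableEquiv.measurableEmbedding _)).2 h1
  have h3 : (fun x : Eu (Fin n) => rh V x) = fun x : Eu (Fin n) =>
      ∏ i : Fin n, Real.exp (-V (x i)) := by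
    funext x
    unfold rh S1
    rw [← Finset.sum_neg_distrib, Real.exp_sum]
  rw [h3]
  exact h2

theorem ccs_rh_pos {n : ℕ} (V : ℝ → ℝ) (x : Eu (Fin n)) : 0 < rh V x := Real.exp_pos _

/-- bounded functions are integrable for the density -/
theorem ccs_int_bd {n : ℕ} {V V' : ℝ → ℝ} (h : NE V V') (g : Eu (Fin n) → ℝ) (hg : Continuous g)
    (B : ℝ) (hB : ∀ x, |g x| ≤ B) : Integrable (fun x : Eu (Fin n) => g x * rh V x) :=
  (ccs_int h).bdd_mul (c := B) hg.aestronglyMeasurable (Eventually.of_forall hB)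

/-- means on the cone -/
theorem ccs_mc {n : ℕ} {V V' : ℝ → ℝ} (h : NE V V') (R : Lb n → Lb n → Prop) (hms : 0 < ms V R)
    (v : Eu (Fin n) → ℝ) (hv : Continuous v) (hb : ∀ x, |v x| ≤ 1) :
    |MC V R v| ≤ 1 ∧ MC V R (fun x => (v x - MC V R v) ^ 2) = VC V R v := by
  have i0 : IntegrableOn (fun x : Eu (Fin n) => rh V x) (CN R) := (ccs_int h).integrableOn
  have i1 : IntegrableOn (fun x : Eu (Fin n) => v x * rh V x) (CN R) :=
    (ccs_int_bd h v hv 1 hb).integrableOn
  have i2 : IntegrableOn (fun x : Eu (Fin n) => v x ^ 2 * rh V x) (CN R) := by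
    refine (ccs_int_bd h (fun x => v x ^ 2) (hv.pow 2) 1 fun x => ?_).integrableOn
    rw [abs_pow]
    exact pow_le_one₀ (abs_nonneg _) (hb x)
  constructor
  · unfold MC
    rw [abs_div, abs_of_pos hms, div_le_one hms]
    have h1 : ‖∫ x in CN R, v x * rh V x‖ ≤ ∫ x in CN R, rh V x := by
      refine norm_integral_le_of_norm_le i0 (Eventually.of_forall fun x => ?_)
      rw [norm_mul, Real.norm_of_nonneg (ccs_rh_pos V x).le, Real.norm_eq_abs]
      calc |v x| * rh V x ≤ 1 * rh V x := mul_le_mul_of_nonneg_right (hb x) (ccs_rh_pos V x).le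
        _ = rh V x := one_mul _
    exact h1
  · unfold VC
    set a := MC V R v with ha
    have hav : ∫ x in CN R, v x * rh V x = a * ms V R := by
      rw [ha]
      unfold MC
      field_simp
    have h1 : ∫ x in CN R, (v x - a) ^ 2 * rh V x =
        (∫ x in CN R, v x ^ 2 * rh V x) - 2 * a * (∫ x in CN R, v x * rh V x) +
          a ^ 2 * ms V R := by
      have h2 : ∀ x : Eu (Fin n), (v x - a) ^ 2 * rh V x =
          (v x ^ 2 * rh V x - 2 * a * (v x * rh V x)) + a ^ 2 * rh V x := fun x => by ring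
      simp_rw [h2]
      rw [integral_add, integral_sub, integral_const_mul, integral_const_mul]
      · rfl
      · exact i2
      · exact i1.const_mul _
      · exact i2.sub (i1.const_mul _)
      · exact i0.const_mul _
    unfold MC
    rw [h1, hav]
    field_simp
    ring

/-- variance for the uniform weight -/
theorem ccs_vw {n : ℕ} {K : Set (Eu (Fin n))} (hK : MeasurableSet K) (h0 : 0 < (volume K).toReal)
    (v : Eu (Fin n) → ℝ) (hv : Continuous v) (hb : ∀ x, |v x| ≤ 1) (a : ℝ) :
    VW (ind K) v ≤ (∫ x in K, (v x - a) ^ 2) / (volume K).toReal := by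
  have hfin : volume K ≠ ⊤ := by
    intro h
    rw [h] at h0
    simp at h0
  have hEW : ∀ g : Eu (Fin n) → ℝ, EW (ind K) g = (∫ x in K, g x) / (volume K).toReal := by
    intro g
    unfold EW ind
    have e1 : ∫ x, g x * K.indicator (fun _ => (1 : ℝ)) x = ∫ x in K, g x := by
      rw [← integral_indicator hK]
      congr 1
      funext x
      by_cases hx : x ∈ K
      · rw [indicator_of_mem hx, indicator_of_mem hx, mul_one]
      · rw [indicator_of_notMem hx, indicator_of_notMem hx, mul_zero]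
    have e2 : ∫ x, K.indicator (fun _ => (1 : ℝ)) x = (volume K).toReal := by
      rw [integral_indicator hK, setIntegral_const, smul_eq_mul, mul_one]
      rfl
    rw [e1, e2]
  have i1 : IntegrableOn v K := Measure.integrableOn_of_bounded hfin hv.aestronglyMeasurable
    (M := 1) (Eventually.of_forall hb)
  have i2 : IntegrableOn (fun x => v x ^ 2) K := by
    refine Measure.integrableOn_of_bounded hfin (hv.pow 2).aestronglyMeasurable
      (M := 1) (Eventually.of_forall fun x => ?_)
    rw [norm_pow]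
    exact pow_le_one₀ (norm_nonneg _) (hb x)
  have i0 : IntegrableOn (fun _ : Eu (Fin n) => a ^ 2) K := integrableOn_const hfin
  unfold VW
  rw [hEW, hEW]
  have h1 : ∫ x in K, (v x - a) ^ 2 = (∫ x in K, v x ^ 2) - 2 * a * (∫ x in K, v x) +
      (volume K).toReal * a ^ 2 := by
    have h2 : ∀ x : Eu (Fin n), (v x - a) ^ 2 = (v x ^ 2 - 2 * a * v x) + a ^ 2 := fun x => by
      ring
    simp_rw [h2]
    rw [integral_add, integral_sub, integral_const_mul, setIntegral_const, smul_eq_mul]
    · rfl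
    · exact i2
    · exact i1.const_mul _
    · exact i2.sub (i1.const_mul _)
    · exact i0
  rw [h1]
  have h3 : ((∫ x in K, v x ^ 2) - 2 * a * (∫ x in K, v x) + (volume K).toReal * a ^ 2) /
      (volume K).toReal = (∫ x in K, v x ^ 2) / (volume K).toReal -
        2 * a * ((∫ x in K, v x) / (volume K).toReal) + a ^ 2 := by
    field_simp
  rw [h3]
  nlinarith [sq_nonneg ((∫ x in K, v x) / (volume K).toReal - a)]

theorem ccs_CN {n : ℕ} (R : Lb n → Lb n → Prop) : IsClosed (CN R) := by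
  have h : CN R = ⋂ p, ⋂ q, ⋂ (_ : R p q), {x : Eu (Fin n) | sv (fun i => x i) p ≤
      sv (fun i => x i) q} := by
    ext x
    simp [CN]
  rw [h]
  refine isClosed_iInter fun p => isClosed_iInter fun q => isClosed_iInter fun _ => ?_
  have hsv : ∀ p : Lb n, Continuous fun x : Eu (Fin n) => sv (fun i => x i) p := by
    intro p
    unfold sv
    by_cases hp : p.2 = true
    · simp only [if_pos hp]
      fun_prop
    · simp only [if_neg hp]
      fun_prop
  exact isClosed_le (hsv p) (hsv q)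

theorem t_CCS (hRLB : S_RLB) (hCVC : S_CVC) (hPCN : S_PCN) (hSTC : S_STC) (hPLC : S_PLC) :
    S_CCS := by
  intro δ hδ
  obtain ⟨c1, hc1, hRLB⟩ := hRLB
  obtain ⟨c2, hc2, hCVC⟩ := hCVC
  obtain ⟨C1, hC1, hPCN⟩ := hPCN
  obtain ⟨C2, hC2, hSTC⟩ := hSTC
  obtain ⟨c3, hc3, hPLC⟩ := hPLC
  have hc : 0 < c2 * c1 := mul_pos hc2 hc1
  have hsC : 0 < Real.sqrt (c2 * c1) := Real.sqrt_pos.2 hc
  have hs1 : 0 ≤ Real.sqrt C1 := Real.sqrt_nonneg _
  obtain ⟨m, hm⟩ : ∃ m : ℝ, m = min 1 (δ / C2) := ⟨_, rfl⟩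
  have hm0 : 0 < m := by
    rw [hm]
    exact lt_min one_pos (div_pos hδ (by linarith))
  refine ⟨Real.sqrt (c2 * c1) * (m / (Real.sqrt C1 + 4)), by positivity, ?_⟩
  intro n R V V' hn hNE E hE hvol
  obtain ⟨n, rfl⟩ : ∃ k, n = k + 1 := ⟨n - 1, by omega⟩
  have hVc : Continuous V := continuous_iff_continuousAt.2 fun t =>
    (hNE.nv.cv.der t).continuousAt
  -- the set
  have hfin : volume (KC V E R) ≠ ⊤ := by
    have h1 : KC V E R ⊆ KV (fun _ : Fin (n + 1) => V) E := fun x hx => hx.1
    exact ((measure_mono h1).trans_lt hE.bdd.measure_lt_top).ne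
  have hvr : 0 < (volume (KC V E R)).toReal := ENNReal.toReal_pos hvol.ne' hfin
  have hS1c : Continuous fun x : Eu (Fin (n + 1)) => S1 V x := by
    unfold S1
    fun_prop
  have hKm : MeasurableSet (KC V E R) := by
    refine MeasurableSet.inter ?_ (ccs_CN R).measurableSet
    exact (isClosed_le hS1c continuous_const).measurableSet
  have hms : 0 < ms V R := by
    have h1 := (hPLC (n + 1) R V V' hNE E hE).2
    by_contra hneg
    have h2 : ms V R * Real.exp E ≤ 0 :=
      mul_nonpos_of_nonpos_of_nonneg (not_lt.mp hneg) (Real.exp_pos _).le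
    linarith
  intro s hs hvar v hv hv1 hvd
  -- lower bound for `s`
  obtain ⟨θ, hθ, hRC⟩ := hRLB (n + 1) R V V' hn hNE hms
  have hcs : c2 * c1 ≤ s := by
    have h1 := hCVC n R V V' hNE hms E hE θ hθ (hc1.trans_le hRC)
    calc c2 * c1 ≤ c2 * RC V R θ := mul_le_mul_of_nonneg_left hRC hc2.le
      _ ≤ _ := h1
      _ ≤ s := hvar θ hθ
  set l : ℝ := m / (Real.sqrt C1 + 4) with hl
  have hl0 : 0 ≤ l := by positivity
  have hvl : ∀ x, ‖fderiv ℝ v x‖ ≤ l := by
    intro x
    refine (hvd x).trans ?_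
    have h1 : Real.sqrt (c2 * c1) ≤ Real.sqrt s := Real.sqrt_le_sqrt hcs
    rw [div_le_iff₀ (hsC.trans_le h1), mul_comm]
    exact mul_le_mul_of_nonneg_left h1 hl0
  have hvc : Continuous v := hv.continuous
  -- Poincare
  have hint : Integrable (fun x => v x ^ 2 * rh V x) := by
    refine ccs_int_bd hNE (fun x => v x ^ 2) (hvc.pow 2) 1 fun x => ?_
    rw [abs_pow]
    exact pow_le_one₀ (abs_nonneg _) (hv1 x)
  have hVC := hPCN (n + 1) R V V' hNE hms v l hv hl0 hvl hint
  obtain ⟨ha1, hMC⟩ := ccs_mc hNE R hms v hvc hv1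
  set a : ℝ := MC V R v with ha
  have hUd : ∀ x, HasFDerivAt (fun x => (v x - a) ^ 2)
      ((v x - a) • fderiv ℝ v x + (v x - a) • fderiv ℝ v x) x := by
    intro x
    have h1 : HasFDerivAt (fun x => v x - a) (fderiv ℝ v x) x :=
      ((hv.differentiable one_ne_zero) x).hasFDerivAt.sub_const a
    have h2 := h1.mul h1
    have h3 : (fun x => (v x - a) ^ 2) = fun x => (v x - a) * (v x - a) := by
      funext x
      ring
    rw [h3]
    exact h2
  have hva : ∀ x, |v x - a| ≤ 2 := fun x => by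
    have h1 := abs_sub (v x) a
    have h2 := hv1 x
    linarith
  have hUl : ∀ x, ‖fderiv ℝ (fun x => (v x - a) ^ 2) x‖ ≤ 4 * l := by
    intro x
    rw [(hUd x).fderiv]
    have h1 : ‖(v x - a) • fderiv ℝ v x‖ ≤ 2 * l := by
      rw [norm_smul, Real.norm_eq_abs]
      exact mul_le_mul (hva x) (hvl x) (norm_nonneg _) zero_le_two
    have h2 := norm_add_le ((v x - a) • fderiv ℝ v x) ((v x - a) • fderiv ℝ v x)
    linarith
  have hη0 : 0 ≤ Real.sqrt C1 * l := by positivity
  have hden : 0 < Real.sqrt C1 + 4 := by positivity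
  have hlm : (Real.sqrt C1 + 4) * l = m := by
    rw [hl]
    field_simp
  have hm1 : m ≤ 1 := by
    rw [hm]
    exact min_le_left _ _
  have hη1 : Real.sqrt C1 * l ≤ 1 := by nlinarith
  have hMU : MC V R (fun x => (v x - a) ^ 2) ≤ (Real.sqrt C1 * l) ^ 2 := by
    rw [hMC, mul_pow, Real.sq_sqrt (by linarith)]
    exact hVC
  have hst := hSTC (n + 1) R V V' hNE hms E hE (fun x => (v x - a) ^ 2) (4 * l)
    (Real.sqrt C1 * l) ((hv.sub contDiff_const).pow 2) (fun x => sq_nonneg _)
    (fun x => by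
      have h1 := hva x
      have h2 : (v x - a) ^ 2 = |v x - a| ^ 2 := (sq_abs _).symm
      show (v x - a) ^ 2 ≤ 4
      rw [h2]
      nlinarith [abs_nonneg (v x - a)])
    (by positivity) hUl hη0 hη1 hMU
  refine (ccs_vw hKm hvr v hvc hv1 a).trans ?_
  rw [div_le_iff₀ hvr]
  refine hst.trans (mul_le_mul_of_nonneg_right ?_ hvr.le)
  have h1 : Real.sqrt C1 * l + 4 * l = m := by rw [← hlm]; ring
  rw [h1]
  have h2 : m ≤ δ / C2 := by
    rw [hm]
    exact min_le_right _ _
  have hC20 : 0 < C2 := by linarith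
  calc C2 * m ≤ C2 * (δ / C2) := mul_le_mul_of_nonneg_left h2 hC20.le
    _ = δ := by field_simp

end Pool.Agent.T2h31.OB
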