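import Pool.Agent.T2h31.OB.Stm
import Pool.Agent.R834.OR.E2

/-!
# Project OB, task CVC: lower bound for the variance of linear functionals on the body
-/

set_option autoImplicit false

namespace Pool.Agent.T2h31.OB

open MeasureTheory Set Filter Topology
open scoped ENNReal InnerProductSpace
open Pool.Agent.W695.KH (Eu)
open Pool.Agent.Y506.RG (EW VW ILK)
open Pool.Agent.R476.OR (CV NV mV rV SV KV LVL ind)
open Pool.Agent.R834.OR (low_of_bd vw_ind)
open Pool.Agent.T2h31.SB (Lb sv)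

theorem isClosed_CN {n : ℕ} (R : Lb n → Lb n → Prop) : IsClosed (CN R) := by
  have h : CN R = ⋂ p : Lb n, ⋂ q : Lb n, ⋂ _ : R p q,
      {x : Eu (Fin n) | sv (fun i => x i) p ≤ sv (fun i => x i) q} := by
    ext x
    simp only [CN, mem_ofPred_eq, mem_iInter]
  rw [h]
  have hc : ∀ p : Lb n, Continuous fun x : Eu (Fin n) => sv (fun i => x i) p := by
    intro p
    unfold sv
    split_ifs
    · fun_prop
    · fun_prop
  exact isClosed_iInter fun p => isClosed_iInter fun q => isClosed_iInter fun _ =>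
    isClosed_le (hc p) (hc q)

theorem compact_KC {n : ℕ} {R : Lb n → Lb n → Prop} {V V' : ℝ → ℝ} (hV : NE V V') {E : ℝ}
    (hE : LVL (fun _ : Fin n => V) E) : IsCompact (KC V E R) := by
  have h1 : IsCompact (KV (fun _ : Fin n => V) E) :=
    Pool.Agent.R834.OR.kv_comp (V := fun _ : Fin n => V) (V' := fun _ => V') (fun _ => hV.nv) hE
  exact h1.inter_right (isClosed_CN R)

theorem cvc_main {n : ℕ} {R : Lb (n + 1) → Lb (n + 1) → Prop} {V V' : ℝ → ℝ} (hV : NE V V')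
    (hms : 0 < ms V R) {E : ℝ}
    (hE : LVL (fun _ : Fin (n + 1) => V) E) (θ : Eu (Fin (n + 1))) (g : Eu (Fin 2) → ℝ≥0∞)
    (hgm : Measurable g)
    (C0 cP : ℝ) (hC0 : 0 < C0) (hcP : 0 < cP) (hg1 : ∀ z, g z ≤ ENNReal.ofReal C0)
    (hR : 0 < RC V R θ) (a0 b0 ζ : ℝ)
    (hform : ∀ φ : ℝ → ℝ≥0∞, Measurable φ →
      ∫⁻ x in KC V E R, φ ⟪θ, x⟫_ℝ =
        ENNReal.ofReal (ms V R * Real.exp E / Real.sqrt (sC (n + 1) V)) *
      ∫⁻ z : ℝ, φ (a0 + Real.sqrt (RC V R θ) * z + b0) * g (WithLp.toLp 2 ![z, ζ]))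
    (hpl : cP * ms V R ≤ Real.sqrt (sC (n + 1) V) * ((volume (KC V E R)).toReal * Real.exp (-E))) :
    1 / (32 * (C0 / cP) ^ 2) * RC V R θ ≤
      VW (ind (KC V E R)) (fun x => ⟪x, θ⟫_ℝ) := by
  have hK := compact_KC (R := R) hV hE
  have hfin : volume (KC V E R) ≠ ⊤ := hK.measure_lt_top.ne
  have hL : 0 < Real.sqrt (sC (n + 1) V) * ((volume (KC V E R)).toReal * Real.exp (-E)) :=
    lt_of_lt_of_le (mul_pos hcP hms) hpl
  have hs : 0 < Real.sqrt (sC (n + 1) V) := by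
    rcases (Real.sqrt_nonneg (sC (n + 1) V)).eq_or_lt with h | h
    · rw [← h, zero_mul] at hL
      exact absurd hL (lt_irrefl _)
    · exact h
  have hv : 0 < (volume (KC V E R)).toReal := by
    rcases (ENNReal.toReal_nonneg (a := volume (KC V E R))).eq_or_lt with h | h
    · rw [← h, zero_mul, mul_zero] at hL
      exact absurd hL (lt_irrefl _)
    · exact h
  obtain ⟨v, hvdef⟩ : ∃ v, v = (volume (KC V E R)).toReal := ⟨_, rfl⟩
  rw [← hvdef] at hv hpl hL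
  have hvol : volume (KC V E R) = ENNReal.ofReal v := by
    rw [hvdef]; exact (ENNReal.ofReal_toReal hfin).symm
  obtain ⟨q, hq⟩ : ∃ q, q = ms V R * Real.exp E / Real.sqrt (sC (n + 1) V) := ⟨_, rfl⟩
  rw [← hq] at hform
  have hqp : 0 < q := by
    rw [hq]; exact div_pos (mul_pos hms (Real.exp_pos _)) hs
  have hA : 0 < C0 / cP := div_pos hC0 hcP
  obtain ⟨τ, hτ⟩ : ∃ τ, τ = Real.sqrt (RC V R θ) := ⟨_, rfl⟩
  rw [← hτ] at hform
  have htp : 0 < τ := by rw [hτ]; exact Real.sqrt_pos.2 hR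
  have ht2 : τ ^ 2 = RC V R θ := by rw [hτ]; exact Real.sq_sqrt hR.le
  -- the density
  obtain ⟨P, hP⟩ : ∃ P : ℝ → ℝ≥0∞, P = fun z =>
    ENNReal.ofReal (q / v) * g (WithLp.toLp 2 ![z, ζ]) := ⟨_, rfl⟩
  have hvec : Measurable fun z : ℝ => (WithLp.toLp 2 ![z, ζ] : Eu (Fin 2)) := by
    apply Continuous.measurable
    refine (PiLp.continuous_toLp 2 _).comp ?_
    refine continuous_pi fun i => ?_
    fin_cases i
    · simpa using! continuous_id
    · simpa using! continuous_const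
  have hPm : Measurable P := by rw [hP]; exact (hgm.comp hvec).const_mul _
  have hform' : ∀ φ : ℝ → ℝ≥0∞, Measurable φ →
      ∫⁻ x in KC V E R, φ ⟪θ, x⟫_ℝ = ENNReal.ofReal v * ∫⁻ z, φ (a0 + τ * z + b0) * P z := by
    intro φ hφ
    rw [hform φ hφ]
    have hmeas : Measurable fun z : ℝ => φ (a0 + τ * z + b0) * g (WithLp.toLp 2 ![z, ζ]) :=
      (hφ.comp (by fun_prop)).mul (hgm.comp hvec)
    have hmeas2 : Measurable fun z : ℝ => φ (a0 + τ * z + b0) * P z :=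
      (hφ.comp (by fun_prop)).mul hPm
    rw [← lintegral_const_mul _ hmeas, ← lintegral_const_mul _ hmeas2]
    refine lintegral_congr fun z => ?_
    have e : ENNReal.ofReal q = ENNReal.ofReal v * ENNReal.ofReal (q / v) := by
      rw [← ENNReal.ofReal_mul hv.le]; congr 1; field_simp
    rw [e, hP]
    show ENNReal.ofReal v * ENNReal.ofReal (q / v) *
        (φ (a0 + τ * z + b0) * g (WithLp.toLp 2 ![z, ζ])) =
      ENNReal.ofReal v * (φ (a0 + τ * z + b0) *
        (ENNReal.ofReal (q / v) * g (WithLp.toLp 2 ![z, ζ])))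
    ring
  have hP1 : ∫⁻ z, P z = 1 := by
    have h := hform' (fun _ => 1) measurable_const
    simp only [one_mul, lintegral_one, Measure.restrict_apply_univ] at h
    rw [hvol] at h
    have hv0 : ENNReal.ofReal v ≠ 0 := (ENNReal.ofReal_pos.2 hv).ne'
    have h' : ENNReal.ofReal v * 1 = ENNReal.ofReal v * ∫⁻ z, P z := by rw [mul_one]; exact h
    exact ((ENNReal.mul_right_inj hv0 ENNReal.ofReal_ne_top).1 h').symm
  have hqv : q / v ≤ 1 / cP := by
    rw [div_le_div_iff₀ hv hcP, one_mul, hq, div_mul_eq_mul_div, div_le_iff₀ hs]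
    have h := mul_le_mul_of_nonneg_left hpl (Real.exp_pos E).le
    have e : Real.exp E * (Real.sqrt (sC (n + 1) V) * (v * Real.exp (-E))) =
        v * Real.sqrt (sC (n + 1) V) := by
      rw [Real.exp_neg]; field_simp
    rw [e] at h
    linarith
  have hPC : ∀ z, P z ≤ ENNReal.ofReal (C0 / cP) := by
    intro z
    rw [hP]
    calc ENNReal.ofReal (q / v) * g (WithLp.toLp 2 ![z, ζ])
        ≤ ENNReal.ofReal (1 / cP) * ENNReal.ofReal C0 :=
          mul_le_mul' (ENNReal.ofReal_le_ofReal hqv) (hg1 _)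
      _ = ENNReal.ofReal (C0 / cP) := by
          rw [← ENNReal.ofReal_mul (by positivity)]; congr 1; ring
  -- the variance
  have hfc : Continuous fun x : Eu (Fin (n + 1)) => ⟪x, θ⟫_ℝ := by fun_prop
  obtain ⟨a, ha⟩ : ∃ a, a = EW (ind (KC V E R)) (fun x => ⟪x, θ⟫_ℝ) := ⟨_, rfl⟩
  have hvar := vw_ind (KC V E R) hK (by rw [← hvdef]; exact hv) (fun x => ⟪x, θ⟫_ℝ) hfc
  rw [← ha, ← hvdef] at hvar
  have hVW : ENNReal.ofReal ((∫ x in KC V E R, (⟪x, θ⟫_ℝ - a) ^ 2) / v) =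
      ∫⁻ z, ENNReal.ofReal ((a0 + τ * z + b0 - a) ^ 2) * P z := by
    have hi : IntegrableOn (fun x : Eu (Fin (n + 1)) => (⟪x, θ⟫_ℝ - a) ^ 2) (KC V E R) :=
      ((hfc.sub continuous_const).pow 2).continuousOn.integrableOn_compact hK
    have h5 := hform' (fun u => ENNReal.ofReal ((u - a) ^ 2)) (by fun_prop)
    have h6 : ∫⁻ x in KC V E R, ENNReal.ofReal ((⟪θ, x⟫_ℝ - a) ^ 2) =
        ENNReal.ofReal (∫ x in KC V E R, (⟪x, θ⟫_ℝ - a) ^ 2) := by
      rw [ofReal_integral_eq_lintegral_ofReal hi (Eventually.of_forall fun x => sq_nonneg _)]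
      simp only [real_inner_comm]
    rw [h6] at h5
    have hv0 : ENNReal.ofReal v ≠ 0 := (ENNReal.ofReal_pos.2 hv).ne'
    rw [ENNReal.ofReal_div_of_pos hv, h5, mul_comm,
      ENNReal.mul_div_cancel_right hv0 ENNReal.ofReal_ne_top]
  have hVn : 0 ≤ VW (ind (KC V E R)) (fun x => ⟪x, θ⟫_ℝ) := by
    rw [hvar]
    exact div_nonneg (integral_nonneg fun x => sq_nonneg _) hv.le
  rw [← ENNReal.ofReal_le_ofReal_iff hVn, hvar, hVW, ← ht2, mul_comm,
    ENNReal.ofReal_mul (sq_nonneg _)]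
  have h7 := low_of_bd P hPm (C0 / cP) hA hPC hP1 ((a - a0 - b0) / τ)
  refine (mul_le_mul_right h7 _).trans ?_
  rw [← lintegral_const_mul _ (by fun_prop)]
  refine le_of_eq (lintegral_congr fun z => ?_)
  rw [← mul_assoc, ← ENNReal.ofReal_mul (sq_nonneg _)]
  congr 2
  rw [← mul_pow]
  congr 1
  field_simp
  ring

/-- CVC -/
theorem t_CVC (hg : S_GTC) (hp : S_PLC) : S_CVC := by
  obtain ⟨K, hK, hg⟩ := hg
  obtain ⟨cP, hcP, hp⟩ := hp
  obtain ⟨_, C0, _, _, hC0, _, hld⟩ := Pool.Agent.Z864.RG.ldk K 2 hK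
  refine ⟨1 / (32 * (C0 / cP) ^ 2), by positivity, fun n R V V' hV hms E hE θ hθ hR => ?_⟩
  obtain ⟨g, hgI, hform⟩ := hg n R V V' hV hms θ hθ hR
  obtain ⟨_, hl1, _⟩ := hld g hgI
  exact cvc_main hV hms hE θ g hgI.meas C0 cP hC0 hcP hl1 hR _ _ _ (hform E)
    (hp (n + 1) R V V' hV E hE).1

end Pool.Agent.T2h31.OB
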