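import Pool.Agent.T2h31.OB.Stm
import Pool.Agent.Y506.FF.Stm
import Pool.Agent.R972.OP.Fin
import Pool.Agent.W695.KH.Mink2

/-!
# Project OB, task FNS (helper62): from concentration to sets of measure one half
-/

set_option autoImplicit false

namespace Pool.Agent.T2h31.OB.FNS

open MeasureTheory Set Filter Topology
open scoped ENNReal InnerProductSpace
open Pool.Agent.W695.KH (Eu EV VV Sm)
open Pool.Agent.Y506.RG (EW VW)
open Pool.Agent.Y506.FF (LCon S_MILB S_HALF)
open Pool.Agent.R476.OR (ind)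
open Pool.Agent.R972.OP (un un_prob un_int un_integrable var_eq)

variable {n : ℕ}

theorem ew_ind (K : Set (Eu (Fin n))) (hK : MeasurableSet K) (f : Eu (Fin n) → ℝ) :
    EW (ind K) f = EV K f := by
  unfold EW EV
  have e1 : (fun x => f x * ind K x) = K.indicator f := by
    funext x
    by_cases hx : x ∈ K <;> simp [ind, hx]
  have e2 : ∫ x, ind K x = (volume K).toReal := by
    unfold ind
    rw [integral_indicator hK]
    simp [Measure.real]
  rw [e1, e2, integral_indicator hK]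

theorem vw_ind (K : Set (Eu (Fin n))) (hK : MeasurableSet K) (f : Eu (Fin n) → ℝ) :
    VW (ind K) f = VV K f := by
  unfold VW VV
  rw [ew_ind K hK, ew_ind K hK]

/-- Lipschitz concentration gives the inequality for sets of measure one half -/
theorem core (hmil : S_MILB) {K : Set (Eu (Fin n))} (hc : IsCompact K) (hco : Convex ℝ K)
    (hv : 0 < volume K) {l : ℝ} (hl : 0 < l) (h : LCon K l (1 / 32)) (S : Set (Eu (Fin n)))
    (hS : un K S = 1 / 2) : ENNReal.ofReal (l / 8) ≤
      liminf (fun ε : ℝ => (un K (Metric.thickening ε S) - un K S) / ENNReal.ofReal ε) (𝓝[>] 0) := by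
  have key := Pool.Agent.W695.KH.mink2 K hc hv (2 / l) (by positivity)
    (fun f L' M' hf hfb hf5 => hmil (Fin n) K hc hco hv (1 / 32) l (by norm_num) hl h f L' M' hf
      hfb (by linarith)) (un K) rfl S hS
  obtain ⟨I, hI⟩ : ∃ I : ℝ≥0∞, I = liminf (fun ε : ℝ => (un K (Metric.thickening ε S) - un K S) /
    ENNReal.ofReal ε) (𝓝[>] 0) := ⟨_, rfl⟩
  rw [← hI] at key ⊢
  rw [hS] at key
  have h1 : (1 / 2 : ℝ≥0∞) * (1 - 1 / 2) = ENNReal.ofReal (1 / 4) := by
    have h2 : (1 / 2 : ℝ≥0∞) = ENNReal.ofReal (1 / 2) := by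
      rw [ENNReal.ofReal_div_of_pos (by norm_num)]
      norm_num
    rw [h2, ← ENNReal.ofReal_one, ← ENNReal.ofReal_sub _ (by norm_num),
      ← ENNReal.ofReal_mul (by norm_num)]
    norm_num
  rw [h1] at key
  have h3 : ENNReal.ofReal (l / 8) = ENNReal.ofReal (l / 2) * ENNReal.ofReal (1 / 4) := by
    rw [← ENNReal.ofReal_mul (by positivity)]
    congr 1
    ring
  rw [h3]
  calc ENNReal.ofReal (l / 2) * ENNReal.ofReal (1 / 4) ≤
        ENNReal.ofReal (l / 2) * (ENNReal.ofReal (2 / l) * I) := mul_le_mul_right key _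
    _ = I := by
        rw [← mul_assoc, ← ENNReal.ofReal_mul (by positivity)]
        have : l / 2 * (2 / l) = 1 := by field_simp
        rw [this, ENNReal.ofReal_one, one_mul]

/-- the largest variance -/
theorem exists_max {K : Set (Eu (Fin n))} (hn : 1 ≤ n) (hc : IsCompact K) :
    ∃ θ : Eu (Fin n), ‖θ‖ = 1 ∧ ∀ ξ : Eu (Fin n), ‖ξ‖ = 1 →
      VV K (fun x => ⟪x, ξ⟫_ℝ) ≤ VV K fun x => ⟪x, θ⟫_ℝ := by
  have hcont : Continuous fun θ : Eu (Fin n) => VV K fun x => ⟪x, θ⟫_ℝ := by
    unfold VV EV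
    have h1 : Continuous fun θ : Eu (Fin n) => ∫ x in K, ⟪x, θ⟫_ℝ ^ 2 :=
      continuous_parametric_integral_of_continuous
        (f := fun θ x : Eu (Fin n) => ⟪x, θ⟫_ℝ ^ 2) (by fun_prop) hc
    have h2 : Continuous fun θ : Eu (Fin n) => ∫ x in K, ⟪x, θ⟫_ℝ :=
      continuous_parametric_integral_of_continuous
        (f := fun θ x : Eu (Fin n) => ⟪x, θ⟫_ℝ) (by fun_prop) hc
    exact (h1.div_const _).sub ((h2.div_const _).pow 2)
  obtain ⟨θ, hθ, hmax⟩ := (isCompact_sphere (0 : Eu (Fin n)) 1).exists_isMaxOn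
    ⟨EuclideanSpace.single ⟨0, hn⟩ 1, by simp⟩ hcont.continuousOn
  refine ⟨θ, by simpa using hθ, fun ξ hξ => ?_⟩
  exact hmax (show ξ ∈ Metric.sphere (0 : Eu (Fin n)) 1 by simpa using hξ)

theorem VV_nonneg {K : Set (Eu (Fin n))} (hc : IsCompact K) (hv : 0 < volume K)
    (v : Eu (Fin n) → ℝ) (h : Continuous v) : 0 ≤ VV K v := by
  rw [← var_eq hc hv v h]
  exact ProbabilityTheory.variance_nonneg _ _

end Pool.Agent.T2h31.OB.FNS

namespace Pool.Agent.T2h31.OB

open MeasureTheory Set Filter Topology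
open scoped ENNReal InnerProductSpace
open Pool.Agent.W695.KH (Eu EV VV Sm)
open Pool.Agent.Y506.RG (EW VW)
open Pool.Agent.Y506.FF (LCon S_MILB S_HALF)
open Pool.Agent.R476.OR (ind)
open Pool.Agent.R972.OP (un un_prob un_int un_integrable var_eq)

theorem t_FNS (hmil : S_MILB) (hhalf : S_HALF) : S_FNS := by
  intro κ hκ
  obtain ⟨C, hC, HH⟩ := hhalf
  have hsC : 0 < Real.sqrt C := Real.sqrt_pos.2 hC
  refine ⟨κ / (8 * Real.sqrt C), by positivity, ?_⟩
  intro n K hn hc hco hi hCi μ hμ t ht A _ hA2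
  have hμ' : μ = un K := hμ
  subst hμ'
  have hv := Pool.Agent.R972.OP.vpos hi
  have hprob : IsProbabilityMeasure (un K) := un_prob hc hv
  obtain ⟨θ, hθ, hmax⟩ := FNS.exists_max hn hc
  obtain ⟨s, hs⟩ : ∃ s : ℝ, s = VV K fun x => ⟪x, θ⟫_ℝ := ⟨_, rfl⟩
  have hs0 : 0 ≤ s := by
    rw [hs]
    exact FNS.VV_nonneg hc hv _ (by fun_prop)
  obtain ⟨I, hI⟩ : ∃ I : ℝ≥0∞, I = liminf (fun ε : ℝ =>
    (un K (Metric.thickening ε A) - un K A) / ENNReal.ofReal ε) (𝓝[>] 0) := ⟨_, rfl⟩
  -- the inequality with every `s' ≥ s`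
  have hall : ∀ s' : ℝ, 0 < s' → s ≤ s' → ENNReal.ofReal (κ / Real.sqrt s' / 8) ≤ I := by
    intro s' hs' hss
    have hl : 0 < κ / Real.sqrt s' := div_pos hκ (Real.sqrt_pos.2 hs')
    rw [hI]
    refine FNS.core hmil hc hco hv hl ?_ A hA2
    intro v hv1 hvb hvd
    rw [← FNS.vw_ind K hc.measurableSet]
    refine hCi s' hs' (fun ξ hξ => ?_) v hv1 hvb hvd
    rw [FNS.vw_ind K hc.measurableSet]
    exact (hmax ξ hξ).trans (by rw [← hs]; exact hss)
  rw [← hI]
  rcases hs0.eq_or_lt with h0 | hspos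
  · -- no variance: the perimeter is infinite
    have hItop : I = ⊤ := by
      by_contra hne
      have hr : 0 < I.toReal + 1 := by positivity
      have h1 := hall ((κ / (8 * (I.toReal + 1))) ^ 2) (by positivity)
        (by rw [← h0]; positivity)
      rw [Real.sqrt_sq (by positivity)] at h1
      have h2 : κ / (κ / (8 * (I.toReal + 1))) / 8 = I.toReal + 1 := by
        field_simp
      rw [h2] at h1
      have h3 := ENNReal.toReal_mono hne h1
      rw [ENNReal.toReal_ofReal hr.le] at h3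
      linarith
    rw [hItop]
    exact le_top
  · have hne : θ ≠ 0 := by
      intro h
      rw [h, norm_zero] at hθ
      exact zero_ne_one hθ
    obtain ⟨m, hm⟩ := HH (Fin n) K hc hco hi (un K) rfl θ t hθ (fun b => ht θ b hne)
    have hcont : Continuous fun x : Eu (Fin n) => (⟪θ, x⟫_ℝ - m) ^ 2 := by fun_prop
    have hint : Integrable (fun x : Eu (Fin n) => (⟪θ, x⟫_ℝ - m) ^ 2) (un K) :=
      un_integrable hc hv _ hcont
    rw [← ofReal_integral_eq_lintegral_ofReal hint
      (Eventually.of_forall fun x => sq_nonneg _)] at hm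
    have h3 : s ≤ ∫ x, (⟪θ, x⟫_ℝ - m) ^ 2 ∂(un K) := by
      have h4 : ProbabilityTheory.variance (fun x => ⟪x, θ⟫_ℝ - m) (un K) =
          ProbabilityTheory.variance (fun x => ⟪x, θ⟫_ℝ) (un K) :=
        ProbabilityTheory.variance_sub_const (by fun_prop) m
      have h5 : ProbabilityTheory.variance (fun x => ⟪x, θ⟫_ℝ) (un K) =
          VV K fun x => ⟪x, θ⟫_ℝ := var_eq hc hv _ (by fun_prop)
      rw [hs, ← h5, ← h4]
      refine (ProbabilityTheory.variance_le_expectation_sq (by fun_prop)).trans (le_of_eq ?_)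
      refine integral_congr_ae (Eventually.of_forall fun x => ?_)
      simp only [Pi.pow_apply]
      rw [real_inner_comm]
    have h5 : t ^ 2 * ENNReal.ofReal s ≤ ENNReal.ofReal C :=
      (mul_le_mul_right (ENNReal.ofReal_le_ofReal h3) _).trans hm
    have ht2 : t ^ 2 ≤ ENNReal.ofReal (C / s) := by
      have e : ENNReal.ofReal (C / s) = ENNReal.ofReal C * ENNReal.ofReal (1 / s) := by
        rw [← ENNReal.ofReal_mul hC.le]
        congr 1
        ring
      rw [e]
      calc t ^ 2 = t ^ 2 * ENNReal.ofReal s * ENNReal.ofReal (1 / s) := by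
            rw [mul_assoc, ← ENNReal.ofReal_mul hs0, mul_one_div_cancel hspos.ne',
              ENNReal.ofReal_one, mul_one]
        _ ≤ _ := mul_le_mul_left h5 _
    have ht3 : t ≤ ENNReal.ofReal (Real.sqrt (C / s)) := by
      have e : ENNReal.ofReal (C / s) = ENNReal.ofReal (Real.sqrt (C / s)) ^ 2 := by
        rw [← ENNReal.ofReal_pow (Real.sqrt_nonneg _), Real.sq_sqrt (by positivity)]
      rw [e] at ht2
      exact (ENNReal.pow_le_pow_left_iff two_ne_zero).1 ht2
    refine le_trans ?_ (hall s hspos le_rfl)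
    calc ENNReal.ofReal (κ / (8 * Real.sqrt C)) * t
        ≤ ENNReal.ofReal (κ / (8 * Real.sqrt C)) * ENNReal.ofReal (Real.sqrt (C / s)) :=
          mul_le_mul_right ht3 _
      _ = ENNReal.ofReal (κ / Real.sqrt s / 8) := by
          rw [← ENNReal.ofReal_mul (by positivity), Real.sqrt_div hC.le]
          congr 1
          have : 0 < Real.sqrt s := Real.sqrt_pos.2 hspos
          field_simp

end Pool.Agent.T2h31.OB
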