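import Pool.Agent.T2h31.OB.Stm

/-!
# Elementary facts on the bodies (task GEO of project OB)
-/

set_option autoImplicit false

namespace Pool.Agent.T2h31.OB

open MeasureTheory Set Filter Topology
open scoped ENNReal InnerProductSpace
open Pool.Agent.W695.KH (Eu EV VV Sm)
open Pool.Agent.T2h31.SB (Lb sv SK)

namespace GEO

variable {n : ℕ}

/-- the cube -/
def Cb (n : ℕ) (b : ℝ) : Set (Eu (Fin n)) := {x | ∀ i, |x i| ≤ b}

theorem Cb_compact (b : ℝ) : IsCompact (Cb n b) := by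
  have h : Cb n b = (WithLp.toLp 2 : (Fin n → ℝ) → Eu (Fin n)) ''
      Icc (fun _ => -b) (fun _ => b) := by
    ext x
    constructor
    · intro hx
      refine ⟨fun i => x i, ⟨fun i => (abs_le.1 (hx i)).1, fun i => (abs_le.1 (hx i)).2⟩, rfl⟩
    · rintro ⟨y, ⟨h1, h2⟩, rfl⟩
      exact fun i => abs_le.2 ⟨h1 i, h2 i⟩
  rw [h]
  exact isCompact_Icc.image (PiLp.continuous_toLp 2 _)

theorem Cb_convex (b : ℝ) : Convex ℝ (Cb n b) := by
  intro x hx y hy s t hs ht hst i
  have h1 : (s • x + t • y) i = s * x i + t * y i := rfl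
  rw [h1]
  have hx' := abs_le.1 (hx i)
  have hy' := abs_le.1 (hy i)
  refine abs_le.2 ⟨?_, ?_⟩
  · have i1 := mul_le_mul_of_nonneg_left hx'.1 hs
    have i2 := mul_le_mul_of_nonneg_left hy'.1 ht
    have : -b = s * -b + t * -b := by rw [← add_mul, hst, one_mul]
    linarith
  · have i1 := mul_le_mul_of_nonneg_left hx'.2 hs
    have i2 := mul_le_mul_of_nonneg_left hy'.2 ht
    have : b = s * b + t * b := by rw [← add_mul, hst, one_mul]
    linarith

theorem sv_lin (x y : Eu (Fin n)) (s t : ℝ) (p : Lb n) :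
    sv (fun i => (s • x + t • y) i) p = s * sv (fun i => x i) p + t * sv (fun i => y i) p := by
  unfold sv
  have h1 : (s • x + t • y) p.1 = s * x p.1 + t * y p.1 := rfl
  split_ifs
  · exact h1
  · show -((s • x + t • y) p.1) = s * -(x p.1) + t * -(y p.1)
    rw [h1]
    ring

theorem sv_cont (p : Lb n) : Continuous fun x : Eu (Fin n) => sv (fun i => x i) p := by
  unfold sv
  split_ifs
  · fun_prop
  · fun_prop

theorem CN_closed (R : Lb n → Lb n → Prop) : IsClosed (CN R) := by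
  have h : CN R = ⋂ p : Lb n, ⋂ q : Lb n, ⋂ _ : R p q,
      {x : Eu (Fin n) | sv (fun i => x i) p ≤ sv (fun i => x i) q} := by
    ext x
    simp only [CN, mem_ofPred_eq, mem_iInter]
  rw [h]
  exact isClosed_iInter fun p => isClosed_iInter fun q => isClosed_iInter fun _ =>
    isClosed_le (sv_cont p) (sv_cont q)

theorem CN_convex (R : Lb n → Lb n → Prop) : Convex ℝ (CN R) := by
  intro x hx y hy s t hs ht _ p q hpq
  rw [sv_lin, sv_lin]
  exact add_le_add (mul_le_mul_of_nonneg_left (hx p q hpq) hs)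
    (mul_le_mul_of_nonneg_left (hy p q hpq) ht)

theorem V_cont {V : ℝ → ℝ} (hV : ConvexOn ℝ univ V) : Continuous V :=
  continuousOn_univ.1 (hV.continuousOn isOpen_univ)

theorem K1_closed {V : ℝ → ℝ} (hV : ConvexOn ℝ univ V) (E : ℝ) : IsClosed (K1 n V E) := by
  have hc := V_cont hV
  have h : Continuous fun x : Eu (Fin n) => S1 V x := by
    unfold S1
    exact continuous_finsetSum _ fun i _ => hc.comp (by fun_prop)
  exact isClosed_le h continuous_const

theorem K1_convex {V : ℝ → ℝ} (hV : ConvexOn ℝ univ V) (E : ℝ) : Convex ℝ (K1 n V E) := by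
  intro x hx y hy s t hs ht hst
  have hx' : S1 V x ≤ E := hx
  have hy' : S1 V y ≤ E := hy
  have h1 : S1 V (s • x + t • y) ≤ s * S1 V x + t * S1 V y := by
    unfold S1
    rw [Finset.mul_sum, Finset.mul_sum, ← Finset.sum_add_distrib]
    refine Finset.sum_le_sum fun i _ => ?_
    exact hV.2 (mem_univ (x i)) (mem_univ (y i)) hs ht hst
  have h2 := mul_le_mul_of_nonneg_left hx' hs
  have h3 := mul_le_mul_of_nonneg_left hy' ht
  have h4 : s * E + t * E = E := by rw [← add_mul, hst, one_mul]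
  show S1 V (s • x + t • y) ≤ E
  linarith

/-- the last part -/
theorem last (R : Lb n → Lb n → Prop) {V : ℝ → ℝ} (hV : ConvexOn ℝ univ V) (E b : ℝ)
    (hev : ∀ t, V (-t) = V t) (hb : 0 < b) (hne : (interior (KC V E R ∩ Cb n b)).Nonempty)
    (hE : ∀ x : Eu (Fin n), E ≤ S1 V x) :
    ∃ b' : ℝ, 0 < b' ∧ KC V E R ∩ Cb n b = CN R ∩ Cb n b' := by
  have hc := V_cont hV
  have hmin : ∀ t, V 0 ≤ V t := by
    intro t
    have h := hV.2 (mem_univ t) (mem_univ (-t)) (by norm_num : (0 : ℝ) ≤ 1 / 2)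
      (by norm_num : (0 : ℝ) ≤ 1 / 2) (by norm_num)
    simp only [smul_eq_mul] at h
    rw [hev] at h
    have e : (1 / 2 : ℝ) * t + 1 / 2 * -t = 0 := by ring
    rw [e] at h
    linarith
  obtain ⟨x₀, hx₀⟩ := hne
  have hx₀' := interior_subset hx₀
  have hE1 : E = n * V 0 := by
    have h1 := hE 0
    have h2 : S1 V (0 : Eu (Fin n)) = n * V 0 := by
      unfold S1
      simp
    have h3 : S1 V x₀ ≤ E := hx₀'.1.1
    have h4 : (n : ℝ) * V 0 ≤ S1 V x₀ := by
      unfold S1
      calc (n : ℝ) * V 0 = ∑ _i : Fin n, V 0 := by simp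
        _ ≤ _ := Finset.sum_le_sum fun i _ => hmin _
    linarith
  have hiff : ∀ x : Eu (Fin n), S1 V x ≤ E ↔ ∀ i, V (x i) = V 0 := by
    intro x
    constructor
    · intro h
      have h1 : ∑ i, (V (x i) - V 0) ≤ 0 := by
        rw [Finset.sum_sub_distrib]
        have : ∑ _i : Fin n, V 0 = n * V 0 := by simp
        rw [this]
        unfold S1 at h
        linarith
      have h2 : ∑ i, (V (x i) - V 0) = 0 :=
        le_antisymm h1 (Finset.sum_nonneg fun i _ => sub_nonneg.2 (hmin _))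
      have h3 := (Finset.sum_eq_zero_iff_of_nonneg
        (fun i _ => sub_nonneg.2 (hmin (x i)))).1 h2
      exact fun i => sub_eq_zero.1 (h3 i (Finset.mem_univ i))
    · intro h
      unfold S1
      simp only [h]
      rw [hE1]
      simp
  rcases Nat.eq_zero_or_pos n with hn | hn
  · subst hn
    refine ⟨b, hb, ?_⟩
    ext x
    constructor
    · rintro ⟨h1, h2⟩
      exact ⟨h1.2, h2⟩
    · rintro ⟨h1, h2⟩
      exact ⟨⟨(hiff x).2 fun i => i.elim0, h1⟩, h2⟩
  · have hTc : IsCompact (Icc 0 b ∩ {t | V t = V 0}) :=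
      isCompact_Icc.inter_right (isClosed_eq hc continuous_const)
    obtain ⟨b', ⟨⟨hb1, hb2⟩, hb3⟩, hb4⟩ := hTc.exists_isGreatest ⟨0, ⟨le_rfl, hb.le⟩, rfl⟩
    have hb3' : V b' = V 0 := hb3
    have habs : ∀ t, V |t| = V t := by
      intro t
      rcases abs_choice t with h | h <;> rw [h]
      exact hev t
    have key : ∀ t : ℝ, (V t = V 0 ∧ |t| ≤ b) ↔ |t| ≤ b' := by
      intro t
      constructor
      · rintro ⟨h1, h2⟩
        exact hb4 ⟨⟨abs_nonneg t, h2⟩, by
          show V |t| = V 0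
          rw [habs, h1]⟩
      · intro h
        refine ⟨?_, h.trans hb2⟩
        refine le_antisymm ?_ (hmin t)
        rw [← habs]
        rcases hb1.eq_or_lt with h0 | h0
        · have : |t| = 0 := le_antisymm (by rw [h0]; exact h) (abs_nonneg t)
          rw [this]
        · have h5 := hV.2 (mem_univ (0 : ℝ)) (mem_univ b')
            (sub_nonneg.2 ((div_le_one h0).2 h)) (div_nonneg (abs_nonneg t) h0.le)
            (sub_add_cancel _ _)
          simp only [smul_eq_mul, mul_zero, zero_add] at h5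
          rw [div_mul_cancel₀ _ h0.ne', hb3', ← add_mul, sub_add_cancel, one_mul] at h5
          exact h5
    have hset : KC V E R ∩ Cb n b = CN R ∩ Cb n b' := by
      ext x
      constructor
      · rintro ⟨⟨h1, h2⟩, h3⟩
        exact ⟨h2, fun i => (key (x i)).1 ⟨(hiff x).1 h1 i, h3 i⟩⟩
      · rintro ⟨h1, h2⟩
        exact ⟨⟨(hiff x).2 fun i => ((key (x i)).2 (h2 i)).1, h1⟩,
          fun i => ((key (x i)).2 (h2 i)).2⟩
    refine ⟨b', ?_, hset⟩
    refine lt_of_le_of_ne hb1 fun h0 => ?_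
    have hz : ∀ x ∈ KC V E R ∩ Cb n b, x ⟨0, hn⟩ = 0 := by
      intro x hx
      rw [hset, ← h0] at hx
      exact abs_nonpos_iff.1 (hx.2 ⟨0, hn⟩)
    have ht : Tendsto (fun t : ℝ => x₀ + t • (EuclideanSpace.single ⟨0, hn⟩ (1 : ℝ) : Eu (Fin n)))
        (𝓝 0) (𝓝 x₀) := by
      have h6 : Continuous fun t : ℝ =>
          x₀ + t • (EuclideanSpace.single ⟨0, hn⟩ (1 : ℝ) : Eu (Fin n)) := by fun_prop
      have h7 := h6.tendsto 0
      rwa [zero_smul, add_zero] at h7
    have h2 : ∀ᶠ t : ℝ in 𝓝 0, x₀ + t • (EuclideanSpace.single ⟨0, hn⟩ (1 : ℝ) : Eu (Fin n)) ∈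
        interior (KC V E R ∩ Cb n b) := ht (isOpen_interior.mem_nhds hx₀)
    obtain ⟨t, ht1, ht2⟩ := ((h2.filter_mono nhdsWithin_le_nhds).and
      (self_mem_nhdsWithin : ∀ᶠ t : ℝ in 𝓝[>] 0, t ∈ Ioi (0 : ℝ))).exists
    have h8 := hz _ (interior_subset ht1)
    have h9 := hz _ hx₀'
    have h10 : (x₀ + t • (EuclideanSpace.single ⟨0, hn⟩ (1 : ℝ) : Eu (Fin n))) ⟨0, hn⟩ =
        x₀ ⟨0, hn⟩ + t := by
      simp
    rw [h10, h9, zero_add] at h8
    exact absurd h8 (ne_of_gt ht2)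

end GEO

open GEO in
theorem t_GEO : S_GEO := by
  intro n R V hV E
  have h1 : IsClosed (KC V E R) := (K1_closed hV E).inter (CN_closed R)
  have h2 : Convex ℝ (KC V E R) := (K1_convex hV E).inter (CN_convex R)
  refine ⟨h1, h2, (Cb_compact 1).isClosed, fun b => ⟨?_, ?_, ?_⟩⟩
  · exact (Cb_compact b).inter_left h1
  · exact h2.inter (Cb_convex b)
  · intro hev hb hne hE
    exact last R hV E b hev hb hne hE

end Pool.Agent.T2h31.OB
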