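import Pool.Agent.T2h31.OB.Stm
import Pool.Agent.R476.OR.E1

/-!
# Project OB, GTC: the joint law of a linear functional and the level on the cone
-/

set_option autoImplicit false

namespace Pool.Agent.T2h31.OB.GTC

open MeasureTheory Set Filter Topology
open scoped ENNReal InnerProductSpace
open Pool.Agent.W695.KH (Eu)
open Pool.Agent.Y506.RG (ND OB EW VW ILK)
open Pool.Agent.R476.OR (CV NV mV rV FD SV KV LVL sgm sgd ind)
open Pool.Agent.T2h31.SB (Lb sv)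
open Pool.Agent.T2h31.OB
open Pool.Agent.R476.OR.E1 (lin expo ilk_of spl eu2 pull v_conv NV.cont quad i1)

variable {n : ℕ}

theorem sv_lin (x y : Eu (Fin n)) (a b : ℝ) (p : Lb n) :
    sv (fun i => (a • x + b • y : Eu (Fin n)) i) p =
      a * sv (fun i => x i) p + b * sv (fun i => y i) p := by
  unfold sv
  split_ifs
  · simp
  · simp
    ring

theorem cn_conv (R : Lb n → Lb n → Prop) {x y : Eu (Fin n)} (hx : x ∈ CN R) (hy : y ∈ CN R)
    (t : ℝ) (h0 : 0 < t) (h1 : t < 1) : (1 - t) • x + t • y ∈ CN R := by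
  intro p q h
  rw [sv_lin, sv_lin]
  have h2 := hx p q h
  have h3 := hy p q h
  nlinarith

theorem sv_cont (p : Lb n) : Continuous fun x : Eu (Fin n) => sv (fun i => x i) p := by
  unfold sv
  split_ifs <;> fun_prop

theorem cn_closed (R : Lb n → Lb n → Prop) : IsClosed (CN R) := by
  have : CN R = ⋂ p, ⋂ q, ⋂ (_ : R p q),
      {x : Eu (Fin n) | sv (fun i => x i) p ≤ sv (fun i => x i) q} := by
    ext x
    simp [CN]
  rw [this]
  exact isClosed_iInter fun p => isClosed_iInter fun q => isClosed_iInter fun _ =>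
    isClosed_le (sv_cont p) (sv_cont q)

theorem s1_cont {V V' : ℝ → ℝ} (hV : NE V V') : Continuous (S1 (n := n) V) := by
  unfold S1
  refine continuous_finsetSum _ fun i _ => ?_
  have := NV.cont hV.nv
  fun_prop

theorem s1_conv {V V' : ℝ → ℝ} (hV : NE V V') (x y : Eu (Fin n)) (t : ℝ)
    (h0 : 0 < t) (h1 : t < 1) :
    S1 V ((1 - t) • x + t • y) ≤ (1 - t) * S1 V x + t * S1 V y := by
  unfold S1
  rw [Finset.mul_sum, Finset.mul_sum, ← Finset.sum_add_distrib]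
  refine Finset.sum_le_sum fun i _ => ?_
  have := v_conv hV.nv (x i) (y i) t h0 h1
  simpa using this

open Classical in
/-- the joint weight -/
noncomputable def Kx (V : ℝ → ℝ) (R : Lb n → Lb n → Prop) (x : Eu (Fin n)) (s : ℝ) : ℝ≥0∞ :=
  if x ∈ CN R ∧ S1 V x ≤ s then ENNReal.ofReal (Real.exp (-s)) else 0

theorem kx_meas {V V' : ℝ → ℝ} (hV : NE V V') (R : Lb n → Lb n → Prop) :
    Measurable fun p : Eu (Fin n) × ℝ => Kx V R p.1 p.2 := by
  unfold Kx
  have hc : Continuous (S1 (n := n) V) := s1_cont hV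
  have h1 : MeasurableSet {p : Eu (Fin n) × ℝ | p.1 ∈ CN R} :=
    (cn_closed R).measurableSet.preimage measurable_fst
  have h2 : MeasurableSet {p : Eu (Fin n) × ℝ | S1 V p.1 ≤ p.2} :=
    measurableSet_le (hc.measurable.comp measurable_fst) measurable_snd
  exact Measurable.ite (h1.inter h2)
    (ENNReal.measurable_ofReal.comp (Real.measurable_exp.comp measurable_snd.neg))
    measurable_const

theorem kx_lc {V V' : ℝ → ℝ} (hV : NE V V') (R : Lb n → Lb n → Prop) (x y : Eu (Fin n))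
    (s r t : ℝ) (h0 : 0 < t) (h1 : t < 1) :
    Kx V R x s ^ (1 - t) * Kx V R y r ^ t ≤
      Kx V R ((1 - t) • x + t • y) ((1 - t) * s + t * r) := by
  have h2 : 0 < 1 - t := by linarith
  unfold Kx
  by_cases hx : x ∈ CN R ∧ S1 V x ≤ s
  · by_cases hy : y ∈ CN R ∧ S1 V y ≤ r
    · have h3 := s1_conv hV x y t h0 h1
      have h4 : S1 V ((1 - t) • x + t • y) ≤ (1 - t) * s + t * r := by
        have := hx.2
        have := hy.2
        nlinarith
      rw [if_pos hx, if_pos hy, if_pos ⟨cn_conv R hx.1 hy.1 t h0 h1, h4⟩,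
        ENNReal.ofReal_rpow_of_nonneg (Real.exp_pos _).le h2.le,
        ENNReal.ofReal_rpow_of_nonneg (Real.exp_pos _).le h0.le, ← ENNReal.ofReal_mul (by positivity),
        ← Real.exp_mul, ← Real.exp_mul, ← Real.exp_add]
      refine ENNReal.ofReal_le_ofReal (Real.exp_le_exp.2 (le_of_eq ?_))
      ring
    · rw [if_neg hy, ENNReal.zero_rpow_of_pos h0, mul_zero]
      exact zero_le
  · rw [if_neg hx, ENNReal.zero_rpow_of_pos h2, zero_mul]
    exact zero_le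

/-- the density of `(⟪θ, x⟫, s)` -/
noncomputable def GG (V : ℝ → ℝ) (R : Lb (n + 1) → Lb (n + 1) → Prop)
    (L : Eu (Fin n) →ₗᵢ[ℝ] Eu (Fin (n + 1)))
    (θ : Eu (Fin (n + 1))) (u s : ℝ) : ℝ≥0∞ := ∫⁻ y, Kx V R (L y + u • θ) s

variable {V V' : ℝ → ℝ} (hV : NE V V') (R : Lb (n + 1) → Lb (n + 1) → Prop)
  (L : Eu (Fin n) →ₗᵢ[ℝ] Eu (Fin (n + 1))) (θ : Eu (Fin (n + 1)))

include hV

theorem gg_meas : Measurable fun p : ℝ × ℝ => GG V R L θ p.1 p.2 := by
  unfold GG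
  refine Measurable.lintegral_prod_left' (f := fun q : Eu (Fin n) × (ℝ × ℝ) =>
    Kx V R (L q.1 + q.2.1 • θ) q.2.2) ?_
  have h1 : Continuous fun q : Eu (Fin n) × (ℝ × ℝ) => L q.1 + q.2.1 • θ :=
    (L.continuous.comp continuous_fst).add
      ((continuous_fst.comp continuous_snd).smul continuous_const)
  exact (kx_meas hV R).comp (h1.measurable.prodMk (measurable_snd.comp measurable_snd))

theorem gg_lc (u v s r t : ℝ) (h0 : 0 < t) (h1 : t < 1) :
    GG V R L θ u s ^ (1 - t) * GG V R L θ v r ^ t ≤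
      GG V R L θ ((1 - t) * u + t * v) ((1 - t) * s + t * r) := by
  have hm : ∀ (u s : ℝ), Measurable fun y => Kx V R (L y + u • θ) s := by
    intro u s
    have h1 : Continuous fun y : Eu (Fin n) => L y + u • θ := L.continuous.add continuous_const
    exact (kx_meas hV R).comp (h1.measurable.prodMk measurable_const)
  refine Pool.Agent.H212R2.KLS.PL volume t h0 h1 _ _ _ (hm _ _) (hm _ _) (hm _ _) fun a b => ?_
  refine (kx_lc hV R _ _ s r t h0 h1).trans (le_of_eq ?_)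
  congr 1
  rw [map_add, map_smul, map_smul]
  module

/-- the density in isotropic coordinates -/
noncomputable def gg (V : ℝ → ℝ) (R : Lb (n + 1) → Lb (n + 1) → Prop)
    (L : Eu (Fin n) →ₗᵢ[ℝ] Eu (Fin (n + 1)))
    (θ : Eu (Fin (n + 1))) (M a τ σ κ m : ℝ) (z : Eu (Fin 2)) : ℝ≥0∞ :=
  ENNReal.ofReal (σ * τ / M) * GG V R L θ (a + τ * z 0 + κ * z 1) (σ * z 1 + m)

theorem g_meas (M a τ σ κ m : ℝ) : Measurable (gg V R L θ M a τ σ κ m) := by
  have h1 : Continuous fun z : Eu (Fin 2) =>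
      ((a + τ * z 0 + κ * z 1, σ * z 1 + m) : ℝ × ℝ) := by
    fun_prop
  have h2 : Measurable fun z : Eu (Fin 2) =>
      GG V R L θ (a + τ * z 0 + κ * z 1) (σ * z 1 + m) :=
    Measurable.comp (g := fun p : ℝ × ℝ => GG V R L θ p.1 p.2)
      (f := fun z : Eu (Fin 2) => ((a + τ * z 0 + κ * z 1, σ * z 1 + m) : ℝ × ℝ))
      (gg_meas hV R L θ) h1.measurable
  exact h2.const_mul _

theorem g_lc (M a τ σ κ m : ℝ) (x y : Eu (Fin 2)) (t : ℝ) (h0 : 0 < t) (h1 : t < 1) :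
    gg V R L θ M a τ σ κ m x ^ (1 - t) * gg V R L θ M a τ σ κ m y ^ t ≤
      gg V R L θ M a τ σ κ m ((1 - t) • x + t • y) := by
  have h2 : 0 < 1 - t := by linarith
  have h3 := gg_lc hV R L θ (a + τ * x 0 + κ * x 1) (a + τ * y 0 + κ * y 1) (σ * x 1 + m)
    (σ * y 1 + m) t h0 h1
  have e1 : (1 - t) * (a + τ * x 0 + κ * x 1) + t * (a + τ * y 0 + κ * y 1) =
      a + τ * ((1 - t) • x + t • y : Eu (Fin 2)) 0 +
        κ * ((1 - t) • x + t • y : Eu (Fin 2)) 1 := by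
    simp only [PiLp.add_apply, PiLp.smul_apply, smul_eq_mul]
    ring
  have e2 : (1 - t) * (σ * x 1 + m) + t * (σ * y 1 + m) =
      σ * ((1 - t) • x + t • y : Eu (Fin 2)) 1 + m := by
    simp only [PiLp.add_apply, PiLp.smul_apply, smul_eq_mul]
    ring
  rw [e1, e2] at h3
  unfold gg
  refine (pull _ _ _ t h0.le h2.le).le.trans ?_
  exact mul_le_mul_right h3 _

theorem gen (hL : ∀ (φ : ℝ → ℝ≥0∞) (G : Eu (Fin (n + 1)) → ℝ≥0∞), Measurable φ → Measurable G →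
    ∫⁻ x, φ ⟪θ, x⟫_ℝ * G x = ∫⁻ u : ℝ, φ u * ∫⁻ y, G (L y + u • θ)) (M a τ σ κ m : ℝ)
    (hM : 0 < M) (hτ : 0 < τ)
    (hσ : 0 < σ) (Ψ : ℝ → ℝ → ℝ≥0∞) (hΨ : Measurable fun p : ℝ × ℝ => Ψ p.1 p.2) :
    ∫⁻ z : Eu (Fin 2), Ψ (a + τ * z 0 + κ * z 1) (σ * z 1 + m) * gg V R L θ M a τ σ κ m z =
      ENNReal.ofReal (1 / M) *
        ∫⁻ x : Eu (Fin (n + 1)), ∫⁻ s : ℝ, Ψ ⟪θ, x⟫_ℝ s * Kx V R x s := by
  have hK := kx_meas hV R
  have hG := gg_meas hV R L θ
  have hθc : Continuous fun x : Eu (Fin (n + 1)) => ⟪θ, x⟫_ℝ := by fun_prop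
  have e1 : ∫⁻ x : Eu (Fin (n + 1)), ∫⁻ s : ℝ, Ψ ⟪θ, x⟫_ℝ s * Kx V R x s =
      ∫⁻ s : ℝ, ∫⁻ x : Eu (Fin (n + 1)), Ψ ⟪θ, x⟫_ℝ s * Kx V R x s := by
    refine lintegral_lintegral_swap ?_
    refine Measurable.aemeasurable ?_
    refine Measurable.mul ?_ hK
    exact hΨ.comp ((hθc.measurable.comp measurable_fst).prodMk measurable_snd)
  have e2 : ∀ s : ℝ, ∫⁻ x : Eu (Fin (n + 1)), Ψ ⟪θ, x⟫_ℝ s * Kx V R x s =
      ∫⁻ u : ℝ, Ψ u s * GG V R L θ u s := by
    intro s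
    exact hL (fun u => Ψ u s) (fun x => Kx V R x s) (hΨ.comp (measurable_id.prodMk measurable_const))
      (hK.comp (measurable_id.prodMk measurable_const))
  have e3 : ∀ s : ℝ, ∀ c : ℝ, ∫⁻ u : ℝ, Ψ u s * GG V R L θ u s =
      ENNReal.ofReal τ * ∫⁻ a : ℝ, Ψ (τ * a + c) s * GG V R L θ (τ * a + c) s := by
    intro s c
    refine lin τ c hτ (fun u => Ψ u s * GG V R L θ u s) ?_
    exact (hΨ.mul hG).comp (measurable_id.prodMk measurable_const)
  have hM2 : Measurable fun s : ℝ => ∫⁻ u : ℝ, Ψ u s * GG V R L θ u s :=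
    Measurable.lintegral_prod_left' (f := fun p : ℝ × ℝ => Ψ p.1 p.2 * GG V R L θ p.1 p.2)
      (hΨ.mul hG)
  rw [e1]
  simp only [e2]
  rw [lin σ m hσ _ hM2, eu2]
  · rw [← mul_assoc, ← ENNReal.ofReal_mul (by positivity),
      ← lintegral_const_mul' _ _ ENNReal.ofReal_ne_top]
    refine lintegral_congr fun b => ?_
    rw [e3 (σ * b + m) (κ * b + a), ← mul_assoc, ← ENNReal.ofReal_mul (by positivity),
      ← lintegral_const_mul' _ _ ENNReal.ofReal_ne_top]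
    refine lintegral_congr fun c => ?_
    simp only [gg, Matrix.cons_val_zero, Matrix.cons_val_one]
    rw [← mul_assoc, mul_comm (Ψ _ _) (ENNReal.ofReal _), mul_assoc]
    have e4 : a + τ * c + κ * b = τ * c + (κ * b + a) := by ring
    have e5 : σ * τ / M = 1 / M * σ * τ := by ring
    rw [e4, e5]
  · have h1 : Continuous fun z : Eu (Fin 2) =>
        ((a + τ * z 0 + κ * z 1, σ * z 1 + m) : ℝ × ℝ) := by
      fun_prop
    exact (hΨ.comp h1.measurable).mul (g_meas hV R L θ M a τ σ κ m)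

/-- the fibre formula -/
theorem fibre (hL : ∀ (φ : ℝ → ℝ≥0∞) (G : Eu (Fin (n + 1)) → ℝ≥0∞), Measurable φ → Measurable G →
    ∫⁻ x, φ ⟪θ, x⟫_ℝ * G x = ∫⁻ u : ℝ, φ u * ∫⁻ y, G (L y + u • θ)) (M a τ σ κ m : ℝ)
    (hM : 0 < M) (hτ : 0 < τ)
    (hσ : 0 < σ) (E : ℝ) (φ : ℝ → ℝ≥0∞) (hφ : Measurable φ) :
    ∫⁻ x in KC V E R, φ ⟪θ, x⟫_ℝ = ENNReal.ofReal (M * Real.exp E / σ) *
      ∫⁻ z : ℝ, φ (a + τ * z + κ * ((E - m) / σ)) *
        gg V R L θ M a τ σ κ m (WithLp.toLp 2 ![z, (E - m) / σ]) := by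
  classical
  have hc : Continuous (S1 (n := n + 1) V) := s1_cont hV
  have hKm : MeasurableSet (KC V E R) :=
    (measurableSet_le hc.measurable measurable_const).inter (cn_closed R).measurableSet
  have hKe : ∀ x : Eu (Fin (n + 1)), x ∈ KC V E R ↔ x ∈ CN R ∧ S1 V x ≤ E := by
    intro x
    unfold KC K1
    rw [mem_inter_iff, mem_setOf_eq, and_comm]
  have hKm' : MeasurableSet {x : Eu (Fin (n + 1)) | x ∈ CN R ∧ S1 V x ≤ E} := by
    convert hKm using 1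
    ext x
    exact (hKe x).symm
  have hi : Measurable fun x : Eu (Fin (n + 1)) =>
      (if x ∈ CN R ∧ S1 V x ≤ E then (1 : ℝ≥0∞) else 0) :=
    Measurable.ite hKm' measurable_const measurable_const
  have e1 : ∫⁻ x in KC V E R, φ ⟪θ, x⟫_ℝ =
      ∫⁻ x, φ ⟪θ, x⟫_ℝ * (if x ∈ CN R ∧ S1 V x ≤ E then (1 : ℝ≥0∞) else 0) := by
    rw [← lintegral_indicator hKm]
    refine lintegral_congr fun x => ?_
    by_cases hx : x ∈ CN R ∧ S1 V x ≤ E
    · rw [if_pos hx, mul_one, indicator_of_mem]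
      exact (hKe x).2 hx
    · rw [if_neg hx, mul_zero, indicator_of_notMem]
      exact fun h => hx ((hKe x).1 h)
  have e2 : ∀ u : ℝ, ∫⁻ y, (if L y + u • θ ∈ CN R ∧ S1 V (L y + u • θ) ≤ E
      then (1 : ℝ≥0∞) else 0) = ENNReal.ofReal (Real.exp E) * GG V R L θ u E := by
    intro u
    unfold GG
    rw [← lintegral_const_mul' _ _ ENNReal.ofReal_ne_top]
    refine lintegral_congr fun y => ?_
    unfold Kx
    by_cases hx : L y + u • θ ∈ CN R ∧ S1 V (L y + u • θ) ≤ E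
    · rw [if_pos hx, if_pos hx, ← ENNReal.ofReal_mul (Real.exp_pos _).le, ← Real.exp_add]
      simp
    · rw [if_neg hx, if_neg hx]
      simp
  have hG := gg_meas hV R L θ
  rw [e1, hL φ _ hφ hi]
  simp only [e2]
  have hGE : Measurable fun u : ℝ => GG V R L θ u E := hG.comp (measurable_id.prodMk measurable_const)
  have hF : Measurable fun u : ℝ => φ u * (ENNReal.ofReal (Real.exp E) * GG V R L θ u E) :=
    hφ.mul (hGE.const_mul _)
  rw [lin τ (κ * ((E - m) / σ) + a) hτ _ hF,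
    ← lintegral_const_mul' _ _ ENNReal.ofReal_ne_top,
    ← lintegral_const_mul' _ _ ENNReal.ofReal_ne_top]
  refine lintegral_congr fun z => ?_
  have e3 : σ * ((E - m) / σ) + m = E := by
    field_simp
    ring
  simp only [gg, Matrix.cons_val_zero, Matrix.cons_val_one]
  have e5 : a + τ * z + κ * ((E - m) / σ) = τ * z + (κ * ((E - m) / σ) + a) := by ring
  rw [e3, e5]
  have e4 : ENNReal.ofReal τ * ENNReal.ofReal (Real.exp E) =
      ENNReal.ofReal (M * Real.exp E / σ) * ENNReal.ofReal (σ * τ / M) := by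
    rw [← ENNReal.ofReal_mul hτ.le, ← ENNReal.ofReal_mul (by positivity)]
    congr 1
    field_simp
  calc ENNReal.ofReal τ * (φ (τ * z + (κ * ((E - m) / σ) + a)) * (ENNReal.ofReal (Real.exp E) *
        GG V R L θ (τ * z + (κ * ((E - m) / σ) + a)) E)) =
      (ENNReal.ofReal τ * ENNReal.ofReal (Real.exp E)) *
        (φ (τ * z + (κ * ((E - m) / σ) + a)) *
        GG V R L θ (τ * z + (κ * ((E - m) / σ) + a)) E) := by ring
    _ = _ := by
      rw [e4]
      ring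

/-! ### moments on the cone -/

omit hV in
theorem rh_pos (x : Eu (Fin n)) : 0 < rh V x := Real.exp_pos _

theorem rh_cont : Continuous (rh (n := n) V) := by
  unfold rh
  have : Continuous (S1 (n := n) V) := s1_cont hV
  fun_prop

theorem rh_int (h1 : S_MOC) (hM : 0 < ms V R) : Integrable (rh (n := n + 1) V) := by
  obtain ⟨-, B, -⟩ := h1 (n + 1) R V V' hV hM (fun _ => 1) continuous_const (fun _ => rfl)
    (by simpa using hV.nv.nd.int0)
  refine (B.const_mul (1 / ((n + 1 : ℕ) : ℝ) ^ 2)).congr (Eventually.of_forall fun x => ?_)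
  simp only [Finset.sum_const, Finset.card_univ, Fintype.card_fin, nsmul_eq_mul, mul_one]
  have : ((n + 1 : ℕ) : ℝ) ≠ 0 := by positivity
  field_simp

theorem nrm_int (h1 : S_MOC) (hM : 0 < ms V R) :
    Integrable fun x : Eu (Fin (n + 1)) => ‖x‖ ^ 2 * rh V x := by
  obtain ⟨-, B, -⟩ := h1 (n + 1) R V V' hV hM (fun t => |t|) continuous_abs (fun t => abs_neg t)
    (by simpa only [sq_abs] using hV.nv.nd.int2)
  have hc : Continuous (rh (n := n + 1) V) := rh_cont hV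
  refine B.mono' (by fun_prop) (Eventually.of_forall fun x => ?_)
  rw [Real.norm_eq_abs, abs_of_nonneg (mul_nonneg (by positivity) (rh_pos x).le)]
  refine mul_le_mul_of_nonneg_right ?_ (rh_pos x).le
  rw [EuclideanSpace.norm_sq_eq]
  simp only [Real.norm_eq_abs]
  exact Finset.sum_sq_le_sq_sum_of_nonneg fun i _ => abs_nonneg _

omit hV in
theorem sc_sum (x : Eu (Fin (n + 1))) : ∑ i, (V (x i) - mV V) = Sc V x := by
  unfold Sc S1
  rw [Finset.sum_sub_distrib]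
  simp

theorem sc_mom (h1 : S_MOC) (h4 : Integrable fun t => V t ^ 4 * Real.exp (-V t))
    (hM : 0 < ms V R) : Integrable (fun x : Eu (Fin (n + 1)) => Sc V x ^ 2 * rh V x) ∧
    MC V R (fun x => Sc V x) = 0 ∧ MC V R (fun x => Sc V x ^ 2) = (n + 1 : ℕ) * rV V := by
  obtain ⟨q1, q2, q3⟩ := quad hV.nv h4 0 1
  simp only [zero_mul, one_mul, zero_add, ne_eq, OfNat.ofNat_ne_zero, not_false_eq_true,
    zero_pow, mul_zero, one_pow] at q1 q2 q3
  have hc : Continuous V := NV.cont hV.nv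
  obtain ⟨A1, A2, A3, -⟩ := h1 (n + 1) R V V' hV hM (fun t => V t - mV V) (by fun_prop)
    (fun t => by simp only [hV.even t]) q1
  have A4 := A3 q3
  simp only [sc_sum] at A1 A2 A4
  rw [q3, mul_zero] at A1
  refine ⟨A2, A1, ?_⟩
  rw [A4, q2]

/-- second moments on the cone -/
theorem squares (h1 : S_MOC) (h4 : Integrable fun t => V t ^ 4 * Real.exp (-V t))
    (hM : 0 < ms V R) (hθ : ‖θ‖ = 1) (α c k : ℝ) :
    ∫⁻ x in CN R, ENNReal.ofReal (Real.exp (-S1 V x) *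
      ((α * (⟪θ, x⟫_ℝ - MC V R (fun x => ⟪x, θ⟫_ℝ)) + c * Sc V x + k) ^ 2 + c ^ 2)) =
    ENNReal.ofReal (ms V R * (α ^ 2 * VC V R (fun x => ⟪x, θ⟫_ℝ) + 2 * α * c * bC V R θ +
      c ^ 2 * sC (n + 1) V + k ^ 2)) := by
  have hr : Continuous (rh (n := n + 1) V) := rh_cont hV
  have hs : Continuous (Sc (n := n + 1) V) := by
    have : Continuous (S1 (n := n + 1) V) := s1_cont hV
    unfold Sc
    fun_prop
  have i0 := rh_int hV R h1 hM
  have iN := nrm_int hV R h1 hM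
  obtain ⟨iS2, mS, mS2⟩ := sc_mom hV R h1 h4 hM
  have hX : ∀ x : Eu (Fin (n + 1)), ⟪x, θ⟫_ℝ ^ 2 ≤ ‖x‖ ^ 2 := by
    intro x
    have := abs_real_inner_le_norm x θ
    rw [hθ, mul_one] at this
    rw [← sq_abs ⟪x, θ⟫_ℝ]
    gcongr
  have iX2 : Integrable fun x : Eu (Fin (n + 1)) => ⟪x, θ⟫_ℝ ^ 2 * rh V x := by
    refine iN.mono' (by fun_prop) (Eventually.of_forall fun x => ?_)
    rw [Real.norm_eq_abs, abs_of_nonneg (mul_nonneg (by positivity) (rh_pos x).le)]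
    exact mul_le_mul_of_nonneg_right (hX x) (rh_pos x).le
  have iX : Integrable fun x : Eu (Fin (n + 1)) => ⟪x, θ⟫_ℝ * rh V x := by
    refine (i0.add iX2).mono' (by fun_prop) (Eventually.of_forall fun x => ?_)
    rw [Real.norm_eq_abs, abs_mul, abs_of_pos (rh_pos x)]
    simp only [Pi.add_apply]
    have := rh_pos (V := V) x
    nlinarith [sq_abs ⟪x, θ⟫_ℝ, sq_nonneg (|⟪x, θ⟫_ℝ| - 1), abs_nonneg ⟪x, θ⟫_ℝ]
  have iS : Integrable fun x : Eu (Fin (n + 1)) => Sc V x * rh V x := by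
    refine (i0.add iS2).mono' (by fun_prop) (Eventually.of_forall fun x => ?_)
    rw [Real.norm_eq_abs, abs_mul, abs_of_pos (rh_pos x)]
    simp only [Pi.add_apply]
    have := rh_pos (V := V) x
    nlinarith [sq_abs (Sc V x), sq_nonneg (|Sc V x| - 1), abs_nonneg (Sc V x)]
  have iXS : Integrable fun x : Eu (Fin (n + 1)) => ⟪x, θ⟫_ℝ * Sc V x * rh V x := by
    refine (iX2.add iS2).mono' (by fun_prop) (Eventually.of_forall fun x => ?_)
    rw [Real.norm_eq_abs, abs_mul, abs_of_pos (rh_pos x), abs_mul]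
    simp only [Pi.add_apply]
    have := rh_pos (V := V) x
    nlinarith [sq_abs (Sc V x), sq_abs ⟪x, θ⟫_ℝ, sq_nonneg (|Sc V x| - |⟪x, θ⟫_ℝ|),
      abs_nonneg (Sc V x), abs_nonneg ⟪x, θ⟫_ℝ]
  have hJ : ∀ G : Eu (Fin (n + 1)) → ℝ, ∫ x in CN R, G x * rh V x = MC V R G * ms V R := by
    intro G
    unfold MC
    rw [div_mul_cancel₀ _ hM.ne']
  set a : ℝ := MC V R (fun x => ⟪x, θ⟫_ℝ) with ha
  have key : ∀ x : Eu (Fin (n + 1)), Real.exp (-S1 V x) *
      ((α * (⟪θ, x⟫_ℝ - a) + c * Sc V x + k) ^ 2 + c ^ 2) =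
      α ^ 2 * (⟪x, θ⟫_ℝ ^ 2 * rh V x) + c ^ 2 * (Sc V x ^ 2 * rh V x) +
      2 * α * c * (⟪x, θ⟫_ℝ * Sc V x * rh V x) + 2 * α * (k - α * a) * (⟪x, θ⟫_ℝ * rh V x) +
      2 * c * (k - α * a) * (Sc V x * rh V x) + ((k - α * a) ^ 2 + c ^ 2) * rh V x := by
    intro x
    rw [real_inner_comm x θ]
    unfold rh
    ring
  have j1 : Integrable (fun x : Eu (Fin (n + 1)) => α ^ 2 * (⟪x, θ⟫_ℝ ^ 2 * rh V x))
    (volume.restrict (CN R)) := (iX2.const_mul _).restrict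
  have j2 : Integrable (fun x : Eu (Fin (n + 1)) => c ^ 2 * (Sc V x ^ 2 * rh V x))
    (volume.restrict (CN R)) := (iS2.const_mul _).restrict
  have j3 : Integrable (fun x : Eu (Fin (n + 1)) => 2 * α * c * (⟪x, θ⟫_ℝ * Sc V x * rh V x))
    (volume.restrict (CN R)) := (iXS.const_mul _).restrict
  have j4 : Integrable (fun x : Eu (Fin (n + 1)) => 2 * α * (k - α * a) * (⟪x, θ⟫_ℝ * rh V x))
    (volume.restrict (CN R)) := (iX.const_mul _).restrict
  have j5 : Integrable (fun x : Eu (Fin (n + 1)) => 2 * c * (k - α * a) * (Sc V x * rh V x))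
    (volume.restrict (CN R)) := (iS.const_mul _).restrict
  have j6 : Integrable (fun x : Eu (Fin (n + 1)) => ((k - α * a) ^ 2 + c ^ 2) * rh V x)
    (volume.restrict (CN R)) := (i0.const_mul _).restrict
  have j12 := j1.add j2
  have j123 := j12.add j3
  have j1234 := j123.add j4
  have j15 := j1234.add j5
  have j16 := j15.add j6
  have tot : Integrable (fun x : Eu (Fin (n + 1)) => Real.exp (-S1 V x) *
      ((α * (⟪θ, x⟫_ℝ - a) + c * Sc V x + k) ^ 2 + c ^ 2)) (volume.restrict (CN R)) := by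
    refine j16.congr (Eventually.of_forall fun x => ?_)
    simp only [Pi.add_apply]
    rw [key]
  rw [← ofReal_integral_eq_lintegral_ofReal tot (Eventually.of_forall fun x => by
    simp only [Pi.zero_apply]
    positivity)]
  congr 1
  simp only [key]
  rw [integral_add (by exact j15) j6, integral_add (by exact j1234) j5,
    integral_add (by exact j123) j4, integral_add (by exact j12) j3,
    integral_add j1 j2, integral_const_mul, integral_const_mul, integral_const_mul,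
    integral_const_mul, integral_const_mul, integral_const_mul]
  have k1 := hJ (fun x => ⟪x, θ⟫_ℝ ^ 2)
  have k2 := hJ (fun x => Sc V x ^ 2)
  have k3 := hJ (fun x => ⟪x, θ⟫_ℝ * Sc V x)
  have k4 := hJ (fun x => ⟪x, θ⟫_ℝ)
  have k5 := hJ (fun x => Sc V x)
  have k6 : ∫ x in CN R, rh V x = ms V R := rfl
  rw [k1, k2, k3, k4, k5, k6, mS, mS2, ← ha]
  unfold VC bC sC
  rw [← ha]
  ring

/-- second moments in isotropic coordinates -/
theorem sqg (h1 : S_MOC) (h4 : Integrable fun t => V t ^ 4 * Real.exp (-V t))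
    (hM : 0 < ms V R) (hθ : ‖θ‖ = 1)
    (hL : ∀ (φ : ℝ → ℝ≥0∞) (G : Eu (Fin (n + 1)) → ℝ≥0∞), Measurable φ → Measurable G →
    ∫⁻ x, φ ⟪θ, x⟫_ℝ * G x = ∫⁻ u : ℝ, φ u * ∫⁻ y, G (L y + u • θ)) (τ σ : ℝ) (hτ : 0 < τ)
    (hσ : 0 < σ) (hσ2 : σ ^ 2 = sC (n + 1) V) (hτ2 : τ ^ 2 = RC V R θ)
    (w : Eu (Fin 2)) (k : ℝ) :
    ∫⁻ z, ENNReal.ofReal ((⟪w, z⟫_ℝ + k) ^ 2) *
      gg V R L θ (ms V R) (MC V R (fun x => ⟪x, θ⟫_ℝ)) τ σ (bC V R θ / σ)
        ((n + 1 : ℕ) * mV V + 1) z = ENNReal.ofReal (‖w‖ ^ 2 + k ^ 2) := by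
  set β : ℝ := bC V R θ with hβ
  set M : ℝ := ms V R with hMd
  set A : ℝ := MC V R (fun x => ⟪x, θ⟫_ℝ) with hA
  set m : ℝ := (n + 1 : ℕ) * mV V + 1 with hm
  have hτ0 := hτ.ne'
  have hσ0 := hσ.ne'
  set a : ℝ := w 0 / τ with ha
  set c : ℝ := w 1 / σ - w 0 * β / (σ ^ 2 * τ) with hc
  have e1 := gen hV R L θ hL M A τ σ (β / σ) m hM hτ hσ
    (fun u s => ENNReal.ofReal ((a * (u - A) + c * (s - m) + k) ^ 2)) (by
      refine ENNReal.measurable_ofReal.comp ?_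
      have : Continuous fun p : ℝ × ℝ => (a * (p.1 - A) + c * (p.2 - m) + k) ^ 2 := by fun_prop
      exact this.measurable)
  have e2 : ∀ z : Eu (Fin 2), a * (A + τ * z 0 + β / σ * z 1 - A) + c * (σ * z 1 + m - m) + k =
      ⟪w, z⟫_ℝ + k := by
    intro z
    have : ⟪w, z⟫_ℝ = w 0 * z 0 + w 1 * z 1 := by
      rw [PiLp.inner_apply, Fin.sum_univ_two]
      simp
      ring
    rw [this]
    simp only [ha, hc]
    field_simp
    ring
  simp only [e2] at e1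
  rw [e1]
  have e3 : ∀ x : Eu (Fin (n + 1)), ∫⁻ s : ℝ,
      ENNReal.ofReal ((a * (⟪θ, x⟫_ℝ - A) + c * (s - m) + k) ^ 2) * Kx V R x s =
      (CN R).indicator (fun x => ENNReal.ofReal (Real.exp (-S1 V x) *
        ((a * (⟪θ, x⟫_ℝ - A) + c * Sc V x + k) ^ 2 + c ^ 2))) x := by
    intro x
    by_cases hx : x ∈ CN R
    · rw [indicator_of_mem hx, ← expo (a * (⟪θ, x⟫_ℝ - A) + c * Sc V x + k) c (S1 V x)]
      refine lintegral_congr fun s => ?_
      unfold Kx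
      have e4 : a * (⟪θ, x⟫_ℝ - A) + c * (s - m) + k =
          a * (⟪θ, x⟫_ℝ - A) + c * Sc V x + k + c * (s - S1 V x - 1) := by
        simp only [hm]
        unfold Sc
        ring
      rw [e4]
      congr 1
      by_cases hs : S1 V x ≤ s
      · rw [if_pos ⟨hx, hs⟩, if_pos hs]
      · rw [if_neg (fun h => hs h.2), if_neg hs]
    · rw [indicator_of_notMem hx]
      have : ∀ s, Kx V R x s = 0 := by
        intro s
        unfold Kx
        exact if_neg fun h => hx h.1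
      simp [this]
  simp only [e3]
  rw [lintegral_indicator (cn_closed R).measurableSet, hA, squares hV R θ h1 h4 hM hθ a c k,
    ← ENNReal.ofReal_mul (by positivity)]
  congr 1
  have hn : ‖w‖ ^ 2 = w 0 ^ 2 + w 1 ^ 2 := by
    rw [EuclideanSpace.norm_sq_eq, Fin.sum_univ_two]
    simp only [Real.norm_eq_abs, sq_abs]
  have hM0 : M ≠ 0 := hM.ne'
  rw [hn, ← hσ2, ← hβ, ← hMd, ← mul_assoc, one_div_mul_cancel hM0, one_mul]
  have h6 : VC V R (fun x => ⟪x, θ⟫_ℝ) = τ ^ 2 + β ^ 2 / σ ^ 2 := by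
    rw [hτ2, hσ2, hβ]
    unfold RC
    ring
  rw [h6]
  simp only [ha, hc]
  field_simp
  ring

end Pool.Agent.T2h31.OB.GTC

namespace Pool.Agent.T2h31.OB

open MeasureTheory Set Filter Topology
open scoped ENNReal InnerProductSpace
open Pool.Agent.W695.KH (Eu)
open Pool.Agent.T2h31.SB (Lb sv)

/-- **GTC** -/
theorem t_GTC (h1 : S_MOC) (h2 : Pool.Agent.R476.OR.S_M4R) (h3 : S_OD) : S_GTC := by
  obtain ⟨C, hC1, hC⟩ := h2
  obtain ⟨C', hC1', hC'⟩ := h3
  refine ⟨C, hC1, fun n R V V' hV hM θ hθ hR => ?_⟩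
  obtain ⟨-, -, -, -, hr0, -, hi⟩ := hC' V V' hV
  have hsgpos : 0 < sC (n + 1) V := by
    unfold sC
    have : 0 ≤ ((n + 1 : ℕ) : ℝ) * Pool.Agent.R476.OR.rV V := mul_nonneg (by positivity) hr0
    linarith
  set σ : ℝ := Real.sqrt (sC (n + 1) V) with hσ
  have hσpos : 0 < σ := Real.sqrt_pos.2 hsgpos
  have hσ2 : σ ^ 2 = sC (n + 1) V := Real.sq_sqrt hsgpos.le
  set τ : ℝ := Real.sqrt (RC V R θ) with hτ
  have hτpos : 0 < τ := Real.sqrt_pos.2 hR
  have hτ2 : τ ^ 2 = RC V R θ := Real.sq_sqrt hR.le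
  obtain ⟨L, hL⟩ := Pool.Agent.R476.OR.E1.spl θ hθ
  refine ⟨GTC.gg V R L θ (ms V R) (MC V R (fun x => ⟪x, θ⟫_ℝ)) τ σ (bC V R θ / σ)
    ((n + 1 : ℕ) * Pool.Agent.R476.OR.mV V + 1), ?_, ?_⟩
  · exact Pool.Agent.R476.OR.E1.ilk_of _ (GTC.g_meas hV R L θ _ _ _ _ _ _)
      (GTC.g_lc hV R L θ _ _ _ _ _ _)
      (GTC.sqg hV R L θ h1 hi hM hθ hL τ σ hτpos hσpos hσ2 hτ2) C (hC 2)
  · intro E φ hφ
    exact GTC.fibre hV R L θ hL (ms V R) (MC V R (fun x => ⟪x, θ⟫_ℝ)) τ σ (bC V R θ / σ)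
      ((n + 1 : ℕ) * Pool.Agent.R476.OR.mV V + 1) hM hτpos hσpos E φ hφ

end Pool.Agent.T2h31.OB
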