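import Pool.Agent.T2h31.OB.Stm
import Pool.Agent.Y510.RG.Limw

/-!
# LIS: limits of weights (adapted from `Pool.Agent.Y824.PV.limc`)
-/

set_option autoImplicit false

namespace Pool.Agent.T2h31.OB

open MeasureTheory Set Filter Topology
open scoped ENNReal InnerProductSpace
open Pool.Agent.W695.KH (Eu)
open Pool.Agent.Y506.RG (EW VW)
open Pool.Agent.Y510.RG (conv ka KK VW_close ka_nonneg KK_nonneg)

theorem t_LIS : S_LIS := by
  intro n κ δ w W _ hw hm hW hlim hev s hs hvar f hfd hf2 hgrad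
  have hx1 : ∀ x : Eu (Fin n), ‖x‖ ≤ 1 + ‖x‖ ^ 2 := fun x => by nlinarith [sq_nonneg (‖x‖ - 1)]
  have hx2 : ∀ x : Eu (Fin n), 1 ≤ 1 + ‖x‖ ^ 2 := fun x => by nlinarith [sq_nonneg ‖x‖]
  -- the masses
  have hmj : Tendsto (fun j => ∫ x, W j x) atTop (𝓝 (∫ x, w x)) := by
    rw [tendsto_iff_norm_sub_tendsto_zero]
    refine squeeze_zero (fun j => norm_nonneg _) (fun j => ?_) hlim
    have h3 := conv (v := fun _ => (1:ℝ)) (B := 1) hw (hW j) continuous_const (fun x => by
      rw [abs_one, one_mul]; exact hx2 x)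
    simpa using h3
  have hmpos : ∀ᶠ j in atTop, 0 < ∫ x, W j x := hmj.eventually (lt_mem_nhds hm)
  have hka : Tendsto (fun j => ka w (W j)) atTop (𝓝 0) := by
    unfold ka
    have h1 := (hlim.div hmj hm.ne').mul_const (1 + KK w)
    rw [zero_div, zero_mul] at h1
    exact h1
  have hfc : Continuous (fun x => f x) := hfd.continuous
  have hfb : ∀ x, |f x| ≤ 1 * (1 + ‖x‖ ^ 2) := fun x => by
    have := hf2 x; have := hx2 x; linarith
  have hfb2 : ∀ x, |f x ^ 2| ≤ 1 * (1 + ‖x‖ ^ 2) := fun x => by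
    have h1 := hf2 x
    have h2 := hx2 x
    rw [abs_pow]
    have h3 := abs_nonneg (f x)
    nlinarith
  have hVf : Tendsto (fun j => VW (W j) fun x => f x) atTop (𝓝 (VW w fun x => f x)) := by
    rw [tendsto_iff_norm_sub_tendsto_zero]
    have h1 : Tendsto (fun j => 1 * ka w (W j) + 1 * ka w (W j) *
        (2 * (1 * KK w) + 1 * ka w (W j))) atTop (𝓝 0) := by
      have := (hka.const_mul 1).add ((hka.const_mul 1).mul
        ((hka.const_mul 1).const_add (2 * (1 * KK w))))
      simpa using this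
    refine squeeze_zero' (Eventually.of_forall fun j => norm_nonneg _) ?_ h1
    filter_upwards [hmpos] with j hj
    exact VW_close hw (hW j) hm hj hfc hfb hfb2
  -- the variances of the linear forms
  obtain ⟨e, he⟩ : ∃ e : ℕ → ℝ, e = fun j => 1 * ka w (W j) + 1 * ka w (W j) *
      (2 * (1 * KK w) + 1 * ka w (W j)) := ⟨_, rfl⟩
  have he0 : Tendsto e atTop (𝓝 0) := by
    rw [he]
    have := (hka.const_mul 1).add ((hka.const_mul 1).mul
        ((hka.const_mul 1).const_add (2 * (1 * KK w))))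
    simpa using this
  have hmain : ∀ᶠ j in atTop, VW (W j) (fun x => f x) ≤ δ := by
    filter_upwards [hmpos, hev, he0.eventually (gt_mem_nhds (by positivity : (0 : ℝ) < 3 * s))]
      with j hj hst hej
    refine hst (4 * s) (by linarith) ?_ f hfd hf2 ?_
    · intro θ hθ
      have hb1 : ∀ x, |⟪x, θ⟫_ℝ| ≤ 1 * (1 + ‖x‖ ^ 2) := fun x => by
        have h1 := abs_real_inner_le_norm x θ
        rw [hθ, mul_one] at h1
        have h3 := hx1 x
        linarith
      have hb2 : ∀ x, |⟪x, θ⟫_ℝ ^ 2| ≤ 1 * (1 + ‖x‖ ^ 2) := fun x => by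
        have h1 := abs_real_inner_le_norm x θ
        rw [hθ, mul_one] at h1
        have h2 := pow_le_pow_left₀ (abs_nonneg _) h1 2
        rw [abs_pow]
        linarith
      have hc1 : Continuous (fun x : Eu (Fin n) => ⟪x, θ⟫_ℝ) := continuous_id.inner continuous_const
      have h1 := VW_close hw (hW j) hm hj hc1 hb1 hb2
      have h2 := hvar θ hθ
      have h3 := (abs_le.1 h1).2
      rw [he] at hej
      linarith
    · intro y
      refine (hgrad y).trans (le_of_eq ?_)
      have h4 : Real.sqrt (4 * s) = 2 * Real.sqrt s := by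
        rw [Real.sqrt_mul (by norm_num), show (4 : ℝ) = 2 ^ 2 by norm_num,
          Real.sqrt_sq (by norm_num)]
      rw [h4, div_div]
  exact le_of_tendsto hVf hmain

end Pool.Agent.T2h31.OB
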