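import Pool.Agent.T2h31.OB.Stm
import Pool.Agent.R476.OR.B

/-! # MOC: moments of even symmetric functions on the cone -/

set_option autoImplicit false

namespace Pool.Agent.T2h31.OB

open MeasureTheory Set Filter Topology
open scoped ENNReal InnerProductSpace
open Pool.Agent.W695.KH (Eu EV VV Sm)
open Pool.Agent.Y506.RG (ND EW VW ILK)
open Pool.Agent.R476.OR (CV NV mV rV FD SV KV LVL sgm sgd ind)
open Pool.Agent.T2h31.SB (Lb sv SK)

namespace MOC

variable {n : ℕ}

theorem rh_prod (V : ℝ → ℝ) (x : Eu (Fin n)) : rh V x = ∏ i, Real.exp (-V (x i)) := by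
  unfold rh S1
  rw [← Finset.sum_neg_distrib, Real.exp_sum]

theorem S1_perm (V : ℝ → ℝ) (σ : Equiv.Perm (Fin n)) (x : Eu (Fin n)) :
    S1 V (WithLp.toLp 2 fun i => x (σ i)) = S1 V x := by
  unfold S1
  exact Equiv.sum_comp σ (fun i => V (x i))

theorem S1_sign {V : ℝ → ℝ} (hV : ∀ t, V (-t) = V t) (s : Fin n → Bool) (x : Eu (Fin n)) :
    S1 V (WithLp.toLp 2 fun i => if s i then x i else -x i) = S1 V x := by
  unfold S1
  refine Finset.sum_congr rfl fun i _ => ?_
  show V (if s i then x i else -x i) = V (x i)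
  split_ifs
  · rfl
  · exact hV _

theorem S1_cont {V : ℝ → ℝ} (hV : Continuous V) : Continuous (S1 V : Eu (Fin n) → ℝ) := by
  unfold S1
  exact continuous_finsetSum _ fun i _ => hV.comp (EuclideanSpace.proj (𝕜 := ℝ) i).continuous

theorem rh_cont {V : ℝ → ℝ} (hV : Continuous V) : Continuous (rh V : Eu (Fin n) → ℝ) := by
  unfold rh
  exact Real.continuous_exp.comp (S1_cont hV).neg

theorem rh_perm (V : ℝ → ℝ) (σ : Equiv.Perm (Fin n)) (x : Eu (Fin n)) :
    rh V (WithLp.toLp 2 fun i => x (σ i)) = rh V x := by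
  unfold rh
  rw [S1_perm]

theorem rh_sign {V : ℝ → ℝ} (hV : ∀ t, V (-t) = V t) (s : Fin n → Bool) (x : Eu (Fin n)) :
    rh V (WithLp.toLp 2 fun i => if s i then x i else -x i) = rh V x := by
  unfold rh
  rw [S1_sign hV]

theorem V_cont {V V' : ℝ → ℝ} (h : NE V V') : Continuous V :=
  continuous_iff_continuousAt.2 fun t => (h.nv.cv.der t).continuousAt

theorem f_cont {V V' : ℝ → ℝ} (h : NE V V') : Continuous fun t => Real.exp (-V t) :=
  Real.continuous_exp.comp (V_cont h).neg

/-- first moments on the whole space -/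
theorem one {V V' : ℝ → ℝ} (h : NE V V') {φ : ℝ → ℝ} (hφ : Continuous φ)
    (h2 : Integrable fun t => φ t ^ 2 * Real.exp (-V t)) :
    Integrable (fun x : Eu (Fin n) => S1 φ x * rh V x) ∧
    ∫ x : Eu (Fin n), S1 φ x * rh V x = n * ∫ t, φ t * Real.exp (-V t) := by
  have hi1 : Integrable fun t => φ t * Real.exp (-V t) :=
    Pool.Agent.R476.OR.int_one (f_cont h) (fun s => (Real.exp_pos _).le) h.nv.nd.int0 hφ h2
  have e : ∀ (i : Fin n) (x : Eu (Fin n)), φ (x i) * rh V x =
      ∏ k, (if k = i then φ (x k) else 1) * Real.exp (-V (x k)) := by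
    intro i x
    rw [Finset.prod_mul_distrib, Finset.prod_ite_eq' Finset.univ i (fun k => φ (x k)), rh_prod]
    simp
  have hint : ∀ i : Fin n, Integrable (fun x : Eu (Fin n) => φ (x i) * rh V x) := by
    intro i
    simp only [e i]
    refine Pool.Agent.R476.OR.prod_int
      (fun k t => (if k = i then φ t else 1) * Real.exp (-V t)) fun k => ?_
    by_cases hk : k = i
    · simpa only [hk, if_true] using hi1
    · simpa only [hk, if_false, one_mul] using h.nv.nd.int0
  have hval : ∀ i : Fin n, ∫ x : Eu (Fin n), φ (x i) * rh V x = ∫ t, φ t * Real.exp (-V t) := by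
    intro i
    simp only [e i]
    rw [Pool.Agent.R476.OR.prod_val (fun k t => (if k = i then φ t else 1) * Real.exp (-V t)),
      Finset.prod_eq_single i]
    · simp
    · intro k _ hk
      simp only [hk, if_false, one_mul]
      exact h.nv.nd.mass
    · intro hh
      exact absurd (Finset.mem_univ i) hh
  have e1 : ∀ x : Eu (Fin n), S1 φ x * rh V x = ∑ i, φ (x i) * rh V x := by
    intro x
    unfold S1
    rw [Finset.sum_mul]
  simp only [e1]
  refine ⟨integrable_finsetSum _ fun i _ => hint i, ?_⟩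
  rw [integral_finsetSum _ fun i _ => hint i]
  simp only [hval, Finset.sum_const, Finset.card_univ, Fintype.card_fin, nsmul_eq_mul]

theorem rh_one {V V' : ℝ → ℝ} (h : NE V V') :
    Integrable (rh V : Eu (Fin n) → ℝ) ∧ ∫ x : Eu (Fin n), rh V x = 1 := by
  have e : (rh V : Eu (Fin n) → ℝ) = fun x => ∏ k, Real.exp (-V (x k)) := by
    funext x; exact rh_prod V x
  refine ⟨?_, ?_⟩
  · rw [e]
    exact Pool.Agent.R476.OR.prod_int (fun _ t => Real.exp (-V t)) fun _ => h.nv.nd.int0
  · rw [e, Pool.Agent.R476.OR.prod_val (fun _ t => Real.exp (-V t))]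
    simp only [h.nv.nd.mass, Finset.prod_const_one]

/-- second moments on the whole space -/
theorem two' (hT : Pool.Agent.R476.OR.S_TWO) {V V' : ℝ → ℝ} (h : NE V V') {φ : ℝ → ℝ}
    (hφ : Continuous φ) (h2 : Integrable fun t => φ t ^ 2 * Real.exp (-V t)) :
    Integrable (fun x : Eu (Fin n) => S1 φ x ^ 2 * rh V x) ∧
    ((∫ t, φ t * Real.exp (-V t) = 0) →
      ∫ x : Eu (Fin n), S1 φ x ^ 2 * rh V x = n * ∫ t, φ t ^ 2 * Real.exp (-V t)) := by
  have h1 := hT n (fun _ t => Real.exp (-V t)) (fun _ => φ) (fun _ => f_cont h)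
    (fun _ _ => (Real.exp_pos _).le) (fun _ => h.nv.nd.int0) (fun _ => h.nv.nd.mass)
    (fun _ => hφ) (fun _ => h2)
  simp only [← rh_prod] at h1
  refine ⟨h1.1, fun h0 => ?_⟩
  have h3 := h1.2.2.2 fun _ => h0
  simp only [Finset.sum_const, Finset.card_univ, Fintype.card_fin, nsmul_eq_mul] at h3
  exact h3

end MOC

theorem t_MOC (hSY : S_SY) (hT : Pool.Agent.R476.OR.S_TWO) : S_MOC := by
  intro n R V V' hNE hms φ hφ hφe hφ2
  obtain ⟨p, hp0, hp, -⟩ := hSY n R
  have hVc := MOC.V_cont hNE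
  have hρc := MOC.rh_cont (n := n) hVc
  have hms1 : ms V R = p := by
    unfold ms
    rw [hp (rh V) hρc (MOC.rh_one hNE).1 (fun σ x => MOC.rh_perm V σ x)
      (fun s x => MOC.rh_sign hNE.even s x), (MOC.rh_one hNE).2, mul_one]
  have hp1 : 0 < p := by rw [← hms1]; exact hms
  -- means on the cone
  have hmc : ∀ F : Eu (Fin n) → ℝ, Continuous F → Integrable (fun x => F x * rh V x) →
      (∀ (σ : Equiv.Perm (Fin n)) (x : Eu (Fin n)), F (WithLp.toLp 2 fun i => x (σ i)) = F x) →
      (∀ (s : Fin n → Bool) (x : Eu (Fin n)),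
        F (WithLp.toLp 2 fun i => if s i then x i else -x i) = F x) →
      MC V R F = ∫ x, F x * rh V x := by
    intro F hF hFi hF1 hF2
    unfold MC
    rw [hp (fun x => F x * rh V x) (hF.mul hρc) hFi
      (fun σ x => by simp only [hF1 σ x, MOC.rh_perm V σ x])
      (fun s x => by simp only [hF2 s x, MOC.rh_sign hNE.even s x]), hms1]
    field_simp
  refine ⟨?_, ?_, ?_, ?_⟩
  · show MC V R (S1 φ) = _
    rw [hmc (S1 φ) (MOC.S1_cont hφ) (MOC.one hNE hφ hφ2).1 (fun σ x => MOC.S1_perm φ σ x)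
      (fun s x => MOC.S1_sign hφe s x)]
    exact (MOC.one hNE hφ hφ2).2
  · exact (MOC.two' hT hNE hφ hφ2).1
  · intro h0
    show MC V R (fun x => S1 φ x ^ 2) = _
    rw [hmc (fun x => S1 φ x ^ 2) ((MOC.S1_cont hφ).pow 2) (MOC.two' hT hNE hφ hφ2).1
      (fun σ x => by simp only [MOC.S1_perm φ σ x])
      (fun s x => by simp only [MOC.S1_sign hφe s x])]
    exact (MOC.two' hT hNE hφ hφ2).2 h0
  · intro ψ hψ hψe hψ2 h0 h0'
    show MC V R (fun x => S1 φ x * S1 ψ x) = _
    have hfc := MOC.f_cont hNE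
    have hi1 : Integrable fun t => φ t * Real.exp (-V t) :=
      Pool.Agent.R476.OR.int_one hfc (fun s => (Real.exp_pos _).le) hNE.nv.nd.int0 hφ hφ2
    have hi2 : Integrable fun t => ψ t * Real.exp (-V t) :=
      Pool.Agent.R476.OR.int_one hfc (fun s => (Real.exp_pos _).le) hNE.nv.nd.int0 hψ hψ2
    have hφψ : Integrable fun t => φ t * ψ t * Real.exp (-V t) := by
      refine Integrable.mono' (hφ2.add hψ2) ((hφ.mul hψ).mul hfc).aestronglyMeasurable ?_
      filter_upwards with t
      rw [Real.norm_eq_abs, abs_mul, abs_of_pos (Real.exp_pos (-V t))]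
      have h1 : |φ t * ψ t| ≤ φ t ^ 2 + ψ t ^ 2 := by
        rw [abs_mul]
        have h3 := sq_nonneg (|φ t| - |ψ t|)
        nlinarith [sq_abs (φ t), sq_abs (ψ t), sq_nonneg (φ t), sq_nonneg (ψ t)]
      have := mul_le_mul_of_nonneg_right h1 (Real.exp_pos (-V t)).le
      simp only [Pi.add_apply]
      linarith
    -- the sum and the difference
    have ea : ∀ t, (φ t + ψ t) ^ 2 * Real.exp (-V t) =
        φ t ^ 2 * Real.exp (-V t) + (ψ t ^ 2 * Real.exp (-V t) +
          2 * (φ t * ψ t * Real.exp (-V t))) := fun t => by ring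
    have eb : ∀ t, (φ t - ψ t) ^ 2 * Real.exp (-V t) =
        φ t ^ 2 * Real.exp (-V t) + (ψ t ^ 2 * Real.exp (-V t) -
          2 * (φ t * ψ t * Real.exp (-V t))) := fun t => by ring
    have j2 : Integrable fun t => 2 * (φ t * ψ t * Real.exp (-V t)) := hφψ.const_mul 2
    have j3 : Integrable fun t => ψ t ^ 2 * Real.exp (-V t) +
      2 * (φ t * ψ t * Real.exp (-V t)) := hψ2.add j2
    have j4 : Integrable fun t => ψ t ^ 2 * Real.exp (-V t) -
      2 * (φ t * ψ t * Real.exp (-V t)) := hψ2.sub j2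
    have hA2 : Integrable fun t => (φ t + ψ t) ^ 2 * Real.exp (-V t) := by
      simp only [ea]
      exact hφ2.add j3
    have hB2 : Integrable fun t => (φ t - ψ t) ^ 2 * Real.exp (-V t) := by
      simp only [eb]
      exact hφ2.add j4
    have hA0 : ∫ t, (φ t + ψ t) * Real.exp (-V t) = 0 := by
      simp only [add_mul]
      rw [integral_add hi1 hi2, h0, h0', add_zero]
    have hB0 : ∫ t, (φ t - ψ t) * Real.exp (-V t) = 0 := by
      simp only [sub_mul]
      rw [integral_sub hi1 hi2, h0, h0', sub_zero]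
    have kA := MOC.two' (n := n) hT hNE (φ := fun t => φ t + ψ t) (hφ.add hψ) hA2
    have kB := MOC.two' (n := n) hT hNE (φ := fun t => φ t - ψ t) (hφ.sub hψ) hB2
    have vA := kA.2 hA0
    have vB := kB.2 hB0
    have i2 : ∫ t, 2 * (φ t * ψ t * Real.exp (-V t)) = 2 * ∫ t, φ t * ψ t * Real.exp (-V t) :=
      integral_const_mul _ _
    simp only [ea] at vA
    simp only [eb] at vB
    rw [integral_add hφ2 j3, integral_add hψ2 j2, i2] at vA
    rw [integral_add hφ2 j4, integral_sub hψ2 j2, i2] at vB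
    have e1 : ∀ x : Eu (Fin n), S1 φ x * S1 ψ x * rh V x =
        1 / 4 * (S1 (fun t => φ t + ψ t) x ^ 2 * rh V x -
          S1 (fun t => φ t - ψ t) x ^ 2 * rh V x) := by
      intro x
      have h1 : S1 (fun t => φ t + ψ t) x = S1 φ x + S1 ψ x := by
        unfold S1; exact Finset.sum_add_distrib
      have h2 : S1 (fun t => φ t - ψ t) x = S1 φ x - S1 ψ x := by
        unfold S1; exact Finset.sum_sub_distrib _ _
      rw [h1, h2]
      ring
    have hint : Integrable fun x : Eu (Fin n) => S1 φ x * S1 ψ x * rh V x := by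
      simp only [e1]
      exact (kA.1.sub kB.1).const_mul _
    rw [hmc (fun x => S1 φ x * S1 ψ x) ((MOC.S1_cont hφ).mul (MOC.S1_cont hψ)) hint
      (fun σ x => by simp only [MOC.S1_perm φ σ x, MOC.S1_perm ψ σ x])
      (fun s x => by simp only [MOC.S1_sign hφe s x, MOC.S1_sign hψe s x])]
    simp only [e1]
    rw [integral_const_mul, integral_sub kA.1 kB.1, vA, vB]
    ring

end Pool.Agent.T2h31.OB
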