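import Pool.Agent.T2h31.OB.Stm
import Pool.Agent.R938.ORF.Main

/-! NRS: normalisation of an even potential, the same for all coordinates -/

set_option autoImplicit false

namespace Pool.Agent.T2h31.OB

open MeasureTheory Set Filter Topology
open scoped ENNReal InnerProductSpace
open Pool.Agent.W695.KH (Eu EV VV Sm)
open Pool.Agent.R476.OR (CV NV mV rV FD SV KV LVL sgm sgd ind)
open Pool.Agent.T2h31.SB (Lb sv SK)
open Pool.Agent.R938.ORF

/-- the centre is the origin -/
theorem nrs_zero {V : ℝ → ℝ} (he : ∀ t, V (-t) = V t) {l a d k : ℝ} (hd : 0 < d)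
    {W' : ℝ → ℝ} (h : NV (fun t => l * V (a + d * t) + k) W') : a = 0 := by
  set F : ℝ → ℝ := fun s => Real.exp (-(l * V (a + d * s) + k)) with hF
  have hmass : ∫ s, F s = 1 := h.nd.mass
  have hmean : ∫ s, s * F s = 0 := h.nd.mean
  have hi0 : Integrable F := h.nd.int0
  have hi2 : Integrable fun s => s ^ 2 * F s := h.nd.int2
  have hi1 : Integrable fun s => s * F s := by
    refine (hi0.add hi2).mono' (continuous_id.aestronglyMeasurable.mul hi0.aestronglyMeasurable) ?_
    refine Filter.Eventually.of_forall fun s => ?_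
    have hF0 : 0 < F s := Real.exp_pos _
    show ‖s * F s‖ ≤ F s + s ^ 2 * F s
    rw [norm_mul, Real.norm_of_nonneg hF0.le, Real.norm_eq_abs]
    have h1 : |s| ≤ 1 + s ^ 2 := by
      rw [abs_le]
      constructor <;> nlinarith [sq_nonneg (s - 1), sq_nonneg (s + 1)]
    nlinarith
  have h1 : ∫ s, (a + d * s) * F s = a := by
    have : ∀ s, (a + d * s) * F s = a * F s + d * (s * F s) := fun s => by ring
    simp_rw [this]
    rw [integral_add (hi0.const_mul a) (hi1.const_mul d), integral_const_mul, integral_const_mul,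
      hmass, hmean]
    ring
  set H : ℝ → ℝ := fun t => t * Real.exp (-(l * V t + k)) with hH
  have hodd : ∫ t, H t = 0 := by
    have e1 : ∫ t, H (-t) = ∫ t, H t := integral_neg_eq_self H volume
    have e2 : ∀ t, H (-t) = -H t := fun t => by
      simp only [hH, he]
      ring
    simp_rw [e2] at e1
    rw [integral_neg] at e1
    linarith
  have h2 : ∫ s, (a + d * s) * F s = 0 := by
    have e1 : ∀ s, (a + d * s) * F s = (fun u => H (a + u)) (d * s) := fun s => rfl
    simp_rw [e1]
    rw [Measure.integral_comp_mul_left (fun u => H (a + u)) d, integral_add_left_eq_self H a, hodd,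
      smul_zero]
  rw [← h1, h2]

theorem t_NRS : S_NRS := by
  intro n V V' hn hV he E hb ⟨x0, hx0⟩
  have hb' : Bornology.IsBounded (KV (fun _ : Fin n => V) E) := hb
  have hx0' : SV (fun _ : Fin n => V) x0 < E := hx0
  have hco := fun i => coer_all (fun _ : Fin n => hV) hb' hx0' i
  obtain ⟨c, B, hcB⟩ := hco ⟨0, hn⟩
  have hcB' : Coer V c B := hcB
  obtain ⟨l, hl, hopt⟩ := opt hn (fun _ : Fin n => cv_cont hV) (fun _ => cv_convex hV)
    (bdd_all hco) hx0'
  obtain ⟨a, d, k, hd, hNV⟩ := norm_one hV hcB' hl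
  have ha : a = 0 := nrs_zero he hd hNV
  subst ha
  obtain ⟨C, hC0, hC⟩ := vol_aff (fun _ : Fin n => (0 : ℝ)) (fun _ => d) (fun _ => hd)
  have hSV : ∀ x : Eu (Fin n), SV (fun (_ : Fin n) t => l * V (0 + d * t) + k) x
      = l * SV (fun _ : Fin n => V) (WithLp.toLp 2 (fun i => 0 + d * x i)) + ∑ _i : Fin n, k := by
    intro x
    unfold SV
    rw [Finset.sum_add_distrib, Finset.mul_sum]
  have hmem : ∀ (s : ℝ) (x : Eu (Fin n)),
      x ∈ KV (fun (_ : Fin n) t => l * V (0 + d * t) + k) (l * s + ∑ _i : Fin n, k)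
      ↔ WithLp.toLp 2 (fun i => 0 + d * x i) ∈ KV (fun _ : Fin n => V) s := by
    intro s x
    change SV _ x ≤ _ ↔ SV (fun _ : Fin n => V) _ ≤ s
    rw [hSV x]
    constructor
    · intro h
      have h1 : l * SV (fun _ : Fin n => V) (WithLp.toLp 2 (fun i => 0 + d * x i)) ≤ l * s := by
        linarith
      exact le_of_mul_le_mul_left h1 hl
    · intro h
      have := mul_le_mul_of_nonneg_left h hl.le
      linarith
  have hvol : ∀ s : ℝ, volume (KV (fun (_ : Fin n) t => l * V (0 + d * t) + k)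
      (l * s + ∑ _i : Fin n, k)) = C * volume (KV (fun _ : Fin n => V) s) := by
    intro s
    rw [← hC]
    congr 1
    ext x
    exact hmem s x
  refine ⟨fun t => l * V (0 + d * t) + k, fun t => l * d * V' (0 + d * t),
    l * E + ∑ _i : Fin n, k, d, ⟨hNV, ?_⟩, ⟨?_, ?_, ?_⟩, hd, ?_⟩
  · intro t
    have h1 : 0 + d * -t = -(0 + d * t) := by ring
    show l * V (0 + d * -t) + k = l * V (0 + d * t) + k
    rw [h1, he]
  · exact bdd_all (fun _ : Fin n => ⟨_, _, coer_aff hcB' hl hd⟩) _
  · rw [hvol]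
    have := KV_pos (fun _ : Fin n => cv_cont hV) hx0'
    exact ENNReal.mul_pos hC0 this.ne'
  · intro s
    have hs : s = l * ((s - ∑ _i : Fin n, k) / l) + ∑ _i : Fin n, k := by field_simp; ring
    generalize (s - ∑ _i : Fin n, k) / l = s1 at hs
    rw [hs, hvol, hvol]
    have key := hopt s1
    have ex : ∀ r : ℝ, ENNReal.ofReal (Real.exp (-(l * r + ∑ _i : Fin n, k)))
        = ENNReal.ofReal (Real.exp (-(l * r))) * ENNReal.ofReal (Real.exp (-∑ _i : Fin n, k)) := by
      intro r
      rw [← ENNReal.ofReal_mul (Real.exp_pos _).le, ← Real.exp_add]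
      congr 2
      ring
    rw [ex, ex]
    calc C * volume (KV (fun _ : Fin n => V) s1) * (ENNReal.ofReal (Real.exp (-(l * s1))) *
          ENNReal.ofReal (Real.exp (-∑ _i : Fin n, k)))
        = (volume (KV (fun _ : Fin n => V) s1) * ENNReal.ofReal (Real.exp (-(l * s1)))) *
          (C * ENNReal.ofReal (Real.exp (-∑ _i : Fin n, k))) := by ring
      _ ≤ (volume (KV (fun _ : Fin n => V) E) * ENNReal.ofReal (Real.exp (-(l * E)))) *
          (C * ENNReal.ofReal (Real.exp (-∑ _i : Fin n, k))) :=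
          mul_le_mul_left key _
      _ = _ := by ring
  · intro x
    have h1 := hmem E x
    have h2 : (WithLp.toLp 2 (fun i => 0 + d * x i) : Eu (Fin n)) = d • x := by
      ext i
      simp
    rw [h2] at h1
    exact h1

end Pool.Agent.T2h31.OB
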