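import Pool.Agent.T2h31.OB.Stm

/-!
# Task OD (helper49): facts on one normalised even potential
-/

set_option autoImplicit false

namespace Pool.Agent.T2h31.OB

open MeasureTheory Set Filter Topology
open scoped ENNReal InnerProductSpace
open Pool.Agent.Y506.RG (ND)
open Pool.Agent.R476.OR (CV NV mV rV FD)

namespace OD

variable {V V' : ℝ → ℝ}

theorem contV (h : CV V V') : Continuous V :=
  continuous_iff_continuousAt.2 fun t => (h.der t).continuousAt

theorem V'_zero (h : NE V V') : V' 0 = 0 := by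
  have h1 := h.nv.cv.der 0
  have h2 : HasDerivAt (fun t : ℝ => V (-t)) (V' 0 * -1) 0 := by
    have h3 : HasDerivAt V (V' 0) (-0) := by
      rw [neg_zero]
      exact h1
    exact h3.comp 0 (hasDerivAt_neg 0)
  have h4 : (fun t : ℝ => V (-t)) = V := funext h.even
  rw [h4] at h2
  have h5 := h1.unique h2
  linarith

theorem V'_nonneg (h : NE V V') (t : ℝ) (ht : 0 ≤ t) : 0 ≤ V' t := by
  rw [← V'_zero h]
  exact h.nv.cv.mono ht

theorem der_f (h : CV V V') (t : ℝ) :
    HasDerivAt (fun s => -Real.exp (-V s)) (V' t * Real.exp (-V t)) t := by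
  have h1 : HasDerivAt (fun s => -Real.exp (-V s)) (-(Real.exp (-V t) * -V' t)) t :=
    ((h.der t).neg.exp).neg
  have e : -(Real.exp (-V t) * -V' t) = V' t * Real.exp (-V t) := by ring
  rw [e] at h1
  exact h1

theorem tail_zero {C : ℝ} (hC : 1 ≤ C) (h : ∀ s, Real.exp (-V s) ≤ C * Real.exp (-|s| / C)) :
    Tendsto (fun s => -Real.exp (-V s)) atTop (𝓝 0) := by
  have hC0 : 0 < C := by linarith
  have h1 : Tendsto (fun s : ℝ => C * Real.exp (-|s| / C)) atTop (𝓝 0) := by
    have h2 : Tendsto (fun s : ℝ => -|s| / C) atTop atBot := by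
      have h3 : Tendsto (fun s : ℝ => |s| / C) atTop atTop :=
        tendsto_abs_atTop_atTop.atTop_div_const hC0
      have h4 := tendsto_neg_atTop_atBot.comp h3
      refine h4.congr fun s => ?_
      show -(|s| / C) = -|s| / C
      rw [neg_div]
    have h5 := (Real.tendsto_exp_atBot.comp h2).const_mul C
    rw [mul_zero] at h5
    exact h5
  have h6 : Tendsto (fun s => Real.exp (-V s)) atTop (𝓝 0) :=
    squeeze_zero (fun s => (Real.exp_pos _).le) h h1
  have h7 := h6.neg
  rw [neg_zero] at h7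
  exact h7

theorem mills {C : ℝ} (hC : 1 ≤ C) (hN : NE V V')
    (h : ∀ s, Real.exp (-V s) ≤ C * Real.exp (-|s| / C)) (t : ℝ) (ht : 0 ≤ t) :
    V' t * (∫ s in Ioi t, Real.exp (-V s)) ≤ Real.exp (-V t) := by
  have hd : ∀ x ∈ Ici t, HasDerivAt (fun s => -Real.exp (-V s)) (V' x * Real.exp (-V x)) x :=
    fun x _ => der_f hN.nv.cv x
  have hp : ∀ x ∈ Ioi t, 0 ≤ V' x * Real.exp (-V x) := fun x hx =>
    mul_nonneg (V'_nonneg hN x (ht.trans (le_of_lt hx))) (Real.exp_pos _).le
  have hz := tail_zero hC h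
  have h1 := integral_Ioi_of_hasDerivAt_of_nonneg' hd hp hz
  have h2 := integrableOn_Ioi_deriv_of_nonneg' hd hp hz
  rw [zero_sub, neg_neg] at h1
  rw [← h1, ← integral_const_mul]
  refine setIntegral_mono_on (hN.nv.nd.int0.integrableOn.const_mul _) h2 measurableSet_Ioi
    fun x hx => ?_
  exact mul_le_mul_of_nonneg_right (hN.nv.cv.mono (le_of_lt hx)) (Real.exp_pos _).le

theorem var_le {C : ℝ} {v : ℝ → ℝ} (hC : 1 ≤ C) (hN : NV V V') (hF : FD C V V' v) :
    rV V ≤ C := by
  have hr : 0 ≤ rV V := integral_nonneg fun t => mul_nonneg (sq_nonneg _) (Real.exp_pos _).le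
  have hV := contV hN.cv
  have hI : Integrable fun t => V' t * v t * Real.exp (-V t) := by
    refine Integrable.mono' ((hF.i2.add hN.nd.int0).div_const 2) ?_ (ae_of_all _ fun t => ?_)
    · exact ((hN.cv.cont.mul hF.cont).mul (Real.continuous_exp.comp hV.neg)).aestronglyMeasurable
    · have h1 : (0 : ℝ) < Real.exp (-V t) := Real.exp_pos _
      rw [Real.norm_eq_abs, abs_mul, abs_of_pos h1]
      show |V' t * v t| * Real.exp (-V t) ≤
        ((V' t * v t) ^ 2 * Real.exp (-V t) + Real.exp (-V t)) / 2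
      have h2 : |V' t * v t| ≤ ((V' t * v t) ^ 2 + 1) / 2 := by
        have h3 := sq_nonneg (|V' t * v t| - 1)
        have h4 := sq_abs (V' t * v t)
        nlinarith
      nlinarith
  have h0 : 0 ≤ ∫ t, (V' t * v t - rV V) ^ 2 * Real.exp (-V t) :=
    integral_nonneg fun t => mul_nonneg (sq_nonneg _) (Real.exp_pos _).le
  have e : ∫ t, (V' t * v t - rV V) ^ 2 * Real.exp (-V t) =
      (∫ t, (V' t * v t) ^ 2 * Real.exp (-V t)) - 2 * rV V * (∫ t, V' t * v t * Real.exp (-V t)) +
        rV V ^ 2 * ∫ t, Real.exp (-V t) := by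
    have hA : Integrable fun t => (V' t * v t) ^ 2 * Real.exp (-V t) -
        2 * rV V * (V' t * v t * Real.exp (-V t)) := hF.i2.sub (hI.const_mul _)
    have hB : Integrable fun t => rV V ^ 2 * Real.exp (-V t) := hN.nd.int0.const_mul _
    rw [← integral_const_mul, ← integral_const_mul, ← integral_sub hF.i2 (hI.const_mul _),
      ← integral_add hA hB]
    refine integral_congr_ae (ae_of_all _ fun t => ?_)
    show (V' t * v t - rV V) ^ 2 * Real.exp (-V t) = (V' t * v t) ^ 2 * Real.exp (-V t) -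
      2 * rV V * (V' t * v t * Real.exp (-V t)) + rV V ^ 2 * Real.exp (-V t)
    ring
  rw [e, hF.mean, hN.nd.mass] at h0
  have h1 := hF.b2
  by_contra hlt
  push Not at hlt
  have h2 : 0 < rV V := by linarith
  nlinarith [mul_pos h2 (sub_pos.2 hlt)]

end OD

theorem t_OD (h1 : Pool.Agent.Y506.RG.S_ONE) (h2 : Pool.Agent.R476.OR.S_FLD) : S_OD := by
  obtain ⟨C1, hC1, H1⟩ := h1
  obtain ⟨C2, hC2, H2⟩ := h2
  refine ⟨C1 + C2, by linarith, fun V V' hN => ?_⟩
  have hO := H1 _ hN.nv.nd
  obtain ⟨hi, v, hF⟩ := H2 V V' hN.nv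
  have hC10 : 0 < C1 := by linarith
  refine ⟨?_, fun t => ?_, fun t ht => ?_, fun t ht => ⟨OD.V'_nonneg hN t ht,
    OD.mills hC1 hN hO.tail t ht⟩, ?_, ?_, hi⟩
  · refine le_trans ?_ hO.zero
    exact one_div_le_one_div_of_le hC10 (by linarith)
  · have h3 := hO.tail t
    have h4 : Real.exp (-|t| / C1) ≤ 1 := by
      rw [Real.exp_le_one_iff]
      exact div_nonpos_of_nonpos_of_nonneg (neg_nonpos.2 (abs_nonneg t)) hC10.le
    have h3' : Real.exp (-V t) ≤ C1 * Real.exp (-|t| / C1) := h3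
    nlinarith
  · have h3 := hO.right t ht
    have h4 := Real.exp_pos (-V t)
    have h3' : ∫ s in Ioi t, Real.exp (-V s) ≤ C1 * Real.exp (-V t) := h3
    nlinarith
  · exact integral_nonneg fun t => mul_nonneg (sq_nonneg _) (Real.exp_pos _).le
  · have := OD.var_le hC2 hN.nv hF
    linarith

end Pool.Agent.T2h31.OB
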