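import Pool.Agent.T2h31.OB.Stm

set_option autoImplicit false

namespace Pool.Agent.T2h31.OB

open MeasureTheory Set Filter Topology
open scoped ENNReal InnerProductSpace
open Pool.Agent.R476.OR (CV NV mV rV FD)



theorem t_ODV : S_ODV := by
  intro C V V' v hN hv
  have hVc : Continuous V := continuous_iff_continuousAt.2 fun t => (hN.nv.cv.der t).continuousAt
  have hfc : Continuous fun t => Real.exp (-V t) := Real.continuous_exp.comp hVc.neg
  set g : ℝ → ℝ := fun t => v t * Real.exp (-V t) with hg
  have hgc : Continuous g := hv.cont.mul hfc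
  -- integrability
  have hgi : Integrable g := by
    have i1 : Integrable fun t => Real.exp (-V t) + v t ^ 2 * Real.exp (-V t) :=
      hN.nv.nd.int0.add hv.i1
    refine Integrable.mono' i1 hgc.aestronglyMeasurable (Eventually.of_forall fun t => ?_)
    rw [hg, Real.norm_eq_abs, abs_mul, abs_of_nonneg (Real.exp_pos (-V t)).le]
    have h1 : |v t| ≤ 1 + v t ^ 2 := by
      nlinarith [sq_abs (v t), sq_nonneg (|v t| - 1), abs_nonneg (v t)]
    nlinarith [mul_le_mul_of_nonneg_right h1 (Real.exp_pos (-V t)).le]
  have hgi2 : Integrable fun t => g (-t) := hgi.comp_neg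
  -- the sum is constant
  have hder : ∀ t, HasDerivAt (fun t => g t + g (-t)) 0 t := by
    intro t
    have h1 := hv.der t
    have h2 : HasDerivAt (fun t => g (-t)) ((V (-t) - mV V) * Real.exp (-V (-t))) t := by
      have h3 := (hv.der (-t)).comp t (hasDerivAt_neg t)
      have e : -((V (-t) - mV V) * Real.exp (-V (-t))) * -1 =
        (V (-t) - mV V) * Real.exp (-V (-t)) := by ring
      rw [e] at h3
      exact h3
    have h4 := h1.add h2
    rw [hN.even t] at h4
    have e2 : -((V t - mV V) * Real.exp (-V t)) + (V t - mV V) * Real.exp (-V t) = 0 := by ring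
    rw [e2] at h4
    exact h4
  have hconst : ∀ t, g t + g (-t) = g 0 + g (-0) := by
    intro t
    exact is_const_of_deriv_eq_zero (fun x => (hder x).differentiableAt)
      (fun x => (hder x).deriv) t 0
  have hz : g 0 + g (-0) = 0 := by
    have h1 : Integrable fun _ : ℝ => g 0 + g (-0) := by
      refine (hgi.add hgi2).congr (Eventually.of_forall fun t => ?_)
      exact hconst t
    rcases (integrable_const_iff.1 h1) with h | h
    · exact h
    · exfalso
      have := h.measure_univ_lt_top
      simp at this
  intro t
  have h1 := hconst t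
  rw [hz] at h1
  simp only [hg, hN.even t] at h1
  have h2 := Real.exp_pos (-V t)
  have h3 : (v t + v (-t)) * Real.exp (-V t) = 0 := by linarith
  rcases mul_eq_zero.1 h3 with h | h
  · linarith
  · exact absurd h h2.ne'



end Pool.Agent.T2h31.OB
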