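import Mathlib
import Pool.Agent.T2h31.OB.Stm

/-! Task RLB of project OB (helper31), by helper6: some linear functional has large residual
variance. `RLB.core` is the computation for an abstract probability measure. -/

set_option autoImplicit false

namespace Pool.Agent.T2h31.OB

open MeasureTheory Set Filter Topology
open scoped ENNReal InnerProductSpace
open Pool.Agent.W695.KH (Eu EV VV Sm)
open Pool.Agent.Y506.RG (ND EW VW ILK)
open Pool.Agent.Y506.FF (LCon)
open Pool.Agent.R476.OR (CV NV mV rV FD SV KV LVL sgm sgd ind)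
open Pool.Agent.T2h31.SB (Lb sv SK)

namespace RLB

section cs
variable {α : Type*} [MeasurableSpace α] {μ : Measure α}

lemma cs {f g : α → ℝ} (hf : MemLp f 2 μ) (hg : MemLp g 2 μ) :
    (∫ x, f x * g x ∂μ) ^ 2 ≤ (∫ x, f x ^ 2 ∂μ) * ∫ x, g x ^ 2 ∂μ := by
  have h1 : Integrable (fun x => f x ^ 2) μ := hf.integrable_sq
  have h2 : Integrable (fun x => g x ^ 2) μ := hg.integrable_sq
  have h3 : Integrable (fun x => f x * g x) μ := hf.integrable_mul hg
  have key : ∀ t : ℝ, 0 ≤ (∫ x, g x ^ 2 ∂μ) * (t * t) + (-2 * ∫ x, f x * g x ∂μ) * t +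
      ∫ x, f x ^ 2 ∂μ := by
    intro t
    have h4 : 0 ≤ ∫ x, (f x - t * g x) ^ 2 ∂μ := integral_nonneg fun x => sq_nonneg _
    have h5 : ∫ x, (f x - t * g x) ^ 2 ∂μ = ∫ x, (f x ^ 2 + (-2 * t) * (f x * g x)) +
        t ^ 2 * g x ^ 2 ∂μ := by
      congr 1; ext x; ring
    have i1 : Integrable (fun x => (-2 * t) * (f x * g x)) μ := h3.const_mul _
    have i2 : Integrable (fun x => f x ^ 2 + (-2 * t) * (f x * g x)) μ := h1.add i1
    have i3 : Integrable (fun x => t ^ 2 * g x ^ 2) μ := h2.const_mul _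
    rw [h5, integral_add i2 i3, integral_add h1 i1, integral_const_mul, integral_const_mul] at h4
    nlinarith [h4]
  have := discrim_le_zero key
  unfold discrim at this
  nlinarith [this]

variable [IsProbabilityMeasure μ]

lemma sq_sub {f : α → ℝ} (hf : MemLp f 2 μ) (k : ℝ) :
    ∫ x, (f x - k) ^ 2 ∂μ = (∫ x, f x ^ 2 ∂μ - (∫ x, f x ∂μ) ^ 2) + (∫ x, f x ∂μ - k) ^ 2 := by
  have h1 : Integrable (fun x => f x ^ 2) μ := hf.integrable_sq
  have h2 : Integrable f μ := hf.integrable (by norm_num)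
  have h5 : ∫ x, (f x - k) ^ 2 ∂μ = ∫ x, (f x ^ 2 + (-2 * k) * f x) + k ^ 2 ∂μ := by
    congr 1; ext x; ring
  have i1 : Integrable (fun x => (-2 * k) * f x) μ := h2.const_mul _
  have i2 : Integrable (fun x => f x ^ 2 + (-2 * k) * f x) μ := h1.add i1
  rw [h5, integral_add i2 (integrable_const _),
      integral_add h1 i1, integral_const_mul, integral_const]
  simp
  ring

/-- expansion of the second moment of the residual -/
lemma resid {f g : α → ℝ} (hf : MemLp f 2 μ) (hg : MemLp g 2 μ) (β : ℝ)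
    (h0 : ∫ x, g x ∂μ = 0) :
    ∫ x, (f x - ∫ z, f z ∂μ - β * g x) ^ 2 ∂μ =
      (∫ x, f x ^ 2 ∂μ - (∫ x, f x ∂μ) ^ 2) - 2 * β * (∫ x, f x * g x ∂μ) +
        β ^ 2 * ∫ x, g x ^ 2 ∂μ := by
  set a := ∫ z, f z ∂μ with ha
  have h1 : Integrable (fun x => f x ^ 2) μ := hf.integrable_sq
  have h2 : Integrable (fun x => g x ^ 2) μ := hg.integrable_sq
  have h3 : Integrable (fun x => f x * g x) μ := hf.integrable_mul hg
  have h4 : Integrable f μ := hf.integrable (by norm_num)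
  have h4' : Integrable g μ := hg.integrable (by norm_num)
  have h5 : ∫ x, (f x - a - β * g x) ^ 2 ∂μ = ∫ x, ((((f x ^ 2 + (-2 * β) * (f x * g x)) +
      β ^ 2 * g x ^ 2) + (-2 * a) * f x) + (2 * a * β) * g x) + a ^ 2 ∂μ := by
    congr 1; ext x; ring
  have i1 : Integrable (fun x => (-2 * β) * (f x * g x)) μ := h3.const_mul _
  have i2 : Integrable (fun x => f x ^ 2 + (-2 * β) * (f x * g x)) μ := h1.add i1
  have i3 : Integrable (fun x => β ^ 2 * g x ^ 2) μ := h2.const_mul _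
  have i4 : Integrable (fun x => f x ^ 2 + (-2 * β) * (f x * g x) + β ^ 2 * g x ^ 2) μ := i2.add i3
  have i5 : Integrable (fun x => (-2 * a) * f x) μ := h4.const_mul _
  have i6 : Integrable (fun x => f x ^ 2 + (-2 * β) * (f x * g x) + β ^ 2 * g x ^ 2 +
    (-2 * a) * f x) μ := i4.add i5
  have i7 : Integrable (fun x => (2 * a * β) * g x) μ := h4'.const_mul _
  have i8 : Integrable (fun x => f x ^ 2 + (-2 * β) * (f x * g x) + β ^ 2 * g x ^ 2 +
    (-2 * a) * f x + (2 * a * β) * g x) μ := i6.add i7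
  rw [h5, integral_add i8 (integrable_const _), integral_add i6 i7, integral_add i4 i5,
    integral_add i2 i3, integral_add h1 i1, integral_const_mul, integral_const_mul,
    integral_const_mul, integral_const_mul, integral_const, h0, ← ha]
  simp
  ring

end cs

lemma core {n : ℕ} (hn : 1 ≤ n) (ν : Measure (Eu (Fin n))) [IsProbabilityMeasure ν]
    (S H : Eu (Fin n) → ℝ) (w : ℝ → ℝ) (C C1 C' r : ℝ) (hC : 1 ≤ C) (hC1 : 1 ≤ C1) (hC' : 1 ≤ C')
    (hr0 : 0 ≤ r) (hr : r ≤ C') (hX : ∀ i, MemLp (fun x : Eu (Fin n) => x i) 2 ν) (hS : MemLp S 2 ν)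
    (hH : MemLp H 2 ν) (hwc : Continuous w) (hwb : ∀ t, |w t| ≤ C)
    (hwl : ∀ s t, |w s - w t| ≤ C * |s - t|)
    (eS : ∫ x, S x ∂ν = 0) (eS2 : ∫ x, S x ^ 2 ∂ν = n * r) (eH : ∫ x, H x ∂ν = 0)
    (eH2 : ∫ x, H x ^ 2 ∂ν ≤ n * C ^ 2) (eHS : ∫ x, H x * S x ∂ν = 0)
    (ey : ∀ i, ∫ x, w (x i) ∂ν = ∫ x, x i * H x ∂ν)
    (ew : n / C ≤ ∫ x, ∑ i, w (x i) ^ 2 ∂ν)
    (hP : ∀ θ : Eu (Fin n), ∫ x, ⟪x, θ⟫_ℝ ^ 2 ∂ν - (∫ x, ⟪x, θ⟫_ℝ ∂ν) ^ 2 ≤ C1 * ‖θ‖ ^ 2) :
    ∃ θ : Eu (Fin n), ‖θ‖ = 1 ∧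
      min (1 / (4 * C ^ 3)) (1 / (2 * C ^ 3 * (1 + 4 * C ^ 3 * C1 * C'))) ≤
      (∫ x, ⟪x, θ⟫_ℝ ^ 2 ∂ν - (∫ x, ⟪x, θ⟫_ℝ ∂ν) ^ 2) - (∫ x, ⟪x, θ⟫_ℝ * S x ∂ν) ^ 2 / (1 + n * r) := by
  classical
  have hn' : (1 : ℝ) ≤ n := by exact_mod_cast hn
  have hC0 : (0 : ℝ) < C := by linarith
  have hC10 : (0 : ℝ) < C1 := by linarith
  have hC'0 : (0 : ℝ) < C' := by linarith
  have hnr : 0 ≤ n * r := by positivity
  have hs : 0 < 1 + n * r := by positivity
  have hin : ∀ (x θ : Eu (Fin n)), ⟪x, θ⟫_ℝ = ∑ i, θ i * x i := by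
    intro x θ
    rw [PiLp.inner_apply]
    refine Finset.sum_congr rfl fun i _ => ?_
    simp
  have hL : ∀ θ : Eu (Fin n), MemLp (fun x : Eu (Fin n) => ⟪x, θ⟫_ℝ) 2 ν := by
    intro θ
    have : (fun x : Eu (Fin n) => ⟪x, θ⟫_ℝ) = fun x => ∑ i, θ i * x i := by
      funext x; exact hin x θ
    rw [this]
    exact memLp_finsetSum _ fun i _ => (hX i).const_mul (θ i)
  -- notation
  set v : Eu (Fin n) → ℝ := fun θ => ∫ x, ⟪x, θ⟫_ℝ ^ 2 ∂ν - (∫ x, ⟪x, θ⟫_ℝ ∂ν) ^ 2 with hv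
  set b : Eu (Fin n) → ℝ := fun θ => ∫ x, ⟪x, θ⟫_ℝ * S x ∂ν with hb
  -- residual
  have hres : ∀ θ, ∀ β : ℝ, ∫ x, (⟪x, θ⟫_ℝ - ∫ z, ⟪z, θ⟫_ℝ ∂ν - β * S x) ^ 2 ∂ν =
      v θ - 2 * β * b θ + β ^ 2 * (n * r) := by
    intro θ β
    rw [resid (hL θ) hS β eS, eS2]
  have hv0 : ∀ θ, 0 ≤ v θ := by
    intro θ
    have h1 := hres θ 0
    have h2 : 0 ≤ ∫ x, (⟪x, θ⟫_ℝ - ∫ z, ⟪z, θ⟫_ℝ ∂ν - 0 * S x) ^ 2 ∂ν :=
      integral_nonneg fun x => sq_nonneg _
    rw [h1] at h2
    simpa using h2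
  -- Cauchy-Schwarz for b
  have hbv : ∀ θ, b θ ^ 2 ≤ v θ * (n * r) := by
    intro θ
    have hm : MemLp (fun x : Eu (Fin n) => ⟪x, θ⟫_ℝ - ∫ z, ⟪z, θ⟫_ℝ ∂ν) 2 ν :=
      (hL θ).sub (memLp_const (∫ z, ⟪z, θ⟫_ℝ ∂ν))
    have h1 := cs (μ := ν) hm hS
    have j1 : Integrable (fun x : Eu (Fin n) => ⟪x, θ⟫_ℝ * S x) ν := (hL θ).integrable_mul hS
    have j2 : Integrable S ν := hS.integrable (by norm_num)
    have j3 : Integrable (fun x : Eu (Fin n) => (∫ z, ⟪z, θ⟫_ℝ ∂ν) * S x) ν := j2.const_mul _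
    have h2 : ∫ x, (⟪x, θ⟫_ℝ - ∫ z, ⟪z, θ⟫_ℝ ∂ν) * S x ∂ν = b θ := by
      have : (fun x : Eu (Fin n) => (⟪x, θ⟫_ℝ - ∫ z, ⟪z, θ⟫_ℝ ∂ν) * S x) =
          fun x => ⟪x, θ⟫_ℝ * S x - (∫ z, ⟪z, θ⟫_ℝ ∂ν) * S x := by
        funext x; ring
      rw [this, integral_sub j1 j3, integral_const_mul, eS]
      simp [hb]
    have h3 : ∫ x, (⟪x, θ⟫_ℝ - ∫ z, ⟪z, θ⟫_ℝ ∂ν) ^ 2 ∂ν = v θ := by
      have := hres θ 0
      simpa using this
    rw [h2, h3, eS2] at h1
    exact h1
  -- y
  set y : Eu (Fin n) := WithLp.toLp 2 fun i => ∫ x, w (x i) ∂ν with hy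
  have hyi : ∀ i, y i = ∫ x, w (x i) ∂ν := fun i => rfl
  have hwL : ∀ i, MemLp (fun x : Eu (Fin n) => w (x i)) 2 ν := by
    intro i
    refine MemLp.of_bound (hwc.comp_aestronglyMeasurable (hX i).1) C ?_
    exact Filter.Eventually.of_forall fun x => by rw [Real.norm_eq_abs]; exact hwb _
  have hyH : ∀ θ, ⟪y, θ⟫_ℝ = ∫ x, ⟪x, θ⟫_ℝ * H x ∂ν := by
    intro θ
    rw [hin]
    have : (fun x => ⟪x, θ⟫_ℝ * H x) = fun x => ∑ i, θ i * (x i * H x) := by
      funext x; rw [hin, Finset.sum_mul]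
      exact Finset.sum_congr rfl fun i _ => by ring
    have j : ∀ i, Integrable (fun x : Eu (Fin n) => θ i * (x i * H x)) ν := fun i =>
      ((hX i).integrable_mul hH).const_mul _
    rw [this, integral_finsetSum _ fun i _ => j i]
    refine Finset.sum_congr rfl fun i _ => ?_
    rw [integral_const_mul, hyi, ey]
  have hyR : ∀ θ, ⟪y, θ⟫_ℝ ^ 2 ≤ (v θ - b θ ^ 2 / (1 + n * r)) * (n * C ^ 2) := by
    intro θ
    set β := b θ / (1 + n * r) with hβ
    set a := ∫ z, ⟪z, θ⟫_ℝ ∂ν with ha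
    have hW : MemLp (fun x => ⟪x, θ⟫_ℝ - a - β * S x) 2 ν :=
      ((hL θ).sub (memLp_const a)).sub (hS.const_mul β)
    have h1 := cs (μ := ν) hW hH
    have h2 : ∫ x, (⟪x, θ⟫_ℝ - a - β * S x) * H x ∂ν = ⟪y, θ⟫_ℝ := by
      have : (fun x => (⟪x, θ⟫_ℝ - a - β * S x) * H x) =
          fun x => (⟪x, θ⟫_ℝ * H x - a * H x) - β * (H x * S x) := by
        funext x; ring
      have j1 : Integrable (fun x : Eu (Fin n) => ⟪x, θ⟫_ℝ * H x) ν := (hL θ).integrable_mul hH
      have j2 : Integrable H ν := hH.integrable (by norm_num)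
      have j3 : Integrable (fun x : Eu (Fin n) => a * H x) ν := j2.const_mul _
      have j4 : Integrable (fun x : Eu (Fin n) => H x * S x) ν := hH.integrable_mul hS
      have j5 : Integrable (fun x : Eu (Fin n) => β * (H x * S x)) ν := j4.const_mul _
      have j6 : Integrable (fun x : Eu (Fin n) => ⟪x, θ⟫_ℝ * H x - a * H x) ν := j1.sub j3
      rw [this, integral_sub j6 j5, integral_sub j1 j3,
        integral_const_mul, integral_const_mul, eH, eHS, hyH]
      simp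
    rw [h2, hres] at h1
    have h3 : v θ - 2 * β * b θ + β ^ 2 * (n * r) ≤ v θ - b θ ^ 2 / (1 + n * r) := by
      have e1 : β * b θ = b θ ^ 2 / (1 + n * r) := by rw [hβ]; ring
      have e2 : β ^ 2 * (n * r) ≤ b θ ^ 2 / (1 + n * r) := by
        have : β ^ 2 * (1 + n * r) = b θ ^ 2 / (1 + n * r) := by
          rw [hβ]; field_simp
        nlinarith [sq_nonneg β]
      linarith
    have h4 : 0 ≤ ∫ x, H x ^ 2 ∂ν := integral_nonneg fun x => sq_nonneg _
    have h5 : 0 ≤ v θ - b θ ^ 2 / (1 + n * r) := by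
      have : b θ ^ 2 / (1 + n * r) ≤ v θ := by
        rw [div_le_iff₀ hs]
        nlinarith [hbv θ, hv0 θ]
      linarith
    calc ⟪y, θ⟫_ℝ ^ 2 ≤ _ := h1
      _ ≤ (v θ - b θ ^ 2 / (1 + n * r)) * ∫ x, H x ^ 2 ∂ν := mul_le_mul_of_nonneg_right h3 h4
      _ ≤ _ := mul_le_mul_of_nonneg_left eH2 h5
  -- the basis
  let e : Fin n → Eu (Fin n) := fun i => EuclideanSpace.single i (1 : ℝ)
  have hei : ∀ i (x : Eu (Fin n)), ⟪x, e i⟫_ℝ = x i := by
    intro i x
    rw [hin]
    simp [e]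
  have hen : ∀ i, ‖e i‖ = 1 := fun i => by simp [e]
  -- norm of y
  have hyn : (n : ℝ) / C - C ^ 2 * ∑ i, v (e i) ≤ ‖y‖ ^ 2 := by
    have h1 : ∀ i, ∫ x, w (x i) ^ 2 ∂ν - C ^ 2 * v (e i) ≤ y i ^ 2 := by
      intro i
      set a := ∫ x : Eu (Fin n), x i ∂ν with ha
      have h2 := sq_sub (μ := ν) (hwL i) (w a)
      have h3 := sq_sub (μ := ν) (hX i) a
      have h4 : ∫ x : Eu (Fin n), (w (x i) - w a) ^ 2 ∂ν ≤ ∫ x : Eu (Fin n), C ^ 2 * (x i - a) ^ 2 ∂ν := by
        apply integral_mono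
        · exact ((hwL i).sub (memLp_const (w a))).integrable_sq
        · exact (((hX i).sub (memLp_const a)).integrable_sq).const_mul _
        · intro x
          have := hwl (x i) a
          show (w (x i) - w a) ^ 2 ≤ C ^ 2 * (x i - a) ^ 2
          calc (w (x i) - w a) ^ 2 = |w (x i) - w a| ^ 2 := (sq_abs _).symm
            _ ≤ (C * |x i - a|) ^ 2 := by gcongr
            _ = _ := by rw [mul_pow, sq_abs]
      rw [integral_const_mul, h2, h3, ← ha] at h4
      have h5 : v (e i) = ∫ x : Eu (Fin n), x i ^ 2 ∂ν - a ^ 2 := by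
        rw [hv]; simp only [hei]; rw [ha]
      rw [h5, hyi]
      have h6 := sq_nonneg (∫ x : Eu (Fin n), w (x i) ∂ν - w a)
      nlinarith [h4, h6]
    have h7 : ‖y‖ ^ 2 = ∑ i, y i ^ 2 := by
      rw [EuclideanSpace.norm_sq_eq]
      exact Finset.sum_congr rfl fun i _ => by rw [Real.norm_eq_abs, sq_abs]
    have h8 : ∫ x, ∑ i, w (x i) ^ 2 ∂ν = ∑ i, ∫ x, w (x i) ^ 2 ∂ν :=
      integral_finsetSum _ fun i _ => (hwL i).integrable_sq
    rw [h7]
    calc (n : ℝ) / C - C ^ 2 * ∑ i, v (e i) ≤ ∑ i, ∫ x, w (x i) ^ 2 ∂ν - C ^ 2 * ∑ i, v (e i) := by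
          rw [← h8]; linarith
      _ = ∑ i, (∫ x, w (x i) ^ 2 ∂ν - C ^ 2 * v (e i)) := by
          have := Finset.sum_sub_distrib (s := Finset.univ)
            (fun i => ∫ x : Eu (Fin n), w (x i) ^ 2 ∂ν) (fun i => C ^ 2 * v (e i))
          rw [← Finset.mul_sum] at this
          exact this.symm
      _ ≤ _ := Finset.sum_le_sum fun i _ => h1 i
  -- cases
  set D := ∑ i, v (e i) with hD
  by_cases hcase : D ≤ n / (2 * C ^ 3)
  · -- case A
    have h1 : (n : ℝ) / (2 * C) ≤ ‖y‖ ^ 2 := by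
      refine le_trans ?_ hyn
      have : C ^ 2 * D ≤ C ^ 2 * (n / (2 * C ^ 3)) := by gcongr
      have e1 : C ^ 2 * ((n : ℝ) / (2 * C ^ 3)) = n / (2 * C) := by field_simp
      have e2 : (n : ℝ) / C = n / (2 * C) + n / (2 * C) := by field_simp; ring
      rw [e1] at this
      linarith
    have hy0 : 0 < ‖y‖ ^ 2 := lt_of_lt_of_le (by positivity) h1
    have hy1 : 0 < ‖y‖ := by
      by_contra h
      have : ‖y‖ = 0 := le_antisymm (not_lt.1 h) (norm_nonneg _)
      rw [this] at hy0; norm_num at hy0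
    refine ⟨(‖y‖)⁻¹ • y, ?_, ?_⟩
    · rw [norm_smul, norm_inv, norm_norm, inv_mul_cancel₀ hy1.ne']
    · refine (min_le_left _ _).trans ?_
      have h2 := hyR ((‖y‖)⁻¹ • y)
      rw [real_inner_smul_right, real_inner_self_eq_norm_sq] at h2
      have e3 : (‖y‖⁻¹ * ‖y‖ ^ 2) ^ 2 = ‖y‖ ^ 2 := by field_simp
      rw [e3] at h2
      have h3 : (n : ℝ) / (2 * C) ≤ (v ((‖y‖)⁻¹ • y) - b ((‖y‖)⁻¹ • y) ^ 2 / (1 + n * r)) *
        (n * C ^ 2) := h1.trans h2
      show 1 / (4 * C ^ 3) ≤ v ((‖y‖)⁻¹ • y) - b ((‖y‖)⁻¹ • y) ^ 2 / (1 + n * r)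
      have h4 : (1 : ℝ) / (2 * C ^ 3) ≤ v ((‖y‖)⁻¹ • y) - b ((‖y‖)⁻¹ • y) ^ 2 / (1 + n * r) := by
        have e4 : (n : ℝ) / (2 * C) = (1 / (2 * C ^ 3)) * (n * C ^ 2) := by field_simp
        rw [e4] at h3
        exact le_of_mul_le_mul_right h3 (by positivity)
      refine le_trans ?_ h4
      apply one_div_le_one_div_of_le (by positivity)
      have : 0 < C ^ 3 := by positivity
      linarith
  · -- case B
    rw [not_le] at hcase
    by_cases hbig : 4 * C ^ 3 * C1 ≤ n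
    · -- large n
      set B : Eu (Fin n) := WithLp.toLp 2 fun i => b (e i) with hB
      have hBi : ∀ i, B i = b (e i) := fun i => rfl
      have h1 : b B = ‖B‖ ^ 2 := by
        have h2 : ‖B‖ ^ 2 = ∑ i, B i ^ 2 := by
          rw [EuclideanSpace.norm_sq_eq]
          exact Finset.sum_congr rfl fun i _ => by rw [Real.norm_eq_abs, sq_abs]
        rw [h2]
        show ∫ x, ⟪x, B⟫_ℝ * S x ∂ν = _
        have : (fun x => ⟪x, B⟫_ℝ * S x) = fun x => ∑ i, B i * (x i * S x) := by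
          funext x; rw [hin, Finset.sum_mul]
          exact Finset.sum_congr rfl fun i _ => by ring
        have j : ∀ i, Integrable (fun x : Eu (Fin n) => B i * (x i * S x)) ν := fun i =>
          ((hX i).integrable_mul hS).const_mul _
        rw [this, integral_finsetSum _ fun i _ => j i]
        refine Finset.sum_congr rfl fun i _ => ?_
        rw [integral_const_mul, sq]
        congr 1
        rw [hBi, hb]; simp only [hei]
      have h3 : ‖B‖ ^ 2 ≤ C1 * (n * r) := by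
        have h4 := hbv B
        have h5 : v B ≤ C1 * ‖B‖ ^ 2 := hP B
        rw [h1] at h4
        by_cases h0 : ‖B‖ ^ 2 = 0
        · rw [h0]; positivity
        · have h6 : 0 < ‖B‖ ^ 2 := lt_of_le_of_ne (by positivity) (Ne.symm h0)
          have h7 : ‖B‖ ^ 2 * ‖B‖ ^ 2 ≤ ‖B‖ ^ 2 * (C1 * (n * r)) := by
            calc ‖B‖ ^ 2 * ‖B‖ ^ 2 = (‖B‖ ^ 2) ^ 2 := by ring
              _ ≤ v B * (n * r) := h4
              _ ≤ (C1 * ‖B‖ ^ 2) * (n * r) := mul_le_mul_of_nonneg_right h5 hnr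
              _ = _ := by ring
          exact le_of_mul_le_mul_left h7 h6
      have h8 : D - C1 ≤ ∑ i, (v (e i) - b (e i) ^ 2 / (1 + n * r)) := by
        rw [Finset.sum_sub_distrib, ← Finset.sum_div]
        have h2 : ∑ i, b (e i) ^ 2 = ‖B‖ ^ 2 := by
          rw [EuclideanSpace.norm_sq_eq]
          exact Finset.sum_congr rfl fun i _ => by rw [Real.norm_eq_abs, sq_abs, hBi]
        rw [h2]
        have : ‖B‖ ^ 2 / (1 + n * r) ≤ C1 := by
          rw [div_le_iff₀ hs]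
          nlinarith [h3]
        linarith
      have h9 : (n : ℝ) / (4 * C ^ 3) ≤ D - C1 := by
        have e1 : (n : ℝ) / (2 * C ^ 3) = n / (4 * C ^ 3) + n / (4 * C ^ 3) := by field_simp; ring
        have e2 : C1 ≤ n / (4 * C ^ 3) := by
          rw [le_div_iff₀ (by positivity)]
          linarith
        linarith
      by_contra hcon
      push Not at hcon
      have h10 : ∑ i, (v (e i) - b (e i) ^ 2 / (1 + n * r)) < ∑ _i : Fin n, 1 / (4 * C ^ 3) := by
        apply Finset.sum_lt_sum_of_nonempty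
        · exact ⟨⟨0, by omega⟩, Finset.mem_univ _⟩
        · intro i _
          exact lt_of_lt_of_le (hcon (e i) (hen i)) (min_le_left _ _)
      rw [Finset.sum_const, Finset.card_univ, Fintype.card_fin, nsmul_eq_mul] at h10
      have e3 : (n : ℝ) * (1 / (4 * C ^ 3)) = n / (4 * C ^ 3) := by ring
      rw [e3] at h10
      linarith
    · -- small n
      rw [not_le] at hbig
      have h1 : ∃ i, 1 / (2 * C ^ 3) ≤ v (e i) := by
        by_contra hcon
        push Not at hcon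
        have h2 : D < ∑ _i : Fin n, 1 / (2 * C ^ 3) := by
          apply Finset.sum_lt_sum_of_nonempty
          · exact ⟨⟨0, by omega⟩, Finset.mem_univ _⟩
          · intro i _; exact hcon i
        rw [Finset.sum_const, Finset.card_univ, Fintype.card_fin, nsmul_eq_mul] at h2
        have e3 : (n : ℝ) * (1 / (2 * C ^ 3)) = n / (2 * C ^ 3) := by ring
        rw [e3] at h2
        linarith
      obtain ⟨i, hi⟩ := h1
      refine ⟨e i, hen i, (min_le_right _ _).trans ?_⟩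
      show _ ≤ v (e i) - b (e i) ^ 2 / (1 + n * r)
      have h2 : v (e i) / (1 + n * r) ≤ v (e i) - b (e i) ^ 2 / (1 + n * r) := by
        rw [le_sub_iff_add_le, ← add_div, div_le_iff₀ hs]
        nlinarith [hbv (e i)]
      refine le_trans ?_ h2
      have h3 : 1 + n * r ≤ 1 + 4 * C ^ 3 * C1 * C' := by
        have : n * r ≤ (4 * C ^ 3 * C1) * C' := mul_le_mul hbig.le hr hr0 (by positivity)
        linarith
      calc 1 / (2 * C ^ 3 * (1 + 4 * C ^ 3 * C1 * C')) =
            (1 / (2 * C ^ 3)) / (1 + 4 * C ^ 3 * C1 * C') := by rw [div_div]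
        _ ≤ v (e i) / (1 + 4 * C ^ 3 * C1 * C') := by gcongr
        _ ≤ v (e i) / (1 + n * r) := by
          apply div_le_div_of_nonneg_left (hv0 _) hs h3


section nu

variable {n : ℕ}

/-- the probability measure on the cone -/
noncomputable def nu (V : ℝ → ℝ) (R : Lb n → Lb n → Prop) : Measure (Eu (Fin n)) :=
  (ENNReal.ofReal (ms V R))⁻¹ •
    ((volume.restrict (CN R)).withDensity fun x => ENNReal.ofReal (rh V x))

lemma rh_pos (V : ℝ → ℝ) (x : Eu (Fin n)) : 0 < rh V x := Real.exp_pos _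

lemma rh_cont {V : ℝ → ℝ} (hV : Continuous V) : Continuous (rh (n := n) V) := by
  unfold rh S1
  fun_prop

lemma rh_meas {V : ℝ → ℝ} (hV : Continuous V) :
    Measurable fun x : Eu (Fin n) => ENNReal.ofReal (rh V x) :=
  (rh_cont hV).measurable.ennreal_ofReal

lemma MC_eq {V : ℝ → ℝ} (hV : Continuous V) {R : Lb n → Lb n → Prop} (hms : 0 < ms V R)
    (G : Eu (Fin n) → ℝ) : MC V R G = ∫ x, G x ∂(nu V R) := by
  unfold nu MC
  rw [integral_smul_measure, integral_withDensity_eq_integral_toReal_smul (rh_meas hV)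
    (Filter.Eventually.of_forall fun x => ENNReal.ofReal_lt_top)]
  rw [ENNReal.toReal_inv, ENNReal.toReal_ofReal hms.le, smul_eq_mul, div_eq_inv_mul]
  congr 1
  refine integral_congr_ae (Filter.Eventually.of_forall fun x => ?_)
  show G x * rh V x = (ENNReal.ofReal (rh V x)).toReal • G x
  rw [ENNReal.toReal_ofReal (rh_pos V x).le, smul_eq_mul, mul_comm]

lemma nu_prob {V : ℝ → ℝ} {R : Lb n → Lb n → Prop} (hms : 0 < ms V R) :
    IsProbabilityMeasure (nu V R) := by
  constructor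
  have hint : Integrable (rh V) (volume.restrict (CN R)) := by
    by_contra h
    have : ms V R = 0 := integral_undef h
    rw [this] at hms
    exact lt_irrefl _ hms
  unfold nu
  rw [Measure.smul_apply, withDensity_apply _ MeasurableSet.univ, Measure.restrict_univ,
    ← ofReal_integral_eq_lintegral_ofReal hint
      (Filter.Eventually.of_forall fun x => (rh_pos V x).le), smul_eq_mul]
  exact ENNReal.inv_mul_cancel (by
    rw [Ne, ENNReal.ofReal_eq_zero, not_le]; exact hms) ENNReal.ofReal_ne_top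

lemma int_nu {V : ℝ → ℝ} (hV : Continuous V) {R : Lb n → Lb n → Prop} (hms : 0 < ms V R)
    {G : Eu (Fin n) → ℝ} (hG : Integrable fun x => G x * rh V x) : Integrable G (nu V R) := by
  unfold nu
  refine Integrable.smul_measure ?_ (by
    rw [Ne, ENNReal.inv_eq_top, ENNReal.ofReal_eq_zero, not_le]; exact hms)
  rw [integrable_withDensity_iff_integrable_smul' (rh_meas hV)
    (Filter.Eventually.of_forall fun x => ENNReal.ofReal_lt_top)]
  refine (hG.restrict (s := CN R)).congr (Filter.Eventually.of_forall fun x => ?_)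
  show G x * rh V x = (ENNReal.ofReal (rh V x)).toReal • G x
  rw [ENNReal.toReal_ofReal (rh_pos V x).le, smul_eq_mul, mul_comm]

lemma L2_nu {V : ℝ → ℝ} (hV : Continuous V) {R : Lb n → Lb n → Prop} (hms : 0 < ms V R)
    {G : Eu (Fin n) → ℝ} (hc : Continuous G) (hG : Integrable fun x => G x ^ 2 * rh V x) :
    MemLp G 2 (nu V R) :=
  (memLp_two_iff_integrable_sq hc.aestronglyMeasurable).2 (int_nu hV hms hG)

end nu

end RLB

open RLB in
theorem t_RLB (h_WF : S_WF) (h_IBW : S_IBW) (h_MOC : S_MOC) (h_PCN : S_PCN) (h_OD : S_OD) :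
    S_RLB := by
  obtain ⟨C, hC, hWF⟩ := h_WF
  obtain ⟨C1, hC1, hPCN⟩ := h_PCN
  obtain ⟨C', hC', hOD⟩ := h_OD
  have hC0 : (0 : ℝ) < C := by linarith
  have hC10 : (0 : ℝ) < C1 := by linarith
  have hC'0 : (0 : ℝ) < C' := by linarith
  refine ⟨min (1 / (4 * C ^ 3)) (1 / (2 * C ^ 3 * (1 + 4 * C ^ 3 * C1 * C'))),
    lt_min (by positivity) (by positivity), ?_⟩
  intro n R V V' hn hNE hms
  obtain ⟨w, h, hwc, hhc, hwo, hhe, hder, hwb, hhb, hwl, hh0, hhV, hw2⟩ := hWF V V' hNE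
  obtain ⟨-, -, -, -, hr0, hr, hV4⟩ := hOD V V' hNE
  have hn' : (1 : ℝ) ≤ n := by exact_mod_cast hn
  have hVc : Continuous V := continuous_iff_continuousAt.2 fun t => (hNE.nv.cv.der t).continuousAt
  have hVe := hNE.even
  have hf0 : Integrable fun t => Real.exp (-V t) := hNE.nv.nd.int0
  have hf1 : ∫ t, Real.exp (-V t) = 1 := hNE.nv.nd.mass
  have hf2 : Integrable fun t => t ^ 2 * Real.exp (-V t) := hNE.nv.nd.int2
  have hprob : IsProbabilityMeasure (nu V R) := nu_prob hms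
  have hM := h_MOC n R V V' hNE hms
  have hfc : Continuous fun t => Real.exp (-V t) := by fun_prop
  -- V² f, V f integrable
  have hfV2 : Integrable fun t => V t ^ 2 * Real.exp (-V t) := by
    refine (hf0.add hV4).mono' (by fun_prop) (Filter.Eventually.of_forall fun t => ?_)
    rw [Real.norm_eq_abs, abs_of_nonneg (by positivity)]
    show V t ^ 2 * Real.exp (-V t) ≤ Real.exp (-V t) + V t ^ 4 * Real.exp (-V t)
    have h1 : V t ^ 2 ≤ 1 + V t ^ 4 := by nlinarith [sq_nonneg (V t ^ 2 - 1), sq_nonneg (V t)]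
    nlinarith [Real.exp_pos (-V t)]
  have hfV : Integrable fun t => V t * Real.exp (-V t) := by
    refine (hf0.add hfV2).mono' (by fun_prop) (Filter.Eventually.of_forall fun t => ?_)
    rw [Real.norm_eq_abs, abs_mul, abs_of_pos (Real.exp_pos _)]
    show |V t| * Real.exp (-V t) ≤ Real.exp (-V t) + V t ^ 2 * Real.exp (-V t)
    have h1 : |V t| ≤ 1 + V t ^ 2 := by
      rw [← sq_abs]; nlinarith [sq_nonneg (|V t| - 1), abs_nonneg (V t)]
    nlinarith [Real.exp_pos (-V t)]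
  -- the function V - m
  have hc2 : Integrable fun t => (V t - mV V) ^ 2 * Real.exp (-V t) := by
    have : (fun t => (V t - mV V) ^ 2 * Real.exp (-V t)) = fun t =>
        (V t ^ 2 * Real.exp (-V t) - (2 * mV V) * (V t * Real.exp (-V t))) +
          mV V ^ 2 * Real.exp (-V t) := by
      funext t; ring
    rw [this]
    exact (hfV2.sub (hfV.const_mul _)).add (hf0.const_mul _)
  have hc0 : ∫ t, (V t - mV V) * Real.exp (-V t) = 0 := by
    have : (fun t => (V t - mV V) * Real.exp (-V t)) = fun t =>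
        V t * Real.exp (-V t) - mV V * Real.exp (-V t) := by
      funext t; ring
    rw [this, integral_sub hfV (hf0.const_mul _), integral_const_mul, hf1]
    unfold mV
    ring
  have hSc : ∀ x : Eu (Fin n), Sc V x = ∑ i, (V (x i) - mV V) := by
    intro x
    unfold Sc S1
    rw [Finset.sum_sub_distrib]
    simp
  have hcc : Continuous fun t => V t - mV V := by fun_prop
  obtain ⟨mS1, mS2, mS3, -⟩ := hM (fun t => V t - mV V) hcc (fun t => by rw [hVe]) hc2
  -- h
  have hhI : Integrable fun t => h t ^ 2 * Real.exp (-V t) := by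
    refine (hf0.const_mul (C ^ 2)).mono' (by fun_prop) (Filter.Eventually.of_forall fun t => ?_)
    rw [Real.norm_eq_abs, abs_of_nonneg (by positivity)]
    have : h t ^ 2 ≤ C ^ 2 := by
      rw [← sq_abs]; gcongr; exact hhb t
    exact mul_le_mul_of_nonneg_right this (Real.exp_pos _).le
  obtain ⟨mH1, mH2, mH3, mH4⟩ := hM h hhc hhe hhI
  -- w²
  have hwI : Integrable fun t => (w t ^ 2) ^ 2 * Real.exp (-V t) := by
    refine (hf0.const_mul (C ^ 4)).mono' (by fun_prop) (Filter.Eventually.of_forall fun t => ?_)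
    rw [Real.norm_eq_abs, abs_of_nonneg (by positivity)]
    have : (w t ^ 2) ^ 2 ≤ C ^ 4 := by
      have h1 : (w t ^ 2) ^ 2 = |w t| ^ 4 := by
        rw [← sq_abs (w t)]; ring
      rw [h1]; gcongr; exact hwb t
    exact mul_le_mul_of_nonneg_right this (Real.exp_pos _).le
  obtain ⟨mW1, -, -, -⟩ := hM (fun t => w t ^ 2) (by fun_prop) (fun t => by rw [hwo]; ring) hwI
  -- |t|
  obtain ⟨-, mA2, -, -⟩ := hM (fun t => |t|) (by fun_prop) (fun t => abs_neg t) (by
    simpa only [sq_abs] using hf2)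
  -- 1
  obtain ⟨-, mO2, -, -⟩ := hM (fun _ => 1) continuous_const (fun _ => rfl) (by simpa using hf0)
  have hρ : Integrable (rh (n := n) V) := by
    have h1 := mO2.const_mul (((n : ℝ) ^ 2)⁻¹)
    refine h1.congr (Filter.Eventually.of_forall fun x => ?_)
    simp only [Finset.sum_const, Finset.card_univ, Fintype.card_fin, nsmul_eq_mul, mul_one]
    have : (n : ℝ) ≠ 0 := by positivity
    field_simp
  have hρc : Continuous (rh (n := n) V) := rh_cont hVc
  have hx2 : ∀ i, Integrable fun x : Eu (Fin n) => x i ^ 2 * rh V x := by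
    intro i
    refine mA2.mono' (by fun_prop) (Filter.Eventually.of_forall fun x => ?_)
    rw [Real.norm_eq_abs, abs_of_nonneg (mul_nonneg (sq_nonneg _) (rh_pos V x).le)]
    refine mul_le_mul_of_nonneg_right ?_ (rh_pos V x).le
    rw [← sq_abs]
    gcongr
    exact Finset.single_le_sum (f := fun j => |x j|) (fun j _ => abs_nonneg _) (Finset.mem_univ i)
  have hx1 : ∀ i, Integrable fun x : Eu (Fin n) => x i * rh V x := by
    intro i
    refine (hρ.add (hx2 i)).mono' (by fun_prop) (Filter.Eventually.of_forall fun x => ?_)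
    rw [Real.norm_eq_abs, abs_mul, abs_of_pos (rh_pos V x)]
    show |x i| * rh V x ≤ rh V x + x i ^ 2 * rh V x
    have h1 : |x i| ≤ 1 + x i ^ 2 := by
      rw [← sq_abs]; nlinarith [sq_nonneg (|x i| - 1), abs_nonneg (x i)]
    nlinarith [rh_pos V x]
  have hbd : ∀ (g : ℝ → ℝ) (i j : Fin n), Continuous g → (∀ t, |g t| ≤ C) →
      Integrable fun x : Eu (Fin n) => x j * g (x i) * rh V x := by
    intro g i j hg hgb
    refine ((hx1 j).norm.const_mul C).mono' (by fun_prop)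
      (Filter.Eventually.of_forall fun x => ?_)
    rw [Real.norm_eq_abs, Real.norm_eq_abs, abs_mul, abs_mul, abs_mul]
    calc |x j| * |g (x i)| * |rh V x| ≤ |x j| * C * |rh V x| := by gcongr; exact hgb _
      _ = _ := by ring
  -- integration by parts
  have hIB : ∀ j : Fin n, ∫ x, w (x j) ∂(nu V R) = ∫ x, x j * (∑ i, h (x i)) ∂(nu V R) := by
    intro j
    have hfd : ∀ (x v : Eu (Fin n)), fderiv ℝ (fun x : Eu (Fin n) => x j) x v = v j := by
      intro x v
      have : (fun x : Eu (Fin n) => x j) = (EuclideanSpace.proj j : Eu (Fin n) →L[ℝ] ℝ) := rfl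
      rw [this, ContinuousLinearMap.fderiv]
      rfl
    have h1 := h_IBW n R V V' hNE w h hwc hhc hwo hder (fun x => x j)
      (by
        have : (fun x : Eu (Fin n) => x j) = (EuclideanSpace.proj j : Eu (Fin n) →L[ℝ] ℝ) := rfl
        rw [this]
        exact ContinuousLinearMap.contDiff _)
      (fun i => by
        simp only [hfd]
        refine (hρ.const_mul C).mono' ?_ (Filter.Eventually.of_forall fun x => ?_)
        · exact ((continuous_const.mul (hwc.comp (by fun_prop))).mul hρc).aestronglyMeasurable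
        · rw [Real.norm_eq_abs, abs_mul, abs_mul, abs_of_pos (rh_pos V x)]
          have e1 : |(EuclideanSpace.single i (1 : ℝ)) j| ≤ 1 := by
            rw [EuclideanSpace.single_apply]
            split_ifs <;> simp
          have e2 : |(EuclideanSpace.single i (1 : ℝ)) j| * |w (x i)| ≤ 1 * C :=
            mul_le_mul e1 (hwb _) (abs_nonneg _) zero_le_one
          rw [one_mul] at e2
          exact mul_le_mul_of_nonneg_right e2 (rh_pos V x).le)
      (fun i => hbd w i j hwc hwb) (fun i => hbd h i j hhc hhb)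
    simp only [hfd] at h1
    rw [← MC_eq hVc hms, ← MC_eq hVc hms]
    unfold MC
    rw [h1]
  -- L²
  have hL2x : ∀ i, MemLp (fun x : Eu (Fin n) => x i) 2 (nu V R) := fun i =>
    L2_nu hVc hms (by fun_prop) (hx2 i)
  have hSce : Sc (n := n) V = fun x => ∑ i, (V (x i) - mV V) := funext hSc
  have hL2S : MemLp (Sc (n := n) V) 2 (nu V R) := by
    rw [hSce]
    exact L2_nu hVc hms (by fun_prop) mS2
  have hL2H : MemLp (fun x : Eu (Fin n) => ∑ i, h (x i)) 2 (nu V R) :=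
    L2_nu hVc hms (by fun_prop) mH2
  -- Poincare
  have hPo : ∀ θ : Eu (Fin n), ∫ x, ⟪x, θ⟫_ℝ ^ 2 ∂(nu V R) - (∫ x, ⟪x, θ⟫_ℝ ∂(nu V R)) ^ 2 ≤
      C1 * ‖θ‖ ^ 2 := by
    intro θ
    have hU : (fun x : Eu (Fin n) => ⟪x, θ⟫_ℝ) = (innerSL ℝ θ : Eu (Fin n) →L[ℝ] ℝ) := by
      funext x
      rw [innerSL_apply_apply, real_inner_comm]
    have h1 := hPCN n R V V' hNE hms (fun x => ⟪x, θ⟫_ℝ) ‖θ‖
      (by rw [hU]; exact ContinuousLinearMap.contDiff _) (norm_nonneg _)
      (fun x => by rw [hU, ContinuousLinearMap.fderiv, innerSL_apply_norm])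
      (by
        have h2 : Integrable fun x : Eu (Fin n) => ‖θ‖ ^ 2 * ∑ i, x i ^ 2 * rh V x :=
          (integrable_finsetSum _ fun i _ => hx2 i).const_mul _
        refine h2.mono' ?_ (Filter.Eventually.of_forall fun x => ?_)
        · have : Continuous fun x : Eu (Fin n) => ⟪x, θ⟫_ℝ := by fun_prop
          exact ((this.pow 2).mul hρc).aestronglyMeasurable
        · rw [Real.norm_eq_abs, abs_of_nonneg (mul_nonneg (sq_nonneg _) (rh_pos V x).le)]
          rw [← Finset.sum_mul, ← mul_assoc]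
          refine mul_le_mul_of_nonneg_right ?_ (rh_pos V x).le
          have e1 := abs_real_inner_le_norm x θ
          have e2 : ‖x‖ ^ 2 = ∑ i, x i ^ 2 := by
            rw [EuclideanSpace.norm_sq_eq]
            exact Finset.sum_congr rfl fun i _ => by rw [Real.norm_eq_abs, sq_abs]
          rw [← e2, ← sq_abs]
          calc |⟪x, θ⟫_ℝ| ^ 2 ≤ (‖x‖ * ‖θ‖) ^ 2 := by gcongr
            _ = _ := by ring)
    unfold VC at h1
    rw [MC_eq hVc hms, MC_eq hVc hms] at h1
    exact h1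
  obtain ⟨θ, hθ, hfin⟩ := core hn (nu V R) (Sc V) (fun x => ∑ i, h (x i)) w C C1 C' (rV V) hC hC1
    hC' hr0 hr hL2x hL2S hL2H hwc hwb hwl
    (by
      rw [← MC_eq hVc hms, hSce, mS1, hc0, mul_zero])
    (by
      rw [← MC_eq hVc hms (fun x => Sc V x ^ 2)]
      simp only [hSc]
      rw [mS3 hc0]
      rfl)
    (by
      rw [← MC_eq hVc hms, mH1, hh0, mul_zero])
    (by
      rw [← MC_eq hVc hms (fun x => (∑ i, h (x i)) ^ 2), mH3 hh0]
      have h1 : ∫ t, h t ^ 2 * Real.exp (-V t) ≤ ∫ t, C ^ 2 * Real.exp (-V t) := by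
        refine integral_mono hhI (hf0.const_mul _) fun t => ?_
        have : h t ^ 2 ≤ C ^ 2 := by
          rw [← sq_abs]; gcongr; exact hhb t
        exact mul_le_mul_of_nonneg_right this (Real.exp_pos _).le
      rw [integral_const_mul, hf1, mul_one] at h1
      exact mul_le_mul_of_nonneg_left h1 (by positivity))
    (by
      rw [← MC_eq hVc hms (fun x => (∑ i, h (x i)) * Sc V x)]
      simp only [hSc]
      rw [mH4 (fun t => V t - mV V) hcc (fun t => by rw [hVe]) hc2 hh0 hc0, hhV, mul_zero])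
    hIB
    (by
      rw [← MC_eq hVc hms (fun x => ∑ i, w (x i) ^ 2), mW1]
      calc (n : ℝ) / C = n * (1 / C) := by ring
        _ ≤ _ := mul_le_mul_of_nonneg_left hw2 (by positivity))
    hPo
  refine ⟨θ, hθ, hfin.trans (le_of_eq ?_)⟩
  unfold RC VC bC sC
  rw [MC_eq hVc hms, MC_eq hVc hms, MC_eq hVc hms]

end Pool.Agent.T2h31.OB
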