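import Pool.Agent.T2h31.LC.All
import Pool.Agent.R476.OR.A
import Pool.Agent.R476.OR.B
import Pool.Agent.R476.OR.D
import Pool.Agent.Y849.RG.One
import Pool.Agent.Y445.FF.Mila
import Pool.Agent.Y665.FF.Milb
import Pool.Agent.Y211.FF.Half
import Pool.Agent.T2h31.OB.Stm
import Pool.Agent.T2h31.OB.M4L
import Pool.Agent.T2h31.OB.T_SY
import Pool.Agent.T2h31.OB.T_FLW
import Pool.Agent.T2h31.OB.T_IBW
import Pool.Agent.T2h31.OB.T_OD
import Pool.Agent.T2h31.OB.T_WF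
import Pool.Agent.T2h31.OB.T_ODV
import Pool.Agent.T2h31.OB.T_PCN
import Pool.Agent.T2h31.OB.T_MOC
import Pool.Agent.T2h31.OB.T_RLB
import Pool.Agent.T2h31.OB.T_PLC
import Pool.Agent.T2h31.OB.T_STC
import Pool.Agent.T2h31.OB.T_GTC
import Pool.Agent.T2h31.OB.T_CVC
import Pool.Agent.T2h31.OB.T_CCS
import Pool.Agent.T2h31.OB.T_NRS
import Pool.Agent.T2h31.OB.T_CCH
import Pool.Agent.T2h31.OB.T_LIS
import Pool.Agent.T2h31.OB.T_APS
import Pool.Agent.T2h31.OB.T_APT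
import Pool.Agent.T2h31.OB.T_FNS
import Pool.Agent.T2h31.OB.T_GEO

/-!
# Orlicz balls cut by signed relations: assembly

Parts by helpers 3, 6, 13, 23, 42, 46, 49, 60, 62, 76, 82, 97 and 31.
-/

set_option autoImplicit false

namespace Pool.Agent.T2h31.OB

open MeasureTheory Set Filter Topology
open scoped ENNReal InnerProductSpace
open Pool.Agent.W695.KH (Eu)
open Pool.Agent.R476.OR (ind)
open Pool.Agent.T2h31.SB (Lb sv)

/-- concentration for all the bodies -/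
theorem conc (h1 : S_CCH) (h2 : S_APS) (h3 : S_APT) (h4 : S_GEO) (δ : ℝ) (hδ : 0 < δ) :
    ∃ κ : ℝ, 0 < κ ∧ ∀ (n : ℕ) (R : Lb n → Lb n → Prop) (V : ℝ → ℝ) (E b : ℝ), 1 ≤ n →
      ConvexOn ℝ univ V → (∀ t, V (-t) = V t) → 0 < b →
      (interior (KC V E R ∩ {x : Eu (Fin n) | ∀ i, |x i| ≤ b})).Nonempty →
      Ci κ δ (ind (KC V E R ∩ {x | ∀ i, |x i| ≤ b})) := by
  obtain ⟨κ, hκ, H⟩ := h1 δ hδ
  have H2 := h2 κ δ hκ H
  have H3 := h3 (κ / 2) δ (by positivity) H2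
  refine ⟨κ / 2 / 2, by positivity, fun n R V E b hn hV hev hb hi => ?_⟩
  have hvol : ∀ K : Set (Eu (Fin n)), (interior K).Nonempty → 0 < volume K := fun K hK =>
    lt_of_lt_of_le (isOpen_interior.measure_pos volume hK) (measure_mono interior_subset)
  by_cases hx : ∃ x : Eu (Fin n), S1 V x < E
  · exact H3 n R V b hn hV hev hb E hx (hvol _ hi)
  · push Not at hx
    obtain ⟨-, -, -, hg⟩ := h4 n R V hV E
    obtain ⟨-, -, hg2⟩ := hg b
    obtain ⟨b', hb', he⟩ := hg2 hev hb hi hx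
    have e0 : CN R = KC (fun _ => (0 : ℝ)) 1 R := by
      unfold KC K1 S1
      simp
    rw [he] at hi ⊢
    rw [e0] at hi ⊢
    exact H3 n R (fun _ => 0) b' hn (convexOn_const 0 convex_univ) (fun _ => rfl) hb' 1
      ⟨0, by simp [S1]⟩ (hvol _ hi)

theorem m4r : Pool.Agent.R476.OR.S_M4R := Pool.Agent.T2h31.OB.M4L.m4r

theorem plw_all : Pool.Agent.R476.OR.S_PLW := Pool.Agent.R476.OR.plw Pool.Agent.R476.OR.two

theorem od_all : S_OD := t_OD Pool.Agent.Y849.RG.one1 Pool.Agent.R476.OR.fld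

theorem sy_all : S_SY := t_SY (Pool.Agent.T2h31.SB.t_SYM Pool.Agent.R372.OP.SYM.main)

theorem moc_all : S_MOC := t_MOC sy_all Pool.Agent.R476.OR.two

theorem ibw_all : S_IBW := t_IBW t_FLW

theorem pcn_all : S_PCN := t_PCN Pool.Agent.T2h31.LC.smb_all od_all

theorem rlb_all : S_RLB := t_RLB (t_WF od_all) ibw_all moc_all pcn_all od_all

theorem plc_all : S_PLC := t_PLC sy_all plw_all od_all

theorem stc_all : S_STC := t_STC Pool.Agent.R476.OR.fld t_ODV ibw_all moc_all plc_all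

theorem cvc_all : S_CVC := t_CVC (t_GTC moc_all m4r od_all) plc_all

theorem ccs_all : S_CCS := t_CCS rlb_all cvc_all pcn_all stc_all plc_all

theorem fns_all : S_FNS :=
  t_FNS (Pool.Agent.Y665.FF.milb Pool.Agent.Y445.FF.mila') Pool.Agent.Y211.FF.half

theorem geo_all : S_GEO := t_GEO

theorem conc_all (δ : ℝ) (hδ : 0 < δ) :
    ∃ κ : ℝ, 0 < κ ∧ ∀ (n : ℕ) (R : Lb n → Lb n → Prop) (V : ℝ → ℝ) (E b : ℝ), 1 ≤ n →
      ConvexOn ℝ univ V → (∀ t, V (-t) = V t) → 0 < b →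
      (interior (KC V E R ∩ {x : Eu (Fin n) | ∀ i, |x i| ≤ b})).Nonempty →
      Ci κ δ (ind (KC V E R ∩ {x | ∀ i, |x i| ≤ b})) :=
  conc (t_CCH t_NRS ccs_all) (t_APS t_LIS) (t_APT t_LIS) t_GEO δ hδ

end Pool.Agent.T2h31.OB
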