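import Pool.Agent.T2h31.OB.Stm

/-!
# Orlicz balls cut by order relations, for every convex `V` (project OB, part A, type A)

`K = {x ∈ ℝⁿ | ∑ V(x_i) ≤ E} ∩ CA R`, `V` any convex function, `CA R` the cone of the points with `x_i ≤ x_j` if
`R i j`. Everything as in `Stm.lean` (type B) with permutations only and without evenness: COPY AND ADAPT the finished file of
type B of the same name (`SYA` from `T_SY`, and so on).
-/

set_option autoImplicit false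

namespace Pool.Agent.T2h31.OB

open MeasureTheory Set Filter Topology
open scoped ENNReal InnerProductSpace
open Pool.Agent.W695.KH (Eu EV VV Sm)
open Pool.Agent.Y506.RG (ND EW VW ILK)
open Pool.Agent.R476.OR (CV NV mV rV FD SV KV LVL sgm sgd ind)

section

variable {n : ℕ}

/-- the cone of the order relations -/
def CA (R : Fin n → Fin n → Prop) : Set (Eu (Fin n)) := {x | ∀ i j, R i j → x i ≤ x j}

/-- the body -/
def KA (V : ℝ → ℝ) (E : ℝ) (R : Fin n → Fin n → Prop) : Set (Eu (Fin n)) := K1 n V E ∩ CA R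

/-- mass of the cone -/
noncomputable def msA (V : ℝ → ℝ) (R : Fin n → Fin n → Prop) : ℝ := ∫ x in CA R, rh V x

/-- mean on the cone -/
noncomputable def MA (V : ℝ → ℝ) (R : Fin n → Fin n → Prop) (G : Eu (Fin n) → ℝ) : ℝ :=
  (∫ x in CA R, G x * rh V x) / msA V R

/-- variance on the cone -/
noncomputable def VA (V : ℝ → ℝ) (R : Fin n → Fin n → Prop) (G : Eu (Fin n) → ℝ) : ℝ :=
  MA V R (fun x => G x ^ 2) - MA V R G ^ 2

/-- covariance of `⟪x, θ⟫` and the sum -/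
noncomputable def bA (V : ℝ → ℝ) (R : Fin n → Fin n → Prop) (θ : Eu (Fin n)) : ℝ :=
  MA V R fun x => ⟪x, θ⟫_ℝ * Sc V x

/-- residual variance of `⟪x, θ⟫` -/
noncomputable def RA (V : ℝ → ℝ) (R : Fin n → Fin n → Prop) (θ : Eu (Fin n)) : ℝ :=
  VA V R (fun x => ⟪x, θ⟫_ℝ) - bA V R θ ^ 2 / sC n V

end

/-- SYA (150 lines; takes `Pool.Agent.R972.OP.S_SYM`, proof `Pool.Agent.R372.OP.SYM.main`; adapt `T_SY`): symmetric functions on the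
cone. `p = |OPp R|` (volume of the order polytope in `[0,1]ⁿ`). By S_SYM for `x ↦ G (-M + 2 M x)` (the cone is invariant
under increasing affine maps) `∫_{CA R ∩ [-M,M]ⁿ} G = p ∫_{[-M,M]ⁿ} G` for continuous symmetric `G`, `M → ∞`. -/
def S_SYA : Prop := ∀ (n : ℕ) (R : Fin n → Fin n → Prop), ∃ p : ℝ, 0 ≤ p ∧
  (∀ G : Eu (Fin n) → ℝ, Continuous G → Integrable G →
    (∀ (σ : Equiv.Perm (Fin n)) (x : Eu (Fin n)), G (WithLp.toLp 2 fun i => x (σ i)) = G x) →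
    ∫ x in CA R, G x = p * ∫ x, G x) ∧
  ∀ V : ℝ → ℝ, Continuous V → (∀ s, volume (K1 n V s) ≠ ⊤) →
    ∀ E, (volume (KA V E R)).toReal = p * (volume (K1 n V E)).toReal

/-- FLA (150 lines; adapt `T_FLW`): the divergence theorem on the cone, `w` any `C¹` function (`φ(s) = s + t w(s)` is
increasing, so `Φ x = (φ (x_i))` maps the cone onto itself). -/
def S_FLA : Prop := ∀ (n : ℕ) (R : Fin n → Fin n → Prop) (H : Eu (Fin n) → ℝ) (w : ℝ → ℝ),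
  ContDiff ℝ 1 H → HasCompactSupport H → ContDiff ℝ 1 w →
  ∫ x in CA R, (fderiv ℝ H x (WithLp.toLp 2 fun i => w (x i)) + H x * ∑ i, deriv w (x i)) = 0

/-- IBA (100 lines; takes S_FLA; adapt `T_IBW`): integration by parts for the density. -/
def S_IBA : Prop := ∀ (n : ℕ) (R : Fin n → Fin n → Prop) (V V' : ℝ → ℝ), NV V V' →
  ∀ w h : ℝ → ℝ, Continuous w → Continuous h →
  (∀ t, HasDerivAt (fun t => w t * Real.exp (-V t)) (-(h t * Real.exp (-V t))) t) →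
  ∀ G : Eu (Fin n) → ℝ, ContDiff ℝ 1 G →
  (∀ i, Integrable fun x : Eu (Fin n) => fderiv ℝ G x (EuclideanSpace.single i 1) * w (x i) * rh V x) →
  (∀ i, Integrable fun x : Eu (Fin n) => G x * w (x i) * rh V x) →
  (∀ i, Integrable fun x : Eu (Fin n) => G x * h (x i) * rh V x) →
  ∫ x in CA R, fderiv ℝ G x (WithLp.toLp 2 fun i => w (x i)) * rh V x =
    ∫ x in CA R, G x * (∑ i, h (x i)) * rh V x

/-- ODA (120 lines; takes `Pool.Agent.Y506.RG.S_ONE` and `Pool.Agent.R476.OR.S_FLD`; adapt `T_OD`): facts on one normalised potential.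
`F(t) = ∫_{-∞}^t f`, `T(t) = ∫_t^∞ f`. `min F T ≤ C f` is OB.right for `t ≥ 0` and OB.left for `t ≤ 0`; if `V' t ≥ 0` then
`V' t T(t) ≤ f(t)`, and if `V' t ≤ 0` then `-V' t F(t) ≤ f(t)`, so `|V' t| min F T ≤ f(t)`. -/
def S_ODA : Prop := ∃ C : ℝ, 1 ≤ C ∧ ∀ V V' : ℝ → ℝ, NV V V' →
  (∀ t, Real.exp (-V t) ≤ C) ∧
  (∀ t, min (∫ s in Iic t, Real.exp (-V s)) (∫ s in Ioi t, Real.exp (-V s)) ≤ C * Real.exp (-V t)) ∧
  (∀ t, |V' t| * min (∫ s in Iic t, Real.exp (-V s)) (∫ s in Ioi t, Real.exp (-V s)) ≤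
    Real.exp (-V t)) ∧
  0 ≤ rV V ∧ rV V ≤ C ∧ (Integrable fun t => V t ^ 4 * Real.exp (-V t))

/-- WFA (200 lines; takes S_ODA; adapt `T_WF`): the second field, with `s(t) = 2 F(t) - 1`, `1 - |s| = 2 min F T`. -/
def S_WFA : Prop := ∃ C : ℝ, 1 ≤ C ∧ ∀ V V' : ℝ → ℝ, NV V V' → ∃ w h : ℝ → ℝ,
  Continuous w ∧ Continuous h ∧
  (∀ t, HasDerivAt (fun t => w t * Real.exp (-V t)) (-(h t * Real.exp (-V t))) t) ∧
  (∀ t, |w t| ≤ C) ∧ (∀ t, |h t| ≤ C) ∧ (∀ s t, |w s - w t| ≤ C * |s - t|) ∧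
  (∫ t, h t * Real.exp (-V t) = 0) ∧ (∫ t, h t * (V t - mV V) * Real.exp (-V t) = 0) ∧
  1 / C ≤ ∫ t, w t ^ 2 * Real.exp (-V t)

/-- PCA (250 lines; takes `Pool.Agent.T2h31.LC.S_SMA` and `Pool.Agent.Y506.RG.S_ONE`; adapt `T_PCN`): Poincare's inequality on the cone.
`V_b = V` on `[-b, b]`, continued outside by `C¹` bounded functions; S_SMA on `[-b, b]` at `y = 0`
(`exp (-V 0) ≥ 1/C` is OB.zero), `b → ∞`. -/
def S_PCA : Prop := ∃ C : ℝ, 1 ≤ C ∧ ∀ (n : ℕ) (R : Fin n → Fin n → Prop) (V V' : ℝ → ℝ), NV V V' →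
  0 < msA V R → ∀ (U : Eu (Fin n) → ℝ) (l : ℝ), ContDiff ℝ 1 U → 0 ≤ l → (∀ x, ‖fderiv ℝ U x‖ ≤ l) →
  Integrable (fun x => U x ^ 2 * rh V x) → VA V R U ≤ C * l ^ 2

/-- MOA (120 lines; takes S_SYA and `Pool.Agent.R476.OR.S_TWO`; adapt `T_MOC`): moments of symmetric functions on the cone. -/
def S_MOA : Prop := ∀ (n : ℕ) (R : Fin n → Fin n → Prop) (V V' : ℝ → ℝ), NV V V' → 0 < msA V R →
  ∀ φ : ℝ → ℝ, Continuous φ → (Integrable fun t => φ t ^ 2 * Real.exp (-V t)) →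
  (MA V R (fun x => ∑ i, φ (x i)) = n * ∫ t, φ t * Real.exp (-V t)) ∧
  Integrable (fun x : Eu (Fin n) => (∑ i, φ (x i)) ^ 2 * rh V x) ∧
  ((∫ t, φ t * Real.exp (-V t) = 0) →
    MA V R (fun x => (∑ i, φ (x i)) ^ 2) = n * ∫ t, φ t ^ 2 * Real.exp (-V t)) ∧
  ∀ ψ : ℝ → ℝ, Continuous ψ → (Integrable fun t => ψ t ^ 2 * Real.exp (-V t)) →
    (∫ t, φ t * Real.exp (-V t) = 0) → (∫ t, ψ t * Real.exp (-V t) = 0) →
    MA V R (fun x => (∑ i, φ (x i)) * ∑ i, ψ (x i)) = n * ∫ t, φ t * ψ t * Real.exp (-V t)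

/-- RLA (250 lines; takes S_WFA, S_IBA, S_MOA, S_PCA, S_ODA; adapt `T_RLB`): some linear functional has large residual
variance. -/
def S_RLA : Prop := ∃ c : ℝ, 0 < c ∧ ∀ (n : ℕ) (R : Fin n → Fin n → Prop) (V V' : ℝ → ℝ), 1 ≤ n →
  NV V V' → 0 < msA V R → ∃ θ : Eu (Fin n), ‖θ‖ = 1 ∧ c ≤ RA V R θ

/-- PLA (80 lines; takes S_SYA, `Pool.Agent.R476.OR.S_PLW`, S_ODA; adapt `T_PLC`): volume of the optimal body on the cone. -/
def S_PLA : Prop := ∃ c : ℝ, 0 < c ∧ ∀ (n : ℕ) (R : Fin n → Fin n → Prop) (V V' : ℝ → ℝ), NV V V' →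
  ∀ E : ℝ, LVL (fun _ : Fin n => V) E →
  c * msA V R ≤ Real.sqrt (sC n V) * ((volume (KA V E R)).toReal * Real.exp (-E)) ∧
  (volume (KA V E R)).toReal ≤ msA V R * Real.exp E

/-- STA (300 lines; takes `Pool.Agent.R476.OR.S_FLD`, S_IBA, S_MOA, S_PLA; adapt `T_STC`): the main inequality. -/
def S_STA : Prop := ∃ C : ℝ, 1 ≤ C ∧ ∀ (n : ℕ) (R : Fin n → Fin n → Prop) (V V' : ℝ → ℝ), NV V V' →
  0 < msA V R → ∀ E : ℝ, LVL (fun _ : Fin n => V) E → ∀ (U : Eu (Fin n) → ℝ) (l η : ℝ), ContDiff ℝ 1 U →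
  (∀ x, 0 ≤ U x) → (∀ x, U x ≤ 4) → 0 ≤ l → (∀ x, ‖fderiv ℝ U x‖ ≤ l) → 0 ≤ η → η ≤ 1 →
  MA V R U ≤ η ^ 2 → ∫ x in KA V E R, U x ≤ C * (η + l) * (volume (KA V E R)).toReal

/-- GTA (350 lines; takes S_MOA, `Pool.Agent.R476.OR.S_M4R`, S_ODA; adapt `T_GTC`): the two-dimensional marginal. -/
def S_GTA : Prop := ∃ K : ℝ, 1 ≤ K ∧ ∀ (n : ℕ) (R : Fin (n + 1) → Fin (n + 1) → Prop) (V V' : ℝ → ℝ),
  NV V V' → 0 < msA V R → ∀ θ : Eu (Fin (n + 1)), ‖θ‖ = 1 → 0 < RA V R θ →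
  ∃ g : Eu (Fin 2) → ℝ≥0∞, ILK K g ∧ ∀ (E : ℝ) (φ : ℝ → ℝ≥0∞), Measurable φ →
    ∫⁻ x in KA V E R, φ ⟪θ, x⟫_ℝ =
      ENNReal.ofReal (msA V R * Real.exp E / Real.sqrt (sC (n + 1) V)) *
      ∫⁻ z : ℝ, φ (MA V R (fun x => ⟪x, θ⟫_ℝ) + Real.sqrt (RA V R θ) * z +
        bA V R θ / Real.sqrt (sC (n + 1) V) *
          ((E - ((n + 1 : ℕ) * mV V + 1)) / Real.sqrt (sC (n + 1) V))) *
        g (WithLp.toLp 2 ![z, (E - ((n + 1 : ℕ) * mV V + 1)) / Real.sqrt (sC (n + 1) V)])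

/-- CVA (150 lines; takes S_GTA, S_PLA; adapt `T_CVC`): variance of a linear functional on the body. -/
def S_CVA : Prop := ∃ c : ℝ, 0 < c ∧ ∀ (n : ℕ) (R : Fin (n + 1) → Fin (n + 1) → Prop) (V V' : ℝ → ℝ),
  NV V V' → 0 < msA V R → ∀ E : ℝ, LVL (fun _ : Fin (n + 1) => V) E →
  ∀ θ : Eu (Fin (n + 1)), ‖θ‖ = 1 → 0 < RA V R θ →
  c * RA V R θ ≤ VW (ind (KA V E R)) fun x => ⟪x, θ⟫_ℝ

/-- CSA (120 lines; takes S_RLA, S_CVA, S_PCA, S_STA, S_PLA; adapt `T_CCS`): concentration, normalised potentials. -/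
def S_CSA : Prop := ∀ δ : ℝ, 0 < δ → ∃ κ : ℝ, 0 < κ ∧ ∀ (n : ℕ) (R : Fin n → Fin n → Prop)
  (V V' : ℝ → ℝ), 1 ≤ n → NV V V' → ∀ E : ℝ, LVL (fun _ : Fin n => V) E → 0 < volume (KA V E R) →
  Ci κ δ (ind (KA V E R))

/-- NRA (60 lines; adapt `T_NRS`): normalisation, now `a` need not be zero. -/
def S_NRA : Prop := ∀ (n : ℕ) (V V' : ℝ → ℝ), 1 ≤ n → CV V V' → ∀ E : ℝ,
  Bornology.IsBounded (K1 n V E) → (∃ x : Eu (Fin n), S1 V x < E) →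
  ∃ (W W' : ℝ → ℝ) (E' a d : ℝ), NV W W' ∧ LVL (fun _ : Fin n => W) E' ∧ 0 < d ∧
  ∀ x : Eu (Fin n), x ∈ K1 n W E' ↔ (WithLp.toLp 2 (fun _ => a) : Eu (Fin n)) + d • x ∈ K1 n V E

/-- CHA (100 lines; takes S_NRA, S_CSA; adapt `T_CCH`): `C¹` potentials. -/
def S_CHA : Prop := ∀ δ : ℝ, 0 < δ → ∃ κ : ℝ, 0 < κ ∧ ∀ (n : ℕ) (R : Fin n → Fin n → Prop)
  (V V' : ℝ → ℝ), 1 ≤ n → CV V V' → ∀ E : ℝ, Bornology.IsBounded (K1 n V E) →
  (∃ x : Eu (Fin n), S1 V x < E) → 0 < volume (KA V E R) → Ci κ δ (ind (KA V E R))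

/-- ASA (200 lines; takes S_LIS; adapt `T_APS`): from `C¹` to convex potentials. -/
def S_ASA : Prop := ∀ (κ δ : ℝ), 0 < κ →
  (∀ (n : ℕ) (R : Fin n → Fin n → Prop) (V V' : ℝ → ℝ), 1 ≤ n → CV V V' →
    ∀ E : ℝ, Bornology.IsBounded (K1 n V E) → (∃ x : Eu (Fin n), S1 V x < E) →
    0 < volume (KA V E R) → Ci κ δ (ind (KA V E R))) →
  ∀ (n : ℕ) (R : Fin n → Fin n → Prop) (V : ℝ → ℝ), 1 ≤ n → ConvexOn ℝ univ V →
    ∀ E : ℝ, Bornology.IsBounded (K1 n V E) → (∃ x : Eu (Fin n), S1 V x < E) →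
    0 < volume (KA V E R) → Ci (κ / 2) δ (ind (KA V E R))

/-- ATA (200 lines; takes S_LIS; adapt `T_APT` and `R476/OR/H.lean`): with the constraints `a ≤ x_i ≤ b`. -/
def S_ATA : Prop := ∀ (κ δ : ℝ), 0 < κ →
  (∀ (n : ℕ) (R : Fin n → Fin n → Prop) (V : ℝ → ℝ), 1 ≤ n → ConvexOn ℝ univ V →
    ∀ E : ℝ, Bornology.IsBounded (K1 n V E) →
    (∃ x : Eu (Fin n), S1 V x < E) → 0 < volume (KA V E R) → Ci κ δ (ind (KA V E R))) →
  ∀ (n : ℕ) (R : Fin n → Fin n → Prop) (V : ℝ → ℝ) (a b : ℝ), 1 ≤ n → ConvexOn ℝ univ V →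
    a < b → ∀ E : ℝ, (∃ x : Eu (Fin n), S1 V x < E ∧ ∀ i, x i ∈ Ioo a b) →
    0 < volume (KA V E R ∩ {x | ∀ i, x i ∈ Icc a b}) →
    Ci (κ / 2) δ (ind (KA V E R ∩ {x | ∀ i, x i ∈ Icc a b}))

/-- GEA (120 lines; adapt `T_GEO`): elementary facts. Last part: let `x0` be an interior point of the body, then
`S1 V x0 = E` is the minimum of `S1 V` on the open box, `S1 V` is constant near `x0`, `V` is constant near each `x0 i`, so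
`V (x0 i)` is the minimum of `V` and `S1 V x ≤ E` iff all `x_i` are in the closed interval `J` where `V` is minimal. -/
def S_GEA : Prop := ∀ (n : ℕ) (R : Fin n → Fin n → Prop) (V : ℝ → ℝ), 1 ≤ n → ConvexOn ℝ univ V →
  ∀ E a b : ℝ, IsCompact (KA V E R ∩ {x : Eu (Fin n) | ∀ i, x i ∈ Icc a b}) ∧
    Convex ℝ (KA V E R ∩ {x : Eu (Fin n) | ∀ i, x i ∈ Icc a b}) ∧
    ((interior (KA V E R ∩ {x : Eu (Fin n) | ∀ i, x i ∈ Icc a b})).Nonempty →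
      (∀ x : Eu (Fin n), (∀ i, x i ∈ Ioo a b) → E ≤ S1 V x) →
      ∃ a' b' : ℝ, a' < b' ∧ KA V E R ∩ {x | ∀ i, x i ∈ Icc a b} = CA R ∩ {x | ∀ i, x i ∈ Icc a' b'})

end Pool.Agent.T2h31.OB
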