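import Pool.Agent.T2h31.OB.T_ASA
import Pool.Agent.R476.OR.H

/-!
# Project OB, task ATA: the constraints `a ≤ x_i ≤ b` by penalisation (type A)
-/

set_option autoImplicit false

namespace Pool.Agent.T2h31.OB

open MeasureTheory Set Filter Topology in
open Pool.Agent.W695.KH (Eu) in
open Pool.Agent.R476.OR in
open Pool.Agent.R476.OR.G (cont_of_convex) in
open APS ASA in
theorem t_ATA (h : S_LIS) : S_ATA := by
  intro κ δ hκ H n R V a b hn hV hab E hx hvol
  obtain ⟨x0, hx0, hx0i⟩ := hx
  have hVc : Continuous V := cont_of_convex hV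
  let VV : Fin n → ℝ → ℝ := fun _ => V
  let I : Fin n → Set ℝ := fun _ => Icc a b
  have hVVc : ∀ i, ConvexOn ℝ univ (VV i) := fun _ => hV
  have hI : ∀ i, IsClosed (I i) := fun _ => isClosed_Icc
  have hc : ∀ i, (I i).OrdConnected := fun _ => ordConnected_Icc
  have hx0I : ∀ i, x0 i ∈ I i := fun i => Ioo_subset_Icc_self (hx0i i)
  have hne : ∀ i, (I i).Nonempty := fun i => ⟨_, hx0I i⟩
  have hbox : Bornology.IsBounded {x : Eu (Fin n) | ∀ i, x i ∈ Icc a b} := by
    rw [isBounded_iff_forall_norm_le]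
    refine ⟨Real.sqrt (∑ _i : Fin n, max |a| |b| ^ 2), fun x hx => ?_⟩
    rw [EuclideanSpace.norm_eq]
    refine Real.sqrt_le_sqrt (Finset.sum_le_sum fun i _ => ?_)
    rw [Real.norm_eq_abs]
    exact pow_le_pow_left₀ (abs_nonneg _) (abs_le_max_abs_abs (hx i).1 (hx i).2) 2
  have hboxc : IsClosed {x : Eu (Fin n) | ∀ i, x i ∈ Icc a b} := by
    have e : {x : Eu (Fin n) | ∀ i, x i ∈ Icc a b} = ⋂ i, {x : Eu (Fin n) | x i ∈ Icc a b} := by
      ext x
      simp
    rw [e]
    exact isClosed_iInter fun i => isClosed_Icc.preimage (by fun_prop)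
  obtain ⟨j0, hj0⟩ := h_bounded (V := VV) (I := I) hVVc hI hc (E := E)
    (hbox.subset inter_subset_right) (x0 := x0) hx0 hx0I
  set K : Set (Eu (Fin n)) := KA V E R ∩ {x | ∀ i, x i ∈ Icc a b} with hK
  let W : ℕ → ℝ → ℝ := fun j t => V t + ((j0 + j : ℕ) : ℝ) * Metric.infDist t (Icc a b)
  have hWv : ∀ j, ConvexOn ℝ univ (W j) := fun j =>
    hV.add ((h_infDist_convex isClosed_Icc (nonempty_Icc.2 hab.le) (convex_Icc a b)).smul
      (Nat.cast_nonneg (α := ℝ) (j0 + j)))
  have hWc : ∀ j, Continuous (W j) := fun j => cont_of_convex (hWv j)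
  have hSW : ∀ j (x : Eu (Fin n)), S1 (W j) x = S1 V x + ((j0 + j : ℕ) : ℝ) * hD I x := fun j x =>
    h_SV VV I (j0 + j) x
  have hKc : IsClosed K := (KA_closed hVc E R).inter hboxc
  have hWK : ∀ j, IsClosed (KA (W j) E R) := fun j => KA_closed (hWc j) E R
  have hsub : ∀ j, K1 n (W j) E ⊆ KV (Pool.Agent.R476.OR.hV VV I j0) E := by
    intro j x hx
    have hx' : S1 (W j) x ≤ E := hx
    show SV (Pool.Agent.R476.OR.hV VV I j0) x ≤ E
    rw [hSW] at hx'
    rw [h_SV]
    have h1 : (j0 : ℝ) ≤ ((j0 + j : ℕ) : ℝ) := by exact_mod_cast Nat.le_add_right j0 j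
    have h2 := mul_le_mul_of_nonneg_right h1 (h_D_nonneg I x)
    have h3 : SV VV x = S1 V x := rfl
    rw [h3]
    linarith
  have hbd : ∀ j, Bornology.IsBounded (K1 n (W j) E) := fun j => hj0.subset (hsub j)
  obtain ⟨r, hr⟩ := hj0.subset_closedBall 0
  have hWr : ∀ j, KA (W j) E R ⊆ Metric.closedBall 0 r := fun j x hx => hr (hsub j hx.1)
  have hKW : ∀ j, K ⊆ KA (W j) E R := by
    intro j x hx
    refine ⟨?_, hx.1.2⟩
    change S1 (W j) x ≤ E
    rw [hSW, h_D_zero (I := I) hx.2, mul_zero, add_zero]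
    exact hx.1.1
  have hKr : K ⊆ Metric.closedBall 0 r := (hKW 0).trans (hWr 0)
  have hfin : volume K ≠ ⊤ := (lt_of_le_of_lt (measure_mono hKr) measure_closedBall_lt_top).ne
  have hpos : 0 < ∫ x, ind K x := by
    rw [ind_mass hKc]
    exact ENNReal.toReal_pos hvol.ne' hfin
  have hzero : Tendsto (fun j => ∫ x, (1 + ‖x‖ ^ 2) * |ind (KA (W j) E R) x - ind K x|) atTop (𝓝 0) := by
    have key := tendsto_integral_of_dominated_convergence
      (μ := (volume : Measure (Eu (Fin n))))
      (F := fun j x => (1 + ‖x‖ ^ 2) * |ind (KA (W j) E R) x - ind K x|)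
      (f := fun _ => (0 : ℝ))
      (bound := (Metric.closedBall (0 : Eu (Fin n)) r).indicator (fun x => 1 + ‖x‖ ^ 2))
      ?_ ?_ ?_ ?_
    · simpa using key
    · intro j
      have m1 : Measurable (ind (KA (W j) E R)) := measurable_const.indicator (hWK j).measurableSet
      have m2 : Measurable (ind K) := measurable_const.indicator hKc.measurableSet
      have m3 : Measurable (fun x : Eu (Fin n) => 1 + ‖x‖ ^ 2) := by fun_prop
      exact (m3.mul (m1.sub m2).abs).aestronglyMeasurable
    · rw [integrable_indicator_iff measurableSet_closedBall]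
      apply ContinuousOn.integrableOn_compact (isCompact_closedBall _ _)
      fun_prop
    · intro j
      refine Eventually.of_forall fun x => ?_
      have hp : 0 ≤ 1 + ‖x‖ ^ 2 := by positivity
      rw [Real.norm_eq_abs, abs_of_nonneg (mul_nonneg hp (abs_nonneg _))]
      by_cases hxb : x ∈ Metric.closedBall (0 : Eu (Fin n)) r
      · rw [indicator_of_mem hxb]
        have h1 : |ind (KA (W j) E R) x - ind K x| ≤ 1 := by
          unfold ind
          by_cases h1 : x ∈ KA (W j) E R <;> by_cases h2 : x ∈ K <;> simp [h1, h2]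
        calc (1 + ‖x‖ ^ 2) * |ind (KA (W j) E R) x - ind K x| ≤ (1 + ‖x‖ ^ 2) * 1 :=
              mul_le_mul_of_nonneg_left h1 hp
          _ = 1 + ‖x‖ ^ 2 := mul_one _
      · have h1 : x ∉ KA (W j) E R := fun hh => hxb (hWr j hh)
        have h2 : x ∉ K := fun hh => hxb (hKr hh)
        simp [ind, h1, h2, hxb]
    · refine Eventually.of_forall fun x => ?_
      refine tendsto_const_nhds.congr' ?_
      by_cases h1 : ∀ i, x i ∈ I i
      · refine Eventually.of_forall fun j => ?_
        by_cases h2 : x ∈ K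
        · have h3 := hKW j h2
          simp [ind, h2, h3]
        · have h3 : x ∉ KA (W j) E R := by
            intro hh
            apply h2
            have h4 : S1 (W j) x ≤ E := hh.1
            rw [hSW, h_D_zero h1, mul_zero, add_zero] at h4
            exact ⟨⟨h4, hh.2⟩, h1⟩
          simp [ind, h2, h3]
      · have h2 : x ∉ K := fun hh => h1 hh.2
        have hp := h_D_pos hI hne h1
        obtain ⟨k, hk⟩ := exists_nat_gt ((E - S1 V x) / hD I x)
        filter_upwards [eventually_ge_atTop k] with j hj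
        have h3 : x ∉ KA (W j) E R := by
          intro hh
          have h4 : S1 (W j) x ≤ E := hh.1
          rw [hSW] at h4
          rw [div_lt_iff₀ hp] at hk
          have h5 : (k : ℝ) ≤ ((j0 + j : ℕ) : ℝ) := by exact_mod_cast hj.trans (Nat.le_add_left _ _)
          have := mul_le_mul_of_nonneg_right h5 (h_D_nonneg I x)
          linarith
        simp [ind, h2, h3]
  refine h n κ δ (ind K) (fun j => ind (KA (W j) E R)) hκ (ind_int hKc hKr) hpos
    (fun j => ind_int (hWK j) (hWr j)) hzero (Eventually.of_forall fun j => ?_)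
  refine H n R (W j) hn (hWv j) E (hbd j) ⟨x0, ?_⟩ (hvol.trans_le (measure_mono (hKW j)))
  rw [hSW, h_D_zero hx0I, mul_zero, add_zero]
  exact hx0

end Pool.Agent.T2h31.OB
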