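import Pool.Agent.T2h31.OB.StmA
import Pool.Agent.T2h31.OB.T_CCH

/-!
# Project OB, part A: task CHA (`C¹` potentials, from the normalised ones by affine maps)
-/

set_option autoImplicit false

namespace Pool.Agent.T2h31.OB

open MeasureTheory Set Filter Topology
open scoped ENNReal InnerProductSpace
open Pool.Agent.W695.KH (Eu EV VV Sm)
open Pool.Agent.Y506.RG (ND EW VW ILK)
open Pool.Agent.Y506.FF (LCon)
open Pool.Agent.R476.OR (CV NV mV rV FD SV KV LVL sgm sgd ind)
open Pool.Agent.T2h31.SB (Lb sv SK)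

namespace CHA

variable {n : ℕ}

/-- translations -/
theorem ew_add {K K' : Set (Eu (Fin n))} {b : Eu (Fin n)} (hK : ∀ x, x ∈ K' ↔ x + b ∈ K)
    (f : Eu (Fin n) → ℝ) : EW (ind K') (fun x => f (x + b)) = EW (ind K) f := by
  have hi : ∀ x, ind K' x = ind K (x + b) := by
    intro x
    unfold ind
    by_cases h : x ∈ K'
    · rw [indicator_of_mem h, indicator_of_mem ((hK x).1 h)]
    · rw [indicator_of_notMem h, indicator_of_notMem fun h2 => h ((hK x).2 h2)]
  unfold EW
  have h1 : ∫ x, f (x + b) * ind K' x = ∫ x, f x * ind K x := by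
    rw [← integral_add_right_eq_self (fun x => f x * ind K x) b]
    refine integral_congr_ae (Eventually.of_forall fun x => ?_)
    simp only [hi x]
  have h2 : ∫ x, ind K' x = ∫ x, ind K x := by
    rw [← integral_add_right_eq_self (fun x => ind K x) b]
    refine integral_congr_ae (Eventually.of_forall fun x => ?_)
    simp only [hi x]
  rw [h1, h2]

theorem vw_add {K K' : Set (Eu (Fin n))} {b : Eu (Fin n)} (hK : ∀ x, x ∈ K' ↔ x + b ∈ K)
    (f : Eu (Fin n) → ℝ) : VW (ind K') (fun x => f (x + b)) = VW (ind K) f := by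
  unfold VW
  rw [ew_add hK f, ew_add hK (fun x => f x ^ 2)]

theorem vw_add_const (w f : Eu (Fin n) → ℝ) (c : ℝ) (hw : Integrable w)
    (hf : Integrable fun x => f x * w x) (hf2 : Integrable fun x => f x ^ 2 * w x)
    (hm : ∫ x, w x ≠ 0) : VW w (fun x => f x + c) = VW w f := by
  have h1 : EW w (fun x => f x + c) = EW w f + c := by
    unfold EW
    have : ∫ x, (f x + c) * w x = (∫ x, f x * w x) + c * ∫ x, w x := by
      rw [← integral_const_mul, ← integral_add hf (hw.const_mul c)]
      refine integral_congr_ae (Eventually.of_forall fun x => ?_)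
      simp only
      ring
    rw [this]
    field_simp
  have h2 : EW w (fun x => (f x + c) ^ 2) = EW w (fun x => f x ^ 2) + 2 * c * EW w f + c ^ 2 := by
    unfold EW
    have e1 : ∫ x, (f x ^ 2 * w x + 2 * c * (f x * w x)) =
        (∫ x, f x ^ 2 * w x) + 2 * c * ∫ x, f x * w x := by
      rw [integral_add hf2 (hf.const_mul _), integral_const_mul]
    have e2 : ∫ x, ((f x ^ 2 * w x + 2 * c * (f x * w x)) + c ^ 2 * w x) =
        (∫ x, (f x ^ 2 * w x + 2 * c * (f x * w x))) + c ^ 2 * ∫ x, w x := by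
      have hs : Integrable fun x => f x ^ 2 * w x + 2 * c * (f x * w x) := hf2.add (hf.const_mul _)
      rw [integral_add hs (hw.const_mul _), integral_const_mul]
    have : ∫ x, (f x + c) ^ 2 * w x =
        (∫ x, f x ^ 2 * w x) + 2 * c * (∫ x, f x * w x) + c ^ 2 * ∫ x, w x := by
      rw [← e1, ← e2]
      refine integral_congr_ae (Eventually.of_forall fun x => ?_)
      simp only
      ring
    rw [this]
    field_simp
  unfold VW
  rw [h1, h2]
  ring

theorem ci_add {κ δ : ℝ} {b : Eu (Fin n)} {K K' : Set (Eu (Fin n))} (hK : ∀ x, x ∈ K' ↔ x + b ∈ K)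
    (hKc : IsCompact K) (hKv : 0 < volume K) (h : Ci κ δ (ind K')) : Ci κ δ (ind K) := by
  have hint : ∀ f : Eu (Fin n) → ℝ, Continuous f → Integrable fun x => f x * ind K x := by
    intro f hf
    have h1 : (fun x => f x * ind K x) = K.indicator f := by
      funext x
      unfold ind
      by_cases hx : x ∈ K
      · rw [indicator_of_mem hx, indicator_of_mem hx, mul_one]
      · rw [indicator_of_notMem hx, indicator_of_notMem hx, mul_zero]
    rw [h1, integrable_indicator_iff hKc.measurableSet]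
    exact hf.continuousOn.integrableOn_compact hKc
  have hint1 : Integrable (ind K) := by
    have := hint (fun _ => 1) continuous_const
    simpa using this
  have hm : ∫ x, ind K x ≠ 0 := by
    unfold ind
    rw [integral_indicator hKc.measurableSet, setIntegral_const, smul_eq_mul, mul_one, Measure.real]
    exact (ENNReal.toReal_pos hKv.ne' hKc.measure_lt_top.ne).ne'
  intro s hs hθ v hv hv1 hv2
  have key := h s hs (fun θ hθ1 => ?_) (fun x => v (x + b))
    (hv.comp (contDiff_id.add contDiff_const)) (fun y => hv1 _) (fun y => ?_)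
  · rw [vw_add hK v] at key
    exact key
  · have h1 : VW (ind K') (fun x => ⟪(x + b) - b, θ⟫_ℝ) = VW (ind K) (fun x => ⟪x - b, θ⟫_ℝ) :=
      vw_add hK (fun x => ⟪x - b, θ⟫_ℝ)
    have h2 : (fun x : Eu (Fin n) => ⟪(x + b) - b, θ⟫_ℝ) = fun x => ⟪x, θ⟫_ℝ := by
      funext x
      rw [add_sub_cancel_right]
    have h3 : (fun x : Eu (Fin n) => ⟪x - b, θ⟫_ℝ) = fun x => ⟪x, θ⟫_ℝ + -⟪b, θ⟫_ℝ := by
      funext x
      rw [inner_sub_left]
      ring
    have hc : Continuous fun x : Eu (Fin n) => ⟪x, θ⟫_ℝ := continuous_id.inner continuous_const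
    rw [h2, h3, vw_add_const (ind K) (fun x => ⟪x, θ⟫_ℝ) _ hint1 (hint _ hc) (hint _ (hc.pow 2)) hm] at h1
    rw [h1]
    exact hθ θ hθ1
  · have h1 : fderiv ℝ (fun x => v (x + b)) y = fderiv ℝ v (y + b) := fderiv_comp_add_right b
    rw [h1]
    exact hv2 _

theorem s1_cont {V V' : ℝ → ℝ} (hV : CV V V') : Continuous (S1 V : Eu (Fin n) → ℝ) := by
  have hc : Continuous V := by
    rw [continuous_iff_continuousAt]
    exact fun t => (hV.der t).continuousAt
  unfold S1
  refine continuous_finsetSum _ fun i _ => hc.comp ?_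
  exact (EuclideanSpace.proj i : Eu (Fin n) →L[ℝ] ℝ).continuous

theorem ca_closed (R : Fin n → Fin n → Prop) : IsClosed (CA R) := by
  have h : CA R = ⋂ i, ⋂ j, ⋂ (_ : R i j), {x : Eu (Fin n) | x i ≤ x j} := by
    ext x
    simp [CA]
  rw [h]
  refine isClosed_iInter fun i => isClosed_iInter fun j => isClosed_iInter fun _ => ?_
  exact isClosed_le (EuclideanSpace.proj i : Eu (Fin n) →L[ℝ] ℝ).continuous
    (EuclideanSpace.proj j : Eu (Fin n) →L[ℝ] ℝ).continuous

end CHA

open CHA in
theorem t_CHA (hn : S_NRA) (hc : S_CSA) : S_CHA := by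
  intro δ hδ
  obtain ⟨κ, hκ, H⟩ := hc δ hδ
  refine ⟨κ, hκ, fun n R V V' hn1 hV E hb hS hpos => ?_⟩
  obtain ⟨W, W', E', a, d, hW, hE', hd, hx⟩ := hn n V V' hn1 hV E hb hS
  set b : Eu (Fin n) := WithLp.toLp 2 (fun _ => a) with hbdef
  set K₁ : Set (Eu (Fin n)) := {x | x + b ∈ KA V E R} with hK₁
  have hbi : ∀ i, b i = a := fun i => rfl
  have hK : ∀ x, x ∈ KA W E' R ↔ d • x ∈ K₁ := by
    intro x
    have h1 : d • x + b = b + d • x := add_comm _ _
    have h2 : x ∈ CA R ↔ b + d • x ∈ CA R := by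
      unfold CA
      simp only [Set.mem_ofPred_eq, PiLp.add_apply, PiLp.smul_apply, smul_eq_mul, hbi]
      constructor
      · intro h i j hij
        have := mul_le_mul_of_nonneg_left (h i j hij) hd.le
        linarith
      · intro h i j hij
        have := h i j hij
        exact le_of_mul_le_mul_left (by linarith) hd
    show x ∈ K1 n W E' ∩ CA R ↔ d • x + b ∈ K1 n V E ∩ CA R
    rw [h1, mem_inter_iff, mem_inter_iff, hx x, h2]
  have hcomp : IsCompact (KA V E R) := by
    refine Metric.isCompact_of_isClosed_isBounded ?_ (hb.subset inter_subset_left)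
    exact (isClosed_le (s1_cont hV) continuous_const).inter (ca_closed R)
  refine ci_add (b := b) (K' := K₁) (fun x => Iff.rfl) hcomp hpos ?_
  refine CCH.ci_smul hd hK (H n R W W' hn1 hW E' hE' ?_)
  have h1 : KA W E' R = (fun x => d • x) ⁻¹' K₁ := by
    ext x
    rw [mem_preimage]
    exact hK x
  have h2 : K₁ = (fun x => x + b) ⁻¹' KA V E R := rfl
  rw [h1, Measure.addHaar_preimage_smul (volume : Measure (Eu (Fin n))) hd.ne' K₁, h2,
    measure_preimage_add_right]
  refine ENNReal.mul_pos ?_ hpos.ne'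
  have : 0 < |(d ^ Module.finrank ℝ (Eu (Fin n)))⁻¹| := by positivity
  exact (ENNReal.ofReal_pos.2 this).ne'

end Pool.Agent.T2h31.OB
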