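import Pool.Agent.T2h31.OB.StmA
import Pool.Agent.T2h31.LC.T_CVQ

/-! Project OB, task FLA (type A): the divergence theorem on the cone for functions with compact support. -/

set_option autoImplicit false

namespace Pool.Agent.T2h31.OB

open MeasureTheory Set Filter Topology
open scoped ENNReal InnerProductSpace
open Pool.Agent.W695.KH (Eu)

namespace FLA

variable {n : ℕ}

/-- the cone in the product space -/
def CP (R : Fin n → Fin n → Prop) : Set (Fin n → ℝ) := {y | ∀ i j, R i j → y i ≤ y j}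

/-- a box -/
def Bx (n : ℕ) (k : ℝ) : Set (Fin n → ℝ) := {y | ∀ i, -k ≤ y i ∧ y i ≤ k}

theorem closed_CP (R : Fin n → Fin n → Prop) : IsClosed (CP R) := by
  have : CP R = ⋂ p, ⋂ q, ⋂ (_ : R p q), {y : Fin n → ℝ | y p ≤ y q} := by
    ext y
    simp [CP]
  rw [this]
  exact isClosed_iInter fun p => isClosed_iInter fun q => isClosed_iInter fun _ =>
    isClosed_le (continuous_apply p) (continuous_apply q)

theorem closed_Bx (k : ℝ) : IsClosed (Bx n k) := by
  have : Bx n k = ⋂ i, {x : Fin n → ℝ | -k ≤ x i ∧ x i ≤ k} := by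
    ext x; simp [Bx]
  rw [this]
  exact isClosed_iInter fun i => (isClosed_le continuous_const (continuous_apply i)).inter
    (isClosed_le (continuous_apply i) continuous_const)

theorem int_CA (R : Fin n → Fin n → Prop) (F : Eu (Fin n) → ℝ) :
    ∫ x in CA R, F x = ∫ y in CP R, F (WithLp.toLp 2 y) := by
  have h := (PiLp.volume_preserving_toLp (Fin n)).setIntegral_preimage_emb
    (MeasurableEquiv.toLp 2 (Fin n → ℝ)).measurableEmbedding F (CA R)
  exact h.symm

/-- the flow -/
noncomputable def ph (v : ℝ → ℝ) (t s : ℝ) : ℝ := s + t * v s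

/-- fields which vanish outside of `[-A, A]` -/
structure Fl (v : ℝ → ℝ) (A B : ℝ) : Prop where
  smooth : ContDiff ℝ 1 v
  zero : ∀ s, A ≤ |s| → v s = 0
  bd : ∀ s, |deriv v s| ≤ B
  Bpos : 0 < B
  Apos : 0 < A

theorem ph_deriv {v : ℝ → ℝ} {A B : ℝ} (h : Fl v A B) (t s : ℝ) :
    HasDerivAt (ph v t) (1 + t * deriv v s) s := by
  unfold ph
  have hd : HasDerivAt v (deriv v s) s := ((h.smooth.differentiable one_ne_zero) s).hasDerivAt
  exact (hasDerivAt_id' s).add (hd.const_mul t)

theorem ph_pos {v : ℝ → ℝ} {A B : ℝ} (h : Fl v A B) {t : ℝ} (ht : |t| * B < 1) (s : ℝ) :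
    0 < 1 + t * deriv v s := by
  have h1 : |t * deriv v s| ≤ |t| * B := by
    rw [abs_mul]
    exact mul_le_mul_of_nonneg_left (h.bd s) (abs_nonneg _)
  have := (abs_le.1 h1).1
  linarith

theorem ph_mono {v : ℝ → ℝ} {A B : ℝ} (h : Fl v A B) {t : ℝ} (ht : |t| * B < 1) :
    StrictMono (ph v t) :=
  strictMono_of_deriv_pos fun s => by
    rw [(ph_deriv h t s).deriv]
    exact ph_pos h ht s

theorem ph_smooth {v : ℝ → ℝ} {A B : ℝ} (h : Fl v A B) (t : ℝ) : ContDiff ℝ 1 (ph v t) := by
  unfold ph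
  exact contDiff_id.add (contDiff_const.mul h.smooth)

theorem ph_out {v : ℝ → ℝ} {A B : ℝ} (h : Fl v A B) (t : ℝ) {s : ℝ} (hs : A ≤ |s|) :
    ph v t s = s := by
  unfold ph
  rw [h.zero s hs]
  ring

theorem ph_surj {v : ℝ → ℝ} {A B : ℝ} (h : Fl v A B) (t y : ℝ) : ∃ s, ph v t s = y := by
  have hA := h.Apos
  have hy := abs_nonneg y
  have h0 : 0 < A + |y| := by linarith
  have h1 : ph v t (A + |y|) = A + |y| := ph_out h t (by rw [abs_of_pos h0]; linarith)
  have h2 : ph v t (-(A + |y|)) = -(A + |y|) := ph_out h t (by rw [abs_neg, abs_of_pos h0]; linarith)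
  have h3 := intermediate_value_Icc (show -(A + |y|) ≤ A + |y| by linarith)
    (ph_smooth h t).continuous.continuousOn
  rw [h1, h2] at h3
  have hyI : y ∈ Icc (-(A + |y|)) (A + |y|) :=
    ⟨by linarith [neg_abs_le y], by linarith [le_abs_self y]⟩
  obtain ⟨s, _, hs⟩ := h3 hyI
  exact ⟨s, hs⟩

theorem image {v : ℝ → ℝ} {A B : ℝ} (h : Fl v A B) {t : ℝ} (ht : |t| * B < 1)
    (R : Fin n → Fin n → Prop) :
    (fun u : Fin n → ℝ => fun i => ph v t (u i)) '' CP R = CP R := by
  ext y
  constructor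
  · rintro ⟨x, hx, rfl⟩
    intro p q hpq
    exact (ph_mono h ht).monotone (hx p q hpq)
  · intro hy
    choose x hx using fun i => ph_surj h t (y i)
    have hxy : (fun i => ph v t (x i)) = y := funext hx
    refine ⟨x, fun p q hpq => ?_, hxy⟩
    have h3 := hy p q hpq
    rw [← hxy] at h3
    exact (ph_mono h ht).le_iff_le.1 h3

theorem change {v : ℝ → ℝ} {A B : ℝ} (h : Fl v A B) {t : ℝ} (ht : |t| * B < 1)
    (R : Fin n → Fin n → Prop) (g : (Fin n → ℝ) → ℝ) :
    ∫ y in CP R, g (fun i => ph v t (y i)) * ∏ i, (1 + t * deriv v (y i)) = ∫ y in CP R, g y := by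
  have h1 := Pool.Agent.T2h31.LC.t_CVQ n (ph v t) (ph_smooth h t) (ph_mono h ht)
    (fun s => by rw [(ph_deriv h t s).deriv]; exact ph_pos h ht s) (CP R)
    (closed_CP R).measurableSet g
  rw [image h ht] at h1
  rw [h1]
  congr 1
  funext y
  congr 1
  exact Finset.prod_congr rfl fun i _ => ((ph_deriv h t (y i)).deriv).symm

/-- the integrand -/
noncomputable def FF (g : (Fin n → ℝ) → ℝ) (v : ℝ → ℝ) (t : ℝ) (y : Fin n → ℝ) : ℝ :=
  g (fun i => ph v t (y i)) * ∏ i, (1 + t * deriv v (y i))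

/-- its derivative -/
noncomputable def FD (g : (Fin n → ℝ) → ℝ) (v : ℝ → ℝ) (t : ℝ) (y : Fin n → ℝ) : ℝ :=
  fderiv ℝ g (fun i => ph v t (y i)) (fun i => v (y i)) * ∏ i, (1 + t * deriv v (y i)) +
    g (fun i => ph v t (y i)) *
      ∑ i, (∏ j ∈ Finset.univ.erase i, (1 + t * deriv v (y j))) * deriv v (y i)

theorem FF_deriv {g : (Fin n → ℝ) → ℝ} (hg : ContDiff ℝ 1 g) (v : ℝ → ℝ) (t : ℝ)
    (y : Fin n → ℝ) : HasDerivAt (fun t => FF g v t y) (FD g v t y) t := by
  unfold FF FD
  refine HasDerivAt.mul ?_ ?_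
  · have h1 : HasDerivAt (fun t : ℝ => fun i => ph v t (y i)) (fun i => v (y i)) t := by
      rw [hasDerivAt_pi]
      intro i
      unfold ph
      have h := ((hasDerivAt_id' t).mul_const (v (y i))).const_add (y i)
      rwa [one_mul] at h
    have h2 := ((hg.differentiable one_ne_zero) (fun i => ph v t (y i))).hasFDerivAt
    exact h2.comp_hasDerivAt t h1
  · have h := HasDerivAt.fun_finsetProd (u := Finset.univ)
      (f := fun (i : Fin n) (t : ℝ) => 1 + t * deriv v (y i))
      (f' := fun i => deriv v (y i)) (x := t) (fun i _ => by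
        have h := ((hasDerivAt_id' t).mul_const (deriv v (y i))).const_add 1
        rwa [one_mul] at h)
    exact h

theorem FF_cont {g : (Fin n → ℝ) → ℝ} (hg : ContDiff ℝ 1 g) {v : ℝ → ℝ} (hv : ContDiff ℝ 1 v) :
    Continuous fun p : ℝ × (Fin n → ℝ) => FF g v p.1 p.2 := by
  have hc : Continuous g := hg.continuous
  have hc2 : Continuous v := hv.continuous
  have hc3 : Continuous (deriv v) := hv.continuous_deriv le_rfl
  unfold FF ph
  fun_prop

theorem FD_cont {g : (Fin n → ℝ) → ℝ} (hg : ContDiff ℝ 1 g) {v : ℝ → ℝ} (hv : ContDiff ℝ 1 v) :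
    Continuous fun p : ℝ × (Fin n → ℝ) => FD g v p.1 p.2 := by
  have hc : Continuous g := hg.continuous
  have hc2 : Continuous v := hv.continuous
  have hc3 : Continuous (deriv v) := hv.continuous_deriv le_rfl
  have hc4 : Continuous (fderiv ℝ g) := hg.continuous_fderiv one_ne_zero
  unfold FD ph
  refine Continuous.add (Continuous.mul (Continuous.clm_apply ?_ ?_) ?_) ?_
  · refine hc4.comp ?_
    fun_prop
  · fun_prop
  · fun_prop
  · fun_prop

theorem compact_Bx (A : ℝ) : IsCompact (Bx n A) := by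
  refine IsCompact.of_isClosed_subset (isCompact_Icc (a := fun _ : Fin n => -A)
    (b := fun _ => A)) (closed_Bx A) fun x hx => ?_
  exact ⟨fun i => (hx i).1, fun i => (hx i).2⟩

theorem FD_zero {g : (Fin n → ℝ) → ℝ} {A B : ℝ} (hs : tsupport g ⊆ Bx n A) {v : ℝ → ℝ}
    (h : Fl v A B) (t : ℝ) {y : Fin n → ℝ} (hy : y ∉ Bx n A) : FD g v t y = 0 := by
  have h1 : ∃ i, A < |y i| := by
    by_contra hc
    push Not at hc
    exact hy fun i => abs_le.1 (hc i)
  obtain ⟨i, hi⟩ := h1
  have h2 : (fun i => ph v t (y i)) ∉ tsupport g := by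
    intro hm
    have h3 := hs hm i
    simp only [ph_out h t hi.le] at h3
    have := abs_le.2 h3
    linarith
  have h4 : g (fun i => ph v t (y i)) = 0 := image_eq_zero_of_notMem_tsupport h2
  have h5 : fderiv ℝ g (fun i => ph v t (y i)) = 0 := by
    have := mt (fun h => support_fderiv_subset ℝ h) h2
    rwa [Function.mem_support, not_not] at this
  unfold FD
  rw [h4, h5]
  simp

theorem main {g : (Fin n → ℝ) → ℝ} (hg : ContDiff ℝ 1 g) {A B : ℝ} (hs : tsupport g ⊆ Bx n A)
    {v : ℝ → ℝ} (h : Fl v A B) (R : Fin n → Fin n → Prop) :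
    ∫ y in CP R, (fderiv ℝ g y (fun i => v (y i)) + g y * ∑ i, deriv v (y i)) = 0 := by
  obtain ⟨C, hC⟩ := ((isCompact_Icc (a := (-1 : ℝ)) (b := 1)).prod
    (compact_Bx (n := n) A)).exists_bound_of_continuousOn (FD_cont hg h.smooth).continuousOn
  have hnh : Set.Icc (-1 : ℝ) 1 ∈ 𝓝 (0 : ℝ) := Icc_mem_nhds (by norm_num) (by norm_num)
  have hc : ∀ t, Continuous (FF g v t) := fun t =>
    (FF_cont hg h.smooth).comp (continuous_const.prodMk continuous_id)
  have hc' : ∀ t, Continuous (FD g v t) := fun t =>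
    (FD_cont hg h.smooth).comp (continuous_const.prodMk continuous_id)
  have hF0 : FF g v 0 = g := by
    funext y
    simp [FF, ph]
  have hgc : HasCompactSupport g := (compact_Bx A).of_isClosed_subset (isClosed_tsupport g) hs
  have hgi : Integrable g := hg.continuous.integrable_of_hasCompactSupport hgc
  have hder := hasDerivAt_integral_of_dominated_loc_of_deriv_le (μ := volume.restrict (CP R))
    (F := FF g v) (F' := FD g v) (x₀ := 0) (bound := (Bx n A).indicator fun _ => C) hnh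
    (Eventually.of_forall fun t => (hc t).aestronglyMeasurable)
    (by rw [hF0]; exact hgi.integrableOn) (hc' 0).aestronglyMeasurable
    (Eventually.of_forall fun y t ht => by
      by_cases hy : y ∈ Bx n A
      · rw [indicator_of_mem hy]
        exact hC (t, y) ⟨ht, hy⟩
      · rw [indicator_of_notMem hy, FD_zero hs h t hy, norm_zero])
    (((integrable_indicator_iff (compact_Bx A).measurableSet).2
      (integrableOn_const (compact_Bx A).measure_lt_top.ne)).restrict)
    (Eventually.of_forall fun y t _ => FF_deriv hg v t y)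
  have h2 : (fun t => ∫ y in CP R, FF g v t y) =ᶠ[𝓝 0] fun _ => ∫ y in CP R, g y := by
    have hB := h.Bpos
    have : Set.Ioo (-(1 / B)) (1 / B) ∈ 𝓝 (0 : ℝ) :=
      Ioo_mem_nhds (by simpa using hB) (by positivity)
    filter_upwards [this] with t ht
    have h5 : |t| * B < 1 := by
      have := abs_lt.2 ht
      rwa [lt_div_iff₀ hB] at this
    exact change h h5 R g
  have h3 := (hder.2.congr_of_eventuallyEq h2.symm).unique (hasDerivAt_const 0 _)
  rw [← h3]
  congr 1
  funext y
  unfold FD ph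
  simp

theorem cut {w : ℝ → ℝ} (hw : ContDiff ℝ 1 w) {A : ℝ} (hA : 0 < A) :
    ∃ (v : ℝ → ℝ) (A' B : ℝ), Fl v A' B ∧ A ≤ A' ∧
      ∀ s, |s| ≤ A → v s = w s ∧ deriv v s = deriv w s := by
  let χ : ContDiffBump (0 : ℝ) := ⟨A + 1, A + 2, by linarith, by linarith⟩
  have hχ : ContDiff ℝ 1 χ := χ.contDiff
  have hv : ContDiff ℝ 1 fun s => χ s * w s := hχ.mul hw
  have hcs : HasCompactSupport fun s => χ s * w s := χ.hasCompactSupport.mul_right
  have hcd : Continuous (deriv fun s => χ s * w s) := hv.continuous_deriv le_rfl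
  obtain ⟨B, hB⟩ := (hcs.deriv (𝕜 := ℝ)).exists_bound_of_continuous hcd
  refine ⟨fun s => χ s * w s, A + 2, |B| + 1, ⟨hv, ?_, ?_, by positivity, by linarith⟩,
    by linarith, ?_⟩
  · intro s hs
    show χ s * w s = 0
    rw [χ.zero_of_le_dist, zero_mul]
    rw [Real.dist_eq, sub_zero]
    exact hs
  · intro s
    have := hB s
    rw [Real.norm_eq_abs] at this
    linarith [le_abs_self B]
  · intro s hs
    have h1 : (fun s => χ s * w s) =ᶠ[𝓝 s] w := by
      have h2 : Metric.ball (0 : ℝ) (A + 1) ∈ 𝓝 s := Metric.isOpen_ball.mem_nhds (by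
        rw [Metric.mem_ball, Real.dist_eq, sub_zero]
        linarith)
      filter_upwards [h2] with r hr
      rw [χ.one_of_mem_closedBall (Metric.ball_subset_closedBall hr), one_mul]
    exact ⟨h1.eq_of_nhds, h1.deriv_eq⟩

theorem flat {g : (Fin n → ℝ) → ℝ} (hg : ContDiff ℝ 1 g) (hgc : HasCompactSupport g)
    {w : ℝ → ℝ} (hw : ContDiff ℝ 1 w) (R : Fin n → Fin n → Prop) :
    ∫ y in CP R, (fderiv ℝ g y (fun i => w (y i)) + g y * ∑ i, deriv w (y i)) = 0 := by
  obtain ⟨A0, hA0⟩ := hgc.isCompact.isBounded.subset_closedBall 0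
  set A := |A0| + 1 with hA
  have hAp : 0 < A := by positivity
  have hsup : ∀ y ∈ tsupport g, ∀ i, |y i| ≤ A := by
    intro y hy i
    have h1 := hA0 hy
    rw [Metric.mem_closedBall, dist_zero_right] at h1
    have h2 := norm_le_pi_norm y i
    rw [Real.norm_eq_abs] at h2
    linarith [le_abs_self A0]
  obtain ⟨v, A', B, hF, hAA, hvw⟩ := cut hw hAp
  have hs : tsupport g ⊆ Bx n A' := fun y hy i => abs_le.1 ((hsup y hy i).trans hAA)
  rw [← main hg hs hF R]
  congr 1
  funext y
  by_cases hy : y ∈ tsupport g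
  · have e1 : (fun i => w (y i)) = fun i => v (y i) := by
      funext i
      exact ((hvw _ (hsup y hy i)).1).symm
    have e2 : ∑ i, deriv w (y i) = ∑ i, deriv v (y i) :=
      Finset.sum_congr rfl fun i _ => ((hvw _ (hsup y hy i)).2).symm
    rw [e1, e2]
  · have h4 : g y = 0 := image_eq_zero_of_notMem_tsupport hy
    have h5 : fderiv ℝ g y = 0 := by
      have := mt (fun h => support_fderiv_subset ℝ h) hy
      rwa [Function.mem_support, not_not] at this
    rw [h4, h5]
    simp

end FLA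

open FLA in
/-- the divergence theorem on the cone -/
theorem t_FLA : S_FLA := by
  intro n R H w hH hc hw
  rw [int_CA]
  have hL : ∀ y, (PiLp.continuousLinearEquiv 2 ℝ (fun _ : Fin n => ℝ)).symm y =
    (WithLp.toLp 2 y : Eu (Fin n)) := fun y => rfl
  have hg : ContDiff ℝ 1 (H ∘ (PiLp.continuousLinearEquiv 2 ℝ (fun _ : Fin n => ℝ)).symm) :=
    hH.comp (ContinuousLinearEquiv.contDiff _)
  have hgc : HasCompactSupport
      (H ∘ (PiLp.continuousLinearEquiv 2 ℝ (fun _ : Fin n => ℝ)).symm) :=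
    hc.comp_homeomorph (PiLp.continuousLinearEquiv 2 ℝ (fun _ : Fin n => ℝ)).symm.toHomeomorph
  rw [← flat hg hgc hw R]
  congr 1
  funext y
  rw [ContinuousLinearEquiv.comp_right_fderiv]
  rfl

end Pool.Agent.T2h31.OB
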