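import Pool.Agent.T2h31.OB.StmA
import Pool.Agent.T2h31.OB.T_GEO

/-!
# Elementary facts on the bodies, type A (task GEA of project OB)
-/

set_option autoImplicit false

namespace Pool.Agent.T2h31.OB

open MeasureTheory Set Filter Topology
open scoped ENNReal InnerProductSpace
open Pool.Agent.W695.KH (Eu EV VV Sm)

namespace GEA

variable {n : ℕ}

/-- the cube -/
def Cc (n : ℕ) (a b : ℝ) : Set (Eu (Fin n)) := {x | ∀ i, x i ∈ Icc a b}

theorem Cc_compact (a b : ℝ) : IsCompact (Cc n a b) := by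
  have h : Cc n a b = (WithLp.toLp 2 : (Fin n → ℝ) → Eu (Fin n)) ''
      Icc (fun _ => a) (fun _ => b) := by
    ext x
    constructor
    · intro hx
      refine ⟨fun i => x i, ⟨fun i => (hx i).1, fun i => (hx i).2⟩, rfl⟩
    · rintro ⟨y, ⟨h1, h2⟩, rfl⟩
      exact fun i => ⟨h1 i, h2 i⟩
  rw [h]
  exact isCompact_Icc.image (PiLp.continuous_toLp 2 _)

theorem Cc_convex (a b : ℝ) : Convex ℝ (Cc n a b) := by
  intro x hx y hy s t hs ht hst i
  exact convex_Icc a b (hx i) (hy i) hs ht hst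

theorem CA_closed (R : Fin n → Fin n → Prop) : IsClosed (CA R) := by
  have h : CA R = ⋂ p : Fin n, ⋂ q : Fin n, ⋂ _ : R p q, {x : Eu (Fin n) | x p ≤ x q} := by
    ext x
    simp only [CA, mem_ofPred_eq, mem_iInter]
  rw [h]
  exact isClosed_iInter fun p => isClosed_iInter fun q => isClosed_iInter fun _ =>
    isClosed_le (by fun_prop) (by fun_prop)

theorem CA_convex (R : Fin n → Fin n → Prop) : Convex ℝ (CA R) := by
  intro x hx y hy s t hs ht _ p q hpq
  have h1 : ∀ i, (s • x + t • y) i = s * x i + t * y i := fun i => rfl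
  rw [h1, h1]
  exact add_le_add (mul_le_mul_of_nonneg_left (hx p q hpq) hs)
    (mul_le_mul_of_nonneg_left (hy p q hpq) ht)

/-- moving an interior point in a coordinate direction -/
theorem move {S : Set (Eu (Fin n))} {x : Eu (Fin n)} (hx : x ∈ interior S) (i : Fin n) :
    ∃ ε : ℝ, 0 < ε ∧ ∀ t : ℝ, |t| < ε →
      x + t • (EuclideanSpace.single i (1 : ℝ) : Eu (Fin n)) ∈ interior S := by
  have ht : Tendsto (fun t : ℝ => x + t • (EuclideanSpace.single i (1 : ℝ) : Eu (Fin n)))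
      (𝓝 0) (𝓝 x) := by
    have h6 : Continuous fun t : ℝ =>
        x + t • (EuclideanSpace.single i (1 : ℝ) : Eu (Fin n)) := by fun_prop
    have h7 := h6.tendsto 0
    rwa [zero_smul, add_zero] at h7
  have h2 : ∀ᶠ t : ℝ in 𝓝 0, x + t • (EuclideanSpace.single i (1 : ℝ) : Eu (Fin n)) ∈
      interior S := ht (isOpen_interior.mem_nhds hx)
  obtain ⟨ε, hε, h⟩ := Metric.eventually_nhds_iff.1 h2
  exact ⟨ε, hε, fun t ht => h (by rwa [Real.dist_eq, sub_zero])⟩

theorem move_self (x : Eu (Fin n)) (t : ℝ) (i : Fin n) :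
    (x + t • (EuclideanSpace.single i (1 : ℝ) : Eu (Fin n))) i = x i + t := by
  simp

theorem move_ne (x : Eu (Fin n)) (t : ℝ) (i j : Fin n) (h : j ≠ i) :
    (x + t • (EuclideanSpace.single i (1 : ℝ) : Eu (Fin n))) j = x j := by
  simp [h]

/-- the last part -/
theorem last (R : Fin n → Fin n → Prop) {V : ℝ → ℝ} (hn : 1 ≤ n) (hV : ConvexOn ℝ univ V)
    (E a b : ℝ) (hne : (interior (KA V E R ∩ Cc n a b)).Nonempty)
    (hE : ∀ x : Eu (Fin n), (∀ i, x i ∈ Ioo a b) → E ≤ S1 V x) :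
    ∃ a' b' : ℝ, a' < b' ∧ KA V E R ∩ Cc n a b = CA R ∩ Cc n a' b' := by
  have hc := GEO.V_cont hV
  obtain ⟨x₀, hx₀⟩ := hne
  -- interior points are in the open cube
  have hbox : ∀ x ∈ interior (KA V E R ∩ Cc n a b), ∀ i, x i ∈ Ioo a b := by
    intro x hx i
    obtain ⟨ε, hε, h⟩ := move hx i
    have h1 := (interior_subset (h (ε / 2) (by rw [abs_of_pos (by linarith)]; linarith))).2 i
    have h2 := (interior_subset (h (-(ε / 2)) (by
      rw [abs_neg, abs_of_pos (by linarith)]; linarith))).2 i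
    rw [move_self] at h1 h2
    exact ⟨by linarith [h2.1], by linarith [h1.2]⟩
  have hval : ∀ x ∈ interior (KA V E R ∩ Cc n a b), S1 V x = E := fun x hx =>
    le_antisymm (interior_subset hx).1.1 (hE x (hbox x hx))
  have hconst : ∀ i, ∃ ε : ℝ, 0 < ε ∧ ∀ t : ℝ, |t| < ε → V (x₀ i + t) = V (x₀ i) ∧
      x₀ i + t ∈ Ioo a b := by
    intro i
    obtain ⟨ε, hε, h⟩ := move hx₀ i
    refine ⟨ε, hε, fun t ht => ?_⟩
    have h1 := hval _ (h t ht)
    have h2 := hval _ hx₀
    have h3 : ∑ j, (V ((x₀ + t • (EuclideanSpace.single i (1 : ℝ) : Eu (Fin n))) j) -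
        V (x₀ j)) = 0 := by
      rw [Finset.sum_sub_distrib]
      unfold S1 at h1 h2
      rw [h1, h2, sub_self]
    rw [Finset.sum_eq_single i (fun j _ hj => by rw [move_ne _ _ _ _ hj, sub_self])
      (fun h => absurd (Finset.mem_univ i) h), move_self] at h3
    refine ⟨sub_eq_zero.1 h3, ?_⟩
    have h4 := hbox _ (h t ht) i
    rwa [move_self] at h4
  have hmin : ∀ i t, V (x₀ i) ≤ V t := by
    intro i
    refine IsMinOn.of_isLocalMin_of_convex_univ ?_ hV
    obtain ⟨ε, hε, h⟩ := hconst i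
    refine Metric.eventually_nhds_iff.2 ⟨ε, hε, fun y hy => ?_⟩
    have h1 := (h (y - x₀ i) (by rwa [Real.dist_eq] at hy)).1
    rw [add_sub_cancel] at h1
    rw [h1]
  set i₀ : Fin n := ⟨0, hn⟩ with hi₀
  set μ : ℝ := V (x₀ i₀) with hμ
  have hμi : ∀ i, V (x₀ i) = μ := fun i => le_antisymm (hmin i _) (hmin i₀ _)
  have hE1 : E = n * μ := by
    rw [← hval _ hx₀]
    unfold S1
    simp only [hμi]
    simp
  have hiff : ∀ x : Eu (Fin n), S1 V x ≤ E ↔ ∀ i, V (x i) = μ := by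
    intro x
    constructor
    · intro h
      have h1 : ∑ i, (V (x i) - μ) ≤ 0 := by
        rw [Finset.sum_sub_distrib]
        have : ∑ _i : Fin n, μ = n * μ := by simp
        rw [this]
        unfold S1 at h
        linarith
      have h2 : ∑ i, (V (x i) - μ) = 0 :=
        le_antisymm h1 (Finset.sum_nonneg fun i _ => sub_nonneg.2 (hmin i₀ _))
      have h3 := (Finset.sum_eq_zero_iff_of_nonneg
        (fun i _ => sub_nonneg.2 (hmin i₀ (x i)))).1 h2
      exact fun i => sub_eq_zero.1 (h3 i (Finset.mem_univ i))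
    · intro h
      unfold S1
      simp only [h]
      rw [hE1]
      simp
  obtain ⟨ε, hε, hεc⟩ := hconst i₀
  have hTc : IsCompact (Icc a b ∩ {t | V t = μ}) :=
    isCompact_Icc.inter_right (isClosed_eq hc continuous_const)
  have hT0 : x₀ i₀ ∈ Icc a b ∩ {t | V t = μ} := by
    have h := (hεc 0 (by rwa [abs_zero])).2
    rw [add_zero] at h
    exact ⟨Ioo_subset_Icc_self h, rfl⟩
  have hT1 : x₀ i₀ + ε / 2 ∈ Icc a b ∩ {t | V t = μ} := by
    have h := hεc (ε / 2) (by rw [abs_of_pos (by linarith)]; linarith)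
    exact ⟨Ioo_subset_Icc_self h.2, h.1⟩
  obtain ⟨b', hb1, hb2⟩ := hTc.exists_isGreatest ⟨_, hT0⟩
  obtain ⟨a', ha1, ha2⟩ := hTc.exists_isLeast ⟨_, hT0⟩
  have hcv : Convex ℝ (Icc a b ∩ {t | V t = μ}) := by
    have h1 : Icc a b ∩ {t | V t = μ} = Icc a b ∩ {t ∈ univ | V t ≤ μ} := by
      ext t
      constructor
      · rintro ⟨h2, h3⟩
        exact ⟨h2, mem_univ t, le_of_eq h3⟩
      · rintro ⟨h2, _, h3⟩
        exact ⟨h2, le_antisymm h3 (hmin i₀ t)⟩
    rw [h1]
    exact (convex_Icc a b).inter (hV.convex_le μ)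
  have hJ : ∀ t : ℝ, t ∈ Icc a b ∩ {t | V t = μ} ↔ t ∈ Icc a' b' := by
    intro t
    constructor
    · intro h
      exact ⟨ha2 h, hb2 h⟩
    · intro h
      exact hcv.ordConnected.out ha1 hb1 h
  refine ⟨a', b', ?_, ?_⟩
  · have h1 := ha2 hT0
    have h2 := hb2 hT1
    linarith
  · ext x
    constructor
    · rintro ⟨⟨h1, h2⟩, h3⟩
      exact ⟨h2, fun i => (hJ (x i)).1 ⟨h3 i, (hiff x).1 h1 i⟩⟩
    · rintro ⟨h1, h2⟩
      exact ⟨⟨(hiff x).2 fun i => ((hJ (x i)).2 (h2 i)).2, h1⟩,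
        fun i => ((hJ (x i)).2 (h2 i)).1⟩

end GEA

open GEA in
theorem t_GEA : S_GEA := by
  intro n R V hn hV E a b
  have h1 : IsClosed (KA V E R) := (GEO.K1_closed hV E).inter (CA_closed R)
  have h2 : Convex ℝ (KA V E R) := (GEO.K1_convex hV E).inter (CA_convex R)
  refine ⟨?_, ?_, ?_⟩
  · exact (Cc_compact a b).inter_left h1
  · exact h2.inter (Cc_convex a b)
  · intro hne hE
    exact last R hn hV E a b hne hE

end Pool.Agent.T2h31.OB
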