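import Pool.Agent.T2h31.OB.StmA

/-! Project OB, task IBA: integration by parts for the product density on the cone (type A). -/

set_option autoImplicit false

namespace Pool.Agent.T2h31.OB

open MeasureTheory Set Filter Topology
open scoped ENNReal InnerProductSpace
open Pool.Agent.W695.KH (Eu)
open Pool.Agent.R476.OR (CV NV)
open Pool.Agent.T2h31.SB (Lb sv SK)

namespace IBA

variable {n : ℕ}

/-- the coordinates -/
noncomputable def pr (i : Fin n) : Eu (Fin n) →L[ℝ] ℝ := EuclideanSpace.proj i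

/-- the field -/
noncomputable def Wf (w : ℝ → ℝ) (x : Eu (Fin n)) : Eu (Fin n) := WithLp.toLp 2 fun i => w (x i)

theorem Wf_dec (w : ℝ → ℝ) (x : Eu (Fin n)) :
    Wf w x = ∑ i, w (x i) • (EuclideanSpace.single i (1 : ℝ) : Eu (Fin n)) := by
  ext j
  simp [Wf, Pi.single_apply]

theorem Wf_norm (w : ℝ → ℝ) (x : Eu (Fin n)) : ‖Wf w x‖ ≤ ∑ i, |w (x i)| := by
  rw [Wf_dec]
  refine (norm_sum_le _ _).trans (le_of_eq ?_)
  refine Finset.sum_congr rfl fun i _ => ?_
  rw [norm_smul, PiLp.norm_single, norm_one, mul_one, Real.norm_eq_abs]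

theorem fd_dec (L : Eu (Fin n) →L[ℝ] ℝ) (w : ℝ → ℝ) (x : Eu (Fin n)) :
    L (Wf w x) = ∑ i, L (EuclideanSpace.single i (1 : ℝ)) * w (x i) := by
  rw [Wf_dec, map_sum]
  refine Finset.sum_congr rfl fun i _ => ?_
  rw [map_smul, smul_eq_mul, mul_comm]

theorem V_smooth {V V' : ℝ → ℝ} (h : NV V V') : ContDiff ℝ 1 V := by
  rw [contDiff_one_iff_deriv]
  have hd : deriv V = V' := funext fun t => (h.cv.der t).deriv
  exact ⟨fun t => (h.cv.der t).differentiableAt, by rw [hd]; exact h.cv.cont⟩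

theorem rh_smooth {V V' : ℝ → ℝ} (h : NV V V') :
    ContDiff ℝ 1 (rh V : Eu (Fin n) → ℝ) := by
  have hV := V_smooth h
  have hS : ContDiff ℝ 1 (S1 V : Eu (Fin n) → ℝ) := by
    unfold S1
    refine ContDiff.sum fun i _ => ?_
    exact hV.comp (pr i).contDiff
  unfold rh
  exact Real.contDiff_exp.comp hS.neg

theorem rh_fd {V V' : ℝ → ℝ} (h : NV V V') (x : Eu (Fin n)) :
    HasFDerivAt (rh V : Eu (Fin n) → ℝ)
      (rh V x • (-∑ i, V' (x i) • (pr i))) x := by
  have hS : HasFDerivAt (S1 V : Eu (Fin n) → ℝ)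
      (∑ i, V' (x i) • (pr i)) x := by
    unfold S1
    refine HasFDerivAt.fun_sum fun i _ => ?_
    exact (h.cv.der (x i)).comp_hasFDerivAt x
      (pr i).hasFDerivAt
  unfold rh
  exact hS.neg.exp

theorem rh_fdw {V V' : ℝ → ℝ} (h : NV V V') (w : ℝ → ℝ) (x : Eu (Fin n)) :
    fderiv ℝ (rh V : Eu (Fin n) → ℝ) x (Wf w x) = -(∑ i, V' (x i) * w (x i)) * rh V x := by
  rw [(rh_fd h x).fderiv]
  rw [ContinuousLinearMap.smul_apply, ContinuousLinearMap.neg_apply,
    ContinuousLinearMap.sum_apply, smul_eq_mul, mul_comm]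
  rfl

theorem w_smooth {V V' : ℝ → ℝ} (h : NV V V') {w g : ℝ → ℝ} (hg : Continuous g)
    (hd : ∀ t, HasDerivAt (fun t => w t * Real.exp (-V t)) (-(g t * Real.exp (-V t))) t) :
    ContDiff ℝ 1 w ∧ ∀ t, deriv w t = -g t + V' t * w t := by
  have hder : ∀ t, HasDerivAt w (-g t + V' t * w t) t := by
    intro t
    have h1 : HasDerivAt (fun t => Real.exp (V t)) (Real.exp (V t) * V' t) t :=
      (h.cv.der t).exp
    have h2 := (hd t).mul h1
    have h3 : (fun t => w t * Real.exp (-V t)) * (fun t => Real.exp (V t)) = w := by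
      funext s
      show w s * Real.exp (-V s) * Real.exp (V s) = w s
      rw [mul_assoc, ← Real.exp_add]
      simp
    rw [h3] at h2
    refine h2.congr_deriv ?_
    have e : Real.exp (-V t) * Real.exp (V t) = 1 := by
      rw [← Real.exp_add]
      simp
    linear_combination (-g t + w t * V' t) * e
  refine ⟨?_, fun t => (hder t).deriv⟩
  rw [contDiff_one_iff_deriv]
  have hdw : Differentiable ℝ w := fun t => (hder t).differentiableAt
  refine ⟨hdw, ?_⟩
  have : deriv w = fun t => -g t + V' t * w t := funext fun t => (hder t).deriv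
  rw [this]
  exact hg.neg.add (h.cv.cont.mul hdw.continuous)

end IBA

open IBA in
/-- integration by parts for the product density on the cone -/
theorem t_IBA (hF : S_FLA) : S_IBA := by
  intro n R V V' hV w g hw hg hd G hG ia ib ic
  obtain ⟨hws, hwd⟩ := w_smooth hV hg hd
  let χ : ContDiffBump (0 : Eu (Fin n)) := ⟨1, 2, by norm_num, by norm_num⟩
  have hχ : ContDiff ℝ 1 (χ : Eu (Fin n) → ℝ) := χ.contDiff
  obtain ⟨C, hC⟩ := ((χ.hasCompactSupport).fderiv (𝕜 := ℝ)).exists_bound_of_continuous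
    (hχ.continuous_fderiv one_ne_zero)
  have hC0 : 0 ≤ C := (norm_nonneg _).trans (hC 0)
  -- the cutoffs
  set c : ℕ → Eu (Fin n) → ℝ := fun k x => χ (((k : ℝ) + 1)⁻¹ • x) with hc
  have hk : ∀ k : ℕ, (0 : ℝ) < (k : ℝ) + 1 := fun k => by positivity
  have hcs : ∀ k, ContDiff ℝ 1 (c k) := fun k => by
    rw [hc]
    exact hχ.comp (contDiff_const_smul _)
  have hcc : ∀ k, HasCompactSupport (c k) := fun k => by
    rw [hc]
    exact (χ.hasCompactSupport).comp_smul (inv_ne_zero (hk k).ne')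
  have hcd : ∀ k x, HasFDerivAt (c k)
      ((fderiv ℝ (χ : Eu (Fin n) → ℝ) (((k : ℝ) + 1)⁻¹ • x)).comp
        (((k : ℝ) + 1)⁻¹ • ContinuousLinearMap.id ℝ (Eu (Fin n)))) x := by
    intro k x
    have h1 := ((hχ.differentiable one_ne_zero) (((k : ℝ) + 1)⁻¹ • x)).hasFDerivAt
    exact h1.comp x (((k : ℝ) + 1)⁻¹ • ContinuousLinearMap.id ℝ (Eu (Fin n))).hasFDerivAt
  have hcb : ∀ k x, |fderiv ℝ (c k) x (Wf w x)| ≤ C * ((k : ℝ) + 1)⁻¹ * ∑ i, |w (x i)| := by
    intro k x
    rw [(hcd k x).fderiv]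
    have e : ((fderiv ℝ (χ : Eu (Fin n) → ℝ) (((k : ℝ) + 1)⁻¹ • x)).comp
        (((k : ℝ) + 1)⁻¹ • ContinuousLinearMap.id ℝ (Eu (Fin n)))) (Wf w x) =
        ((k : ℝ) + 1)⁻¹ * (fderiv ℝ (χ : Eu (Fin n) → ℝ) (((k : ℝ) + 1)⁻¹ • x)) (Wf w x) := by
      simp
    rw [e, abs_mul, abs_of_pos (inv_pos.2 (hk k))]
    have h1 := (fderiv ℝ (χ : Eu (Fin n) → ℝ) (((k : ℝ) + 1)⁻¹ • x)).le_opNorm (Wf w x)
    rw [Real.norm_eq_abs] at h1
    have h2 := h1.trans (mul_le_mul (hC _) (Wf_norm w x) (norm_nonneg _) hC0)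
    calc ((k : ℝ) + 1)⁻¹ * |(fderiv ℝ (χ : Eu (Fin n) → ℝ) (((k : ℝ) + 1)⁻¹ • x)) (Wf w x)| ≤
        ((k : ℝ) + 1)⁻¹ * (C * ∑ i, |w (x i)|) :=
          mul_le_mul_of_nonneg_left h2 (inv_pos.2 (hk k)).le
      _ = _ := by ring
  have hc0 : ∀ k x, 0 ≤ c k x := fun k x => χ.nonneg
  have hc1 : ∀ k x, c k x ≤ 1 := fun k x => χ.le_one
  have hrs := rh_smooth (n := n) hV
  -- the identity for the cutoffs
  have hid : ∀ k, ∫ x in CA R, (fderiv ℝ (c k) x (Wf w x) * (G x * rh V x) +
      c k x * (fderiv ℝ G x (Wf w x) * rh V x - G x * (∑ i, g (x i)) * rh V x)) = 0 := by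
    intro k
    have h1 := hF n R (fun x => c k x * (G x * rh V x)) w
      ((hcs k).mul (hG.mul hrs)) ((hcc k).mul_right) hws
    rw [← h1]
    congr 1
    funext x
    have d1 := ((hcs k).differentiable one_ne_zero x).hasFDerivAt
    have d2 := (hG.differentiable one_ne_zero x).hasFDerivAt
    have d3 := (hrs.differentiable one_ne_zero x).hasFDerivAt
    have d4 : HasFDerivAt (fun x => c k x * (G x * rh V x)) _ x := d1.mul (d2.mul d3)
    have e0 : (WithLp.toLp 2 fun i => w (x i) : Eu (Fin n)) = Wf w x := rfl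
    rw [e0, d4.fderiv]
    simp only [ContinuousLinearMap.add_apply, ContinuousLinearMap.smul_apply, smul_eq_mul]
    rw [rh_fdw hV]
    have e1 : ∑ i, deriv w (x i) = -(∑ i, g (x i)) + ∑ i, V' (x i) * w (x i) := by
      rw [← Finset.sum_neg_distrib, ← Finset.sum_add_distrib]
      exact Finset.sum_congr rfl fun i _ => hwd (x i)
    rw [e1]
    simp only [Pi.mul_apply]
    ring
  -- integrability
  have iA : Integrable fun x : Eu (Fin n) => fderiv ℝ G x (Wf w x) * rh V x := by
    have : (fun x : Eu (Fin n) => fderiv ℝ G x (Wf w x) * rh V x) = fun x =>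
        ∑ i, fderiv ℝ G x (EuclideanSpace.single i 1) * w (x i) * rh V x := by
      funext x
      rw [fd_dec, Finset.sum_mul]
    rw [this]
    exact integrable_finsetSum _ fun i _ => ia i
  have iB : Integrable fun x : Eu (Fin n) => G x * (∑ i, g (x i)) * rh V x := by
    have : (fun x : Eu (Fin n) => G x * (∑ i, g (x i)) * rh V x) = fun x =>
        ∑ i, G x * g (x i) * rh V x := by
      funext x
      rw [Finset.mul_sum, Finset.sum_mul]
    rw [this]
    exact integrable_finsetSum _ fun i _ => ic i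
  have iC : Integrable fun x : Eu (Fin n) => (∑ i, |w (x i)|) * |G x * rh V x| := by
    have : (fun x : Eu (Fin n) => (∑ i, |w (x i)|) * |G x * rh V x|) = fun x =>
        ∑ i, ‖G x * w (x i) * rh V x‖ := by
      funext x
      rw [Finset.sum_mul]
      refine Finset.sum_congr rfl fun i _ => ?_
      rw [Real.norm_eq_abs, ← abs_mul]
      congr 1
      ring
    rw [this]
    exact integrable_finsetSum _ fun i _ => (ib i).norm
  -- the limit
  have hWc : Continuous (Wf w : Eu (Fin n) → Eu (Fin n)) := by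
    unfold Wf
    refine (PiLp.continuous_toLp 2 _).comp (continuous_pi fun i => hw.comp ?_)
    exact (pr i).continuous
  have hgc : Continuous fun x : Eu (Fin n) => ∑ i, g (x i) := by
    fun_prop
  have hlim : Tendsto (fun k => ∫ x in CA R, (fderiv ℝ (c k) x (Wf w x) * (G x * rh V x) +
      c k x * (fderiv ℝ G x (Wf w x) * rh V x - G x * (∑ i, g (x i)) * rh V x))) atTop
      (𝓝 (∫ x in CA R, (fderiv ℝ G x (Wf w x) * rh V x - G x * (∑ i, g (x i)) * rh V x))) := by
    refine tendsto_integral_of_dominated_convergence (fun x => C * ((∑ i, |w (x i)|) *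
      |G x * rh V x|) + ‖fderiv ℝ G x (Wf w x) * rh V x - G x * (∑ i, g (x i)) * rh V x‖)
      (fun k => ?_) ?_ (fun k => Eventually.of_forall fun x => ?_)
      (Eventually.of_forall fun x => ?_)
    · refine Continuous.aestronglyMeasurable ?_
      refine Continuous.add (Continuous.mul ?_ (hG.continuous.mul hrs.continuous))
        ((hcs k).continuous.mul (Continuous.sub (Continuous.mul ?_ hrs.continuous)
          ((hG.continuous.mul hgc).mul hrs.continuous)))
      · exact ((hcs k).continuous_fderiv one_ne_zero).clm_apply hWc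
      · exact (hG.continuous_fderiv one_ne_zero).clm_apply hWc
    · exact ((iC.const_mul C).add (iA.sub iB).norm).restrict
    · refine (norm_add_le _ _).trans (add_le_add ?_ ?_)
      · rw [Real.norm_eq_abs, abs_mul]
        have h1 : C * ((k : ℝ) + 1)⁻¹ * ∑ i, |w (x i)| ≤ C * ∑ i, |w (x i)| := by
          refine mul_le_mul_of_nonneg_right ?_ (Finset.sum_nonneg fun i _ => abs_nonneg _)
          have : ((k : ℝ) + 1)⁻¹ ≤ 1 := inv_le_one_of_one_le₀ (by linarith [Nat.cast_nonneg (α := ℝ) k])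
          nlinarith
        calc |fderiv ℝ (c k) x (Wf w x)| * |G x * rh V x| ≤
            (C * ∑ i, |w (x i)|) * |G x * rh V x| :=
              mul_le_mul_of_nonneg_right ((hcb k x).trans h1) (abs_nonneg _)
          _ = _ := by ring
      · rw [norm_mul, Real.norm_eq_abs (c k x), abs_of_nonneg (hc0 k x)]
        exact mul_le_of_le_one_left (norm_nonneg _) (hc1 k x)
    · have hcl : Tendsto (fun k => c k x) atTop (𝓝 1) := by
        obtain ⟨N, hN⟩ := exists_nat_ge ‖x‖
        refine tendsto_const_nhds.congr' ?_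
        filter_upwards [eventually_ge_atTop N] with k hkN
        show (1 : ℝ) = χ (((k : ℝ) + 1)⁻¹ • x)
        rw [χ.one_of_mem_closedBall]
        rw [Metric.mem_closedBall, dist_zero_right, norm_smul, norm_inv, Real.norm_eq_abs,
          abs_of_pos (hk k)]
        show ((k : ℝ) + 1)⁻¹ * ‖x‖ ≤ 1
        rw [inv_mul_le_iff₀ (hk k)]
        have : (N : ℝ) ≤ k := Nat.cast_le.2 hkN
        linarith
      have hcf : Tendsto (fun k => fderiv ℝ (c k) x (Wf w x)) atTop (𝓝 0) := by
        refine squeeze_zero_norm (a := fun k : ℕ => C * ((k : ℝ) + 1)⁻¹ * ∑ i, |w (x i)|)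
          (fun k => hcb k x) ?_
        have h1 : Tendsto (fun k : ℕ => ((k : ℝ) + 1)⁻¹) atTop (𝓝 0) := by
          simpa using tendsto_one_div_add_atTop_nhds_zero_nat (𝕜 := ℝ)
        have h2 := (h1.const_mul C).mul_const (∑ i, |w (x i)|)
        simpa using h2
      have h1 := (hcf.mul_const (G x * rh V x)).add
        (hcl.mul_const (fderiv ℝ G x (Wf w x) * rh V x - G x * (∑ i, g (x i)) * rh V x))
      simpa using h1
  have hz : ∫ x in CA R, (fderiv ℝ G x (Wf w x) * rh V x - G x * (∑ i, g (x i)) * rh V x) = 0 :=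
    tendsto_nhds_unique hlim (tendsto_const_nhds.congr fun k => (hid k).symm)
  rw [integral_sub iA.restrict iB.restrict] at hz
  exact sub_eq_zero.1 hz

end Pool.Agent.T2h31.OB
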