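import Pool.Agent.T2h31.OB.StmA
import Pool.Agent.R476.OR.B

/-! # MOA: moments of symmetric functions on the cone (type A) -/

set_option autoImplicit false

namespace Pool.Agent.T2h31.OB

open MeasureTheory Set Filter Topology
open scoped ENNReal InnerProductSpace
open Pool.Agent.W695.KH (Eu EV VV Sm)
open Pool.Agent.Y506.RG (ND EW VW ILK)
open Pool.Agent.R476.OR (CV NV mV rV FD SV KV LVL sgm sgd ind)

namespace MOA

variable {n : ℕ}

theorem rh_prod (V : ℝ → ℝ) (x : Eu (Fin n)) : rh V x = ∏ i, Real.exp (-V (x i)) := by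
  unfold rh S1
  rw [← Finset.sum_neg_distrib, Real.exp_sum]

theorem S1_perm (V : ℝ → ℝ) (σ : Equiv.Perm (Fin n)) (x : Eu (Fin n)) :
    S1 V (WithLp.toLp 2 fun i => x (σ i)) = S1 V x := by
  unfold S1
  exact Equiv.sum_comp σ (fun i => V (x i))

theorem S1_cont {V : ℝ → ℝ} (hV : Continuous V) : Continuous (S1 V : Eu (Fin n) → ℝ) := by
  unfold S1
  exact continuous_finsetSum _ fun i _ => hV.comp (EuclideanSpace.proj (𝕜 := ℝ) i).continuous

theorem rh_cont {V : ℝ → ℝ} (hV : Continuous V) : Continuous (rh V : Eu (Fin n) → ℝ) := by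
  unfold rh
  exact Real.continuous_exp.comp (S1_cont hV).neg

theorem rh_perm (V : ℝ → ℝ) (σ : Equiv.Perm (Fin n)) (x : Eu (Fin n)) :
    rh V (WithLp.toLp 2 fun i => x (σ i)) = rh V x := by
  unfold rh
  rw [S1_perm]

theorem V_cont {V V' : ℝ → ℝ} (h : NV V V') : Continuous V :=
  continuous_iff_continuousAt.2 fun t => (h.cv.der t).continuousAt

theorem f_cont {V V' : ℝ → ℝ} (h : NV V V') : Continuous fun t => Real.exp (-V t) :=
  Real.continuous_exp.comp (V_cont h).neg

/-- first moments on the whole space -/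
theorem one {V V' : ℝ → ℝ} (h : NV V V') {φ : ℝ → ℝ} (hφ : Continuous φ)
    (h2 : Integrable fun t => φ t ^ 2 * Real.exp (-V t)) :
    Integrable (fun x : Eu (Fin n) => S1 φ x * rh V x) ∧
    ∫ x : Eu (Fin n), S1 φ x * rh V x = n * ∫ t, φ t * Real.exp (-V t) := by
  have hi1 : Integrable fun t => φ t * Real.exp (-V t) :=
    Pool.Agent.R476.OR.int_one (f_cont h) (fun s => (Real.exp_pos _).le) h.nd.int0 hφ h2
  have e : ∀ (i : Fin n) (x : Eu (Fin n)), φ (x i) * rh V x =
      ∏ k, (if k = i then φ (x k) else 1) * Real.exp (-V (x k)) := by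
    intro i x
    rw [Finset.prod_mul_distrib, Finset.prod_ite_eq' Finset.univ i (fun k => φ (x k)), rh_prod]
    simp
  have hint : ∀ i : Fin n, Integrable (fun x : Eu (Fin n) => φ (x i) * rh V x) := by
    intro i
    simp only [e i]
    refine Pool.Agent.R476.OR.prod_int
      (fun k t => (if k = i then φ t else 1) * Real.exp (-V t)) fun k => ?_
    by_cases hk : k = i
    · simpa only [hk, if_true] using hi1
    · simpa only [hk, if_false, one_mul] using h.nd.int0
  have hval : ∀ i : Fin n, ∫ x : Eu (Fin n), φ (x i) * rh V x = ∫ t, φ t * Real.exp (-V t) := by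
    intro i
    simp only [e i]
    rw [Pool.Agent.R476.OR.prod_val (fun k t => (if k = i then φ t else 1) * Real.exp (-V t)),
      Finset.prod_eq_single i]
    · simp
    · intro k _ hk
      simp only [hk, if_false, one_mul]
      exact h.nd.mass
    · intro hh
      exact absurd (Finset.mem_univ i) hh
  have e1 : ∀ x : Eu (Fin n), S1 φ x * rh V x = ∑ i, φ (x i) * rh V x := by
    intro x
    unfold S1
    rw [Finset.sum_mul]
  simp only [e1]
  refine ⟨integrable_finsetSum _ fun i _ => hint i, ?_⟩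
  rw [integral_finsetSum _ fun i _ => hint i]
  simp only [hval, Finset.sum_const, Finset.card_univ, Fintype.card_fin, nsmul_eq_mul]

theorem rh_one {V V' : ℝ → ℝ} (h : NV V V') :
    Integrable (rh V : Eu (Fin n) → ℝ) ∧ ∫ x : Eu (Fin n), rh V x = 1 := by
  have e : (rh V : Eu (Fin n) → ℝ) = fun x => ∏ k, Real.exp (-V (x k)) := by
    funext x; exact rh_prod V x
  refine ⟨?_, ?_⟩
  · rw [e]
    exact Pool.Agent.R476.OR.prod_int (fun _ t => Real.exp (-V t)) fun _ => h.nd.int0
  · rw [e, Pool.Agent.R476.OR.prod_val (fun _ t => Real.exp (-V t))]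
    simp only [h.nd.mass, Finset.prod_const_one]

/-- second moments on the whole space -/
theorem two' (hT : Pool.Agent.R476.OR.S_TWO) {V V' : ℝ → ℝ} (h : NV V V') {φ : ℝ → ℝ}
    (hφ : Continuous φ) (h2 : Integrable fun t => φ t ^ 2 * Real.exp (-V t)) :
    Integrable (fun x : Eu (Fin n) => S1 φ x ^ 2 * rh V x) ∧
    ((∫ t, φ t * Real.exp (-V t) = 0) →
      ∫ x : Eu (Fin n), S1 φ x ^ 2 * rh V x = n * ∫ t, φ t ^ 2 * Real.exp (-V t)) := by
  have h1 := hT n (fun _ t => Real.exp (-V t)) (fun _ => φ) (fun _ => f_cont h)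
    (fun _ _ => (Real.exp_pos _).le) (fun _ => h.nd.int0) (fun _ => h.nd.mass)
    (fun _ => hφ) (fun _ => h2)
  simp only [← rh_prod] at h1
  refine ⟨h1.1, fun h0 => ?_⟩
  have h3 := h1.2.2.2 fun _ => h0
  simp only [Finset.sum_const, Finset.card_univ, Fintype.card_fin, nsmul_eq_mul] at h3
  exact h3

end MOA

theorem t_MOA (hSY : S_SYA) (hT : Pool.Agent.R476.OR.S_TWO) : S_MOA := by
  intro n R V V' hNE hms φ hφ hφ2
  obtain ⟨p, hp0, hp, -⟩ := hSY n R
  have hVc := MOA.V_cont hNE
  have hρc := MOA.rh_cont (n := n) hVc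
  have hms1 : msA V R = p := by
    unfold msA
    rw [hp (rh V) hρc (MOA.rh_one hNE).1 (fun σ x => MOA.rh_perm V σ x), (MOA.rh_one hNE).2, mul_one]
  have hp1 : 0 < p := by rw [← hms1]; exact hms
  -- means on the cone
  have hmc : ∀ F : Eu (Fin n) → ℝ, Continuous F → Integrable (fun x => F x * rh V x) →
      (∀ (σ : Equiv.Perm (Fin n)) (x : Eu (Fin n)), F (WithLp.toLp 2 fun i => x (σ i)) = F x) →
      MA V R F = ∫ x, F x * rh V x := by
    intro F hF hFi hF1
    unfold MA
    rw [hp (fun x => F x * rh V x) (hF.mul hρc) hFi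
      (fun σ x => by simp only [hF1 σ x, MOA.rh_perm V σ x]), hms1]
    field_simp
  refine ⟨?_, ?_, ?_, ?_⟩
  · show MA V R (S1 φ) = _
    rw [hmc (S1 φ) (MOA.S1_cont hφ) (MOA.one hNE hφ hφ2).1 (fun σ x => MOA.S1_perm φ σ x)]
    exact (MOA.one hNE hφ hφ2).2
  · exact (MOA.two' hT hNE hφ hφ2).1
  · intro h0
    show MA V R (fun x => S1 φ x ^ 2) = _
    rw [hmc (fun x => S1 φ x ^ 2) ((MOA.S1_cont hφ).pow 2) (MOA.two' hT hNE hφ hφ2).1
      (fun σ x => by simp only [MOA.S1_perm φ σ x])]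
    exact (MOA.two' hT hNE hφ hφ2).2 h0
  · intro ψ hψ hψ2 h0 h0'
    show MA V R (fun x => S1 φ x * S1 ψ x) = _
    have hfc := MOA.f_cont hNE
    have hi1 : Integrable fun t => φ t * Real.exp (-V t) :=
      Pool.Agent.R476.OR.int_one hfc (fun s => (Real.exp_pos _).le) hNE.nd.int0 hφ hφ2
    have hi2 : Integrable fun t => ψ t * Real.exp (-V t) :=
      Pool.Agent.R476.OR.int_one hfc (fun s => (Real.exp_pos _).le) hNE.nd.int0 hψ hψ2
    have hφψ : Integrable fun t => φ t * ψ t * Real.exp (-V t) := by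
      refine Integrable.mono' (hφ2.add hψ2) ((hφ.mul hψ).mul hfc).aestronglyMeasurable ?_
      filter_upwards with t
      rw [Real.norm_eq_abs, abs_mul, abs_of_pos (Real.exp_pos (-V t))]
      have h1 : |φ t * ψ t| ≤ φ t ^ 2 + ψ t ^ 2 := by
        rw [abs_mul]
        have h3 := sq_nonneg (|φ t| - |ψ t|)
        nlinarith [sq_abs (φ t), sq_abs (ψ t), sq_nonneg (φ t), sq_nonneg (ψ t)]
      have := mul_le_mul_of_nonneg_right h1 (Real.exp_pos (-V t)).le
      simp only [Pi.add_apply]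
      linarith
    -- the sum and the difference
    have ea : ∀ t, (φ t + ψ t) ^ 2 * Real.exp (-V t) =
        φ t ^ 2 * Real.exp (-V t) + (ψ t ^ 2 * Real.exp (-V t) +
          2 * (φ t * ψ t * Real.exp (-V t))) := fun t => by ring
    have eb : ∀ t, (φ t - ψ t) ^ 2 * Real.exp (-V t) =
        φ t ^ 2 * Real.exp (-V t) + (ψ t ^ 2 * Real.exp (-V t) -
          2 * (φ t * ψ t * Real.exp (-V t))) := fun t => by ring
    have j2 : Integrable fun t => 2 * (φ t * ψ t * Real.exp (-V t)) := hφψ.const_mul 2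
    have j3 : Integrable fun t => ψ t ^ 2 * Real.exp (-V t) +
      2 * (φ t * ψ t * Real.exp (-V t)) := hψ2.add j2
    have j4 : Integrable fun t => ψ t ^ 2 * Real.exp (-V t) -
      2 * (φ t * ψ t * Real.exp (-V t)) := hψ2.sub j2
    have hA2 : Integrable fun t => (φ t + ψ t) ^ 2 * Real.exp (-V t) := by
      simp only [ea]
      exact hφ2.add j3
    have hB2 : Integrable fun t => (φ t - ψ t) ^ 2 * Real.exp (-V t) := by
      simp only [eb]
      exact hφ2.add j4
    have hA0 : ∫ t, (φ t + ψ t) * Real.exp (-V t) = 0 := by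
      simp only [add_mul]
      rw [integral_add hi1 hi2, h0, h0', add_zero]
    have hB0 : ∫ t, (φ t - ψ t) * Real.exp (-V t) = 0 := by
      simp only [sub_mul]
      rw [integral_sub hi1 hi2, h0, h0', sub_zero]
    have kA := MOA.two' (n := n) hT hNE (φ := fun t => φ t + ψ t) (hφ.add hψ) hA2
    have kB := MOA.two' (n := n) hT hNE (φ := fun t => φ t - ψ t) (hφ.sub hψ) hB2
    have vA := kA.2 hA0
    have vB := kB.2 hB0
    have i2 : ∫ t, 2 * (φ t * ψ t * Real.exp (-V t)) = 2 * ∫ t, φ t * ψ t * Real.exp (-V t) :=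
      integral_const_mul _ _
    simp only [ea] at vA
    simp only [eb] at vB
    rw [integral_add hφ2 j3, integral_add hψ2 j2, i2] at vA
    rw [integral_add hφ2 j4, integral_sub hψ2 j2, i2] at vB
    have e1 : ∀ x : Eu (Fin n), S1 φ x * S1 ψ x * rh V x =
        1 / 4 * (S1 (fun t => φ t + ψ t) x ^ 2 * rh V x -
          S1 (fun t => φ t - ψ t) x ^ 2 * rh V x) := by
      intro x
      have h1 : S1 (fun t => φ t + ψ t) x = S1 φ x + S1 ψ x := by
        unfold S1; exact Finset.sum_add_distrib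
      have h2 : S1 (fun t => φ t - ψ t) x = S1 φ x - S1 ψ x := by
        unfold S1; exact Finset.sum_sub_distrib _ _
      rw [h1, h2]
      ring
    have hint : Integrable fun x : Eu (Fin n) => S1 φ x * S1 ψ x * rh V x := by
      simp only [e1]
      exact (kA.1.sub kB.1).const_mul _
    rw [hmc (fun x => S1 φ x * S1 ψ x) ((MOA.S1_cont hφ).mul (MOA.S1_cont hψ)) hint
      (fun σ x => by simp only [MOA.S1_perm φ σ x, MOA.S1_perm ψ σ x])]
    simp only [e1]
    rw [integral_const_mul, integral_sub kA.1 kB.1, vA, vB]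
    ring

end Pool.Agent.T2h31.OB
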