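import Pool.Agent.T2h31.OB.StmA
import Pool.Agent.R938.ORF.Main

/-! NRA (adapted by helper6 from T_NRS of helper60): normalisation of a potential, the same for all
coordinates -/

set_option autoImplicit false

namespace Pool.Agent.T2h31.OB

open MeasureTheory Set Filter Topology
open scoped ENNReal InnerProductSpace
open Pool.Agent.W695.KH (Eu EV VV Sm)
open Pool.Agent.R476.OR (CV NV mV rV FD SV KV LVL sgm sgd ind)
open Pool.Agent.T2h31.SB (Lb sv SK)
open Pool.Agent.R938.ORF

theorem t_NRA : S_NRA := by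
  intro n V V' hn hV E hb ⟨x0, hx0⟩
  have hb' : Bornology.IsBounded (KV (fun _ : Fin n => V) E) := hb
  have hx0' : SV (fun _ : Fin n => V) x0 < E := hx0
  have hco := fun i => coer_all (fun _ : Fin n => hV) hb' hx0' i
  obtain ⟨c, B, hcB⟩ := hco ⟨0, hn⟩
  have hcB' : Coer V c B := hcB
  obtain ⟨l, hl, hopt⟩ := opt hn (fun _ : Fin n => cv_cont hV) (fun _ => cv_convex hV)
    (bdd_all hco) hx0'
  obtain ⟨a, d, k, hd, hNV⟩ := norm_one hV hcB' hl
  obtain ⟨C, hC0, hC⟩ := vol_aff (fun _ : Fin n => a) (fun _ => d) (fun _ => hd)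
  have hSV : ∀ x : Eu (Fin n), SV (fun (_ : Fin n) t => l * V (a + d * t) + k) x
      = l * SV (fun _ : Fin n => V) (WithLp.toLp 2 (fun i => a + d * x i)) + ∑ _i : Fin n, k := by
    intro x
    unfold SV
    rw [Finset.sum_add_distrib, Finset.mul_sum]
  have hmem : ∀ (s : ℝ) (x : Eu (Fin n)),
      x ∈ KV (fun (_ : Fin n) t => l * V (a + d * t) + k) (l * s + ∑ _i : Fin n, k)
      ↔ WithLp.toLp 2 (fun i => a + d * x i) ∈ KV (fun _ : Fin n => V) s := by
    intro s x
    change SV _ x ≤ _ ↔ SV (fun _ : Fin n => V) _ ≤ s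
    rw [hSV x]
    constructor
    · intro h
      have h1 : l * SV (fun _ : Fin n => V) (WithLp.toLp 2 (fun i => a + d * x i)) ≤ l * s := by
        linarith
      exact le_of_mul_le_mul_left h1 hl
    · intro h
      have := mul_le_mul_of_nonneg_left h hl.le
      linarith
  have hvol : ∀ s : ℝ, volume (KV (fun (_ : Fin n) t => l * V (a + d * t) + k)
      (l * s + ∑ _i : Fin n, k)) = C * volume (KV (fun _ : Fin n => V) s) := by
    intro s
    rw [← hC]
    congr 1
    ext x
    exact hmem s x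
  refine ⟨fun t => l * V (a + d * t) + k, fun t => l * d * V' (a + d * t),
    l * E + ∑ _i : Fin n, k, a, d, hNV, ⟨?_, ?_, ?_⟩, hd, ?_⟩
  · exact bdd_all (fun _ : Fin n => ⟨_, _, coer_aff hcB' hl hd⟩) _
  · rw [hvol]
    have := KV_pos (fun _ : Fin n => cv_cont hV) hx0'
    exact ENNReal.mul_pos hC0 this.ne'
  · intro s
    have hs : s = l * ((s - ∑ _i : Fin n, k) / l) + ∑ _i : Fin n, k := by field_simp; ring
    generalize (s - ∑ _i : Fin n, k) / l = s1 at hs
    rw [hs, hvol, hvol]
    have key := hopt s1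
    have ex : ∀ r : ℝ, ENNReal.ofReal (Real.exp (-(l * r + ∑ _i : Fin n, k)))
        = ENNReal.ofReal (Real.exp (-(l * r))) * ENNReal.ofReal (Real.exp (-∑ _i : Fin n, k)) := by
      intro r
      rw [← ENNReal.ofReal_mul (Real.exp_pos _).le, ← Real.exp_add]
      congr 2
      ring
    rw [ex, ex]
    calc C * volume (KV (fun _ : Fin n => V) s1) * (ENNReal.ofReal (Real.exp (-(l * s1))) *
          ENNReal.ofReal (Real.exp (-∑ _i : Fin n, k)))
        = (volume (KV (fun _ : Fin n => V) s1) * ENNReal.ofReal (Real.exp (-(l * s1)))) *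
          (C * ENNReal.ofReal (Real.exp (-∑ _i : Fin n, k))) := by ring
      _ ≤ (volume (KV (fun _ : Fin n => V) E) * ENNReal.ofReal (Real.exp (-(l * E)))) *
          (C * ENNReal.ofReal (Real.exp (-∑ _i : Fin n, k))) :=
          mul_le_mul_left key _
      _ = _ := by ring
  · intro x
    have h1 := hmem E x
    have h2 : (WithLp.toLp 2 (fun i => a + d * x i) : Eu (Fin n)) =
        (WithLp.toLp 2 (fun _ => a) : Eu (Fin n)) + d • x := by
      ext i
      simp
    rw [h2] at h1
    exact h1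

end Pool.Agent.T2h31.OB
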