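import Pool.Agent.T2h31.OB.StmA
import Pool.Agent.T2h31.OB.T_OD

/-!
# Task ODA: facts on one normalised potential
-/

set_option autoImplicit false

namespace Pool.Agent.T2h31.OB

open MeasureTheory Set Filter Topology
open scoped ENNReal InnerProductSpace
open Pool.Agent.Y506.RG (ND)
open Pool.Agent.R476.OR (CV NV mV rV FD)

namespace ODA

theorem mills {V V' : ℝ → ℝ} {C : ℝ} (hC : 1 ≤ C) (hcv : CV V V')
    (hi : Integrable fun s => Real.exp (-V s))
    (h : ∀ s, Real.exp (-V s) ≤ C * Real.exp (-|s| / C)) (t : ℝ) (ht : 0 ≤ V' t) :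
    V' t * (∫ s in Ioi t, Real.exp (-V s)) ≤ Real.exp (-V t) := by
  have hd : ∀ x ∈ Ici t, HasDerivAt (fun s => -Real.exp (-V s)) (V' x * Real.exp (-V x)) x :=
    fun x _ => OD.der_f hcv x
  have hp : ∀ x ∈ Ioi t, 0 ≤ V' x * Real.exp (-V x) := fun x hx =>
    mul_nonneg (ht.trans (hcv.mono (le_of_lt hx))) (Real.exp_pos _).le
  have hz := OD.tail_zero hC h
  have h1 := integral_Ioi_of_hasDerivAt_of_nonneg' hd hp hz
  have h2 := integrableOn_Ioi_deriv_of_nonneg' hd hp hz
  rw [zero_sub, neg_neg] at h1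
  rw [← h1, ← integral_const_mul]
  refine setIntegral_mono_on (hi.integrableOn.const_mul _) h2 measurableSet_Ioi
    fun x hx => ?_
  exact mul_le_mul_of_nonneg_right (hcv.mono (le_of_lt hx)) (Real.exp_pos _).le

theorem cv_neg {V V' : ℝ → ℝ} (h : CV V V') : CV (fun t => V (-t)) (fun t => -V' (-t)) := by
  refine ⟨fun t => ?_, fun s t hst => ?_, ?_⟩
  · have h1 := (h.der (-t)).comp t (hasDerivAt_neg t)
    have e : V' (-t) * -1 = -V' (-t) := by ring
    rw [e] at h1
    exact h1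
  · have := h.mono (neg_le_neg hst)
    show -V' (-s) ≤ -V' (-t)
    linarith
  · exact (h.cont.comp continuous_neg).neg

theorem mills_left {V V' : ℝ → ℝ} {C : ℝ} (hC : 1 ≤ C) (hcv : CV V V')
    (hi : Integrable fun s => Real.exp (-V s))
    (h : ∀ s, Real.exp (-V s) ≤ C * Real.exp (-|s| / C)) (t : ℝ) (ht : V' t ≤ 0) :
    -V' t * (∫ s in Iic t, Real.exp (-V s)) ≤ Real.exp (-V t) := by
  have h1 := mills (V := fun s => V (-s)) (V' := fun s => -V' (-s)) hC (cv_neg hcv) hi.comp_neg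
    (fun s => by have := h (-s); rwa [abs_neg] at this) (-t) (by simpa using ht)
  have h2 := integral_comp_neg_Ioi (-t) fun s => Real.exp (-V s)
  rw [neg_neg] at h2
  simp only [neg_neg] at h1
  rw [h2] at h1
  exact h1

end ODA

theorem t_ODA (h1 : Pool.Agent.Y506.RG.S_ONE) (h2 : Pool.Agent.R476.OR.S_FLD) : S_ODA := by
  obtain ⟨C1, hC1, H1⟩ := h1
  obtain ⟨C2, hC2, H2⟩ := h2
  refine ⟨C1 + C2, by linarith, fun V V' hN => ?_⟩
  have hO := H1 _ hN.nd
  obtain ⟨hi, v, hF⟩ := H2 V V' hN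
  have hC10 : 0 < C1 := by linarith
  have hf : ∀ t, 0 < Real.exp (-V t) := fun t => Real.exp_pos _
  have hF0 : ∀ t, 0 ≤ ∫ s in Iic t, Real.exp (-V s) := fun t => integral_nonneg fun s => (hf s).le
  have hT0 : ∀ t, 0 ≤ ∫ s in Ioi t, Real.exp (-V s) := fun t => integral_nonneg fun s => (hf s).le
  refine ⟨fun t => ?_, fun t => ?_, fun t => ?_, ?_, ?_, hi⟩
  · have h3 : Real.exp (-V t) ≤ C1 * Real.exp (-|t| / C1) := hO.tail t
    have h4 : Real.exp (-|t| / C1) ≤ 1 := by
      rw [Real.exp_le_one_iff]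
      exact div_nonpos_of_nonpos_of_nonneg (neg_nonpos.2 (abs_nonneg t)) hC10.le
    nlinarith
  · have h5 := hf t
    rcases le_total 0 t with ht | ht
    · have h3 : ∫ s in Ioi t, Real.exp (-V s) ≤ C1 * Real.exp (-V t) := hO.right t ht
      refine (min_le_right _ _).trans (h3.trans ?_)
      nlinarith
    · have h3 : ∫ s in Iic t, Real.exp (-V s) ≤ C1 * Real.exp (-V t) := hO.left t ht
      refine (min_le_left _ _).trans (h3.trans ?_)
      nlinarith
  · rcases le_total 0 (V' t) with ht | ht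
    · rw [abs_of_nonneg ht]
      exact (mul_le_mul_of_nonneg_left (min_le_right _ _) ht).trans
        (ODA.mills hC1 hN.cv hN.nd.int0 hO.tail t ht)
    · rw [abs_of_nonpos ht]
      exact (mul_le_mul_of_nonneg_left (min_le_left _ _) (neg_nonneg.2 ht)).trans
        (ODA.mills_left hC1 hN.cv hN.nd.int0 hO.tail t ht)
  · exact integral_nonneg fun t => mul_nonneg (sq_nonneg _) (Real.exp_pos _).le
  · have := OD.var_le hC2 hN hF
    linarith

end Pool.Agent.T2h31.OB
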