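import Pool.Agent.T2h31.OB.StmA
import Pool.Agent.R476.OR.B

/-! # PCA: Poincare's inequality on the cone (type A) -/

set_option autoImplicit false

namespace Pool.Agent.T2h31.OB

open MeasureTheory Set Filter Topology
open scoped ENNReal InnerProductSpace
open Pool.Agent.W695.KH (Eu EV VV Sm)
open Pool.Agent.Y506.RG (ND EW VW ILK)
open Pool.Agent.R476.OR (CV NV mV rV FD SV KV LVL sgm sgd ind)
open Pool.Agent.T2h31.LC (Smo pp pd)

namespace PCA

/-! ### the modified potential -/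

/-- derivative of the modified potential -/
noncomputable def gb (V' : ℝ → ℝ) (b t : ℝ) : ℝ := V' t * max 0 (min 1 (1 + b - |t|))

/-- modified potential -/
noncomputable def Vb (V V' : ℝ → ℝ) (b t : ℝ) : ℝ := V 0 + ∫ s in (0 : ℝ)..t, gb V' b s

theorem gb_cont {V' : ℝ → ℝ} (hc : Continuous V') (b : ℝ) : Continuous (gb V' b) := by
  unfold gb
  exact hc.mul (continuous_const.max (continuous_const.min (continuous_const.sub continuous_abs)))

theorem gb_eq (V' : ℝ → ℝ) {b t : ℝ} (h : |t| ≤ b) : gb V' b t = V' t := by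
  unfold gb
  rw [min_eq_left (by linarith), max_eq_right zero_le_one, mul_one]

theorem gb_zero (V' : ℝ → ℝ) {b t : ℝ} (h : 1 + b ≤ |t|) : gb V' b t = 0 := by
  unfold gb
  rw [max_eq_left ((min_le_right _ _).trans (by linarith)), mul_zero]

theorem gb_int {V' : ℝ → ℝ} (hc : Continuous V') (b : ℝ) : Integrable (gb V' b) := by
  refine (gb_cont hc b).integrable_of_hasCompactSupport ?_
  refine HasCompactSupport.of_support_subset_isCompact
    (isCompact_Icc (a := -(1 + b)) (b := 1 + b)) ?_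
  intro t ht
  by_contra hn
  apply ht
  refine gb_zero V' ?_
  by_contra h2
  push Not at h2
  rw [abs_lt] at h2
  exact hn ⟨h2.1.le, h2.2.le⟩

theorem Vb_der (V : ℝ → ℝ) {V' : ℝ → ℝ} (hc : Continuous V') (b t : ℝ) :
    HasDerivAt (Vb V V' b) (gb V' b t) t := by
  unfold Vb
  have hg := gb_cont hc b
  exact (intervalIntegral.integral_hasDerivAt_right (hg.intervalIntegrable _ _)
    (hg.stronglyMeasurableAtFilter _ _) hg.continuousAt).const_add (V 0)

theorem Vb_eq {V V' : ℝ → ℝ} (hc : Continuous V') (hd : ∀ t, HasDerivAt V (V' t) t) {b t : ℝ}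
    (h : |t| ≤ b) : Vb V V' b t = V t := by
  unfold Vb
  have h1 : ∫ s in (0 : ℝ)..t, gb V' b s = ∫ s in (0 : ℝ)..t, V' s := by
    refine intervalIntegral.integral_congr fun s hs => gb_eq V' ?_
    rw [mem_uIcc] at hs
    rw [abs_le] at h ⊢
    rcases hs with hs | hs
    · exact ⟨by linarith [h.1, h.2, hs.1, hs.2], by linarith [h.1, h.2, hs.1, hs.2]⟩
    · exact ⟨by linarith [h.1, h.2, hs.1, hs.2], by linarith [h.1, h.2, hs.1, hs.2]⟩
  rw [h1, intervalIntegral.integral_eq_sub_of_hasDerivAt (fun s _ => hd s)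
    (hc.intervalIntegrable _ _)]
  ring

theorem Vb_bd (V : ℝ → ℝ) {V' : ℝ → ℝ} (hc : Continuous V') (b t : ℝ) :
    Vb V V' b t ≤ |V 0| + ∫ s, ‖gb V' b s‖ := by
  unfold Vb
  have h1 : ‖∫ s in (0 : ℝ)..t, gb V' b s‖ ≤ ∫ s in uIoc 0 t, ‖gb V' b s‖ :=
    intervalIntegral.norm_integral_le_integral_norm_uIoc
  have h2 : ∫ s in uIoc 0 t, ‖gb V' b s‖ ≤ ∫ s, ‖gb V' b s‖ :=
    setIntegral_le_integral (gb_int hc b).norm (Eventually.of_forall fun s => norm_nonneg _)
  have h3 := le_abs_self (∫ s in (0 : ℝ)..t, gb V' b s)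
  rw [Real.norm_eq_abs] at h1
  have h4 := le_abs_self (V 0)
  linarith

/-- modified density -/
noncomputable def fb (V V' : ℝ → ℝ) (b t : ℝ) : ℝ := Real.exp (-Vb V V' b t)

theorem fb_smo {V V' : ℝ → ℝ} (h : NV V V') {b : ℝ} (hb : 0 < b) :
    Smo (fb V V' b) (-b) b := by
  have hc := h.cv.cont
  have hder : ∀ t, HasDerivAt (fb V V' b) (fb V V' b t * -gb V' b t) t := by
    intro t
    unfold fb
    exact (Vb_der V hc b t).neg.exp
  refine ⟨by linarith, ?_, ?_, ?_⟩
  · have hVb : ContDiff ℝ 1 (Vb V V' b) := by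
      rw [contDiff_one_iff_deriv]
      refine ⟨fun t => (Vb_der V hc b t).differentiableAt, ?_⟩
      have e : deriv (Vb V V' b) = gb V' b := by
        funext t; exact (Vb_der V hc b t).deriv
      rw [e]
      exact gb_cont hc b
    exact hVb.neg.exp
  · refine ⟨Real.exp (-(|V 0| + ∫ s, ‖gb V' b s‖)), Real.exp_pos _, fun x => ?_⟩
    unfold fb
    exact Real.exp_le_exp.2 (neg_le_neg (Vb_bd V hc b x))
  · have e : ∀ x ∈ Icc (-b) b, deriv (fb V V' b) x / fb V V' b x = -V' x := by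
      intro x hx
      rw [(hder x).deriv, gb_eq V' (abs_le.2 hx)]
      have : fb V V' b x ≠ 0 := (Real.exp_pos _).ne'
      field_simp
    intro x hx y hy hxy
    simp only [e x hx, e y hy]
    exact neg_le_neg (h.cv.mono hxy)

/-! ### the norm of a linear form -/

theorem sum_sq_le {n : ℕ} (L : Eu (Fin n) →L[ℝ] ℝ) {l : ℝ} (hL : ‖L‖ ≤ l) :
    ∑ i, L (EuclideanSpace.single i 1) ^ 2 ≤ l ^ 2 := by
  obtain ⟨v, hv⟩ : ∃ v : Eu (Fin n), v = ∑ i, L (EuclideanSpace.single i 1) •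
    (EuclideanSpace.single i (1 : ℝ) : Eu (Fin n)) := ⟨_, rfl⟩
  have h1 : L v = ∑ i, L (EuclideanSpace.single i 1) ^ 2 := by
    rw [hv, map_sum]
    refine Finset.sum_congr rfl fun i _ => ?_
    rw [map_smul, smul_eq_mul, sq]
  have hvi : ∀ i, v i = L (EuclideanSpace.single i 1) := by
    intro i
    rw [hv]
    simp [Pi.single_apply]
  have h2 : ‖v‖ ^ 2 = ∑ i, L (EuclideanSpace.single i 1) ^ 2 := by
    rw [EuclideanSpace.norm_sq_eq]
    refine Finset.sum_congr rfl fun i _ => ?_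
    rw [hvi, Real.norm_eq_abs, sq_abs]
  have h3 : ‖v‖ ^ 2 ≤ ‖L‖ * ‖v‖ := by
    rw [h2, ← h1]
    exact (le_abs_self _).trans (L.le_opNorm v)
  have h4 : ‖v‖ ≤ l := by
    by_contra hn
    push Not at hn
    have h5 : 0 ≤ l := (norm_nonneg L).trans hL
    have h6 : ‖L‖ * ‖v‖ ≤ l * ‖v‖ := mul_le_mul_of_nonneg_right hL (norm_nonneg v)
    nlinarith
  rw [← h2]
  exact pow_le_pow_left₀ (norm_nonneg v) h4 2

/-! ### the cone -/

/-- the cone in `Fin n → ℝ` -/
def CF {n : ℕ} (R : Fin n → Fin n → Prop) : Set (Fin n → ℝ) :=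
  {x | ∀ p q, R p q → x p ≤ x q}

/-- the part of the cone in a cube -/
abbrev KQ {n : ℕ} (b : ℝ) (R : Fin n → Fin n → Prop) : Set (Fin n → ℝ) := Pool.Agent.T2h31.LC.KA (-b) b R

theorem CF_closed {n : ℕ} (R : Fin n → Fin n → Prop) : IsClosed (CF R) := by
  unfold CF
  simp only [ofPred_forall]
  exact isClosed_iInter fun p => isClosed_iInter fun q => isClosed_iInter fun _ =>
    isClosed_le (continuous_apply p) (continuous_apply q)

theorem KQ_closed {n : ℕ} (b : ℝ) (R : Fin n → Fin n → Prop) : IsClosed (KQ b R) := by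
  have e : KQ b R = {x : Fin n → ℝ | ∀ i, -b ≤ x i ∧ x i ≤ b} ∩ CF R := rfl
  rw [e]
  refine IsClosed.inter ?_ (CF_closed R)
  simp only [ofPred_forall, ofPred_and]
  exact isClosed_iInter fun i => (isClosed_le continuous_const (continuous_apply i)).inter
    (isClosed_le (continuous_apply i) continuous_const)

theorem transfer {n : ℕ} (R : Fin n → Fin n → Prop) (G : Eu (Fin n) → ℝ) :
    ∫ x in CA R, G x = ∫ y in CF R, G (WithLp.toLp 2 y) := by
  have h1 := (EuclideanSpace.volume_preserving_symm_measurableEquiv_toLp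
    (Fin n)).setIntegral_preimage_emb (MeasurableEquiv.measurableEmbedding _)
    (fun y : Fin n → ℝ => G (WithLp.toLp 2 y)) (CF R)
  rw [← h1]
  rfl

theorem integ {n : ℕ} {G : Eu (Fin n) → ℝ} (hG : Integrable G) :
    Integrable fun y : Fin n → ℝ => G (WithLp.toLp 2 y) :=
  (PiLp.volume_preserving_toLp (Fin n)).integrable_comp_of_integrable hG

theorem rh_pp {n : ℕ} (V : ℝ → ℝ) (y : Fin n → ℝ) :
    rh V (WithLp.toLp 2 y : Eu (Fin n)) = pp (fun t => Real.exp (-V t)) y := by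
  unfold rh S1 pp
  rw [← Finset.sum_neg_distrib, Real.exp_sum]

theorem rh_int {n : ℕ} {V V' : ℝ → ℝ} (h : NV V V') : Integrable (rh V : Eu (Fin n) → ℝ) := by
  have e : (rh V : Eu (Fin n) → ℝ) = fun x => ∏ k, Real.exp (-V (x k)) := by
    funext x
    unfold rh S1
    rw [← Finset.sum_neg_distrib, Real.exp_sum]
  rw [e]
  exact Pool.Agent.R476.OR.prod_int (fun _ t => Real.exp (-V t)) fun _ => h.nd.int0

theorem tend {n : ℕ} (R : Fin n → Fin n → Prop) {G : (Fin n → ℝ) → ℝ} (hG : Integrable G) :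
    Tendsto (fun m : ℕ => ∫ x in KQ ((m : ℝ) + 1) R, G x) atTop (𝓝 (∫ x in CF R, G x)) := by
  have hU : ⋃ m : ℕ, KQ ((m : ℝ) + 1) R = CF R := by
    ext x
    simp only [mem_iUnion]
    constructor
    · rintro ⟨m, hm⟩
      exact hm.2
    · intro hx
      obtain ⟨m, hm⟩ := exists_nat_ge (∑ i, |x i|)
      refine ⟨m, fun i => ?_, hx⟩
      have h1 : |x i| ≤ ∑ i, |x i| :=
        Finset.single_le_sum (f := fun i => |x i|) (fun j _ => abs_nonneg _) (Finset.mem_univ i)
      exact abs_le.1 (by linarith)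
  have h1 := tendsto_setIntegral_of_monotone (μ := volume) (f := G)
    (s := fun m : ℕ => KQ ((m : ℝ) + 1) R) (fun m => (KQ_closed _ R).measurableSet) ?_ ?_
  · rw [hU] at h1
    exact h1
  · intro m k hmk x hx
    have h2 : (m : ℝ) ≤ k := by exact_mod_cast hmk
    exact ⟨fun i => ⟨by linarith [(hx.1 i).1], by linarith [(hx.1 i).2]⟩, hx.2⟩
  · exact hG.integrableOn

end PCA

open PCA in
theorem t_PCA (hSMA : Pool.Agent.T2h31.LC.S_SMA) (hONE : Pool.Agent.Y506.RG.S_ONE) : S_PCA := by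
  obtain ⟨C₀, hC₀, hONE⟩ := hONE
  refine ⟨4 * C₀ ^ 2, by nlinarith, ?_⟩
  intro n R V V' hNE hms U l hU hl hUl hUi
  have hV0 : 1 / C₀ ≤ Real.exp (-V 0) := (hONE _ hNE.nd).zero
  have hd := hNE.cv.der
  have hc := hNE.cv.cont
  obtain ⟨R', hR'⟩ : ∃ R' : Fin n → Fin n → Prop, R' = fun p q => R p q ∧ p ≠ q := ⟨_, rfl⟩
  have hR1 : ∀ p, ¬ R' p p := by
    intro p hp
    rw [hR'] at hp
    exact hp.2 rfl
  have hCF : PCA.CF R' = PCA.CF R := by
    ext x
    constructor
    · intro hx p q hpq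
      by_cases h : p = q
      · rw [h]
      · exact hx p q (by rw [hR']; exact ⟨hpq, h⟩)
    · intro hx p q hpq
      rw [hR'] at hpq
      exact hx p q hpq.1
  -- the functions on `Fin n → ℝ`
  obtain ⟨f, hf⟩ : ∃ f : ℝ → ℝ, f = fun t => Real.exp (-V t) := ⟨_, rfl⟩
  obtain ⟨g, hg⟩ : ∃ g : (Fin n → ℝ) → ℝ, g = fun y => U (WithLp.toLp 2 y) := ⟨_, rfl⟩
  have hgC : ContDiff ℝ 1 g := by
    rw [hg]
    exact hU.comp (PiLp.continuousLinearEquiv 2 ℝ (fun _ : Fin n => ℝ)).symm.contDiff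
  have hpd : ∀ x, ∑ i, pd g i x ^ 2 ≤ l ^ 2 := by
    intro x
    refine le_trans (le_of_eq ?_) (PCA.sum_sq_le (fderiv ℝ U (WithLp.toLp 2 x)) (hUl _))
    refine Finset.sum_congr rfl fun i _ => ?_
    congr 1
    unfold pd
    have h1 : HasFDerivAt U (fderiv ℝ U (WithLp.toLp 2 x)) (WithLp.toLp 2 x) :=
      ((hU.differentiable one_ne_zero) _).hasFDerivAt
    have h2 : HasFDerivAt g ((fderiv ℝ U (WithLp.toLp 2 x)).comp
        ((PiLp.continuousLinearEquiv 2 ℝ (fun _ : Fin n => ℝ)).symm : (Fin n → ℝ) →L[ℝ] _)) x := by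
      rw [hg]
      exact h1.comp x (PiLp.continuousLinearEquiv 2 ℝ (fun _ : Fin n => ℝ)).symm.hasFDerivAt
    rw [h2.fderiv]
    rfl
  -- integrability
  have hρi := PCA.rh_int (n := n) hNE
  have hUρi : Integrable fun x : Eu (Fin n) => U x * rh V x := by
    have hVc : Continuous V := continuous_iff_continuousAt.2 fun t => (hd t).continuousAt
    have hρc : Continuous (rh V : Eu (Fin n) → ℝ) := by
      unfold rh S1
      exact Real.continuous_exp.comp (continuous_finsetSum _ fun i _ =>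
        hVc.comp (EuclideanSpace.proj (𝕜 := ℝ) i).continuous).neg
    refine Integrable.mono' (hρi.add hUi) (hU.continuous.mul hρc).aestronglyMeasurable ?_
    filter_upwards with x
    have hp : 0 ≤ rh V x := (Real.exp_pos _).le
    rw [Real.norm_eq_abs, abs_mul, abs_of_nonneg hp]
    have h1 : |U x| ≤ 1 + U x ^ 2 := by
      have := sq_nonneg (|U x| - 1)
      nlinarith [sq_abs (U x), abs_nonneg (U x)]
    have := mul_le_mul_of_nonneg_right h1 hp
    simp only [Pi.add_apply]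
    linarith
  have j0 : Integrable (pp f : (Fin n → ℝ) → ℝ) := by
    refine (PCA.integ hρi).congr ?_
    filter_upwards with y
    rw [PCA.rh_pp, hf]
  have j1 : Integrable fun y : Fin n → ℝ => g y * pp f y := by
    refine (PCA.integ hUρi).congr ?_
    filter_upwards with y
    rw [PCA.rh_pp, hf, hg]
  have j2 : Integrable fun y : Fin n → ℝ => g y ^ 2 * pp f y := by
    refine (PCA.integ hUi).congr ?_
    filter_upwards with y
    rw [PCA.rh_pp, hf, hg]
  -- the inequality on the cubes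
  have hb : ∀ m : ℕ, (∫ x in KQ ((m : ℝ) + 1) R', pp f x) *
      (∫ x in KQ ((m : ℝ) + 1) R', g x ^ 2 * pp f x) -
      (∫ x in KQ ((m : ℝ) + 1) R', g x * pp f x) ^ 2 ≤
      4 * C₀ ^ 2 * l ^ 2 * (∫ x in KQ ((m : ℝ) + 1) R', pp f x) ^ 2 := by
    intro m
    obtain ⟨b, hb⟩ : ∃ b : ℝ, b = (m : ℝ) + 1 := ⟨_, rfl⟩
    rw [← hb]
    have hb0 : 0 < b := by rw [hb]; positivity
    have h1 := hSMA n R' hR1 (PCA.fb V V' b) (-b) b (PCA.fb_smo hNE hb0) g hgC 0
      ⟨by linarith, hb0.le⟩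
    have hfb : ∀ t, |t| ≤ b → PCA.fb V V' b t = f t := by
      intro t ht
      unfold PCA.fb
      rw [PCA.Vb_eq hc hd ht, hf]
    have hpp : ∀ x ∈ KQ b R', pp (PCA.fb V V' b) x = pp f x := by
      intro x hx
      unfold pp
      exact Finset.prod_congr rfl fun i _ => hfb _ (abs_le.2 (hx.1 i))
    have hm := (PCA.KQ_closed b R').measurableSet
    have e0 : ∫ x in KQ b R', pp (PCA.fb V V' b) x = ∫ x in KQ b R', pp f x :=
      setIntegral_congr_fun hm fun x hx => hpp x hx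
    have e1 : ∫ x in KQ b R', g x * pp (PCA.fb V V' b) x = ∫ x in KQ b R', g x * pp f x :=
      setIntegral_congr_fun hm fun x hx => by simp only [hpp x hx]
    have e2 : ∫ x in KQ b R', g x ^ 2 * pp (PCA.fb V V' b) x =
        ∫ x in KQ b R', g x ^ 2 * pp f x :=
      setIntegral_congr_fun hm fun x hx => by simp only [hpp x hx]
    have e3 : ∫ x in KQ b R', (∑ i, pd g i x ^ 2) * pp (PCA.fb V V' b) x =
        ∫ x in KQ b R', (∑ i, pd g i x ^ 2) * pp f x :=
      setIntegral_congr_fun hm fun x hx => by simp only [hpp x hx]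
    have e4 : PCA.fb V V' b 0 = f 0 := hfb 0 (by rw [abs_zero]; exact hb0.le)
    have e5 : ∫ t in (-b)..b, PCA.fb V V' b t = ∫ t in (-b)..b, f t := by
      refine intervalIntegral.integral_congr fun t ht => hfb t ?_
      rw [uIcc_of_le (by linarith)] at ht
      exact abs_le.2 ht
    rw [e0, e1, e2, e3, e4, e5] at h1
    refine h1.trans ?_
    have hf0 : ∀ t, 0 < f t := fun t => by rw [hf]; exact Real.exp_pos _
    have hpp0 : ∀ x : Fin n → ℝ, 0 ≤ pp f x := fun x => by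
      unfold pp
      exact Finset.prod_nonneg fun i _ => (hf0 _).le
    have hfi : Integrable f := by rw [hf]; exact hNE.nd.int0
    have hf1 : ∫ t, f t = 1 := by rw [hf]; exact hNE.nd.mass
    have k1 : ∫ t in (-b)..b, f t ≤ 1 := by
      rw [intervalIntegral.integral_of_le (by linarith), ← hf1]
      exact setIntegral_le_integral hfi (Eventually.of_forall fun t => (hf0 t).le)
    have k0 : 0 ≤ ∫ t in (-b)..b, f t :=
      intervalIntegral.integral_nonneg (by linarith) fun t _ => (hf0 t).le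
    have k2 : (∫ t in (-b)..b, f t) / f 0 ≤ C₀ := by
      have h2 : 1 / C₀ ≤ f 0 := by rw [hf]; exact hV0
      rw [div_le_iff₀ (hf0 0)]
      have hC0 : 0 < C₀ := by linarith
      have h3 : C₀ * (1 / C₀) ≤ C₀ * f 0 := mul_le_mul_of_nonneg_left h2 hC0.le
      rw [mul_one_div_cancel hC0.ne'] at h3
      linarith
    have k3 : 0 ≤ (∫ t in (-b)..b, f t) / f 0 := div_nonneg k0 (hf0 0).le
    have k4 : 0 ≤ ∫ x in KQ b R', pp f x := integral_nonneg fun x => hpp0 x
    have k5 : ∫ x in KQ b R', (∑ i, pd g i x ^ 2) * pp f x ≤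
        l ^ 2 * ∫ x in KQ b R', pp f x := by
      have h2 : ∫ x in KQ b R', (∑ i, pd g i x ^ 2) * pp f x ≤
          ∫ x in KQ b R', l ^ 2 * pp f x := by
        refine integral_mono_of_nonneg ?_ ?_ ?_
        · exact Eventually.of_forall fun x =>
            mul_nonneg (Finset.sum_nonneg fun i _ => sq_nonneg _) (hpp0 x)
        · exact (j0.const_mul _).integrableOn
        · exact Eventually.of_forall fun x => mul_le_mul_of_nonneg_right (hpd x) (hpp0 x)
      refine h2.trans (le_of_eq ?_)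
      exact integral_const_mul _ _
    have k6 : 0 ≤ ∫ x in KQ b R', (∑ i, pd g i x ^ 2) * pp f x :=
      integral_nonneg fun x => mul_nonneg (Finset.sum_nonneg fun i _ => sq_nonneg _) (hpp0 x)
    have k7 : ((∫ t in (-b)..b, f t) / f 0) ^ 2 ≤ C₀ ^ 2 := pow_le_pow_left₀ k3 k2 2
    calc 4 * ((∫ t in (-b)..b, f t) / f 0) ^ 2 * ((∫ x in KQ b R', pp f x) *
          ∫ x in KQ b R', (∑ i, pd g i x ^ 2) * pp f x)
        ≤ 4 * C₀ ^ 2 * ((∫ x in KQ b R', pp f x) * (l ^ 2 * ∫ x in KQ b R', pp f x)) := by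
          refine mul_le_mul (by linarith) (mul_le_mul_of_nonneg_left k5 k4)
            (mul_nonneg k4 k6) (by positivity)
      _ = _ := by ring
  -- the limit
  have t0 := PCA.tend R' j0
  have t1 := PCA.tend R' j1
  have t2 := PCA.tend R' j2
  have hlim := le_of_tendsto_of_tendsto' ((t0.mul t2).sub (t1.pow 2))
    ((t0.pow 2).const_mul (4 * C₀ ^ 2 * l ^ 2)) hb
  rw [hCF] at hlim
  have m0 : ∫ x in PCA.CF R, pp f x = msA V R := by
    unfold msA
    rw [PCA.transfer, hf]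
    simp only [PCA.rh_pp]
  have m1 : ∫ x in PCA.CF R, g x * pp f x = ∫ x in CA R, U x * rh V x := by
    rw [PCA.transfer R (fun x => U x * rh V x), hf, hg]
    simp only [PCA.rh_pp]
  have m2 : ∫ x in PCA.CF R, g x ^ 2 * pp f x = ∫ x in CA R, U x ^ 2 * rh V x := by
    rw [PCA.transfer R (fun x => U x ^ 2 * rh V x), hf, hg]
    simp only [PCA.rh_pp]
  rw [m0, m1, m2] at hlim
  unfold VA MA
  obtain ⟨A, hA⟩ : ∃ A, A = ∫ x in CA R, U x ^ 2 * rh V x := ⟨_, rfl⟩
  obtain ⟨B, hB⟩ : ∃ B, B = ∫ x in CA R, U x * rh V x := ⟨_, rfl⟩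
  obtain ⟨P, hP⟩ : ∃ P, P = msA V R := ⟨_, rfl⟩
  rw [← hA, ← hB, ← hP] at hlim ⊢
  rw [← hP] at hms
  have e : A / P - (B / P) ^ 2 = (P * A - B ^ 2) / P ^ 2 := by
    field_simp
  rw [e, div_le_iff₀ (by positivity)]
  exact hlim

end Pool.Agent.T2h31.OB
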