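import Pool.Agent.T2h31.OB.StmA
import Pool.Agent.R476.OR.D

/-!
# Project OB, part A, task PLA: volume of the optimal body on the cone (adapted from T_PLC)
-/

set_option autoImplicit false

namespace Pool.Agent.T2h31.OB

open MeasureTheory Set Filter Topology
open scoped ENNReal InnerProductSpace
open Pool.Agent.W695.KH (Eu EV VV Sm)
open Pool.Agent.Y506.RG (ND EW VW ILK)
open Pool.Agent.R476.OR (CV NV mV rV FD SV KV LVL sgm sgd ind)
open Pool.Agent.T2h31.SB (Lb sv SK)

namespace PLA

variable {n : ℕ}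

theorem rh_cont {V V' : ℝ → ℝ} (h : NV V V') : Continuous (rh V : Eu (Fin n) → ℝ) := by
  have hV : Continuous V := Pool.Agent.R476.OR.PD.cont_V h
  unfold rh S1
  refine Real.continuous_exp.comp (Continuous.neg ?_)
  refine continuous_finsetSum _ fun i _ => ?_
  exact hV.comp (by fun_prop)

theorem rh_int {V V' : ℝ → ℝ} (h : NV V V') :
    Integrable (rh V : Eu (Fin n) → ℝ) ∧ ∫ x : Eu (Fin n), rh V x = 1 := by
  have h1 := Pool.Agent.R476.OR.PD.int_prod (fun _ : Fin n => fun t => Real.exp (-V t))
    (fun _ => h.nd.int0)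
  have e : (fun x : Eu (Fin n) => ∏ i, Real.exp (-V (x i))) = rh V := by
    funext x
    unfold rh S1
    rw [← Real.exp_sum, Finset.sum_neg_distrib]
  rw [e] at h1
  refine ⟨h1.1, ?_⟩
  refine h1.2.trans ?_
  exact Finset.prod_eq_one fun i _ => h.nd.mass

end PLA

open PLA in
theorem t_PLA (hSY : S_SYA) (hPLW : Pool.Agent.R476.OR.S_PLW) (hOD : S_ODA) : S_PLA := by
  obtain ⟨c, hc, H⟩ := hPLW
  obtain ⟨C, hC, HO⟩ := hOD
  refine ⟨c, hc, fun n R V V' hV E hE => ?_⟩
  obtain ⟨-, -, -, -, -, h4⟩ := HO V V' hV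
  obtain ⟨p, hp, hG, hK⟩ := hSY n R
  obtain ⟨hri, hr1⟩ := rh_int (n := n) hV
  have hVc : Continuous V := Pool.Agent.R476.OR.PD.cont_V hV
  -- the mass of the cone
  have hms : msA V R = p := by
    have := hG (rh V) (rh_cont hV) hri ?_
    · rw [hr1, mul_one] at this
      exact this
    · intro σ x
      unfold rh S1
      congr 2
      exact Equiv.sum_comp σ fun i => V (x i)
  have hKV : KV (fun _ : Fin n => V) E = K1 n V E := rfl
  have hfinE : volume (K1 n V E) ≠ ⊤ := by
    rw [← hKV]
    exact hE.bdd.measure_lt_top.ne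
  have hfin : ∀ s, volume (K1 n V s) ≠ ⊤ := by
    intro s hs
    have h1 := hE.opt s
    have h2 : KV (fun _ : Fin n => V) s = K1 n V s := rfl
    rw [h2, hs, ENNReal.top_mul (by
      rw [Ne, ENNReal.ofReal_eq_zero, not_le]
      exact Real.exp_pos _)] at h1
    exact ENNReal.mul_ne_top hfinE ENNReal.ofReal_ne_top (top_le_iff.1 h1)
  have hvol := hK V hVc hfin E
  have hsg : Pool.Agent.R476.OR.sg (fun _ : Fin n => V) = sC n V := by
    unfold Pool.Agent.R476.OR.sg sC
    simp
  have h5 := H n (fun _ => V) (fun _ => V') (fun _ => hV) (fun _ => h4) E hE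
  rw [hsg, hKV] at h5
  have h6 : (volume (K1 n V E)).toReal ≤ Real.exp E := by
    have hm : MeasurableSet (K1 n V E) := by
      have : IsClosed (K1 n V E) := by
        unfold K1 S1
        refine isClosed_le ?_ continuous_const
        refine continuous_finsetSum _ fun i _ => ?_
        exact hVc.comp (by fun_prop)
      exact this.measurableSet
    have h7 : ∫ x in K1 n V E, Real.exp (-E) ≤ ∫ x in K1 n V E, rh V x := by
      refine setIntegral_mono_on ?_ hri.integrableOn hm fun x hx => ?_
      · exact integrable_const_iff.2 (Or.inr ⟨by simpa using hfinE.lt_top⟩)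
      · unfold rh
        refine Real.exp_le_exp.2 ?_
        have : S1 V x ≤ E := hx
        linarith
    have h8 : ∫ x in K1 n V E, rh V x ≤ ∫ x, rh V x :=
      setIntegral_le_integral hri (Eventually.of_forall fun x => (Real.exp_pos _).le)
    rw [hr1] at h8
    rw [setIntegral_const, smul_eq_mul, Measure.real] at h7
    have h9 : (volume (K1 n V E)).toReal * Real.exp (-E) ≤ 1 := h7.trans h8
    rw [Real.exp_neg, ← div_eq_mul_inv, div_le_one (Real.exp_pos _)] at h9
    exact h9
  rw [hvol, hms]
  constructor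
  · calc c * p = p * c := mul_comm _ _
      _ ≤ p * (Real.sqrt (sC n V) * ((volume (K1 n V E)).toReal * Real.exp (-E))) :=
        mul_le_mul_of_nonneg_left h5 hp
      _ = _ := by ring
  · exact mul_le_mul_of_nonneg_left h6 hp

end Pool.Agent.T2h31.OB
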