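import Mathlib
import Pool.Agent.T2h31.OB.StmA
import Pool.Agent.T2h31.OB.T_RLB

/-! Task RLA of project OB (helper31), by helper6: some linear functional has large residual
variance (type A). Adapted from `T_RLB`; the computation is `RLB.core`. -/

set_option autoImplicit false

namespace Pool.Agent.T2h31.OB

open MeasureTheory Set Filter Topology
open scoped ENNReal InnerProductSpace
open Pool.Agent.W695.KH (Eu EV VV Sm)
open Pool.Agent.Y506.RG (ND EW VW ILK)
open Pool.Agent.R476.OR (CV NV mV rV FD SV KV LVL sgm sgd ind)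

namespace RLA

section nu

variable {n : ℕ}

/-- the probability measure on the cone -/
noncomputable def nu (V : ℝ → ℝ) (R : Fin n → Fin n → Prop) : Measure (Eu (Fin n)) :=
  (ENNReal.ofReal (msA V R))⁻¹ •
    ((volume.restrict (CA R)).withDensity fun x => ENNReal.ofReal (rh V x))

lemma rh_pos (V : ℝ → ℝ) (x : Eu (Fin n)) : 0 < rh V x := Real.exp_pos _

lemma rh_cont {V : ℝ → ℝ} (hV : Continuous V) : Continuous (rh (n := n) V) := by
  unfold rh S1
  fun_prop

lemma rh_meas {V : ℝ → ℝ} (hV : Continuous V) :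
    Measurable fun x : Eu (Fin n) => ENNReal.ofReal (rh V x) :=
  (rh_cont hV).measurable.ennreal_ofReal

lemma MC_eq {V : ℝ → ℝ} (hV : Continuous V) {R : Fin n → Fin n → Prop} (hms : 0 < msA V R)
    (G : Eu (Fin n) → ℝ) : MA V R G = ∫ x, G x ∂(nu V R) := by
  unfold nu MA
  rw [integral_smul_measure, integral_withDensity_eq_integral_toReal_smul (rh_meas hV)
    (Filter.Eventually.of_forall fun x => ENNReal.ofReal_lt_top)]
  rw [ENNReal.toReal_inv, ENNReal.toReal_ofReal hms.le, smul_eq_mul, div_eq_inv_mul]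
  congr 1
  refine integral_congr_ae (Filter.Eventually.of_forall fun x => ?_)
  show G x * rh V x = (ENNReal.ofReal (rh V x)).toReal • G x
  rw [ENNReal.toReal_ofReal (rh_pos V x).le, smul_eq_mul, mul_comm]

lemma nu_prob {V : ℝ → ℝ} {R : Fin n → Fin n → Prop} (hms : 0 < msA V R) :
    IsProbabilityMeasure (nu V R) := by
  constructor
  have hint : Integrable (rh V) (volume.restrict (CA R)) := by
    by_contra h
    have : msA V R = 0 := integral_undef h
    rw [this] at hms
    exact lt_irrefl _ hms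
  unfold nu
  rw [Measure.smul_apply, withDensity_apply _ MeasurableSet.univ, Measure.restrict_univ,
    ← ofReal_integral_eq_lintegral_ofReal hint
      (Filter.Eventually.of_forall fun x => (rh_pos V x).le), smul_eq_mul]
  exact ENNReal.inv_mul_cancel (by
    rw [Ne, ENNReal.ofReal_eq_zero, not_le]; exact hms) ENNReal.ofReal_ne_top

lemma int_nu {V : ℝ → ℝ} (hV : Continuous V) {R : Fin n → Fin n → Prop} (hms : 0 < msA V R)
    {G : Eu (Fin n) → ℝ} (hG : Integrable fun x => G x * rh V x) : Integrable G (nu V R) := by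
  unfold nu
  refine Integrable.smul_measure ?_ (by
    rw [Ne, ENNReal.inv_eq_top, ENNReal.ofReal_eq_zero, not_le]; exact hms)
  rw [integrable_withDensity_iff_integrable_smul' (rh_meas hV)
    (Filter.Eventually.of_forall fun x => ENNReal.ofReal_lt_top)]
  refine (hG.restrict (s := CA R)).congr (Filter.Eventually.of_forall fun x => ?_)
  show G x * rh V x = (ENNReal.ofReal (rh V x)).toReal • G x
  rw [ENNReal.toReal_ofReal (rh_pos V x).le, smul_eq_mul, mul_comm]

lemma L2_nu {V : ℝ → ℝ} (hV : Continuous V) {R : Fin n → Fin n → Prop} (hms : 0 < msA V R)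
    {G : Eu (Fin n) → ℝ} (hc : Continuous G) (hG : Integrable fun x => G x ^ 2 * rh V x) :
    MemLp G 2 (nu V R) :=
  (memLp_two_iff_integrable_sq hc.aestronglyMeasurable).2 (int_nu hV hms hG)

end nu

end RLA

open RLA in
theorem t_RLA (h_WFA : S_WFA) (h_IBA : S_IBA) (h_MOA : S_MOA) (h_PCA : S_PCA) (h_ODA : S_ODA) :
    S_RLA := by
  obtain ⟨C, hC, hWF⟩ := h_WFA
  obtain ⟨C1, hC1, hPCN⟩ := h_PCA
  obtain ⟨C', hC', hOD⟩ := h_ODA
  have hC0 : (0 : ℝ) < C := by linarith
  have hC10 : (0 : ℝ) < C1 := by linarith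
  have hC'0 : (0 : ℝ) < C' := by linarith
  refine ⟨min (1 / (4 * C ^ 3)) (1 / (2 * C ^ 3 * (1 + 4 * C ^ 3 * C1 * C'))),
    lt_min (by positivity) (by positivity), ?_⟩
  intro n R V V' hn hNV hms
  obtain ⟨w, h, hwc, hhc, hder, hwb, hhb, hwl, hh0, hhV, hw2⟩ := hWF V V' hNV
  obtain ⟨-, -, -, hr0, hr, hV4⟩ := hOD V V' hNV
  have hn' : (1 : ℝ) ≤ n := by exact_mod_cast hn
  have hVc : Continuous V := continuous_iff_continuousAt.2 fun t => (hNV.cv.der t).continuousAt
  have hf0 : Integrable fun t => Real.exp (-V t) := hNV.nd.int0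
  have hf1 : ∫ t, Real.exp (-V t) = 1 := hNV.nd.mass
  have hf2 : Integrable fun t => t ^ 2 * Real.exp (-V t) := hNV.nd.int2
  have hprob : IsProbabilityMeasure (nu V R) := nu_prob hms
  have hM := h_MOA n R V V' hNV hms
  have hfc : Continuous fun t => Real.exp (-V t) := by fun_prop
  -- V² f, V f integrable
  have hfV2 : Integrable fun t => V t ^ 2 * Real.exp (-V t) := by
    refine (hf0.add hV4).mono' (by fun_prop) (Filter.Eventually.of_forall fun t => ?_)
    rw [Real.norm_eq_abs, abs_of_nonneg (by positivity)]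
    show V t ^ 2 * Real.exp (-V t) ≤ Real.exp (-V t) + V t ^ 4 * Real.exp (-V t)
    have h1 : V t ^ 2 ≤ 1 + V t ^ 4 := by nlinarith [sq_nonneg (V t ^ 2 - 1), sq_nonneg (V t)]
    nlinarith [Real.exp_pos (-V t)]
  have hfV : Integrable fun t => V t * Real.exp (-V t) := by
    refine (hf0.add hfV2).mono' (by fun_prop) (Filter.Eventually.of_forall fun t => ?_)
    rw [Real.norm_eq_abs, abs_mul, abs_of_pos (Real.exp_pos _)]
    show |V t| * Real.exp (-V t) ≤ Real.exp (-V t) + V t ^ 2 * Real.exp (-V t)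
    have h1 : |V t| ≤ 1 + V t ^ 2 := by
      rw [← sq_abs]; nlinarith [sq_nonneg (|V t| - 1), abs_nonneg (V t)]
    nlinarith [Real.exp_pos (-V t)]
  -- the function V - m
  have hc2 : Integrable fun t => (V t - mV V) ^ 2 * Real.exp (-V t) := by
    have : (fun t => (V t - mV V) ^ 2 * Real.exp (-V t)) = fun t =>
        (V t ^ 2 * Real.exp (-V t) - (2 * mV V) * (V t * Real.exp (-V t))) +
          mV V ^ 2 * Real.exp (-V t) := by
      funext t; ring
    rw [this]
    exact (hfV2.sub (hfV.const_mul _)).add (hf0.const_mul _)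
  have hc0 : ∫ t, (V t - mV V) * Real.exp (-V t) = 0 := by
    have : (fun t => (V t - mV V) * Real.exp (-V t)) = fun t =>
        V t * Real.exp (-V t) - mV V * Real.exp (-V t) := by
      funext t; ring
    rw [this, integral_sub hfV (hf0.const_mul _), integral_const_mul, hf1]
    unfold mV
    ring
  have hSc : ∀ x : Eu (Fin n), Sc V x = ∑ i, (V (x i) - mV V) := by
    intro x
    unfold Sc S1
    rw [Finset.sum_sub_distrib]
    simp
  have hcc : Continuous fun t => V t - mV V := by fun_prop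
  obtain ⟨mS1, mS2, mS3, -⟩ := hM (fun t => V t - mV V) hcc hc2
  -- h
  have hhI : Integrable fun t => h t ^ 2 * Real.exp (-V t) := by
    refine (hf0.const_mul (C ^ 2)).mono' (by fun_prop) (Filter.Eventually.of_forall fun t => ?_)
    rw [Real.norm_eq_abs, abs_of_nonneg (by positivity)]
    have : h t ^ 2 ≤ C ^ 2 := by
      rw [← sq_abs]; gcongr; exact hhb t
    exact mul_le_mul_of_nonneg_right this (Real.exp_pos _).le
  obtain ⟨mH1, mH2, mH3, mH4⟩ := hM h hhc hhI
  -- w²
  have hwI : Integrable fun t => (w t ^ 2) ^ 2 * Real.exp (-V t) := by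
    refine (hf0.const_mul (C ^ 4)).mono' (by fun_prop) (Filter.Eventually.of_forall fun t => ?_)
    rw [Real.norm_eq_abs, abs_of_nonneg (by positivity)]
    have : (w t ^ 2) ^ 2 ≤ C ^ 4 := by
      have h1 : (w t ^ 2) ^ 2 = |w t| ^ 4 := by
        rw [← sq_abs (w t)]; ring
      rw [h1]; gcongr; exact hwb t
    exact mul_le_mul_of_nonneg_right this (Real.exp_pos _).le
  obtain ⟨mW1, -, -, -⟩ := hM (fun t => w t ^ 2) (by fun_prop) hwI
  -- |t|
  obtain ⟨-, mA2, -, -⟩ := hM (fun t => |t|) (by fun_prop) (by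
    simpa only [sq_abs] using hf2)
  -- 1
  obtain ⟨-, mO2, -, -⟩ := hM (fun _ => 1) continuous_const (by simpa using hf0)
  have hρ : Integrable (rh (n := n) V) := by
    have h1 := mO2.const_mul (((n : ℝ) ^ 2)⁻¹)
    refine h1.congr (Filter.Eventually.of_forall fun x => ?_)
    simp only [Finset.sum_const, Finset.card_univ, Fintype.card_fin, nsmul_eq_mul, mul_one]
    have : (n : ℝ) ≠ 0 := by positivity
    field_simp
  have hρc : Continuous (rh (n := n) V) := rh_cont hVc
  have hx2 : ∀ i, Integrable fun x : Eu (Fin n) => x i ^ 2 * rh V x := by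
    intro i
    refine mA2.mono' (by fun_prop) (Filter.Eventually.of_forall fun x => ?_)
    rw [Real.norm_eq_abs, abs_of_nonneg (mul_nonneg (sq_nonneg _) (rh_pos V x).le)]
    refine mul_le_mul_of_nonneg_right ?_ (rh_pos V x).le
    rw [← sq_abs]
    gcongr
    exact Finset.single_le_sum (f := fun j => |x j|) (fun j _ => abs_nonneg _) (Finset.mem_univ i)
  have hx1 : ∀ i, Integrable fun x : Eu (Fin n) => x i * rh V x := by
    intro i
    refine (hρ.add (hx2 i)).mono' (by fun_prop) (Filter.Eventually.of_forall fun x => ?_)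
    rw [Real.norm_eq_abs, abs_mul, abs_of_pos (rh_pos V x)]
    show |x i| * rh V x ≤ rh V x + x i ^ 2 * rh V x
    have h1 : |x i| ≤ 1 + x i ^ 2 := by
      rw [← sq_abs]; nlinarith [sq_nonneg (|x i| - 1), abs_nonneg (x i)]
    nlinarith [rh_pos V x]
  have hbd : ∀ (g : ℝ → ℝ) (i j : Fin n), Continuous g → (∀ t, |g t| ≤ C) →
      Integrable fun x : Eu (Fin n) => x j * g (x i) * rh V x := by
    intro g i j hg hgb
    refine ((hx1 j).norm.const_mul C).mono' (by fun_prop)
      (Filter.Eventually.of_forall fun x => ?_)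
    rw [Real.norm_eq_abs, Real.norm_eq_abs, abs_mul, abs_mul, abs_mul]
    calc |x j| * |g (x i)| * |rh V x| ≤ |x j| * C * |rh V x| := by gcongr; exact hgb _
      _ = _ := by ring
  -- integration by parts
  have hIB : ∀ j : Fin n, ∫ x, w (x j) ∂(nu V R) = ∫ x, x j * (∑ i, h (x i)) ∂(nu V R) := by
    intro j
    have hfd : ∀ (x v : Eu (Fin n)), fderiv ℝ (fun x : Eu (Fin n) => x j) x v = v j := by
      intro x v
      have : (fun x : Eu (Fin n) => x j) = (EuclideanSpace.proj j : Eu (Fin n) →L[ℝ] ℝ) := rfl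
      rw [this, ContinuousLinearMap.fderiv]
      rfl
    have h1 := h_IBA n R V V' hNV w h hwc hhc hder (fun x => x j)
      (by
        have : (fun x : Eu (Fin n) => x j) = (EuclideanSpace.proj j : Eu (Fin n) →L[ℝ] ℝ) := rfl
        rw [this]
        exact ContinuousLinearMap.contDiff _)
      (fun i => by
        simp only [hfd]
        refine (hρ.const_mul C).mono' ?_ (Filter.Eventually.of_forall fun x => ?_)
        · exact ((continuous_const.mul (hwc.comp (by fun_prop))).mul hρc).aestronglyMeasurable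
        · rw [Real.norm_eq_abs, abs_mul, abs_mul, abs_of_pos (rh_pos V x)]
          have e1 : |(EuclideanSpace.single i (1 : ℝ)) j| ≤ 1 := by
            rw [EuclideanSpace.single_apply]
            split_ifs <;> simp
          have e2 : |(EuclideanSpace.single i (1 : ℝ)) j| * |w (x i)| ≤ 1 * C :=
            mul_le_mul e1 (hwb _) (abs_nonneg _) zero_le_one
          rw [one_mul] at e2
          exact mul_le_mul_of_nonneg_right e2 (rh_pos V x).le)
      (fun i => hbd w i j hwc hwb) (fun i => hbd h i j hhc hhb)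
    simp only [hfd] at h1
    rw [← MC_eq hVc hms, ← MC_eq hVc hms]
    unfold MA
    rw [h1]
  -- L²
  have hL2x : ∀ i, MemLp (fun x : Eu (Fin n) => x i) 2 (nu V R) := fun i =>
    L2_nu hVc hms (by fun_prop) (hx2 i)
  have hSce : Sc (n := n) V = fun x => ∑ i, (V (x i) - mV V) := funext hSc
  have hL2S : MemLp (Sc (n := n) V) 2 (nu V R) := by
    rw [hSce]
    exact L2_nu hVc hms (by fun_prop) mS2
  have hL2H : MemLp (fun x : Eu (Fin n) => ∑ i, h (x i)) 2 (nu V R) :=
    L2_nu hVc hms (by fun_prop) mH2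
  -- Poincare
  have hPo : ∀ θ : Eu (Fin n), ∫ x, ⟪x, θ⟫_ℝ ^ 2 ∂(nu V R) - (∫ x, ⟪x, θ⟫_ℝ ∂(nu V R)) ^ 2 ≤
      C1 * ‖θ‖ ^ 2 := by
    intro θ
    have hU : (fun x : Eu (Fin n) => ⟪x, θ⟫_ℝ) = (innerSL ℝ θ : Eu (Fin n) →L[ℝ] ℝ) := by
      funext x
      rw [innerSL_apply_apply, real_inner_comm]
    have h1 := hPCN n R V V' hNV hms (fun x => ⟪x, θ⟫_ℝ) ‖θ‖
      (by rw [hU]; exact ContinuousLinearMap.contDiff _) (norm_nonneg _)
      (fun x => by rw [hU, ContinuousLinearMap.fderiv, innerSL_apply_norm])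
      (by
        have h2 : Integrable fun x : Eu (Fin n) => ‖θ‖ ^ 2 * ∑ i, x i ^ 2 * rh V x :=
          (integrable_finsetSum _ fun i _ => hx2 i).const_mul _
        refine h2.mono' ?_ (Filter.Eventually.of_forall fun x => ?_)
        · have : Continuous fun x : Eu (Fin n) => ⟪x, θ⟫_ℝ := by fun_prop
          exact ((this.pow 2).mul hρc).aestronglyMeasurable
        · rw [Real.norm_eq_abs, abs_of_nonneg (mul_nonneg (sq_nonneg _) (rh_pos V x).le)]
          rw [← Finset.sum_mul, ← mul_assoc]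
          refine mul_le_mul_of_nonneg_right ?_ (rh_pos V x).le
          have e1 := abs_real_inner_le_norm x θ
          have e2 : ‖x‖ ^ 2 = ∑ i, x i ^ 2 := by
            rw [EuclideanSpace.norm_sq_eq]
            exact Finset.sum_congr rfl fun i _ => by rw [Real.norm_eq_abs, sq_abs]
          rw [← e2, ← sq_abs]
          calc |⟪x, θ⟫_ℝ| ^ 2 ≤ (‖x‖ * ‖θ‖) ^ 2 := by gcongr
            _ = _ := by ring)
    unfold VA at h1
    rw [MC_eq hVc hms, MC_eq hVc hms] at h1
    exact h1
  obtain ⟨θ, hθ, hfin⟩ := RLB.core hn (nu V R) (Sc V) (fun x => ∑ i, h (x i)) w C C1 C' (rV V) hC hC1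
    hC' hr0 hr hL2x hL2S hL2H hwc hwb hwl
    (by
      rw [← MC_eq hVc hms, hSce, mS1, hc0, mul_zero])
    (by
      rw [← MC_eq hVc hms (fun x => Sc V x ^ 2)]
      simp only [hSc]
      rw [mS3 hc0]
      rfl)
    (by
      rw [← MC_eq hVc hms, mH1, hh0, mul_zero])
    (by
      rw [← MC_eq hVc hms (fun x => (∑ i, h (x i)) ^ 2), mH3 hh0]
      have h1 : ∫ t, h t ^ 2 * Real.exp (-V t) ≤ ∫ t, C ^ 2 * Real.exp (-V t) := by
        refine integral_mono hhI (hf0.const_mul _) fun t => ?_
        have : h t ^ 2 ≤ C ^ 2 := by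
          rw [← sq_abs]; gcongr; exact hhb t
        exact mul_le_mul_of_nonneg_right this (Real.exp_pos _).le
      rw [integral_const_mul, hf1, mul_one] at h1
      exact mul_le_mul_of_nonneg_left h1 (by positivity))
    (by
      rw [← MC_eq hVc hms (fun x => (∑ i, h (x i)) * Sc V x)]
      simp only [hSc]
      rw [mH4 (fun t => V t - mV V) hcc hc2 hh0 hc0, hhV, mul_zero])
    hIB
    (by
      rw [← MC_eq hVc hms (fun x => ∑ i, w (x i) ^ 2), mW1]
      calc (n : ℝ) / C = n * (1 / C) := by ring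
        _ ≤ _ := mul_le_mul_of_nonneg_left hw2 (by positivity))
    hPo
  refine ⟨θ, hθ, hfin.trans (le_of_eq ?_)⟩
  unfold RA VA bA sC
  rw [MC_eq hVc hms, MC_eq hVc hms, MC_eq hVc hms]

end Pool.Agent.T2h31.OB
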