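import Pool.Agent.T2h31.OB.StmA
import Pool.Agent.R476.OR.E1b
import Pool.Agent.R476.OR.I

/-!
# Project OB, STA: the main inequality on the cone (type A)
Adapted from `T_STA.lean` (helper13).
-/

set_option autoImplicit false

namespace Pool.Agent.T2h31.OB.STA

open MeasureTheory Set Filter Topology
open scoped ENNReal InnerProductSpace
open Pool.Agent.W695.KH (Eu)
open Pool.Agent.Y506.RG (ND OB EW VW)
open Pool.Agent.R476.OR (CV NV mV rV FD SV KV LVL sgm sgd ind cs_w int_mul_w sgm_nonneg sgm_le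
  sgd_nonneg sgd_le sgd_low sgm_cont sgd_cont)
open Pool.Agent.T2h31.OB
open Pool.Agent.R476.OR.E1 (NV.cont quad i1)

variable {n : ℕ}

theorem s1_cont {V V' : ℝ → ℝ} (hV : NV V V') : Continuous (S1 (n := n) V) := by
  unfold S1
  refine continuous_finsetSum _ fun i _ => ?_
  have := NV.cont hV
  fun_prop

theorem cn_closed (R : Fin n → Fin n → Prop) : IsClosed (CA R) := by
  have : CA R = ⋂ p, ⋂ q, ⋂ (_ : R p q), {x : Eu (Fin n) | x p ≤ x q} := by
    ext x
    simp [CA]
  rw [this]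
  exact isClosed_iInter fun p => isClosed_iInter fun q => isClosed_iInter fun _ =>
    isClosed_le (by fun_prop) (by fun_prop)

/-- one-dimensional facts on the field -/
theorem one_dim {C : ℝ} {V V' v : ℝ → ℝ} (hV : NV V V') (hv : FD C V V' v) :
    (Integrable fun t => (V' t * v t - rV V) ^ 2 * Real.exp (-V t)) ∧
    (∫ t, (V' t * v t - rV V) * Real.exp (-V t) = 0) ∧
    ∫ t, (V' t * v t - rV V) ^ 2 * Real.exp (-V t) ≤ C * rV V := by
  have hVc : Continuous V := NV.cont hV
  have hfc : Continuous fun t => Real.exp (-V t) := Real.continuous_exp.comp hVc.neg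
  have hfi : Integrable fun t => Real.exp (-V t) := hV.nd.int0
  have hfm : ∫ t, Real.exp (-V t) = 1 := hV.nd.mass
  have hw1 : Integrable fun t => V' t * v t * Real.exp (-V t) := by
    have i1 : Integrable fun t => Real.exp (-V t) + (V' t * v t) ^ 2 * Real.exp (-V t) :=
      hfi.add hv.i2
    refine Integrable.mono' i1
      (((hV.cv.cont).mul hv.cont).mul hfc).aestronglyMeasurable
      (Eventually.of_forall fun t => ?_)
    rw [Real.norm_eq_abs, abs_mul, abs_of_nonneg (Real.exp_pos (-V t)).le]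
    have h1 : |V' t * v t| ≤ 1 + (V' t * v t) ^ 2 := by
      nlinarith [sq_abs (V' t * v t), sq_nonneg (|V' t * v t| - 1),
        abs_nonneg (V' t * v t)]
    nlinarith [mul_le_mul_of_nonneg_right h1 (Real.exp_pos (-V t)).le]
  refine ⟨?_, ?_, ?_⟩
  · have i1 : Integrable fun t => (V' t * v t) ^ 2 * Real.exp (-V t) -
        (2 * rV V) * (V' t * v t * Real.exp (-V t)) + rV V ^ 2 * Real.exp (-V t) :=
      (hv.i2.sub (hw1.const_mul _)).add (hfi.const_mul _)
    refine i1.congr (Eventually.of_forall fun t => ?_)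
    simp only
    ring
  · have h1 : ∫ t, (V' t * v t - rV V) * Real.exp (-V t) =
        ∫ t, (V' t * v t * Real.exp (-V t) - rV V * Real.exp (-V t)) := by
      refine integral_congr_ae (Eventually.of_forall fun t => ?_)
      simp only
      ring
    have i2 : Integrable fun t => rV V * Real.exp (-V t) := hfi.const_mul _
    rw [h1, integral_sub hw1 i2, integral_const_mul, hfm, hv.mean]
    ring
  · have i2 : Integrable fun t => (2 * rV V) * (V' t * v t * Real.exp (-V t)) :=
      hw1.const_mul _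
    have i3 : Integrable fun t => rV V ^ 2 * Real.exp (-V t) := hfi.const_mul _
    have i4 : Integrable fun t => (V' t * v t) ^ 2 * Real.exp (-V t) -
        (2 * rV V) * (V' t * v t * Real.exp (-V t)) := hv.i2.sub i2
    have h1 : ∫ t, (V' t * v t - rV V) ^ 2 * Real.exp (-V t) =
        ∫ t, ((V' t * v t) ^ 2 * Real.exp (-V t) -
        (2 * rV V) * (V' t * v t * Real.exp (-V t)) + rV V ^ 2 * Real.exp (-V t)) := by
      refine integral_congr_ae (Eventually.of_forall fun t => ?_)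
      simp only
      ring
    rw [h1, integral_add i4 i3, integral_sub hv.i2 i2, integral_const_mul, integral_const_mul,
      hfm, hv.mean]
    have := hv.b2
    nlinarith [sq_nonneg (rV V)]

/-- the normalised weight -/
noncomputable def rn (V : ℝ → ℝ) (R : Fin n → Fin n → Prop) (x : Eu (Fin n)) : ℝ :=
  rh V x / msA V R

theorem mc_eq (V : ℝ → ℝ) (R : Fin n → Fin n → Prop) (G : Eu (Fin n) → ℝ) :
    ∫ x in CA R, G x * rn V R x = MA V R G := by
  unfold MA rn
  rw [← integral_div]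
  refine integral_congr_ae (Eventually.of_forall fun x => ?_)
  simp only
  ring

theorem rh_pos (V : ℝ → ℝ) (x : Eu (Fin n)) : 0 < rh V x := Real.exp_pos _

theorem rh_cont {V V' : ℝ → ℝ} (hV : NV V V') : Continuous (rh (n := n) V) := by
  unfold rh
  have : Continuous (S1 (n := n) V) := s1_cont hV
  fun_prop

/-- on the whole space: integrability of `φ(x_i)² ρ` -/
theorem int_i {V V' : ℝ → ℝ} (hV : NV V V') (R : Fin n → Fin n → Prop) (hmo : S_MOA)
    (hM : 0 < msA V R) (φ : ℝ → ℝ) (hφ : Continuous φ)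
    (hi : Integrable fun t => φ t ^ 2 * Real.exp (-V t)) (i : Fin n) :
    Integrable fun x : Eu (Fin n) => φ (x i) ^ 2 * rh V x := by
  obtain ⟨-, B, -⟩ := hmo n R V V' hV hM (fun t => |φ t|) hφ.abs
    (by simpa only [sq_abs] using hi)
  have hc : Continuous (rh (n := n) V) := rh_cont hV
  refine B.mono' (by fun_prop) (Eventually.of_forall fun x => ?_)
  rw [Real.norm_eq_abs, abs_of_nonneg (mul_nonneg (by positivity) (rh_pos V x).le)]
  refine mul_le_mul_of_nonneg_right ?_ (rh_pos V x).le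
  rw [← sq_abs]
  have h1 : |φ (x i)| ≤ ∑ i, |φ (x i)| :=
    Finset.single_le_sum (f := fun i => |φ (x i)|) (fun j _ => abs_nonneg _) (Finset.mem_univ i)
  exact pow_le_pow_left₀ (abs_nonneg _) h1 2

/-- on the whole space: integrability of `φ(x_i) ρ` -/
theorem int_i1 {V V' : ℝ → ℝ} (hV : NV V V') (R : Fin n → Fin n → Prop) (hmo : S_MOA)
    (hM : 0 < msA V R) (φ : ℝ → ℝ) (hφ : Continuous φ)
    (hi : Integrable fun t => φ t ^ 2 * Real.exp (-V t)) (i : Fin n) :
    Integrable fun x : Eu (Fin n) => |φ (x i)| * rh V x := by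
  have h1 := int_i hV R hmo hM φ hφ hi i
  have h2 := int_i hV R hmo hM (fun _ => 1) continuous_const
    (by simpa using hV.nd.int0) i
  have hc : Continuous (rh (n := n) V) := rh_cont hV
  refine (h1.add h2).mono' (by fun_prop) (Eventually.of_forall fun x => ?_)
  rw [Real.norm_eq_abs, abs_of_nonneg (mul_nonneg (abs_nonneg _) (rh_pos V x).le)]
  simp only [Pi.add_apply]
  have := rh_pos V x
  nlinarith [sq_abs (φ (x i)), sq_nonneg (|φ (x i)| - 1), abs_nonneg (φ (x i))]

/-- first moments of functions with only `φ f` integrable, `φ ≥ 0` -/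
theorem mom1 {V V' : ℝ → ℝ} (hV : NV V V') (R : Fin n → Fin n → Prop) (hmo : S_MOA)
    (hM : 0 < msA V R) (φ : ℝ → ℝ) (hφ : Continuous φ)
    (h0 : ∀ t, 0 ≤ φ t) (hi : Integrable fun t => φ t * Real.exp (-V t))
    (hs : Integrable (fun x : Eu (Fin n) => (∑ i, φ (x i)) * rn V R x)
      (volume.restrict (CA R))) :
    ∫ x in CA R, (∑ i, φ (x i)) * rn V R x ≤ n * ∫ t, φ t * Real.exp (-V t) := by
  have hVc : Continuous V := NV.cont hV
  have hrc : Continuous (rh (n := n) V) := rh_cont hV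
  have hr0 : ∀ x : Eu (Fin n), 0 ≤ rn V R x := fun x => div_nonneg (rh_pos V x).le hM.le
  have hrnc : Continuous (rn (n := n) V R) := by
    unfold rn
    fun_prop
  have hK : ∀ K : ℕ, ∫ x in CA R, (∑ i, min (φ (x i)) K) * rn V R x ≤
      n * ∫ t, φ t * Real.exp (-V t) := by
    intro K
    have i2 : Integrable fun t => min (φ t) K ^ 2 * Real.exp (-V t) := by
      refine (hV.nd.int0.const_mul ((K : ℝ) ^ 2)).mono' (by fun_prop)
        (Eventually.of_forall fun t => ?_)
      rw [Real.norm_eq_abs, abs_of_nonneg (by positivity)]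
      refine mul_le_mul_of_nonneg_right ?_ (Real.exp_pos _).le
      exact pow_le_pow_left₀ (le_min (h0 t) (Nat.cast_nonneg K)) (min_le_right _ _) 2
    obtain ⟨A, -⟩ := hmo n R V V' hV hM (fun t => min (φ t) K) (by fun_prop) i2
    rw [← mc_eq] at A
    rw [A]
    refine mul_le_mul_of_nonneg_left ?_ (Nat.cast_nonneg n)
    refine integral_mono_of_nonneg (Eventually.of_forall fun t => ?_) hi
      (Eventually.of_forall fun t => ?_)
    · exact mul_nonneg (le_min (h0 t) (Nat.cast_nonneg K)) (Real.exp_pos _).le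
    · exact mul_le_mul_of_nonneg_right (min_le_left _ _) (Real.exp_pos _).le
  have hlim : Tendsto (fun K : ℕ => ∫ x in CA R, (∑ i, min (φ (x i)) K) * rn V R x) atTop
      (𝓝 (∫ x in CA R, (∑ i, φ (x i)) * rn V R x)) := by
    refine tendsto_integral_of_dominated_convergence
      (fun x => (∑ i, φ (x i)) * rn V R x) (fun K => ?_) hs (fun K => ?_) ?_
    · exact Continuous.aestronglyMeasurable (by fun_prop)
    · refine Eventually.of_forall fun x => ?_
      rw [Real.norm_eq_abs, abs_of_nonneg (mul_nonneg (Finset.sum_nonneg fun i _ =>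
        le_min (h0 _) (Nat.cast_nonneg K)) (hr0 x))]
      exact mul_le_mul_of_nonneg_right (Finset.sum_le_sum fun i _ => min_le_left _ _) (hr0 x)
    · refine Eventually.of_forall fun x => ?_
      refine tendsto_const_nhds.congr' ?_
      obtain ⟨K0, hK0⟩ := exists_nat_ge (∑ i, φ (x i))
      filter_upwards [eventually_ge_atTop K0] with K hK
      congr 1
      refine Finset.sum_congr rfl fun i _ => ?_
      rw [min_eq_left]
      have h1 : φ (x i) ≤ ∑ i, φ (x i) :=
        Finset.single_le_sum (f := fun i => φ (x i)) (fun j _ => h0 _) (Finset.mem_univ i)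
      have h2 : (K0 : ℝ) ≤ K := by exact_mod_cast hK
      linarith
  exact le_of_tendsto' hlim hK

/-- the facts which are used -/
structure Pk (C : ℝ) (V V' v : ℝ → ℝ) (R : Fin n → Fin n → Prop) (k0 : ℝ) : Prop where
  k0n : 0 ≤ k0
  one : Integrable (fun x : Eu (Fin n) => rn V R x) (volume.restrict (CA R))
  mass : ∫ x in CA R, rn V R x = 1
  a0 : Integrable (fun x : Eu (Fin n) =>
    (∑ i, V' (x i) * v (x i) - k0) ^ 2 * rn V R x) (volume.restrict (CA R))
  a1 : ∫ x in CA R, (∑ i, V' (x i) * v (x i) - k0) ^ 2 * rn V R x ≤ C * k0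
  b0 : Integrable (fun x : Eu (Fin n) => Sc V x ^ 2 * rn V R x) (volume.restrict (CA R))
  b1 : ∫ x in CA R, Sc V x ^ 2 * rn V R x = k0
  c0 : Integrable (fun x : Eu (Fin n) => (∑ i, v (x i) ^ 2) * rn V R x)
    (volume.restrict (CA R))
  c1 : ∫ x in CA R, (∑ i, v (x i) ^ 2) * rn V R x ≤ C * k0

theorem pk {C : ℝ} {V V' v : ℝ → ℝ} (hV : NV V V') (R : Fin n → Fin n → Prop) (hmo : S_MOA)
    (hM : 0 < msA V R) (h4 : Integrable fun t => V t ^ 4 * Real.exp (-V t))
    (hv : FD C V V' v) : Pk C V V' v R (n * rV V) := by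
  have hVc : Continuous V := NV.cont hV
  have hrc : Continuous (rh (n := n) V) := rh_cont hV
  have hr0 : 0 ≤ rV V := integral_nonneg fun t => mul_nonneg (sq_nonneg _) (Real.exp_pos _).le
  have toI : ∀ G : Eu (Fin n) → ℝ, Integrable (fun x => G x * rh V x) →
      Integrable (fun x => G x * rn V R x) (volume.restrict (CA R)) := by
    intro G hG
    refine ((hG.const_mul (1 / msA V R)).restrict (s := CA R)).congr
      (Eventually.of_forall fun x => ?_)
    simp only
    unfold rn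
    ring
  have one0 : Integrable (rh (n := n) V) (volume.restrict (CA R)) := by
    by_contra h
    have : msA V R = 0 := integral_undef h
    exact hM.ne' this
  obtain ⟨q1, q2, q3⟩ := quad hV h4 0 1
  simp only [zero_mul, one_mul, zero_add, ne_eq, OfNat.ofNat_ne_zero, not_false_eq_true,
    zero_pow, mul_zero, one_pow] at q1 q2 q3
  obtain ⟨w2, w0, w3⟩ := one_dim hV hv
  obtain ⟨-, B2, B3, -⟩ := hmo n R V V' hV hM (fun t => V t - mV V) (by fun_prop) q1
  have B4 := B3 q3
  have hV'c := hV.cv.cont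
  have hvc := hv.cont
  obtain ⟨-, A2, A3, -⟩ := hmo n R V V' hV hM (fun t => V' t * v t - rV V) (by fun_prop) w2
  have A4 := A3 w0
  have e1 : ∀ x : Eu (Fin n), ∑ i, (V (x i) - mV V) = Sc V x := by
    intro x
    unfold Sc S1
    rw [Finset.sum_sub_distrib]
    simp
  have e2 : ∀ x : Eu (Fin n), ∑ i, (V' (x i) * v (x i) - rV V) =
      ∑ i, V' (x i) * v (x i) - n * rV V := by
    intro x
    rw [Finset.sum_sub_distrib]
    simp
  simp only [e1] at B2 B4
  simp only [e2] at A2 A4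
  rw [← mc_eq] at A4 B4
  have c00 : Integrable (fun x : Eu (Fin n) => (∑ i, v (x i) ^ 2) * rn V R x)
      (volume.restrict (CA R)) := by
    refine toI (fun x => ∑ i, v (x i) ^ 2) ?_
    simp only [Finset.sum_mul]
    exact integrable_finsetSum _ fun i _ => int_i hV R hmo hM v hv.cont
      hv.i1 i
  refine ⟨by positivity, ?_, ?_, toI _ A2, ?_, toI _ B2, ?_, c00, ?_⟩
  · refine (one0.const_mul (1 / msA V R)).congr (Eventually.of_forall fun x => ?_)
    simp only
    unfold rn
    ring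
  · unfold rn
    rw [integral_div]
    exact div_self hM.ne'
  · rw [A4]
    have := mul_le_mul_of_nonneg_left w3 (Nat.cast_nonneg (α := ℝ) n)
    linarith
  · rw [B4, q2]
  · have hm := mom1 hV R hmo hM (fun t => v t ^ 2) (by fun_prop)
      (fun t => sq_nonneg _) hv.i1 c00
    refine hm.trans ?_
    have := mul_le_mul_of_nonneg_left hv.b1 (Nat.cast_nonneg (α := ℝ) n)
    linarith

theorem sgm_der (r : ℝ) : HasDerivAt sgm (sgd r) r := by
  have h0 : 0 < Real.exp (-r) := Real.exp_pos _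
  have h1 : HasDerivAt (fun r : ℝ => 1 + Real.exp (-r)) (-Real.exp (-r)) r := by
    have := ((hasDerivAt_neg r).exp).const_add 1
    simpa using this
  have h2 := h1.inv (by positivity)
  unfold sgm sgd
  simp only [one_div]
  refine h2.congr_deriv ?_
  field_simp

theorem sgm_cd : ContDiff ℝ 1 sgm := by
  unfold sgm
  refine ContDiff.div contDiff_const (contDiff_const.add (Real.contDiff_exp.comp contDiff_neg))
    fun r => ?_
  have := Real.exp_pos (-r)
  positivity

theorem v_cd {V V' : ℝ → ℝ} (hV : NV V V') : ContDiff ℝ 1 V := by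
  rw [contDiff_one_iff_deriv]
  have h1 : deriv V = V' := funext fun t => (hV.cv.der t).deriv
  rw [h1]
  exact ⟨fun t => (hV.cv.der t).differentiableAt, hV.cv.cont⟩

theorem s1_cd {V V' : ℝ → ℝ} (hV : NV V V') : ContDiff ℝ 1 (S1 (n := n) V) := by
  unfold S1
  refine ContDiff.sum fun i _ => (v_cd hV).comp ?_
  fun_prop

theorem s1_der {V V' : ℝ → ℝ} (hV : NV V V') (x : Eu (Fin n)) :
    HasFDerivAt (S1 (n := n) V) (∑ i, V' (x i) • (EuclideanSpace.proj i : Eu (Fin n) →L[ℝ] ℝ)) x := by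
  unfold S1
  refine HasFDerivAt.fun_sum fun i _ => ?_
  exact (hV.cv.der (x i)).comp_hasFDerivAt x
    (EuclideanSpace.proj i : Eu (Fin n) →L[ℝ] ℝ).hasFDerivAt

/-- the test function -/
noncomputable def GU (V : ℝ → ℝ) (E : ℝ) (U : Eu (Fin n) → ℝ) (x : Eu (Fin n)) : ℝ :=
  U x * sgm (S1 V x - E)

theorem gu_cd {V V' : ℝ → ℝ} (hV : NV V V') (E : ℝ) {U : Eu (Fin n) → ℝ} (hU : ContDiff ℝ 1 U) :
    ContDiff ℝ 1 (GU V E U) := by
  unfold GU
  exact hU.mul (sgm_cd.comp ((s1_cd hV).sub contDiff_const))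

theorem gu_der {V V' : ℝ → ℝ} (hV : NV V V') (E : ℝ) {U : Eu (Fin n) → ℝ} (hU : ContDiff ℝ 1 U)
    (x y : Eu (Fin n)) : fderiv ℝ (GU V E U) x y = sgm (S1 V x - E) * fderiv ℝ U x y +
      U x * sgd (S1 V x - E) * ∑ i, V' (x i) * y i := by
  have h1 : HasFDerivAt U (fderiv ℝ U x) x :=
    ((hU.differentiable one_ne_zero) x).hasFDerivAt
  have h2 : HasFDerivAt (fun x => S1 V x - E)
      (∑ i, V' (x i) • (EuclideanSpace.proj i : Eu (Fin n) →L[ℝ] ℝ)) x := (s1_der hV x).sub_const E
  have h3 := (sgm_der (S1 V x - E)).comp_hasFDerivAt x h2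
  have h4 := h1.mul h3
  have h5 : HasFDerivAt (GU V E U) _ x := h4
  rw [h5.fderiv]
  simp
  ring

/-- integration by parts -/
theorem ibp {C : ℝ} {V V' v : ℝ → ℝ} (hV : NV V V') (R : Fin n → Fin n → Prop) (hi : S_IBA)
    (hmo : S_MOA)
    (hM : 0 < msA V R) (h4 : Integrable fun t => V t ^ 4 * Real.exp (-V t))
    (hv : FD C V V' v) (U : Eu (Fin n) → ℝ) (l E : ℝ)
    (hU : ContDiff ℝ 1 U) (hU4 : ∀ x, |U x| ≤ 4) (hl : 0 ≤ l) (hUl : ∀ x, ‖fderiv ℝ U x‖ ≤ l) :
    ∫ x in CA R, (sgm (S1 V x - E) * fderiv ℝ U x (WithLp.toLp 2 fun i => v (x i)) +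
      U x * sgd (S1 V x - E) * ∑ i, V' (x i) * v (x i)) * rn V R x =
    ∫ x in CA R, U x * sgm (S1 V x - E) * Sc V x * rn V R x := by
  have hVc : Continuous V := NV.cont hV
  have hrc : Continuous (rh (n := n) V) := rh_cont hV
  have hG := gu_cd hV E hU
  have hGf : Continuous fun x => fderiv ℝ (GU V E U) x := hG.continuous_fderiv one_ne_zero
  have hGc := hG.continuous
  have hvc := hv.cont
  have hV'c := hV.cv.cont
  obtain ⟨q1, -, -⟩ := quad hV h4 0 1
  simp only [zero_mul, one_mul, zero_add, ne_eq, OfNat.ofNat_ne_zero, not_false_eq_true,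
    zero_pow, mul_zero, one_pow] at q1
  have hGb : ∀ x, |GU V E U x| ≤ 4 := by
    intro x
    unfold GU
    rw [abs_mul, abs_of_nonneg (sgm_nonneg _)]
    nlinarith [hU4 x, abs_nonneg (U x), sgm_nonneg (S1 V x - E), sgm_le (S1 V x - E)]
  have iv : ∀ i, Integrable fun x : Eu (Fin n) => |v (x i)| * rh V x :=
    int_i1 hV R hmo hM v hvc hv.i1
  have iw : ∀ i, Integrable fun x : Eu (Fin n) => |V' (x i) * v (x i)| * rh V x :=
    int_i1 hV R hmo hM (fun t => V' t * v t) (by fun_prop) hv.i2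
  have ih : ∀ i, Integrable fun x : Eu (Fin n) => |V (x i) - mV V| * rh V x :=
    int_i1 hV R hmo hM (fun t => V t - mV V) (by fun_prop) q1
  have key := hi n R V V' hV v (fun t => V t - mV V) hvc (by fun_prop) hv.der (GU V E U) hG
    (fun i => by
      refine (((iv i).const_mul l).add ((iw i).const_mul 4)).mono'
        (((hGf.clm_apply continuous_const).mul (by fun_prop)).mul hrc).aestronglyMeasurable
        (Eventually.of_forall fun x => ?_)
      rw [Real.norm_eq_abs, abs_mul, abs_of_pos (rh_pos V x), gu_der hV E hU]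
      simp only [Pi.add_apply]
      rw [← mul_assoc, ← mul_assoc, ← add_mul]
      refine mul_le_mul_of_nonneg_right ?_ (rh_pos V x).le
      have e1 : ∑ j, V' (x j) * (EuclideanSpace.single i (1 : ℝ) : Eu (Fin n)) j = V' (x i) := by
        simp [PiLp.single_apply]
      rw [e1, add_mul]
      refine (abs_add_le _ _).trans (add_le_add ?_ ?_)
      · rw [abs_mul]
        refine mul_le_mul_of_nonneg_right ?_ (abs_nonneg _)
        rw [abs_mul, abs_of_nonneg (sgm_nonneg _)]
        have h1 := (fderiv ℝ U x).le_opNorm (EuclideanSpace.single i (1 : ℝ))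
        rw [Real.norm_eq_abs] at h1
        have h2 : ‖(EuclideanSpace.single i (1 : ℝ) : Eu (Fin n))‖ = 1 := by simp
        rw [h2, mul_one] at h1
        calc sgm (S1 V x - E) * |fderiv ℝ U x (EuclideanSpace.single i 1)| ≤
            1 * l := mul_le_mul (sgm_le _) (h1.trans (hUl x)) (abs_nonneg _) zero_le_one
          _ = l := one_mul l
      · rw [show U x * sgd (S1 V x - E) * V' (x i) * v (x i) =
          (U x * sgd (S1 V x - E)) * (V' (x i) * v (x i)) by ring, abs_mul]
        refine mul_le_mul_of_nonneg_right ?_ (abs_nonneg _)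
        rw [abs_mul, abs_of_nonneg (sgd_nonneg _)]
        nlinarith [hU4 x, abs_nonneg (U x), sgd_nonneg (S1 V x - E), sgd_le (S1 V x - E)])
    (fun i => by
      refine ((iv i).const_mul 4).mono' (by fun_prop) (Eventually.of_forall fun x => ?_)
      rw [Real.norm_eq_abs, abs_mul, abs_of_pos (rh_pos V x), ← mul_assoc, abs_mul]
      refine mul_le_mul_of_nonneg_right ?_ (rh_pos V x).le
      exact mul_le_mul_of_nonneg_right (hGb x) (abs_nonneg _))
    (fun i => by
      refine ((ih i).const_mul 4).mono' (by fun_prop) (Eventually.of_forall fun x => ?_)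
      rw [Real.norm_eq_abs, abs_mul, abs_of_pos (rh_pos V x), ← mul_assoc, abs_mul]
      refine mul_le_mul_of_nonneg_right ?_ (rh_pos V x).le
      exact mul_le_mul_of_nonneg_right (hGb x) (abs_nonneg _))
  have e1 : ∀ x : Eu (Fin n), ∑ i, (V (x i) - mV V) = Sc V x := by
    intro x
    unfold Sc S1
    rw [Finset.sum_sub_distrib]
    simp
  simp only [e1, gu_der hV E hU] at key
  have k1 := congrArg (fun t => t / msA V R) key
  simp only [← integral_div] at k1
  refine Eq.trans (integral_congr_ae (Eventually.of_forall fun x => ?_))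
    (k1.trans (integral_congr_ae (Eventually.of_forall fun x => ?_)))
  · simp only
    unfold rn
    ring
  · simp only
    unfold rn GU
    ring

end Pool.Agent.T2h31.OB.STA

namespace Pool.Agent.T2h31.OB

open MeasureTheory Set Filter Topology
open scoped ENNReal InnerProductSpace
open Pool.Agent.W695.KH (Eu)
open Pool.Agent.Y506.RG (ND OB EW VW)
open Pool.Agent.R476.OR (CV NV mV rV FD SV KV LVL sgm sgd ind cs_w int_mul_w sgm_nonneg sgm_le
  sgd_nonneg sgd_le sgd_low sgm_cont sgd_cont)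
open Pool.Agent.R476.OR.E1 (NV.cont quad i1)
open STA (rn mc_eq)

/-- **STA** -/
theorem t_STA (ha : Pool.Agent.R476.OR.S_FLD) (hi : S_IBA) (hmo : S_MOA)
    (hp : S_PLA) : S_STA := by
  obtain ⟨C, hC, ha⟩ := ha
  obtain ⟨c, hc0, hd⟩ := hp
  have hsC : 1 ≤ Real.sqrt C := Real.one_le_sqrt.2 hC
  refine ⟨17 * Real.sqrt C / c + 1, ?_, ?_⟩
  · have : 0 ≤ 17 * Real.sqrt C / c := by positivity
    linarith
  intro n R V V' hV hMp E hE U l η hU hU0 hU4 hl hUl hη hη1 hI
  obtain ⟨h4, v, hv⟩ := ha V V' hV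
  have P := STA.pk hV R hmo hMp h4 hv
  have hVc : Continuous V := NV.cont hV
  have hSc : Continuous (S1 (n := n) V) := STA.s1_cont hV
  have hUc := hU.continuous
  obtain ⟨k0, hk0⟩ : ∃ k0 : ℝ, k0 = n * rV V := ⟨_, rfl⟩
  rw [← hk0] at P
  have hk0n := P.k0n
  set μ : Measure (Eu (Fin n)) := volume.restrict (CA R) with hμ
  have hρ0 : ∀ x : Eu (Fin n), 0 ≤ rn V R x := fun x => div_nonneg (STA.rh_pos V x).le hMp.le
  have hρc : Continuous fun x : Eu (Fin n) => rn V R x := by
    have : Continuous (rh (n := n) V) := STA.rh_cont hV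
    unfold rn
    fun_prop
  have hmass : ∫ x, rn V R x ∂μ = 1 := P.mass
  have hI' : ∫ x, U x * rn V R x ∂μ ≤ η ^ 2 := by
    rw [mc_eq]
    exact hI
  -- bounded functions
  have hbd : ∀ a : Eu (Fin n) → ℝ, Continuous a → ∀ B : ℝ, (∀ x, |a x| ≤ B) →
      Integrable (fun x => a x * rn V R x) μ := by
    intro a hac B hB
    refine Integrable.mono' (P.one.const_mul B) (hac.mul hρc).aestronglyMeasurable
      (Eventually.of_forall fun x => ?_)
    rw [Real.norm_eq_abs, abs_mul, abs_of_nonneg (hρ0 x)]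
    exact mul_le_mul_of_nonneg_right (hB x) (hρ0 x)
  have hUabs : ∀ x, |U x| ≤ 4 := fun x => by rw [abs_of_nonneg (hU0 x)]; exact hU4 x
  have hUint := hbd U hUc 4 hUabs
  -- `∫ (U θ)² ρ ≤ 4 η²`
  have hsm : ∀ a : Eu (Fin n) → ℝ, Continuous a → (∀ x, 0 ≤ a x) → (∀ x, a x ≤ 1) →
      Integrable (fun x => (U x * a x) ^ 2 * rn V R x) μ ∧
      Real.sqrt (∫ x, (U x * a x) ^ 2 * rn V R x ∂μ) ≤ 2 * η := by
    intro a hac ha0 ha1
    have h0 : ∀ x, 0 ≤ U x * a x ∧ U x * a x ≤ U x := fun x =>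
      ⟨mul_nonneg (hU0 x) (ha0 x), by nlinarith [hU0 x, ha1 x]⟩
    have i1 : Integrable (fun x => (U x * a x) ^ 2 * rn V R x) μ :=
      hbd (fun x => (U x * a x) ^ 2) ((hUc.mul hac).pow 2) 16 fun x => by
        rw [abs_of_nonneg (sq_nonneg _)]
        have := h0 x
        have := hU4 x
        nlinarith
    refine ⟨i1, ?_⟩
    have h1 : ∫ x, (U x * a x) ^ 2 * rn V R x ∂μ ≤ ∫ x, 4 * (U x * rn V R x) ∂μ := by
      refine integral_mono i1 (hUint.const_mul 4) fun x => ?_
      simp only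
      have h2 : (U x * a x) ^ 2 ≤ 4 * U x := by
        have := h0 x
        have := hU4 x
        nlinarith [hU0 x]
      nlinarith [mul_le_mul_of_nonneg_right h2 (hρ0 x)]
    rw [integral_const_mul] at h1
    have h2 : ∫ x, (U x * a x) ^ 2 * rn V R x ∂μ ≤ (2 * η) ^ 2 := by nlinarith
    calc Real.sqrt (∫ x, (U x * a x) ^ 2 * rn V R x ∂μ) ≤ Real.sqrt ((2 * η) ^ 2) :=
          Real.sqrt_le_sqrt h2
      _ = 2 * η := Real.sqrt_sq (by positivity)
  have hd1c : Continuous fun x : Eu (Fin n) => sgd (S1 V x - E) :=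
    sgd_cont.comp (hSc.sub continuous_const)
  have hm1c : Continuous fun x : Eu (Fin n) => sgm (S1 V x - E) :=
    sgm_cont.comp (hSc.sub continuous_const)
  obtain ⟨u1, u2⟩ := hsm (fun x => sgd (S1 V x - E)) hd1c (fun x => sgd_nonneg _)
    fun x => sgd_le _
  obtain ⟨w1, w2⟩ := hsm (fun x => sgm (S1 V x - E)) hm1c (fun x => sgm_nonneg _)
    fun x => sgm_le _
  have hWc : Continuous fun x : Eu (Fin n) => ∑ i, V' (x i) * v (x i) := by
    refine continuous_finsetSum _ fun i _ => ?_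
    have hx : Continuous fun x : Eu (Fin n) => x i := by fun_prop
    exact (hV.cv.cont.comp hx).mul (hv.cont.comp hx)
  have hScc : Continuous fun x : Eu (Fin n) => Sc V x := by
    unfold Sc
    fun_prop
  -- first term
  have j1 := int_mul_w (μ := μ) (fun x => U x * sgd (S1 V x - E))
    (fun x : Eu (Fin n) => ∑ i, V' (x i) * v (x i) - k0) (fun x => rn V R x) hρ0 u1
    P.a0 (((hUc.mul hd1c).mul (hWc.sub continuous_const)).mul hρc).aestronglyMeasurable
  have k1 := cs_w (μ := μ) (fun x => U x * sgd (S1 V x - E))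
    (fun x : Eu (Fin n) => ∑ i, V' (x i) * v (x i) - k0) (fun x => rn V R x) hρ0 u1
    P.a0 j1
  -- second term
  have hb0 := P.b0
  have hb1 := P.b1
  have j2 := int_mul_w (μ := μ) (fun x => U x * sgm (S1 V x - E))
    (fun x : Eu (Fin n) => Sc V x) (fun x => rn V R x) hρ0 w1
    hb0 (((hUc.mul hm1c).mul hScc).mul hρc).aestronglyMeasurable
  have k2 := cs_w (μ := μ) (fun x => U x * sgm (S1 V x - E))
    (fun x : Eu (Fin n) => Sc V x) (fun x => rn V R x) hρ0 w1
    hb0 j2
  -- third term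
  have hvn : ∀ x : Eu (Fin n), ‖(WithLp.toLp 2 fun i => v (x i) : Eu (Fin n))‖ ^ 2 =
      ∑ i, v (x i) ^ 2 := by
    intro x
    rw [EuclideanSpace.norm_sq_eq]
    simp [sq_abs]
  have hvc : Continuous fun x : Eu (Fin n) => (WithLp.toLp 2 fun i => v (x i) : Eu (Fin n)) := by
    refine (PiLp.continuous_toLp 2 _).comp (continuous_pi fun i => ?_)
    have hx : Continuous fun x : Eu (Fin n) => x i := by fun_prop
    exact hv.cont.comp hx
  have c0' : Integrable (fun x : Eu (Fin n) =>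
      ‖(WithLp.toLp 2 fun i => v (x i) : Eu (Fin n))‖ ^ 2 * rn V R x) μ := by
    refine P.c0.congr (Eventually.of_forall fun x => ?_)
    simp only
    rw [hvn]
  have c1' : ∫ x : Eu (Fin n), ‖(WithLp.toLp 2 fun i => v (x i) : Eu (Fin n))‖ ^ 2 *
      rn V R x ∂μ ≤ C * k0 := by
    refine le_trans (le_of_eq ?_) P.c1
    refine integral_congr_ae (Eventually.of_forall fun x => ?_)
    simp only
    rw [hvn]
  have one2 : Integrable (fun x : Eu (Fin n) => (1 : ℝ) ^ 2 * rn V R x) μ := by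
    simpa using P.one
  have j3 := int_mul_w (μ := μ) (fun _ => (1 : ℝ))
    (fun x : Eu (Fin n) => ‖(WithLp.toLp 2 fun i => v (x i) : Eu (Fin n))‖)
    (fun x => rn V R x) hρ0 one2 c0' ((continuous_const.mul hvc.norm).mul
      hρc).aestronglyMeasurable
  have k3 := cs_w (μ := μ) (fun _ => (1 : ℝ))
    (fun x : Eu (Fin n) => ‖(WithLp.toLp 2 fun i => v (x i) : Eu (Fin n))‖)
    (fun x => rn V R x) hρ0 one2 c0' j3
  have hfd : Continuous fun x => fderiv ℝ U x := hU.continuous_fderiv one_ne_zero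
  have hb3 : ∀ x : Eu (Fin n), |sgm (S1 V x - E) *
      fderiv ℝ U x (WithLp.toLp 2 fun i => v (x i)) * rn V R x| ≤
      l * ((1 : ℝ) * ‖(WithLp.toLp 2 fun i => v (x i) : Eu (Fin n))‖ * rn V R x) := by
    intro x
    rw [abs_mul, abs_mul, abs_of_nonneg (hρ0 x), abs_of_nonneg (sgm_nonneg _), one_mul, ← mul_assoc]
    refine mul_le_mul_of_nonneg_right ?_ (hρ0 x)
    have h1 : |fderiv ℝ U x (WithLp.toLp 2 fun i => v (x i))| ≤
        l * ‖(WithLp.toLp 2 fun i => v (x i) : Eu (Fin n))‖ := by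
      have h2 := (fderiv ℝ U x).le_opNorm (WithLp.toLp 2 fun i => v (x i))
      rw [Real.norm_eq_abs] at h2
      exact h2.trans (mul_le_mul_of_nonneg_right (hUl x) (norm_nonneg _))
    calc sgm (S1 V x - E) * |fderiv ℝ U x (WithLp.toLp 2 fun i => v (x i))| ≤
          1 * |fderiv ℝ U x (WithLp.toLp 2 fun i => v (x i))| :=
          mul_le_mul_of_nonneg_right (sgm_le _) (abs_nonneg _)
      _ ≤ _ := by rw [one_mul]; exact h1
  have j4 : Integrable (fun x : Eu (Fin n) => sgm (S1 V x - E) *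
      fderiv ℝ U x (WithLp.toLp 2 fun i => v (x i)) * rn V R x) μ := by
    refine Integrable.mono' (j3.const_mul l) ((hm1c.mul (hfd.clm_apply hvc)).mul
      hρc).aestronglyMeasurable (Eventually.of_forall fun x => ?_)
    rw [Real.norm_eq_abs]
    exact hb3 x
  have k4 : |∫ x : Eu (Fin n), sgm (S1 V x - E) *
      fderiv ℝ U x (WithLp.toLp 2 fun i => v (x i)) * rn V R x ∂μ| ≤
      l * Real.sqrt (C * k0) := by
    have h1 := norm_integral_le_of_norm_le (j3.const_mul l) (Eventually.of_forall fun x => by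
      rw [Real.norm_eq_abs]
      exact hb3 x)
    rw [Real.norm_eq_abs, integral_const_mul] at h1
    refine h1.trans (mul_le_mul_of_nonneg_left ?_ hl)
    refine (le_abs_self _).trans (k3.trans ?_)
    have h2 : Real.sqrt (∫ x : Eu (Fin n), (1 : ℝ) ^ 2 * rn V R x ∂μ) = 1 := by
      simp only [one_pow, one_mul]
      rw [hmass, Real.sqrt_one]
    rw [h2, one_mul]
    exact Real.sqrt_le_sqrt c1'
  -- the identity
  obtain ⟨Q1, hQ1⟩ : ∃ Q1 : ℝ, Q1 = ∫ x : Eu (Fin n), U x * sgd (S1 V x - E) *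
    rn V R x ∂μ := ⟨_, rfl⟩
  have iQ1 : Integrable (fun x : Eu (Fin n) => U x * sgd (S1 V x - E) * rn V R x) μ :=
    hbd (fun x => U x * sgd (S1 V x - E)) (hUc.mul hd1c) 4 fun x => by
      rw [abs_of_nonneg (mul_nonneg (hU0 x) (sgd_nonneg _))]
      nlinarith [hU0 x, hU4 x, sgd_nonneg (S1 V x - E), sgd_le (S1 V x - E)]
  have key := STA.ibp hV R hi hmo hMp h4 hv U l E hU hUabs hl hUl
  have key2 : (∫ x, sgm (S1 V x - E) *
      fderiv ℝ U x (WithLp.toLp 2 fun i => v (x i)) * rn V R x ∂μ) +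
      ((∫ x, U x * sgd (S1 V x - E) * (∑ i, V' (x i) * v (x i) - k0) * rn V R x ∂μ) +
      k0 * Q1) = ∫ x, U x * sgm (S1 V x - E) * Sc V x * rn V R x ∂μ := by
    rw [← key, hQ1, ← integral_const_mul, ← integral_add j1 (iQ1.const_mul k0),
      ← integral_add j4 (by exact j1.add (iQ1.const_mul k0))]
    refine integral_congr_ae (Eventually.of_forall fun x => ?_)
    simp only
    ring
  have hsCk : 0 ≤ Real.sqrt (C * k0) := Real.sqrt_nonneg _
  have t1 : |∫ x, U x * sgd (S1 V x - E) * (∑ i, V' (x i) * v (x i) - k0) *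
      rn V R x ∂μ| ≤ 2 * η * Real.sqrt (C * k0) :=
    k1.trans (mul_le_mul u2 (Real.sqrt_le_sqrt P.a1) (Real.sqrt_nonneg _) (by positivity))
  have t2 : |∫ x, U x * sgm (S1 V x - E) * Sc V x * rn V R x ∂μ| ≤
      2 * η * Real.sqrt (C * k0) := by
    refine k2.trans (mul_le_mul w2 ?_ (Real.sqrt_nonneg _) (by positivity))
    have hb1' : ∫ x, Sc V x ^ 2 * rn V R x ∂μ = k0 := hb1
    rw [hb1']
    exact Real.sqrt_le_sqrt (by nlinarith)
  have t3 : k0 * Q1 ≤ (4 * η + l) * Real.sqrt (C * k0) := by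
    have a1 := abs_le.1 t1
    have a2 := abs_le.1 t2
    have a3 := abs_le.1 k4
    linarith [a1.1, a2.2, a3.1]
  -- the integral over the body
  have hKm : MeasurableSet (K1 n V E) := (isClosed_le hSc continuous_const).measurableSet
  have hKb : Bornology.IsBounded (K1 n V E) := hE.bdd
  have hvf : μ (K1 n V E) ≠ ⊤ := by
    have h0 : volume (K1 n V E) < ⊤ := hKb.measure_lt_top
    exact ne_top_of_le_ne_top h0.ne (Measure.restrict_apply_le _ _)
  have hre : ∀ G : Eu (Fin n) → ℝ, ∫ x in KA V E R, G x = ∫ x in K1 n V E, G x ∂μ := by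
    intro G
    rw [hμ, Measure.restrict_restrict hKm]
    rfl
  obtain ⟨I0, hI0⟩ : ∃ I0 : ℝ, I0 = ∫ x in K1 n V E, U x ∂μ := ⟨_, rfl⟩
  have iU : IntegrableOn U (K1 n V E) μ := by
    refine Measure.integrableOn_of_bounded (M := 4) hvf hUc.aestronglyMeasurable ?_
    exact Eventually.of_forall fun x => by rw [Real.norm_eq_abs]; exact hUabs x
  have hI0n : 0 ≤ I0 := by rw [hI0]; exact integral_nonneg fun x => hU0 x
  obtain ⟨M, hM⟩ : ∃ M : ℝ, M = msA V R := ⟨_, rfl⟩
  have hM0 : 0 < M := by rw [hM]; exact hMp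
  have q1 : 1 / 4 * (Real.exp (-E) / M) * I0 ≤ Q1 := by
    rw [hI0, hQ1, ← integral_const_mul]
    refine le_trans ?_ (setIntegral_le_integral (s := K1 n V E) iQ1 (Eventually.of_forall fun x =>
      mul_nonneg (mul_nonneg (hU0 x) (sgd_nonneg _)) (hρ0 x)))
    refine setIntegral_mono_on (iU.const_mul _) iQ1.integrableOn hKm fun x hx => ?_
    have h6 : S1 V x ≤ E := hx
    have h7 := sgd_low (S1 V x - E) (by linarith)
    have h8 : Real.exp (S1 V x - E) * rn V R x = Real.exp (-E) / M := by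
      unfold rn rh
      rw [← hM, ← mul_div_assoc, ← Real.exp_add]
      congr 2
      ring
    calc 1 / 4 * (Real.exp (-E) / M) * U x = U x * (1 / 4 * Real.exp (S1 V x - E)) *
          rn V R x := by rw [← h8]; ring
      _ ≤ _ := mul_le_mul_of_nonneg_right (mul_le_mul_of_nonneg_left h7 (hU0 x)) (hρ0 x)
  have q2 : Real.exp (-E) / M * I0 ≤ η := by
    have h9 : Real.exp (-E) / M * I0 ≤ ∫ x, U x * rn V R x ∂μ := by
      rw [hI0, ← integral_const_mul]
      refine le_trans ?_ (setIntegral_le_integral (s := K1 n V E) hUint (Eventually.of_forall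
        fun x => mul_nonneg (hU0 x) (hρ0 x)))
      refine setIntegral_mono_on (iU.const_mul _) hUint.integrableOn hKm fun x hx => ?_
      have h6 : S1 V x ≤ E := hx
      have h7 : Real.exp (-E) / M ≤ rn V R x := by
        unfold rn rh
        rw [← hM]
        exact div_le_div_of_nonneg_right (Real.exp_le_exp.2 (by linarith)) hM0.le
      rw [mul_comm]
      exact mul_le_mul_of_nonneg_left h7 (hU0 x)
    nlinarith
  -- conclusion
  have hsg : sC n V = 1 + k0 := by rw [hk0]; rfl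
  obtain ⟨s0, hs0⟩ : ∃ s0 : ℝ, s0 = Real.sqrt (sC n V) := ⟨_, rfl⟩
  have hs01 : 1 ≤ s0 := by
    rw [hs0, hsg]
    exact Real.one_le_sqrt.2 (by linarith)
  have hs02 : s0 ^ 2 = 1 + k0 := by
    rw [hs0, Real.sq_sqrt (by rw [hsg]; linarith), hsg]
  have hsk : Real.sqrt (C * k0) ≤ Real.sqrt C * s0 := by
    rw [Real.sqrt_mul (by linarith)]
    refine mul_le_mul_of_nonneg_left ?_ (Real.sqrt_nonneg _)
    rw [hs0, hsg]
    exact Real.sqrt_le_sqrt (by linarith)
  obtain ⟨Q, hQ⟩ : ∃ Q : ℝ, Q = Real.exp (-E) / M * I0 := ⟨_, rfl⟩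
  have r1 : s0 ^ 2 * Q ≤ s0 * (17 * Real.sqrt C * (η + l)) := by
    have h10 : k0 * Q ≤ 4 * (k0 * Q1) := by
      have h11 : Q ≤ 4 * Q1 := by rw [hQ]; linarith
      nlinarith
    have h12 : k0 * Q ≤ 4 * ((4 * η + l) * (Real.sqrt C * s0)) := by
      have h13 : (4 * η + l) * Real.sqrt (C * k0) ≤ (4 * η + l) * (Real.sqrt C * s0) :=
        mul_le_mul_of_nonneg_left hsk (by positivity)
      linarith
    have h14 : Q ≤ η * (Real.sqrt C * s0) := by
      have h15 : 1 ≤ Real.sqrt C * s0 := by nlinarith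
      have h16 : Q ≤ η := by rw [hQ]; exact q2
      nlinarith
    rw [hs02]
    have h17 : 0 ≤ l * (Real.sqrt C * s0) := by positivity
    nlinarith
  have r2 : s0 * Q ≤ 17 * Real.sqrt C * (η + l) := by
    have h18 : s0 * (s0 * Q) ≤ s0 * (17 * Real.sqrt C * (η + l)) := by nlinarith
    exact le_of_mul_le_mul_left h18 (by linarith)
  obtain ⟨hp, -⟩ := hd n R V V' hV E hE
  rw [← hs0, ← hM] at hp
  obtain ⟨vol, hvol⟩ : ∃ vol : ℝ, vol = (volume (KA V E R)).toReal := ⟨_, rfl⟩
  have hvol0 : 0 ≤ vol := by rw [hvol]; exact ENNReal.toReal_nonneg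
  rw [← hvol] at hp ⊢
  rw [hre, ← hI0]
  have r3 : c * I0 ≤ vol * (17 * Real.sqrt C * (η + l)) := by
    have h19 : c * I0 * M ≤ vol * (17 * Real.sqrt C * (η + l)) * M := by
      calc c * I0 * M = (c * M) * I0 := by ring
        _ ≤ (s0 * (vol * Real.exp (-E))) * I0 := mul_le_mul_of_nonneg_right hp hI0n
        _ = vol * (s0 * Q) * M := by rw [hQ]; field_simp
        _ ≤ _ := mul_le_mul_of_nonneg_right (mul_le_mul_of_nonneg_left r2 hvol0) hM0.le
    exact le_of_mul_le_mul_right h19 hM0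
  have r4 : I0 ≤ 17 * Real.sqrt C / c * (η + l) * vol := by
    rw [div_mul_eq_mul_div, div_mul_eq_mul_div, le_div_iff₀ hc0]
    linarith
  have r5 : 0 ≤ (η + l) * vol := by positivity
  nlinarith

end Pool.Agent.T2h31.OB
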