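import Pool.Agent.T2h31.OB.Stm

/-! Project OB (owner helper31), task WF: the second field. -/

set_option autoImplicit false

namespace Pool.Agent.T2h31.OB

open MeasureTheory Set Filter Topology
open Pool.Agent.R476.OR (CV NV mV rV)

namespace WF

/-- positive even continuous density -/
structure De (f : ℝ → ℝ) : Prop where
  pos : ∀ t, 0 < f t
  cont : Continuous f
  even : ∀ t, f (-t) = f t
  int : Integrable f
  mass : ∫ t, f t = 1

/-- `2 ∫_0^t f` -/
noncomputable def S (f : ℝ → ℝ) (t : ℝ) : ℝ := 2 * ∫ x in (0 : ℝ)..t, f x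

/-- tail -/
noncomputable def T (f : ℝ → ℝ) (t : ℝ) : ℝ := ∫ x in Ioi t, f x

variable {f : ℝ → ℝ}

theorem half (h : De f) : ∫ x in Ioi (0 : ℝ), f x = 1 / 2 := by
  have h1 := intervalIntegral.integral_Iic_add_Ioi (b := (0 : ℝ)) h.int.integrableOn h.int.integrableOn
  have h2 := integral_comp_neg_Ioi (0 : ℝ) f
  simp only [h.even, neg_zero] at h2
  rw [h.mass, ← h2] at h1
  linarith

theorem S_der (h : De f) (t : ℝ) : HasDerivAt (S f) (2 * f t) t := by
  have h1 := (h.cont.integral_hasStrictDerivAt 0 t).hasDerivAt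
  exact h1.const_mul 2

theorem S_cont (h : De f) : Continuous (S f) :=
  continuous_iff_continuousAt.2 fun t => (S_der h t).continuousAt

theorem S_odd (h : De f) (t : ℝ) : S f (-t) = -S f t := by
  unfold S
  have h1 := intervalIntegral.integral_comp_neg (a := (0 : ℝ)) (b := t) f
  simp only [h.even, neg_zero] at h1
  rw [intervalIntegral.integral_symm, ← h1]
  ring

theorem T_nonneg (h : De f) (t : ℝ) : 0 ≤ T f t :=
  setIntegral_nonneg measurableSet_Ioi fun x _ => (h.pos x).le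

theorem S_eq (h : De f) (t : ℝ) : S f t = 1 - 2 * T f t := by
  have h1 := intervalIntegral.integral_interval_add_Ioi (a := (0 : ℝ)) (b := t) (f := f)
    (μ := volume) h.int.integrableOn h.int.integrableOn
  rw [half h] at h1
  unfold S T
  linarith

theorem S_nonneg (h : De f) {t : ℝ} (ht : 0 ≤ t) : 0 ≤ S f t := by
  unfold S
  exact mul_nonneg zero_le_two (intervalIntegral.integral_nonneg ht fun x _ => (h.pos x).le)

theorem abs_S (h : De f) (t : ℝ) : |S f t| = 1 - 2 * T f |t| := by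
  rcases le_total 0 t with ht | ht
  · rw [abs_of_nonneg ht, abs_of_nonneg (S_nonneg h ht), S_eq h]
  · rw [abs_of_nonpos ht, ← S_eq h, S_odd h, abs_of_nonpos]
    have h1 := S_nonneg h (neg_nonneg.2 ht)
    rw [S_odd h] at h1
    linarith

theorem abs_S_le (h : De f) (t : ℝ) : |S f t| ≤ 1 := by
  rw [abs_S h]
  have := T_nonneg h |t|
  linarith

theorem S_top (h : De f) : Tendsto (S f) atTop (𝓝 1) := by
  have h1 := intervalIntegral_tendsto_integral_Ioi (f := f) (μ := volume) 0 h.int.integrableOn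
    tendsto_id
  rw [half h] at h1
  have h2 := h1.const_mul 2
  norm_num at h2
  exact h2

theorem S_bot (h : De f) : Tendsto (S f) atBot (𝓝 (-1)) := by
  have h1 := (S_top h).comp tendsto_neg_atBot_atTop
  have h2 := h1.neg
  refine h2.congr fun t => ?_
  show -(S f (-t)) = S f t
  rw [S_odd h, neg_neg]

/-- bounded continuous functions of `S` times `f` -/
theorem integrable_q (h : De f) {q : ℝ → ℝ} (hq : Continuous q) :
    Integrable fun t => q (S f t) * f t := by
  obtain ⟨M, hM⟩ := (isCompact_Icc (a := (-1 : ℝ)) (b := 1)).exists_bound_of_continuousOn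
    hq.continuousOn
  refine h.int.bdd_mul (c := M) (hq.comp (S_cont h)).aestronglyMeasurable
    (ae_of_all _ fun t => hM _ ?_)
  exact abs_le.1 (abs_S_le h t)

theorem integral_q (h : De f) {Q q : ℝ → ℝ} (hQ : ∀ s, HasDerivAt Q (q s) s) (hq : Continuous q) :
    ∫ t, q (S f t) * f t = (Q 1 - Q (-1)) / 2 := by
  have hc : Continuous Q := continuous_iff_continuousAt.2 fun s => (hQ s).continuousAt
  have h1 : ∀ t, HasDerivAt (fun t => Q (S f t) / 2) (q (S f t) * f t) t := by
    intro t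
    have h2 := ((hQ (S f t)).comp t (S_der h t)).div_const 2
    refine h2.congr_deriv ?_
    ring
  have h3 : Tendsto (fun t => Q (S f t) / 2) atTop (𝓝 (Q 1 / 2)) :=
    ((hc.tendsto 1).comp (S_top h)).div_const 2
  have h4 : Tendsto (fun t => Q (S f t) / 2) atBot (𝓝 (Q (-1) / 2)) :=
    ((hc.tendsto (-1)).comp (S_bot h)).div_const 2
  rw [integral_of_hasDerivAt_of_tendsto h1 (integrable_q h hq) h4 h3]
  ring

/-- the polynomial -/
def wh (α β s : ℝ) : ℝ := α * (s - s ^ 3) + β * (s ^ 3 - s ^ 5)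

/-- its derivative -/
def wd (α β s : ℝ) : ℝ := α * (1 - 3 * s ^ 2) + β * (3 * s ^ 2 - 5 * s ^ 4)

theorem wh_der (α β s : ℝ) : HasDerivAt (wh α β) (wd α β s) s := by
  have h1 : HasDerivAt (fun s : ℝ => s ^ 3) (3 * s ^ 2) s := by
    simpa using hasDerivAt_pow 3 s
  have h2 : HasDerivAt (fun s : ℝ => s ^ 5) (5 * s ^ 4) s := by
    simpa using hasDerivAt_pow 5 s
  exact (((hasDerivAt_id s).sub h1).const_mul α).add ((h1.sub h2).const_mul β)

theorem wh_cont (α β : ℝ) : Continuous (wh α β) := by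
  unfold wh
  fun_prop

theorem wd_cont (α β : ℝ) : Continuous (wd α β) := by
  unfold wd
  fun_prop

theorem wh_bound {α β s : ℝ} (ha : |α| ≤ 1) (hb : |β| ≤ 1) (hs : |s| ≤ 1) :
    |wh α β s| ≤ 4 * (1 - |s|) := by
  have h0 := abs_nonneg s
  have e1 : |s - s ^ 3| ≤ 2 * (1 - |s|) := by
    have : |s - s ^ 3| = |s| * ((1 + |s|) * (1 - |s|)) := by
      have h1 : s - s ^ 3 = s * (1 - |s| ^ 2) := by rw [sq_abs]; ring
      rw [h1, abs_mul, abs_of_nonneg (a := 1 - |s| ^ 2) (by nlinarith)]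
      ring
    rw [this]
    have h2 : 0 ≤ (1 + |s|) * (1 - |s|) := mul_nonneg (by linarith) (by linarith)
    nlinarith [mul_le_mul_of_nonneg_right hs h2]
  have e2 : |s ^ 3 - s ^ 5| ≤ 2 * (1 - |s|) := by
    have h1 : s ^ 3 - s ^ 5 = s ^ 2 * (s - s ^ 3) := by ring
    rw [h1, abs_mul, abs_of_nonneg (sq_nonneg s)]
    have h2 : s ^ 2 ≤ 1 := by
      rw [← sq_abs]
      nlinarith
    nlinarith [mul_le_mul_of_nonneg_right h2 (abs_nonneg (s - s ^ 3)), sq_nonneg s]
  unfold wh
  calc |α * (s - s ^ 3) + β * (s ^ 3 - s ^ 5)| ≤ |α * (s - s ^ 3)| + |β * (s ^ 3 - s ^ 5)| :=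
        abs_add_le _ _
    _ = |α| * |s - s ^ 3| + |β| * |s ^ 3 - s ^ 5| := by rw [abs_mul, abs_mul]
    _ ≤ 1 * (2 * (1 - |s|)) + 1 * (2 * (1 - |s|)) :=
        add_le_add (mul_le_mul ha e1 (abs_nonneg _) zero_le_one)
          (mul_le_mul hb e2 (abs_nonneg _) zero_le_one)
    _ = 4 * (1 - |s|) := by ring

theorem wd_bound {α β s : ℝ} (ha : |α| ≤ 1) (hb : |β| ≤ 1) (hs : |s| ≤ 1) :
    |wd α β s| ≤ 12 := by
  have h2 : s ^ 2 ≤ 1 := by
    rw [← sq_abs]
    nlinarith [abs_nonneg s]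
  have h0 := sq_nonneg s
  have e1 : |1 - 3 * s ^ 2| ≤ 4 := by
    rw [abs_le]
    constructor <;> nlinarith
  have e2 : |3 * s ^ 2 - 5 * s ^ 4| ≤ 8 := by
    have : s ^ 4 = (s ^ 2) ^ 2 := by ring
    rw [this, abs_le]
    constructor <;> nlinarith
  unfold wd
  calc |α * (1 - 3 * s ^ 2) + β * (3 * s ^ 2 - 5 * s ^ 4)|
      ≤ |α * (1 - 3 * s ^ 2)| + |β * (3 * s ^ 2 - 5 * s ^ 4)| := abs_add_le _ _
    _ = |α| * |1 - 3 * s ^ 2| + |β| * |3 * s ^ 2 - 5 * s ^ 4| := by rw [abs_mul, abs_mul]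
    _ ≤ 1 * 4 + 1 * 8 :=
        add_le_add (mul_le_mul ha e1 (abs_nonneg _) zero_le_one)
          (mul_le_mul hb e2 (abs_nonneg _) zero_le_one)
    _ = 12 := by norm_num

/-- the mean square of the polynomial -/
theorem wh_sq (h : De f) {α β : ℝ} (hab : α ^ 2 + β ^ 2 = 1) :
    1 / 1000 ≤ ∫ t, wh α β (S f t) ^ 2 * f t := by
  have h1 : ∀ s : ℝ, HasDerivAt (fun s : ℝ => α ^ 2 * (s ^ 3 / 3 - 2 * s ^ 5 / 5 + s ^ 7 / 7) +
      2 * α * β * (s ^ 5 / 5 - 2 * s ^ 7 / 7 + s ^ 9 / 9) +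
      β ^ 2 * (s ^ 7 / 7 - 2 * s ^ 9 / 9 + s ^ 11 / 11)) (wh α β s ^ 2) s := by
    intro s
    have d3 : HasDerivAt (fun s : ℝ => s ^ 3) (3 * s ^ 2) s := by simpa using hasDerivAt_pow 3 s
    have d5 : HasDerivAt (fun s : ℝ => s ^ 5) (5 * s ^ 4) s := by simpa using hasDerivAt_pow 5 s
    have d7 : HasDerivAt (fun s : ℝ => s ^ 7) (7 * s ^ 6) s := by simpa using hasDerivAt_pow 7 s
    have d9 : HasDerivAt (fun s : ℝ => s ^ 9) (9 * s ^ 8) s := by simpa using hasDerivAt_pow 9 s
    have d11 : HasDerivAt (fun s : ℝ => s ^ 11) (11 * s ^ 10) s := by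
      simpa using hasDerivAt_pow 11 s
    have h2 := (((((d3.div_const 3).sub ((d5.const_mul 2).div_const 5)).add
      (d7.div_const 7)).const_mul (α ^ 2)).add
      ((((d5.div_const 5).sub ((d7.const_mul 2).div_const 7)).add
      (d9.div_const 9)).const_mul (2 * α * β))).add
      ((((d7.div_const 7).sub ((d9.const_mul 2).div_const 9)).add
      (d11.div_const 11)).const_mul (β ^ 2))
    refine h2.congr_deriv ?_
    unfold wh
    ring
  rw [integral_q h h1 ((wh_cont α β).pow 2)]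
  nlinarith [sq_nonneg (α + 171 / 500 * β), sq_nonneg α, sq_nonneg β, sq_nonneg (α + β),
    sq_nonneg (α - β)]

theorem choose_ab (a b : ℝ) : ∃ α β : ℝ, α ^ 2 + β ^ 2 = 1 ∧ α * a + β * b = 0 := by
  by_cases h : a ^ 2 + b ^ 2 = 0
  · have ha : a = 0 := by nlinarith [sq_nonneg a, sq_nonneg b]
    have hb : b = 0 := by nlinarith [sq_nonneg a, sq_nonneg b]
    exact ⟨1, 0, by norm_num, by rw [ha, hb]; norm_num⟩
  · have hpos : 0 < a ^ 2 + b ^ 2 := lt_of_le_of_ne (by positivity) (Ne.symm h)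
    obtain ⟨r, hr⟩ : ∃ r, r = Real.sqrt (a ^ 2 + b ^ 2) := ⟨_, rfl⟩
    have hr0 : 0 < r := hr ▸ Real.sqrt_pos.2 hpos
    have hr2 : r ^ 2 = a ^ 2 + b ^ 2 := by rw [hr, Real.sq_sqrt hpos.le]
    refine ⟨b / r, -a / r, ?_, ?_⟩
    · rw [div_pow, div_pow, ← add_div, hr2, neg_sq, add_comm (b ^ 2), div_self hpos.ne']
    · field_simp
      ring

theorem wd_lin (α β s : ℝ) : wd α β s = α * wd 1 0 s + β * wd 0 1 s := by
  unfold wd
  ring

end WF

theorem t_WF (hOD : S_OD) : S_WF := by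
  obtain ⟨C, hC, H⟩ := hOD
  refine ⟨4000 * C ^ 2, by nlinarith, fun V V' hNE => ?_⟩
  obtain ⟨-, hfC, hT, hV', -, -, hV4⟩ := H V V' hNE
  have hnd := hNE.nv.nd
  have hcv := hNE.nv.cv
  have hVc : Continuous V := continuous_iff_continuousAt.2 fun t => (hcv.der t).continuousAt
  obtain ⟨f, hf⟩ : ∃ f : ℝ → ℝ, f = fun t => Real.exp (-V t) := ⟨_, rfl⟩
  have hfe : ∀ t, Real.exp (-V t) = f t := fun t => by rw [hf]
  have hD : WF.De f := by
    refine ⟨fun t => ?_, ?_, fun t => ?_, ?_, ?_⟩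
    · rw [hf]
      exact Real.exp_pos _
    · rw [hf]
      exact hnd.cont
    · rw [hf]
      show Real.exp (-V (-t)) = Real.exp (-V t)
      rw [hNE.even]
    · rw [hf]
      exact hnd.int0
    · rw [hf]
      exact hnd.mass
  simp only [hfe] at hfC hT hV' hV4 ⊢
  have hfabs : ∀ t, f |t| = f t := by
    intro t
    rcases abs_choice t with h | h
    · rw [h]
    · rw [h, hD.even]
  have hTabs : ∀ t, WF.T f |t| ≤ C * f t := fun t => by
    rw [← hfabs t]
    exact hT |t| (abs_nonneg t)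
  have hV'odd : ∀ t, V' (-t) = -V' t := by
    intro t
    have h1 : HasDerivAt (fun s => V (-s)) (V' (-t) * -1) t :=
      (hcv.der (-t)).comp t (hasDerivAt_neg t)
    have h2 : (fun s => V (-s)) = V := funext hNE.even
    rw [h2] at h1
    have h3 := h1.unique (hcv.der t)
    linarith
  have hV'abs : ∀ t, |V' t| * WF.T f |t| ≤ f t := by
    intro t
    have h1 : |V' t| = V' |t| := by
      rcases le_total 0 t with ht | ht
      · rw [abs_of_nonneg ht, abs_of_nonneg (hV' t ht).1]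
      · have h2 := (hV' (-t) (neg_nonneg.2 ht)).1
        rw [abs_of_nonpos ht, hV'odd]
        rw [hV'odd] at h2
        rw [abs_of_nonpos (by linarith)]
    rw [h1, ← hfabs t]
    exact (hV' |t| (abs_nonneg t)).2
  -- `V f` is integrable
  have hVf : Integrable fun t => V t * f t := by
    refine Integrable.mono' (hD.int.add hV4) (hVc.mul hD.cont).aestronglyMeasurable
      (ae_of_all _ fun t => ?_)
    rw [Real.norm_eq_abs, abs_mul, abs_of_pos (hD.pos t)]
    have h1 : |V t| ≤ 1 + V t ^ 4 := by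
      have h2 : V t ^ 4 = (|V t| ^ 2) ^ 2 := by rw [sq_abs]; ring
      rw [h2]
      nlinarith [sq_nonneg (|V t| ^ 2 - 1), sq_nonneg (|V t| - 1), abs_nonneg (V t)]
    calc |V t| * f t ≤ (1 + V t ^ 4) * f t := mul_le_mul_of_nonneg_right h1 (hD.pos t).le
      _ = f t + V t ^ 4 * f t := by ring
  have hqV : ∀ α β, Integrable fun t => WF.wd α β (WF.S f t) * (V t * f t) := by
    intro α β
    obtain ⟨M, hM⟩ := (isCompact_Icc (a := (-1 : ℝ)) (b := 1)).exists_bound_of_continuousOn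
      (WF.wd_cont α β).continuousOn
    exact hVf.bdd_mul (c := M) ((WF.wd_cont α β).comp (WF.S_cont hD)).aestronglyMeasurable
      (ae_of_all _ fun t => hM _ (abs_le.1 (WF.abs_S_le hD t)))
  obtain ⟨α, β, hab, hab0⟩ := WF.choose_ab (∫ t, WF.wd 1 0 (WF.S f t) * (V t * f t))
    (∫ t, WF.wd 0 1 (WF.S f t) * (V t * f t))
  have ha : |α| ≤ 1 := by
    rw [← sq_le_one_iff_abs_le_one]
    nlinarith [sq_nonneg β]
  have hb : |β| ≤ 1 := by
    rw [← sq_le_one_iff_abs_le_one]
    nlinarith [sq_nonneg α]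
  have hfne : ∀ t, f t ≠ 0 := fun t => (hD.pos t).ne'
  -- bound for the polynomial
  have hwb : ∀ t, |WF.wh α β (WF.S f t)| ≤ 8 * WF.T f |t| := by
    intro t
    have h1 := WF.wh_bound ha hb (WF.abs_S_le hD t)
    rw [WF.abs_S hD] at h1
    linarith
  obtain ⟨w, hw⟩ : ∃ w : ℝ → ℝ, w = fun t => WF.wh α β (WF.S f t) / (2 * f t) := ⟨_, rfl⟩
  obtain ⟨h, hh⟩ : ∃ h : ℝ → ℝ, h = fun t => -WF.wd α β (WF.S f t) := ⟨_, rfl⟩
  have hwf : ∀ t, w t * f t = WF.wh α β (WF.S f t) / 2 := by
    intro t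
    rw [hw]
    have := hfne t
    field_simp
  have hwc : Continuous w := by
    rw [hw]
    exact ((WF.wh_cont α β).comp (WF.S_cont hD)).div (continuous_const.mul hD.cont)
      fun t => mul_ne_zero two_ne_zero (hfne t)
  have hwabs : ∀ t, |w t| * f t ≤ 4 * WF.T f |t| := by
    intro t
    have h1 : |w t| * f t = |WF.wh α β (WF.S f t)| / 2 := by
      have h2 : |w t * f t| = |w t| * f t := by rw [abs_mul, abs_of_pos (hD.pos t)]
      rw [← h2, hwf, abs_div, abs_two]
    rw [h1]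
    linarith [hwb t]
  have hw4 : ∀ t, |w t| ≤ 4 * C := by
    intro t
    have h1 := (hwabs t).trans (mul_le_mul_of_nonneg_left (hTabs t) (by norm_num : (0:ℝ) ≤ 4))
    have h2 : |w t| * f t ≤ 4 * C * f t := by linarith
    exact le_of_mul_le_mul_right h2 (hD.pos t)
  have hh12 : ∀ t, |h t| ≤ 12 := by
    intro t
    rw [hh]
    show |-WF.wd α β (WF.S f t)| ≤ 12
    rw [abs_neg]
    exact WF.wd_bound ha hb (WF.abs_S_le hD t)
  have hder : ∀ t, HasDerivAt (fun t => w t * f t) (-(h t * f t)) t := by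
    intro t
    have h1 : (fun t => w t * f t) = fun t => WF.wh α β (WF.S f t) / 2 := funext hwf
    rw [h1]
    have h2 := ((WF.wh_der α β (WF.S f t)).comp t (WF.S_der hD t)).div_const 2
    refine h2.congr_deriv ?_
    rw [hh]
    ring
  have hderw : ∀ t, HasDerivAt w (-h t + V' t * w t) t := by
    intro t
    have h1 : w = fun t => (w t * f t) * Real.exp (V t) := by
      funext s
      rw [hf, mul_assoc, ← Real.exp_add, neg_add_cancel, Real.exp_zero, mul_one]
    have h2 : HasDerivAt (fun t => Real.exp (V t)) (Real.exp (V t) * V' t) t := (hcv.der t).exp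
    have h3 := (hder t).mul h2
    rw [h1]
    refine h3.congr_deriv ?_
    have h4 : f t * Real.exp (V t) = 1 := by
      rw [hf, ← Real.exp_add, neg_add_cancel, Real.exp_zero]
    have h5 : -(h t * f t) * Real.exp (V t) + w t * f t * (Real.exp (V t) * V' t) =
        -h t * (f t * Real.exp (V t)) + V' t * (w t * f t * Real.exp (V t)) := by ring
    exact h5.trans (by rw [h4, mul_one])
  have hderb : ∀ t, |-h t + V' t * w t| ≤ 16 := by
    intro t
    have h1 : |V' t * w t| ≤ 4 := by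
      rw [abs_mul]
      have h2 : |V' t| * |w t| * f t ≤ 4 * f t := by
        calc |V' t| * |w t| * f t = |V' t| * (|w t| * f t) := by ring
          _ ≤ |V' t| * (4 * WF.T f |t|) := mul_le_mul_of_nonneg_left (hwabs t) (abs_nonneg _)
          _ = 4 * (|V' t| * WF.T f |t|) := by ring
          _ ≤ 4 * f t := mul_le_mul_of_nonneg_left (hV'abs t) (by norm_num)
      exact le_of_mul_le_mul_right h2 (hD.pos t)
    calc |-h t + V' t * w t| ≤ |-h t| + |V' t * w t| := abs_add_le _ _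
      _ ≤ 12 + 4 := add_le_add (by rw [abs_neg]; exact hh12 t) h1
      _ = 16 := by norm_num
  have hC2 : C ≤ C ^ 2 := by nlinarith
  have hI0 : ∫ t, h t * f t = 0 := by
    have h1 := WF.integral_q hD (Q := WF.wh α β) (q := WF.wd α β) (WF.wh_der α β) (WF.wd_cont α β)
    have h2 : ∫ t, h t * f t = -∫ t, WF.wd α β (WF.S f t) * f t := by
      rw [← integral_neg]
      refine integral_congr_ae (ae_of_all _ fun t => ?_)
      show h t * f t = -(WF.wd α β (WF.S f t) * f t)
      rw [hh]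
      ring
    rw [h2, h1]
    unfold WF.wh
    norm_num
  refine ⟨w, h, hwc, ?_, ?_, ?_, hder, fun t => (hw4 t).trans (by nlinarith),
    fun t => (hh12 t).trans (by nlinarith), ?_, hI0, ?_, ?_⟩
  · rw [hh]
    exact ((WF.wd_cont α β).comp (WF.S_cont hD)).neg
  · intro t
    rw [hw]
    show WF.wh α β (WF.S f (-t)) / (2 * f (-t)) = -(WF.wh α β (WF.S f t) / (2 * f t))
    rw [WF.S_odd hD, hD.even, ← neg_div]
    congr 1
    unfold WF.wh
    ring
  · intro t
    rw [hh]
    show -WF.wd α β (WF.S f (-t)) = -WF.wd α β (WF.S f t)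
    rw [WF.S_odd hD]
    unfold WF.wd
    ring
  · intro s t
    have h1 := Convex.norm_image_sub_le_of_norm_deriv_le (𝕜 := ℝ) (f := w) (C := 16) (s := univ)
      (x := t) (y := s) (fun x _ => (hderw x).differentiableAt)
      (fun x _ => by
        rw [(hderw x).deriv, Real.norm_eq_abs]
        exact hderb x) convex_univ (mem_univ _) (mem_univ _)
    rw [Real.norm_eq_abs, Real.norm_eq_abs] at h1
    refine h1.trans (mul_le_mul_of_nonneg_right (by nlinarith) (abs_nonneg _))
  · have i1 := (hqV 1 0).const_mul α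
    have i2 := (hqV 0 1).const_mul β
    have i3 : Integrable fun t => mV V * (h t * f t) := by
      have h1 := (WF.integrable_q hD (WF.wd_cont α β)).neg.const_mul (mV V)
      refine h1.congr (ae_of_all _ fun t => ?_)
      show mV V * -(WF.wd α β (WF.S f t) * f t) = mV V * (h t * f t)
      rw [hh]
      ring
    have h1 : ∫ t, h t * (V t - mV V) * f t =
        ∫ t, (-(α * (WF.wd 1 0 (WF.S f t) * (V t * f t)) +
          β * (WF.wd 0 1 (WF.S f t) * (V t * f t))) - mV V * (h t * f t)) := by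
      refine integral_congr_ae (ae_of_all _ fun t => ?_)
      show h t * (V t - mV V) * f t = (-(α * (WF.wd 1 0 (WF.S f t) * (V t * f t)) +
          β * (WF.wd 0 1 (WF.S f t) * (V t * f t))) - mV V * (h t * f t))
      rw [hh]
      show -WF.wd α β (WF.S f t) * (V t - mV V) * f t =
        (-(α * (WF.wd 1 0 (WF.S f t) * (V t * f t)) +
          β * (WF.wd 0 1 (WF.S f t) * (V t * f t))) - mV V * (-WF.wd α β (WF.S f t) * f t))
      rw [WF.wd_lin α β]
      ring
    have i12 : Integrable fun t => -(α * (WF.wd 1 0 (WF.S f t) * (V t * f t)) +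
        β * (WF.wd 0 1 (WF.S f t) * (V t * f t))) := (i1.add i2).neg
    rw [h1, integral_sub i12 i3, integral_neg, integral_add i1 i2, integral_const_mul,
      integral_const_mul, integral_const_mul, hI0, hab0]
    simp
  · have h1 := WF.wh_sq hD hab
    have hCpos : 0 < C := by linarith
    have i1 : Integrable fun t => w t ^ 2 * f t := by
      refine hD.int.bdd_mul (c := (4 * C) ^ 2) (hwc.pow 2).aestronglyMeasurable
        (ae_of_all _ fun t => ?_)
      rw [Real.norm_eq_abs, abs_pow]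
      exact pow_le_pow_left₀ (abs_nonneg _) (hw4 t) 2
    have i2 : Integrable fun t => WF.wh α β (WF.S f t) ^ 2 * f t :=
      WF.integrable_q hD ((WF.wh_cont α β).pow 2)
    have h2 : ∫ t, 1 / (4 * C ^ 2) * (WF.wh α β (WF.S f t) ^ 2 * f t) ≤ ∫ t, w t ^ 2 * f t := by
      refine integral_mono (i2.const_mul _) i1 fun t => ?_
      show 1 / (4 * C ^ 2) * (WF.wh α β (WF.S f t) ^ 2 * f t) ≤ w t ^ 2 * f t
      have h3 : WF.wh α β (WF.S f t) = 2 * (w t * f t) := by
        rw [hwf]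
        ring
      rw [h3]
      have h4 : 1 / (4 * C ^ 2) * ((2 * (w t * f t)) ^ 2 * f t) =
          (w t ^ 2 * f t) * (f t ^ 2 / C ^ 2) := by
        field_simp
        ring
      rw [h4]
      have h5 : f t ^ 2 / C ^ 2 ≤ 1 := by
        rw [div_le_one (by positivity)]
        exact pow_le_pow_left₀ (hD.pos t).le (hfC t) 2
      exact mul_le_of_le_one_right (mul_nonneg (sq_nonneg _) (hD.pos t).le) h5
    rw [integral_const_mul] at h2
    refine le_trans ?_ h2
    have h6 : 1 / (4000 * C ^ 2) = 1 / (4 * C ^ 2) * (1 / 1000) := by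
      field_simp
      norm_num
    rw [h6]
    exact mul_le_mul_of_nonneg_left h1 (by positivity)

end Pool.Agent.T2h31.OB
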