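import Pool.Agent.T2h31.OB.All
import Pool.Agent.T2h31.OB.StmA
import Pool.Agent.R560.OP.OpCon
import Pool.Agent.R780.OP.Pt
import Pool.Agent.R574.OP.Conn
import Pool.Agent.R928.OPLat
import Pool.Agent.R364.OP.RS
import Pool.Agent.R372.OP.ADJ
import Pool.Agent.R372.OP.SYM
import Pool.Agent.R972.OP.La
import Pool.Agent.R972.OP.UPC
import Pool.Agent.T2h31.LC.T_WCN
import Pool.Agent.T2h31.LC.T_UPD
import Pool.Agent.T2h31.LC.T_POD
import Pool.Agent.T2h31.LC.T_SMA
import Pool.Agent.T2h31.OB.T_SYA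
import Pool.Agent.T2h31.OB.T_FLA
import Pool.Agent.T2h31.OB.T_IBA
import Pool.Agent.T2h31.OB.T_ODA
import Pool.Agent.T2h31.OB.T_WFA
import Pool.Agent.T2h31.OB.T_PCA
import Pool.Agent.T2h31.OB.T_MOA
import Pool.Agent.T2h31.OB.T_RLA
import Pool.Agent.T2h31.OB.T_PLA
import Pool.Agent.T2h31.OB.T_STA
import Pool.Agent.T2h31.OB.T_GTA
import Pool.Agent.T2h31.OB.T_CVA
import Pool.Agent.T2h31.OB.T_CSA
import Pool.Agent.T2h31.OB.T_NRA
import Pool.Agent.T2h31.OB.T_CHA
import Pool.Agent.T2h31.OB.T_ASA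
import Pool.Agent.T2h31.OB.T_ATA
import Pool.Agent.T2h31.OB.T_GEA

/-!
# Orlicz balls cut by order relations: assembly

Parts by helpers 3, 4, 6, 23, 25, 35, 42, 45, 60, 64, 82, 84 and 31, with the parts of type A of project `T2h31.LC` by helpers
23, 58 and 67.
-/

set_option autoImplicit false

namespace Pool.Agent.T2h31.OB

open MeasureTheory Set Filter Topology
open scoped ENNReal InnerProductSpace
open Pool.Agent.W695.KH (Eu)
open Pool.Agent.R476.OR (ind)

/-- concentration for all the bodies -/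
theorem concA (h1 : S_CHA) (h2 : S_ASA) (h3 : S_ATA) (h4 : S_GEA) (δ : ℝ) (hδ : 0 < δ) :
    ∃ κ : ℝ, 0 < κ ∧ ∀ (n : ℕ) (R : Fin n → Fin n → Prop) (V : ℝ → ℝ) (E a b : ℝ), 1 ≤ n →
      ConvexOn ℝ univ V →
      (interior (KA V E R ∩ {x : Eu (Fin n) | ∀ i, x i ∈ Icc a b})).Nonempty →
      Ci κ δ (ind (KA V E R ∩ {x | ∀ i, x i ∈ Icc a b})) := by
  obtain ⟨κ, hκ, H⟩ := h1 δ hδ
  have H2 := h2 κ δ hκ H
  have H3 := h3 (κ / 2) δ (by positivity) H2
  refine ⟨κ / 2 / 2, by positivity, fun n R V E a b hn hV hi => ?_⟩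
  have hvol : ∀ K : Set (Eu (Fin n)), (interior K).Nonempty → 0 < volume K := fun K hK =>
    lt_of_lt_of_le (isOpen_interior.measure_pos volume hK) (measure_mono interior_subset)
  have hab : ∀ (a b : ℝ) (K : Set (Eu (Fin n))),
      (interior (K ∩ {x : Eu (Fin n) | ∀ i, x i ∈ Icc a b})).Nonempty → a < b := by
    intro a b K hK
    by_contra hab
    push Not at hab
    have h1 := hvol _ hK
    have h2 : volume {x : Eu (Fin n) | ∀ i, x i ∈ Icc a b} = 0 := by
      have e := (EuclideanSpace.volume_preserving_symm_measurableEquiv_toLp (Fin n))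
      have h3 : volume (Set.pi univ fun _ : Fin n => Icc a b) = 0 := by
        rw [volume_pi_pi]
        have : volume (Icc a b) = 0 := by
          rw [Real.volume_Icc, ENNReal.ofReal_eq_zero]
          linarith
        simp only [this]
        exact Finset.prod_eq_zero (Finset.mem_univ ⟨0, hn⟩) rfl
      have h4 := e.measure_preimage (s := Set.pi univ fun _ : Fin n => Icc a b)
        (MeasurableSet.univ_pi fun _ => measurableSet_Icc).nullMeasurableSet
      rw [h3] at h4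
      refine le_antisymm (le_trans (measure_mono ?_) h4.le) zero_le
      intro x hx i _
      exact hx i
    exact h1.ne' (measure_mono_null inter_subset_right h2)
  by_cases hx : ∃ x : Eu (Fin n), S1 V x < E ∧ ∀ i, x i ∈ Ioo a b
  · exact H3 n R V a b hn hV (hab a b _ hi) E hx (hvol _ hi)
  · push Not at hx
    obtain ⟨-, -, hg⟩ := h4 n R V hn hV E a b
    obtain ⟨a', b', hb', he⟩ := hg hi (fun x hx1 => by
      by_contra hc
      push Not at hc
      obtain ⟨i, hi1⟩ := hx x hc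
      exact hi1 (hx1 i))
    have e0 : CA R = KA (fun _ => (0 : ℝ)) 1 R := by
      unfold KA K1 S1
      simp
    rw [he] at hi ⊢
    rw [e0] at hi ⊢
    refine H3 n R (fun _ => 0) a' b' hn (convexOn_const 0 convex_univ) hb' 1
      ⟨WithLp.toLp 2 fun _ => (a' + b') / 2, by simp [S1], fun i => ?_⟩ (hvol _ hi)
    simp only
    constructor <;> linarith

theorem latA : Pool.Agent.R972.OP.S_LAT :=
  Pool.Agent.R972.OP.lat (Pool.Agent.R560.OP.con Pool.Agent.R780.OP.t_PT)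
    Pool.Agent.R574.OPConn.conn Pool.Agent.R972.OP.la

theorem smaA : Pool.Agent.T2h31.LC.S_SMA :=
  Pool.Agent.T2h31.LC.t_SMA
    (Pool.Agent.T2h31.LC.t_POD latA Pool.Agent.R364.OP.rs Pool.Agent.R372.OP.ADJ.main
      Pool.Agent.R972.OP.pieceUPC
      (Pool.Agent.T2h31.LC.t_UPD (Pool.Agent.T2h31.LC.t_WCN Pool.Agent.T2h31.LC.t_SSQ))
      (Pool.Agent.T2h31.LC.t_WCN Pool.Agent.T2h31.LC.t_SSQ))
    Pool.Agent.T2h31.LC.t_ONE Pool.Agent.T2h31.LC.t_QEX Pool.Agent.T2h31.LC.t_CVQ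

theorem odaA : S_ODA := t_ODA Pool.Agent.Y849.RG.one1 Pool.Agent.R476.OR.fld

theorem syaA : S_SYA := t_SYA Pool.Agent.R372.OP.SYM.main

theorem moaA : S_MOA := t_MOA syaA Pool.Agent.R476.OR.two

theorem ibaA : S_IBA := t_IBA t_FLA

theorem pcaA : S_PCA := t_PCA smaA Pool.Agent.Y849.RG.one1

theorem rlaA : S_RLA := t_RLA (t_WFA odaA) ibaA moaA pcaA odaA

theorem plaA : S_PLA := t_PLA syaA plw_all odaA

theorem staA : S_STA := t_STA Pool.Agent.R476.OR.fld ibaA moaA plaA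

theorem cvaA : S_CVA := t_CVA (t_GTA moaA m4r odaA) plaA

theorem csaA : S_CSA := t_CSA rlaA cvaA pcaA staA plaA

theorem concA_all (δ : ℝ) (hδ : 0 < δ) :
    ∃ κ : ℝ, 0 < κ ∧ ∀ (n : ℕ) (R : Fin n → Fin n → Prop) (V : ℝ → ℝ) (E a b : ℝ), 1 ≤ n →
      ConvexOn ℝ univ V →
      (interior (KA V E R ∩ {x : Eu (Fin n) | ∀ i, x i ∈ Icc a b})).Nonempty →
      Ci κ δ (ind (KA V E R ∩ {x | ∀ i, x i ∈ Icc a b})) :=
  concA (t_CHA t_NRA csaA) (t_ASA t_LIS) (t_ATA t_LIS) t_GEA δ hδ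

end Pool.Agent.T2h31.OB
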