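import Pool.Agent.T2h31.OB.T_APS

/-!
# Project OB, task APT: the constraints `|x_i| ≤ b` by penalisation
-/

set_option autoImplicit false

namespace Pool.Agent.T2h31.OB

namespace APT

open MeasureTheory Set Filter Topology
open scoped ENNReal InnerProductSpace
open Pool.Agent.W695.KH (Eu)
open Pool.Agent.R476.OR (CV SV KV ind)
open Pool.Agent.R476.OR.G (cont_of_convex)
open Pool.Agent.T2h31.SB (Lb sv)

/-- the penalty -/
noncomputable def pen (b t : ℝ) : ℝ := max (|t| - b) 0

lemma pen_nonneg (b t : ℝ) : 0 ≤ pen b t := le_max_right _ _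

lemma pen_zero {b t : ℝ} (h : |t| ≤ b) : pen b t = 0 := max_eq_right (by linarith)

lemma pen_pos {b t : ℝ} (h : b < |t|) : 0 < pen b t := lt_max_of_lt_left (by linarith)

lemma pen_convex (b : ℝ) : ConvexOn ℝ univ (pen b) := by
  refine ⟨convex_univ, fun x _ y _ p q hp hq hpq => ?_⟩
  simp only [smul_eq_mul]
  have h1 : |p * x + q * y| ≤ p * |x| + q * |y| := by
    refine (abs_add_le _ _).trans ?_
    rw [abs_mul, abs_mul, abs_of_nonneg hp, abs_of_nonneg hq]
  have h2 : p * (|x| - b) ≤ p * pen b x := mul_le_mul_of_nonneg_left (le_max_left _ _) hp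
  have h3 : q * (|y| - b) ≤ q * pen b y := mul_le_mul_of_nonneg_left (le_max_left _ _) hq
  have h4 : 0 ≤ p * pen b x := mul_nonneg hp (pen_nonneg _ _)
  have h5 : 0 ≤ q * pen b y := mul_nonneg hq (pen_nonneg _ _)
  have e : p * b + q * b = b := by rw [← add_mul, hpq, one_mul]
  refine max_le ?_ (by linarith)
  linarith

/-- the penalised potential -/
noncomputable def pv (V : ℝ → ℝ) (b : ℝ) (j : ℕ) (t : ℝ) : ℝ := V t + ((j + 1 : ℕ) : ℝ) * pen b t

lemma pv_convex {V : ℝ → ℝ} (hV : ConvexOn ℝ univ V) (b : ℝ) (j : ℕ) : ConvexOn ℝ univ (pv V b j) :=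
  hV.add ((pen_convex b).smul (Nat.cast_nonneg (α := ℝ) (j + 1)))

lemma pv_even {V : ℝ → ℝ} (h : ∀ t, V (-t) = V t) (b : ℝ) (j : ℕ) (t : ℝ) : pv V b j (-t) = pv V b j t := by
  simp only [pv, pen, h, abs_neg]

variable {n : ℕ}

/-- the sum of the penalties -/
noncomputable def ps (b : ℝ) (x : Eu (Fin n)) : ℝ := ∑ i, pen b (x i)

lemma S1_pv (V : ℝ → ℝ) (b : ℝ) (j : ℕ) (x : Eu (Fin n)) :
    S1 (pv V b j) x = S1 V x + ((j + 1 : ℕ) : ℝ) * ps b x := by
  unfold S1 pv ps
  rw [Finset.sum_add_distrib, Finset.mul_sum]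

lemma ps_nonneg (b : ℝ) (x : Eu (Fin n)) : 0 ≤ ps b x := Finset.sum_nonneg fun _ _ => pen_nonneg _ _

lemma ps_zero {b : ℝ} {x : Eu (Fin n)} (h : ∀ i, |x i| ≤ b) : ps b x = 0 :=
  Finset.sum_eq_zero fun i _ => pen_zero (h i)

lemma ps_pos {b : ℝ} {x : Eu (Fin n)} (h : ¬ ∀ i, |x i| ≤ b) : 0 < ps b x := by
  push Not at h
  obtain ⟨i, hi⟩ := h
  exact Finset.sum_pos' (fun _ _ => pen_nonneg _ _) ⟨i, Finset.mem_univ _, pen_pos hi⟩

lemma even_min {V : ℝ → ℝ} (hV : ConvexOn ℝ univ V) (h : ∀ t, V (-t) = V t) (t : ℝ) : V 0 ≤ V t := by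
  have h2 := hV.2 (mem_univ t) (mem_univ (-t)) (show (0 : ℝ) ≤ 1 / 2 by norm_num)
    (show (0 : ℝ) ≤ 1 / 2 by norm_num) (by norm_num)
  have e : (1 / 2 : ℝ) • t + (1 / 2 : ℝ) • (-t) = 0 := by
    simp only [smul_eq_mul]
    ring
  rw [e, h] at h2
  simp only [smul_eq_mul] at h2
  linarith

lemma box_bounded (B : ℝ) : Bornology.IsBounded {x : Eu (Fin n) | ∀ i, |x i| ≤ B} := by
  rw [isBounded_iff_forall_norm_le]
  refine ⟨Real.sqrt (∑ _i : Fin n, B ^ 2), fun x hx => ?_⟩
  rw [EuclideanSpace.norm_eq]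
  refine Real.sqrt_le_sqrt (Finset.sum_le_sum fun i _ => ?_)
  rw [Real.norm_eq_abs]
  exact pow_le_pow_left₀ (abs_nonneg _) (hx i) 2

lemma box_closed (b : ℝ) : IsClosed {x : Eu (Fin n) | ∀ i, |x i| ≤ b} := by
  have e : {x : Eu (Fin n) | ∀ i, |x i| ≤ b} = ⋂ i, {x : Eu (Fin n) | |x i| ≤ b} := by
    ext x
    simp
  rw [e]
  exact isClosed_iInter fun i => isClosed_le (by fun_prop) continuous_const

end APT

open MeasureTheory Set Filter Topology in
open Pool.Agent.W695.KH (Eu) in
open Pool.Agent.R476.OR (CV SV KV ind) in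
open Pool.Agent.R476.OR.G (cont_of_convex) in
open APT APS in
theorem t_APT (h : S_LIS) : S_APT := by
  intro κ δ hκ H n R V b hn hV hev hb E hx hvol
  obtain ⟨x1, hx1⟩ := hx
  have hVc : Continuous V := cont_of_convex hV
  set K : Set (Eu (Fin n)) := KC V E R ∩ {x | ∀ i, |x i| ≤ b} with hK
  let W : ℕ → ℝ → ℝ := fun j => pv V b j
  have hWv : ∀ j, ConvexOn ℝ univ (W j) := fun j => pv_convex hV b j
  have hWc : ∀ j, Continuous (W j) := fun j => cont_of_convex (hWv j)
  have hKc : IsClosed K := (KC_closed hVc E R).inter (box_closed b)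
  have hWK : ∀ j, IsClosed (KC (W j) E R) := fun j => KC_closed (hWc j) E R
  have hmin : ∀ x : Eu (Fin n), (n : ℝ) * V 0 ≤ S1 V x := fun x => by
    have h1 : ∑ _i : Fin n, V 0 ≤ S1 V x := Finset.sum_le_sum fun i _ => even_min hV hev (x i)
    simpa using h1
  -- boundedness
  set B : ℝ := b + |E - n * V 0| with hB
  have hsub : ∀ j, K1 n (W j) E ⊆ {x : Eu (Fin n) | ∀ i, |x i| ≤ B} := by
    intro j x hx i
    have h1 : S1 (pv V b j) x ≤ E := hx
    rw [S1_pv] at h1
    have h2 := hmin x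
    have h3 : pen b (x i) ≤ ps b x :=
      Finset.single_le_sum (f := fun i => pen b (x i)) (fun _ _ => pen_nonneg _ _) (Finset.mem_univ i)
    have h4 : ps b x ≤ ((j + 1 : ℕ) : ℝ) * ps b x :=
      le_mul_of_one_le_left (ps_nonneg b x) (by
        push_cast
        have : (0 : ℝ) ≤ j := Nat.cast_nonneg j
        linarith)
    have h5 : |x i| - b ≤ pen b (x i) := le_max_left _ _
    have h6 : E - n * V 0 ≤ |E - n * V 0| := le_abs_self _
    rw [hB]
    linarith
  have hbd : ∀ j, Bornology.IsBounded (K1 n (W j) E) := fun j => (box_bounded B).subset (hsub j)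
  obtain ⟨r, hr⟩ := (box_bounded (n := n) B).subset_closedBall 0
  have hWr : ∀ j, KC (W j) E R ⊆ Metric.closedBall 0 r := fun j x hx => hr (hsub j hx.1)
  have hKW : ∀ j, K ⊆ KC (W j) E R := by
    intro j x hx
    refine ⟨?_, hx.1.2⟩
    change S1 (pv V b j) x ≤ E
    rw [S1_pv, ps_zero hx.2, mul_zero, add_zero]
    exact hx.1.1
  have hKr : K ⊆ Metric.closedBall 0 r := (hKW 0).trans (hWr 0)
  have hfin : volume K ≠ ⊤ := (lt_of_le_of_lt (measure_mono hKr) measure_closedBall_lt_top).ne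
  have hpos : 0 < ∫ x, ind K x := by
    rw [ind_mass hKc]
    exact ENNReal.toReal_pos hvol.ne' hfin
  have hzero : Tendsto (fun j => ∫ x, (1 + ‖x‖ ^ 2) * |ind (KC (W j) E R) x - ind K x|) atTop (𝓝 0) := by
    have key := tendsto_integral_of_dominated_convergence
      (μ := (volume : Measure (Eu (Fin n))))
      (F := fun j x => (1 + ‖x‖ ^ 2) * |ind (KC (W j) E R) x - ind K x|)
      (f := fun _ => (0 : ℝ))
      (bound := (Metric.closedBall (0 : Eu (Fin n)) r).indicator (fun x => 1 + ‖x‖ ^ 2))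
      ?_ ?_ ?_ ?_
    · simpa using key
    · intro j
      have m1 : Measurable (ind (KC (W j) E R)) := measurable_const.indicator (hWK j).measurableSet
      have m2 : Measurable (ind K) := measurable_const.indicator hKc.measurableSet
      have m3 : Measurable (fun x : Eu (Fin n) => 1 + ‖x‖ ^ 2) := by fun_prop
      exact (m3.mul (m1.sub m2).abs).aestronglyMeasurable
    · rw [integrable_indicator_iff measurableSet_closedBall]
      apply ContinuousOn.integrableOn_compact (isCompact_closedBall _ _)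
      fun_prop
    · intro j
      refine Eventually.of_forall fun x => ?_
      have hp : 0 ≤ 1 + ‖x‖ ^ 2 := by positivity
      rw [Real.norm_eq_abs, abs_of_nonneg (mul_nonneg hp (abs_nonneg _))]
      by_cases hxb : x ∈ Metric.closedBall (0 : Eu (Fin n)) r
      · rw [indicator_of_mem hxb]
        have h1 : |ind (KC (W j) E R) x - ind K x| ≤ 1 := by
          unfold ind
          by_cases h1 : x ∈ KC (W j) E R <;> by_cases h2 : x ∈ K <;> simp [h1, h2]
        calc (1 + ‖x‖ ^ 2) * |ind (KC (W j) E R) x - ind K x| ≤ (1 + ‖x‖ ^ 2) * 1 :=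
              mul_le_mul_of_nonneg_left h1 hp
          _ = 1 + ‖x‖ ^ 2 := mul_one _
      · have h1 : x ∉ KC (W j) E R := fun hh => hxb (hWr j hh)
        have h2 : x ∉ K := fun hh => hxb (hKr hh)
        simp [ind, h1, h2, hxb]
    · refine Eventually.of_forall fun x => ?_
      refine tendsto_const_nhds.congr' ?_
      by_cases h1 : ∀ i, |x i| ≤ b
      · refine Eventually.of_forall fun j => ?_
        by_cases h2 : x ∈ K
        · have h3 := hKW j h2
          simp [ind, h2, h3]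
        · have h3 : x ∉ KC (W j) E R := by
            intro hh
            apply h2
            have h4 : S1 (pv V b j) x ≤ E := hh.1
            rw [S1_pv, ps_zero h1, mul_zero, add_zero] at h4
            exact ⟨⟨h4, hh.2⟩, h1⟩
          simp [ind, h2, h3]
      · have h2 : x ∉ K := fun hh => h1 hh.2
        have hp := ps_pos h1
        obtain ⟨k, hk⟩ := exists_nat_gt ((E - S1 V x) / ps b x)
        filter_upwards [eventually_ge_atTop k] with j hj
        have h3 : x ∉ KC (W j) E R := by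
          intro hh
          have h4 : S1 (pv V b j) x ≤ E := hh.1
          rw [S1_pv] at h4
          rw [div_lt_iff₀ hp] at hk
          have h5 : (k : ℝ) ≤ ((j + 1 : ℕ) : ℝ) := by exact_mod_cast hj.trans (Nat.le_succ j)
          have := mul_le_mul_of_nonneg_right h5 (ps_nonneg b x)
          linarith
        simp [ind, h2, h3]
  refine h n κ δ (ind K) (fun j => ind (KC (W j) E R)) hκ (ind_int hKc hKr) hpos
    (fun j => ind_int (hWK j) (hWr j)) hzero (Eventually.of_forall fun j => ?_)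
  refine H n R (W j) hn (hWv j) (pv_even hev b j) E (hbd j) ⟨0, ?_⟩ (hvol.trans_le (measure_mono (hKW j)))
  have h0 : S1 (pv V b j) (0 : Eu (Fin n)) = n * V 0 := by
    rw [S1_pv, ps_zero (fun i => by simpa using hb.le), mul_zero, add_zero]
    simp [S1]
  change S1 (pv V b j) (0 : Eu (Fin n)) < E
  rw [h0]
  exact (hmin x1).trans_lt hx1

end Pool.Agent.T2h31.OB
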