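import Pool.Agent.T2h31.OB.StmA
import Pool.Agent.T2h31.OB.T_APS

/-!
# Project OB, task ASA: from `C¹` convex potentials to convex potentials (type A)
-/

set_option autoImplicit false

namespace Pool.Agent.T2h31.OB

namespace ASA

open MeasureTheory Set Filter Topology
open scoped ENNReal InnerProductSpace
open Pool.Agent.W695.KH (Eu)
open Pool.Agent.R476.OR (CV SV KV ind)

variable {n : ℕ}

lemma CA_closed (R : Fin n → Fin n → Prop) : IsClosed (CA R) := by
  have e : CA R = ⋂ i, ⋂ j, ⋂ (_ : R i j), {x : Eu (Fin n) | x i ≤ x j} := by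
    ext x
    simp [CA]
  rw [e]
  exact isClosed_iInter fun i => isClosed_iInter fun j => isClosed_iInter fun _ =>
    isClosed_le (by fun_prop) (by fun_prop)

lemma KA_closed {V : ℝ → ℝ} (hV : Continuous V) (E : ℝ) (R : Fin n → Fin n → Prop) : IsClosed (KA V E R) :=
  (isClosed_le (APS.S1_cont hV) continuous_const).inter (CA_closed R)

end ASA

open MeasureTheory Set Filter Topology in
open Pool.Agent.W695.KH (Eu) in
open Pool.Agent.R476.OR (CV SV KV ind) in
open Pool.Agent.R476.OR.G (cont_of_convex level_null) in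
open APS ASA in
theorem t_ASA (h : S_LIS) : S_ASA := by
  intro κ δ hκ H n R V hn hV E hb hx hvol
  obtain ⟨x0, hx0⟩ := hx
  have hVc : Continuous V := cont_of_convex hV
  obtain ⟨r, hr⟩ := hb.subset_closedBall 0
  let ε : ℕ → ℝ := fun j => 1 / ((j : ℝ) + 1)
  have hε0 : ∀ j, 0 < ε j := fun j => by
    simp only [ε]
    positivity
  have hεt : Tendsto ε atTop (𝓝 0) := tendsto_one_div_add_atTop_nhds_zero_nat
  let W : ℕ → ℝ → ℝ := fun j => sy V (ε j)
  have hWc : ∀ j, Continuous (W j) := fun j =>
    continuous_iff_continuousAt.2 fun t => ((sy_cv hV (hε0 j)).der t).continuousAt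
  have hge : ∀ j (x : Eu (Fin n)), S1 V x ≤ S1 (W j) x := fun j x =>
    Finset.sum_le_sum fun i _ => sy_ge hV (ε j) (x i)
  have hsub : ∀ j, K1 n (W j) E ⊆ K1 n V E := fun j x hx => (hge j x).trans hx
  have hKr : KA V E R ⊆ Metric.closedBall 0 r := fun x hx => hr hx.1
  have hWr : ∀ j, KA (W j) E R ⊆ Metric.closedBall 0 r := fun j x hx => hr (hsub j hx.1)
  have hlim : ∀ x : Eu (Fin n), Tendsto (fun j => S1 (W j) x) atTop (𝓝 (S1 V x)) := by
    intro x
    unfold S1
    apply tendsto_finsetSum
    intro i _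
    have h1 := ((sy_cont hVc (x i)).tendsto 0).comp hεt
    rw [sy_zero] at h1
    exact h1
  have hKc := KA_closed hVc E R
  have hWK : ∀ j, IsClosed (KA (W j) E R) := fun j => KA_closed (hWc j) E R
  have hfin : volume (KA V E R) ≠ ⊤ := (lt_of_le_of_lt (measure_mono hKr) measure_closedBall_lt_top).ne
  have hpos : 0 < ∫ x, ind (KA V E R) x := by
    rw [ind_mass hKc]
    exact ENNReal.toReal_pos hvol.ne' hfin
  have hzero : Tendsto (fun j => ∫ x, (1 + ‖x‖ ^ 2) * |ind (KA (W j) E R) x - ind (KA V E R) x|) atTop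
      (𝓝 0) := by
    have key := tendsto_integral_of_dominated_convergence
      (μ := (volume : Measure (Eu (Fin n))))
      (F := fun j x => (1 + ‖x‖ ^ 2) * |ind (KA (W j) E R) x - ind (KA V E R) x|)
      (f := fun _ => (0 : ℝ))
      (bound := (Metric.closedBall (0 : Eu (Fin n)) r).indicator (fun x => 1 + ‖x‖ ^ 2))
      ?_ ?_ ?_ ?_
    · simpa using key
    · intro j
      have m1 : Measurable (ind (KA (W j) E R)) := measurable_const.indicator (hWK j).measurableSet
      have m2 : Measurable (ind (KA V E R)) := measurable_const.indicator hKc.measurableSet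
      have m3 : Measurable (fun x : Eu (Fin n) => 1 + ‖x‖ ^ 2) := by fun_prop
      exact (m3.mul (m1.sub m2).abs).aestronglyMeasurable
    · rw [integrable_indicator_iff measurableSet_closedBall]
      apply ContinuousOn.integrableOn_compact (isCompact_closedBall _ _)
      fun_prop
    · intro j
      refine Eventually.of_forall fun x => ?_
      have hp : 0 ≤ 1 + ‖x‖ ^ 2 := by positivity
      rw [Real.norm_eq_abs, abs_of_nonneg (mul_nonneg hp (abs_nonneg _))]
      by_cases hxb : x ∈ Metric.closedBall (0 : Eu (Fin n)) r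
      · rw [indicator_of_mem hxb]
        have h1 : |ind (KA (W j) E R) x - ind (KA V E R) x| ≤ 1 := by
          unfold ind
          by_cases h1 : x ∈ KA (W j) E R <;> by_cases h2 : x ∈ KA V E R <;> simp [h1, h2]
        calc (1 + ‖x‖ ^ 2) * |ind (KA (W j) E R) x - ind (KA V E R) x| ≤ (1 + ‖x‖ ^ 2) * 1 :=
              mul_le_mul_of_nonneg_left h1 hp
          _ = 1 + ‖x‖ ^ 2 := mul_one _
      · have h1 : x ∉ KA (W j) E R := fun hh => hxb (hWr j hh)
        have h2 : x ∉ KA V E R := fun hh => hxb (hKr hh)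
        simp [ind, h1, h2, hxb]
    · have hnull := level_null (n := n) (V := fun _ => V) (fun _ => hV) (E := E) (x0 := x0) hx0
      have hae : ∀ᵐ x : Eu (Fin n), S1 V x ≠ E := by
        rw [ae_iff]
        have e : {x : Eu (Fin n) | ¬ S1 V x ≠ E} = {x : Eu (Fin n) | SV (fun _ => V) x = E} := by
          ext x
          simp only [mem_setOf_eq, not_not]
          exact Iff.rfl
        rw [e]
        exact hnull
      filter_upwards [hae] with x hxE
      rcases lt_or_gt_of_ne hxE with hlt | hgt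
      · have hev : ∀ᶠ j in atTop, S1 (W j) x < E := (hlim x).eventually_lt_const hlt
        refine tendsto_const_nhds.congr' ?_
        filter_upwards [hev] with j hj
        by_cases hc : x ∈ CA R
        · have h1 : x ∈ KA (W j) E R := ⟨le_of_lt hj, hc⟩
          have h2 : x ∈ KA V E R := ⟨le_of_lt hlt, hc⟩
          simp [ind, h1, h2]
        · have h1 : x ∉ KA (W j) E R := fun hh => hc hh.2
          have h2 : x ∉ KA V E R := fun hh => hc hh.2
          simp [ind, h1, h2]
      · refine tendsto_const_nhds.congr fun j => ?_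
        have h2 : x ∉ KA V E R := fun hh => absurd (show S1 V x ≤ E from hh.1) (not_le.2 hgt)
        have h1 : x ∉ KA (W j) E R := fun hh => h2 ⟨hsub j hh.1, hh.2⟩
        simp [ind, h1, h2]
  refine h n κ δ (ind (KA V E R)) (fun j => ind (KA (W j) E R)) hκ (ind_int hKc hKr) hpos
    (fun j => ind_int (hWK j) (hWr j)) hzero ?_
  have hev1 : ∀ᶠ j in atTop, S1 (W j) x0 < E := (hlim x0).eventually_lt_const hx0
  have hev2 := hzero.eventually_lt_const hpos
  filter_upwards [hev1, hev2] with j hj1 hj2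
  refine H n R (W j) _ hn (sy_cv hV (hε0 j)) E
    (Metric.isBounded_closedBall.subset ((hsub j).trans hr)) ⟨x0, hj1⟩ ?_
  rw [pos_iff_ne_zero]
  intro h0
  have e0 : ∫ x, ind (KA (W j) E R) x = 0 := by
    rw [ind_mass (hWK j), h0, ENNReal.toReal_zero]
  have i1 := ind_int1 (hWK j) (hWr j)
  have i2 := ind_int1 hKc hKr
  have h3 : ∫ x, ind (KA V E R) x = ∫ x, (ind (KA V E R) x - ind (KA (W j) E R) x) := by
    rw [integral_sub i2 i1, e0, sub_zero]
  have h4 : ∫ x, (ind (KA V E R) x - ind (KA (W j) E R) x) ≤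
      ∫ x, (1 + ‖x‖ ^ 2) * |ind (KA (W j) E R) x - ind (KA V E R) x| := by
    refine integral_mono (i2.sub i1) ?_ fun x => ?_
    · have h5 : (fun x : Eu (Fin n) => (1 + ‖x‖ ^ 2) * |ind (KA (W j) E R) x - ind (KA V E R) x|) =
          fun x => |(1 + ‖x‖ ^ 2) * ind (KA (W j) E R) x - (1 + ‖x‖ ^ 2) * ind (KA V E R) x| := by
        funext x
        have hp : 0 ≤ 1 + ‖x‖ ^ 2 := by positivity
        rw [← mul_sub, abs_mul, abs_of_nonneg hp]
      rw [h5]
      exact ((ind_int (hWK j) (hWr j)).sub (ind_int hKc hKr)).abs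
    · have hp : 1 ≤ 1 + ‖x‖ ^ 2 := by
        have : 0 ≤ ‖x‖ ^ 2 := by positivity
        linarith
      change ind (KA V E R) x - ind (KA (W j) E R) x ≤ (1 + ‖x‖ ^ 2) * |ind (KA (W j) E R) x - ind (KA V E R) x|
      rw [abs_sub_comm]
      exact (le_abs_self _).trans (le_mul_of_one_le_left (abs_nonneg _) hp)
  linarith

end Pool.Agent.T2h31.OB
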