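import Pool.Agent.T2h31.OB.StmA

/-! Project OB, part A, task SYA: symmetric functions on the cone. -/

set_option autoImplicit false

namespace Pool.Agent.T2h31.OB

open MeasureTheory Set Filter Topology
open scoped ENNReal InnerProductSpace Pointwise
open Pool.Agent.W695.KH (Eu)
open Pool.Agent.R972.OP (OPp)

namespace SYA

variable {n : ℕ}

/-- the cone in the product space -/
def CP (R : Fin n → Fin n → Prop) : Set (Fin n → ℝ) := {y | ∀ i j, R i j → y i ≤ y j}

/-- a box -/
def Bx (n : ℕ) (k : ℝ) : Set (Fin n → ℝ) := {y | ∀ i, -k ≤ y i ∧ y i ≤ k}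

theorem closed_CP (R : Fin n → Fin n → Prop) : IsClosed (CP R) := by
  have : CP R = ⋂ p, ⋂ q, ⋂ (_ : R p q), {y : Fin n → ℝ | y p ≤ y q} := by
    ext y
    simp [CP]
  rw [this]
  exact isClosed_iInter fun p => isClosed_iInter fun q => isClosed_iInter fun _ =>
    isClosed_le (continuous_apply p) (continuous_apply q)

theorem closed_Bx (k : ℝ) : IsClosed (Bx n k) := by
  have : Bx n k = ⋂ i, {x : Fin n → ℝ | -k ≤ x i ∧ x i ≤ k} := by
    ext x; simp [Bx]
  rw [this]
  exact isClosed_iInter fun i => (isClosed_le continuous_const (continuous_apply i)).inter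
    (isClosed_le (continuous_apply i) continuous_const)

theorem int_CA (R : Fin n → Fin n → Prop) (F : Eu (Fin n) → ℝ) :
    ∫ x in CA R, F x = ∫ y in CP R, F (WithLp.toLp 2 y) := by
  have h := (PiLp.volume_preserving_toLp (Fin n)).setIntegral_preimage_emb
    (MeasurableEquiv.toLp 2 (Fin n → ℝ)).measurableEmbedding F (CA R)
  exact h.symm

theorem int_all (F : Eu (Fin n) → ℝ) :
    ∫ x, F x = ∫ y : Fin n → ℝ, F (WithLp.toLp 2 y) := by
  exact ((PiLp.volume_preserving_toLp (Fin n)).integral_comp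
    (MeasurableEquiv.toLp 2 (Fin n → ℝ)).measurableEmbedding F).symm

theorem mem_smul_OP (R : Fin n → Fin n → Prop) {k : ℝ} (hk : 0 < k) (y : Fin n → ℝ) :
    y ∈ (2 * k) • OPp R ↔ (y - fun _ => k) ∈ CP R ∩ Bx n k := by
  have hk2 : 0 < 2 * k := by positivity
  rw [mem_smul_set_iff_inv_smul_mem₀ hk2.ne']
  have hki : 0 < (2 * k)⁻¹ := inv_pos.2 hk2
  have h1 : ∀ i : Fin n, ((2 * k)⁻¹ • y) i = (2 * k)⁻¹ * y i := fun i => rfl
  have h3 : ∀ i : Fin n, (y - (fun _ => k) : Fin n → ℝ) i = y i - k := fun i => rfl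
  have h2 : ∀ i, (0 ≤ ((2 * k)⁻¹ • y) i ∧ ((2 * k)⁻¹ • y) i ≤ 1) ↔
      (-k ≤ (y - (fun _ => k) : Fin n → ℝ) i ∧ (y - (fun _ => k) : Fin n → ℝ) i ≤ k) := by
    intro i
    rw [h1, h3, inv_mul_le_iff₀ hk2]
    constructor
    · rintro ⟨h, h'⟩
      have h4 : 0 ≤ y i := by
        have := mul_nonneg hk2.le h
        rwa [mul_inv_cancel_left₀ hk2.ne'] at this
      constructor <;> linarith
    · rintro ⟨h, h'⟩
      exact ⟨mul_nonneg hki.le (by linarith), by linarith⟩
  constructor
  · rintro ⟨ha, hb⟩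
    refine ⟨fun p q hpq => ?_, fun i => (h2 i).1 (ha i)⟩
    have := hb p q hpq
    rw [h1, h1] at this
    rw [h3, h3]
    linarith [le_of_mul_le_mul_left this hki]
  · rintro ⟨ha, hb⟩
    refine ⟨fun i => (h2 i).2 (hb i), fun p q hpq => ?_⟩
    have := ha p q hpq
    rw [h3, h3] at this
    rw [h1, h1]
    exact mul_le_mul_of_nonneg_left (by linarith) hki.le

theorem closed_OP (R : Fin n → Fin n → Prop) : IsClosed (OPp R) := by
  have : OPp R = {x : Fin n → ℝ | ∀ i, 0 ≤ x i ∧ x i ≤ 1} ∩ CP R := rfl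
  rw [this]
  refine IsClosed.inter ?_ (closed_CP R)
  have h2 : {x : Fin n → ℝ | ∀ i, 0 ≤ x i ∧ x i ≤ 1} = ⋂ i, {x : Fin n → ℝ | 0 ≤ x i ∧ x i ≤ 1} := by
    ext x; simp
  rw [h2]
  exact isClosed_iInter fun i => (isClosed_le continuous_const (continuous_apply i)).inter
    (isClosed_le (continuous_apply i) continuous_const)

theorem shift (R : Fin n → Fin n → Prop) (g : (Fin n → ℝ) → ℝ) {k : ℝ} (hk : 0 < k) :
    ∫ y in (2 * k) • OPp R, g (y - fun _ => k) = ∫ y in CP R ∩ Bx n k, g y := by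
  have hm1 : MeasurableSet ((2 * k) • OPp R) :=
    ((closed_OP R).measurableSet).const_smul₀ (2 * k)
  have hm2 : MeasurableSet (CP R ∩ Bx n k) := ((closed_CP R).inter (closed_Bx k)).measurableSet
  rw [← integral_indicator hm1, ← integral_indicator hm2,
    ← integral_sub_right_eq_self ((CP R ∩ Bx n k).indicator g) (fun _ => k)]
  refine integral_congr_ae (Eventually.of_forall fun y => ?_)
  by_cases hy : y ∈ (2 * k) • OPp R
  · have hy' := (mem_smul_OP R hk y).1 hy
    simp only [indicator_of_mem hy, indicator_of_mem hy']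
  · have hy' : (y - fun _ => k) ∉ CP R ∩ Bx n k := fun h => hy ((mem_smul_OP R hk y).2 h)
    simp only [indicator_of_notMem hy, indicator_of_notMem hy']

theorem box (h : Pool.Agent.R972.OP.S_SYM) (R : Fin n → Fin n → Prop) {g : (Fin n → ℝ) → ℝ}
    (hg : Continuous g)
    (h1 : ∀ (p : Equiv.Perm (Fin n)) (x : Fin n → ℝ), g (fun i => x (p i)) = g x)
    {k : ℝ} (hk : 0 < k) :
    ∫ y in CP R ∩ Bx n k, g y = (volume (OPp R)).toReal *
      ((2 * k) ^ n * ∫ y in OPp (fun _ _ : Fin n => False), g ((2 * k) • y - fun _ => k)) := by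
  have hk2 : 0 < 2 * k := by positivity
  have e1 := h n R (fun y => g ((2 * k) • y - fun _ => k))
    (hg.comp ((continuous_const_smul (2 * k)).sub continuous_const))
    (fun p x => h1 p ((2 * k) • x - fun _ => k))
  have e2 : ∫ y in OPp R, g ((2 * k) • y - fun _ => k) =
      ((2 * k) ^ n)⁻¹ * ∫ y in CP R ∩ Bx n k, g y := by
    have e3 := Measure.setIntegral_comp_smul_of_pos volume (fun y => g (y - fun _ => k)) (OPp R) hk2
    rw [e3, Module.finrank_fin_fun, shift R g hk, smul_eq_mul]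
  rw [e2] at e1
  have hkn : ((2 * k) ^ n) ≠ 0 := pow_ne_zero _ hk2.ne'
  rw [inv_mul_eq_iff_eq_mul₀ hkn] at e1
  rw [e1]
  ring

theorem vol0 : 0 < (volume (OPp (fun _ _ : Fin n => False))).toReal := by
  have h : OPp (fun _ _ : Fin n => False) = Icc (fun _ : Fin n => (0 : ℝ)) (fun _ => 1) := by
    ext x
    simp [OPp, mem_Icc, Pi.le_def, forall_and]
  rw [h, Real.volume_Icc_pi]
  norm_num

theorem union (R : Fin n → Fin n → Prop) :
    (⋃ k : ℕ, CP R ∩ Bx n ((k : ℝ) + 1)) = CP R := by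
  ext y
  simp only [mem_iUnion, mem_inter_iff, exists_and_left, and_iff_left_iff_imp]
  intro _
  obtain ⟨k, hk⟩ := exists_nat_ge ‖y‖
  refine ⟨k, fun i => ?_⟩
  have h1 := norm_le_pi_norm y i
  rw [Real.norm_eq_abs] at h1
  exact abs_le.1 (by linarith)

theorem mono (R : Fin n → Fin n → Prop) : Monotone fun k : ℕ => CP R ∩ Bx n ((k : ℝ) + 1) := by
  intro a b hab y hy
  have : (a : ℝ) ≤ b := Nat.cast_le.2 hab
  exact ⟨hy.1, fun i => ⟨by linarith [(hy.2 i).1], by linarith [(hy.2 i).2]⟩⟩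

theorem lim (R : Fin n → Fin n → Prop) {g : (Fin n → ℝ) → ℝ} (hi : Integrable g) :
    Tendsto (fun k : ℕ => ∫ y in CP R ∩ Bx n ((k : ℝ) + 1), g y) atTop
      (𝓝 (∫ y in CP R, g y)) := by
  have h := tendsto_setIntegral_of_monotone (μ := volume) (f := g)
    (s := fun k : ℕ => CP R ∩ Bx n ((k : ℝ) + 1))
    (fun k => ((closed_CP R).inter (closed_Bx _)).measurableSet) (mono R) hi.integrableOn
  rwa [union] at h

theorem CP0 : CP (fun _ _ : Fin n => False) = univ := by
  ext y
  simp [CP]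

theorem main1 (h : Pool.Agent.R972.OP.S_SYM) (R : Fin n → Fin n → Prop) {g : (Fin n → ℝ) → ℝ}
    (hg : Continuous g) (hi : Integrable g)
    (h1 : ∀ (p : Equiv.Perm (Fin n)) (x : Fin n → ℝ), g (fun i => x (p i)) = g x) :
    ∫ y in CP R, g y = (volume (OPp R)).toReal /
      (volume (OPp (fun _ _ : Fin n => False))).toReal * ∫ y, g y := by
  have l1 := lim R hi
  have l2 := lim (fun _ _ : Fin n => False) hi
  rw [CP0, setIntegral_univ] at l2
  have l3 := l2.const_mul
    ((volume (OPp R)).toReal / (volume (OPp (fun _ _ : Fin n => False))).toReal)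
  refine tendsto_nhds_unique (l1.congr fun k => ?_) l3
  have hk : (0 : ℝ) < (k : ℝ) + 1 := by positivity
  have e1 := box h R hg h1 hk
  have e2 := box h (fun _ _ : Fin n => False) hg h1 hk
  rw [CP0] at e2
  rw [e1, e2]
  have := (vol0 (n := n)).ne'
  field_simp

end SYA

open SYA in
/-- symmetric functions on the cone -/
theorem t_SYA (h : Pool.Agent.R972.OP.S_SYM) : S_SYA := by
  intro n R
  refine ⟨(volume (OPp R)).toReal / (volume (OPp (fun _ _ : Fin n => False))).toReal, by positivity,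
    ?_⟩
  have main : ∀ G : Eu (Fin n) → ℝ, Continuous G → Integrable G →
    (∀ (σ : Equiv.Perm (Fin n)) (x : Eu (Fin n)), G (WithLp.toLp 2 fun i => x (σ i)) = G x) →
    ∫ x in CA R, G x = (volume (OPp R)).toReal / (volume (OPp (fun _ _ : Fin n => False))).toReal *
      ∫ x, G x := by
    intro G hG hi h1
    rw [int_CA, int_all]
    refine main1 h R (g := fun y => G (WithLp.toLp 2 y)) ?_ ?_ (fun p x => h1 p (WithLp.toLp 2 x))
    · exact hG.comp (PiLp.continuous_toLp 2 _)
    · exact (PiLp.volume_preserving_toLp (Fin n)).integrable_comp_of_integrable hi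
  refine ⟨main, ?_⟩
  intro V hV hfin E
  set p := (volume (OPp R)).toReal / (volume (OPp (fun _ _ : Fin n => False))).toReal with hp
  have hS : Continuous fun x : Eu (Fin n) => S1 V x := by
    unfold S1
    fun_prop
  have hmK : ∀ s, MeasurableSet (K1 n V s) := fun s =>
    (isClosed_le hS continuous_const).measurableSet
  -- approximations
  set φ : ℕ → Eu (Fin n) → ℝ := fun j x => min 1 (max 0 (1 - j * (S1 V x - E))) with hφ
  have hφc : ∀ j, Continuous (φ j) := fun j => by
    rw [hφ]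
    fun_prop
  have hφ0 : ∀ j x, 0 ≤ φ j x := fun j x => le_min zero_le_one (le_max_left _ _)
  have hφ1 : ∀ j x, φ j x ≤ 1 := fun j x => min_le_left _ _
  have hφb : ∀ j, 1 ≤ j → ∀ x, φ j x ≤ (K1 n V (E + 1)).indicator (fun _ => (1 : ℝ)) x := by
    intro j hj x
    by_cases hx : x ∈ K1 n V (E + 1)
    · rw [indicator_of_mem hx]
      exact hφ1 j x
    · rw [indicator_of_notMem hx]
      have hx' : E + 1 < S1 V x := not_le.1 hx
      have hj' : (1 : ℝ) ≤ j := by exact_mod_cast hj
      refine (min_le_right _ _).trans (max_le le_rfl ?_)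
      nlinarith
  have hint1 : Integrable ((K1 n V (E + 1)).indicator fun _ => (1 : ℝ)) :=
    (integrable_indicator_iff (hmK _)).2 (integrableOn_const (hfin _))
  have hφi : ∀ j, Integrable (φ (j + 1)) := fun j => by
    refine hint1.mono' (hφc _).aestronglyMeasurable (Eventually.of_forall fun x => ?_)
    rw [Real.norm_eq_abs, abs_of_nonneg (hφ0 _ x)]
    exact hφb (j + 1) (by omega) x
  have hlim : ∀ x, Tendsto (fun j : ℕ => φ (j + 1) x) atTop
      (𝓝 ((K1 n V E).indicator (fun _ => (1 : ℝ)) x)) := by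
    intro x
    by_cases hx : x ∈ K1 n V E
    · rw [indicator_of_mem hx]
      have hx' : S1 V x ≤ E := hx
      refine tendsto_const_nhds.congr fun j => ?_
      show (1 : ℝ) = min 1 (max 0 (1 - ((j + 1 : ℕ) : ℝ) * (S1 V x - E)))
      have h1 : (1 : ℝ) ≤ 1 - ((j + 1 : ℕ) : ℝ) * (S1 V x - E) := by
        have : (0 : ℝ) ≤ ((j + 1 : ℕ) : ℝ) := by positivity
        nlinarith
      rw [max_eq_right (by linarith), min_eq_left h1]
    · rw [indicator_of_notMem hx]
      have hx' : E < S1 V x := not_le.1 hx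
      obtain ⟨N, hN⟩ := exists_nat_gt (1 / (S1 V x - E))
      refine tendsto_const_nhds.congr' ?_
      filter_upwards [eventually_ge_atTop N] with j hj
      show (0 : ℝ) = min 1 (max 0 (1 - ((j + 1 : ℕ) : ℝ) * (S1 V x - E)))
      have h2 : (N : ℝ) ≤ ((j + 1 : ℕ) : ℝ) := by exact_mod_cast (by omega : N ≤ j + 1)
      have h3 : 1 < ((j + 1 : ℕ) : ℝ) * (S1 V x - E) := by
        have h4 : 0 < S1 V x - E := by linarith
        have h5 : 1 / (S1 V x - E) < ((j + 1 : ℕ) : ℝ) := lt_of_lt_of_le hN h2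
        rwa [div_lt_iff₀ h4] at h5
      rw [max_eq_left (by linarith), min_eq_right (by norm_num)]
  have hsym1 : ∀ (σ : Equiv.Perm (Fin n)) (x : Eu (Fin n)),
      S1 V (WithLp.toLp 2 fun i => x (σ i)) = S1 V x := by
    intro σ x
    unfold S1
    exact Equiv.sum_comp σ fun i => V (x i)
  have hval : ∀ (μ : Measure (Eu (Fin n))), μ ≤ volume →
      Tendsto (fun j : ℕ => ∫ x, φ (j + 1) x ∂μ) atTop
        (𝓝 (∫ x, (K1 n V E).indicator (fun _ => (1 : ℝ)) x ∂μ)) := by
    intro μ hμ
    refine tendsto_integral_of_dominated_convergence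
      ((K1 n V (E + 1)).indicator fun _ => (1 : ℝ)) (fun j => (hφc _).aestronglyMeasurable)
      (hint1.mono_measure hμ) (fun j => Eventually.of_forall fun x => ?_)
      (Eventually.of_forall hlim)
    rw [Real.norm_eq_abs, abs_of_nonneg (hφ0 _ x)]
    exact hφb (j + 1) (by omega) x
  have l1 := hval (volume.restrict (CA R)) Measure.restrict_le_self
  have l2 := (hval volume le_rfl).const_mul p
  have heq : ∀ j : ℕ, ∫ x in CA R, φ (j + 1) x = p * ∫ x, φ (j + 1) x := by
    intro j
    refine main _ (hφc _) (hφi j) (fun σ x => ?_)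
    show min 1 (max 0 (1 - ((j + 1 : ℕ) : ℝ) * (S1 V _ - E))) = _
    rw [hsym1]
  have hfinal := tendsto_nhds_unique (l1.congr heq) l2
  rw [integral_indicator (hmK E), integral_indicator (hmK E), Measure.restrict_restrict (hmK E)]
    at hfinal
  simpa [KA, Measure.real] using hfinal

end Pool.Agent.T2h31.OB
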